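import Mathlib
import Pool.Agent.Q219.NW.Direct

/-!
# Relations between the roots of Weil polynomials and one more number

If a product of `n` roots, no two of them with product `q`, times a number `ρ` of weight `w` whose
slopes are at least `b / k` is a power of `q`, then `n` is at most `(w - 2 b / k) / δ`.
-/

set_option autoImplicit false
set_option linter.unusedSectionVars false

namespace Pool.Agent.Q219.UZ

open Polynomial Pool.Agent.H925R2 Pool.Agent.H485R3 Pool.Agent.W484.BB Pool.Agent.W521.Frob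
  Pool.Agent.W521.Criterion Pool.Agent.W484.AA Pool.Agent.Q219.NW

/-- **Relations between roots and a number divisible by a power of `q`.** -/
theorem bounded_relation {I : Type} [Finite I] {q : ℕ} {h : I → ℤ[X]} (p : ℕ) [Fact p.Prime]
    (a : ℕ) (ha : 0 < a) (hqp : q = p ^ a)
    (hm : ∀ i, (h i).Monic) (hirr : ∀ i, Irreducible ((h i).map (Int.castRingHom ℚ)))
    (hpat : ∀ i, ∃ l : ℕ, l.Prime ∧ l ≠ 2 ∧ ¬ l ∣ q ∧ FlipPattern q h i l)
    (g : I → ℕ) (r : I → ℝ) (hg : ∀ i, 0 < g i)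
    (hdeg : ∀ i, (weil q (h i)).natDegree = 2 * g i) (hr : ∀ i, HasDev p a (r i) (weil q (h i)))
    (δ : ℝ) (hδ : ∀ i, δ * g i ≤ r i)
    (s : ℕ) (hs : 0 < s) (ρ ρ' : ℂ) (hρ' : IsIntegral ℤ ρ') (k b : ℕ) (hk : 0 < k)
    (hρk : ρ ^ k = ((q : ℂ) ^ s) ^ b * ρ')
    (n c M : ℕ) (hM : 0 < M) (z : Fin n → ℂ)
    (hz : ∀ l, ∃ i, aeval (z l) (weil q (h i)) = 0)
    (hrel : ((∏ l, z l) ^ s * ρ) ^ M = (((q : ℂ) ^ s) ^ c) ^ M)
    (hno : ∀ l l', l ≠ l' → z l * z l' ≠ q) : (n : ℝ) * δ ≤ 2 * c - n - 2 * b / k := by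
  classical
  have hp0 : 0 < p := (Fact.out : p.Prime).pos
  have hq : q ≠ 0 := by rw [hqp]; exact pow_ne_zero _ hp0.ne'
  obtain ⟨L, _, _, _, j, hL⟩ := exists_field q h hm
  have hfl : ∀ i, ∀ α : L, aeval α (weil q (h i)) = 0 → Flippable q h α := by
    intro i α hα
    obtain ⟨l, hl, hl2, hlq, hp⟩ := hpat i
    exact all_flippable hq hm L j hL i (hirr i) hl hl2 hlq hp α hα
  have hdown : ∀ (i : I) (x : L), aeval (j x) (weil q (h i)) = 0 → aeval x (weil q (h i)) = 0 := by
    intro i x hx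
    apply j.injective
    have h2 := Polynomial.hom_eval₂ (weil q (h i)) (algebraMap ℤ L) j x
    rw [RingHom.ext_int (j.comp (algebraMap ℤ L)) (algebraMap ℤ ℂ)] at h2
    rw [map_zero]
    exact h2.trans hx
  choose i hi using hz
  choose x hx using fun l => hL (i l) (z l) (hi l)
  have hxr : ∀ l, aeval (x l) (weil q (h (i l))) = 0 := fun l => hdown _ _ (by rw [hx]; exact hi l)
  have hx0 : ∀ l, x l ≠ 0 := fun l => root_ne_zero hq (hm (i l)) (hxr l)
  have hqL : (q : L) ≠ 0 := by exact_mod_cast hq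
  have hqC : (q : ℂ) ≠ 0 := by exact_mod_cast hq
  have hqR : (0 : ℝ) < q := by exact_mod_cast Nat.pos_of_ne_zero hq
  let e : L →ₐ[ℚ] PadicAlgCl p := IsAlgClosed.lift
  have hnoL : ∀ l l', x l' ≠ q / x l := by
    intro l l' hkl
    by_cases hk : l = l'
    · subst hk
      obtain ⟨-, h2⟩ := ne_conj hq hm hirr hpat (z l) ⟨i l, hi l⟩
      apply h2
      have h3 := congrArg j hkl
      rw [map_div₀, map_natCast, hx] at h3
      exact h3.symm
    · apply hno l l' hk
      have h3 := congrArg j hkl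
      rw [map_div₀, map_natCast, hx, hx] at h3
      have hz0 : z l ≠ 0 := by
        rw [← hx l, Ne, map_eq_zero]
        exact hx0 l
      rw [h3]
      field_simp
  -- the conjugate roots
  have hyr : ∀ l, aeval ((q : L) / x l) (weil q (h (i l))) = 0 := fun l =>
    root_conj hq (hm (i l)) (hxr l)
  have hnoY : ∀ l l', (q : L) / x l' ≠ q / (q / x l) := by
    intro l l' h3
    rw [div_div_cancel₀ hqL] at h3
    exact hnoL l' l h3.symm
  -- the power of `ρ` as an element of `L`, divided by the power of `q`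
  have hxp : (∏ l, x l) ≠ 0 := Finset.prod_ne_zero_iff.2 fun l _ => hx0 l
  set S : L := (q : L) ^ (s * c * (M * k)) / ((∏ l, x l) ^ (s * (M * k)) * (q : L) ^ (s * b * M))
    with hS
  have hjS : j S = ρ' ^ M := by
    have hzp : (∏ l, z l) ≠ 0 := Finset.prod_ne_zero_iff.2 fun l _ => by
      rw [← hx l, Ne, map_eq_zero]
      exact hx0 l
    rw [hS, map_div₀, map_mul, map_pow, map_pow, map_pow, map_prod, map_natCast, div_eq_iff (by
      rw [Finset.prod_congr rfl fun l _ => hx l]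
      exact mul_ne_zero (pow_ne_zero _ hzp) (pow_ne_zero _ hqC)),
      Finset.prod_congr rfl fun l _ => hx l]
    have h3 : (((∏ l, z l) ^ s * ρ) ^ M) ^ k =
        (∏ l, z l) ^ (s * (M * k)) * ((q : ℂ) ^ (s * b * M) * ρ' ^ M) := by
      rw [← pow_mul, mul_pow, ← pow_mul, mul_comm M k, pow_mul ρ k M, hρk, mul_pow, ← pow_mul,
        ← pow_mul, mul_assoc s b M]
    rw [hrel, ← pow_mul, ← pow_mul, ← pow_mul] at h3
    have h4 : s * c * (M * k) = s * (c * (M * k)) := by ring
    rw [h4, h3]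
    ring
  have hS0 : S ≠ 0 := div_ne_zero (pow_ne_zero _ hqL)
    (mul_ne_zero (pow_ne_zero _ hxp) (pow_ne_zero _ hqL))
  have hSint : IsIntegral ℤ S := isIntegral_of_map j S (by rw [hjS]; exact hρ'.pow M)
  have hMk : (0 : ℝ) < (s : ℝ) * (M * k) := by positivity
  have hlogq : Real.log ‖(((p : ℚ) ^ a : ℚ) : PadicAlgCl p)‖ = - Real.log ((p : ℝ) ^ a) := by
    rw [norm_pow_cast, Real.log_inv]
  have hB : ∀ σ : L ≃ₐ[ℚ] L, ∑ l, dv p a e (σ ((q : L) / x l)) ≤
      (2 * c - n - 2 * b / k) * Real.log ((p : ℝ) ^ a) := by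
    intro σ
    have h1 : Real.log ‖e (σ S)‖ ≤ 0 := by
      have h2 := norm_le_one_of_isIntegral p (e (σ S))
        ((hSint.map (σ.toAlgHom.restrictScalars ℤ)).map (e.restrictScalars ℤ))
      exact Real.log_nonpos (norm_nonneg _) h2
    have h2 : Real.log ‖e (σ S)‖ = (s * c * (M * k) : ℝ) * (- Real.log ((p : ℝ) ^ a)) -
        ((s * (M * k) : ℝ) * ∑ l, Real.log ‖e (σ (x l))‖ +
          (s * b * M : ℝ) * (- Real.log ((p : ℝ) ^ a))) := by
      have h3 : e (σ S) = (((p : ℚ) ^ a : ℚ) : PadicAlgCl p) ^ (s * c * (M * k)) /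
          ((∏ l, e (σ (x l))) ^ (s * (M * k)) *
            (((p : ℚ) ^ a : ℚ) : PadicAlgCl p) ^ (s * b * M)) := by
        rw [hS, map_div₀, map_div₀, map_mul, map_mul, map_pow, map_pow, map_pow, map_pow, map_pow,
          map_pow, map_prod, map_prod, map_natCast, map_natCast, hqp]
        push_cast
        rfl
      have hne : ∀ l, ‖e (σ (x l))‖ ≠ 0 := by
        intro l
        rw [norm_ne_zero_iff, Ne, map_eq_zero, map_eq_zero]
        exact hx0 l
      have hpne : ‖(((p : ℚ) ^ a : ℚ) : PadicAlgCl p)‖ ≠ 0 := by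
        rw [norm_pow_cast]
        have : (0 : ℝ) < p := by exact_mod_cast hp0
        positivity
      have hpr : ∏ l, ‖e (σ (x l))‖ ≠ 0 := Finset.prod_ne_zero_iff.2 fun l _ => hne l
      rw [h3, norm_div, norm_mul, norm_pow, norm_pow, norm_pow, norm_prod,
        Real.log_div (pow_ne_zero _ hpne) (mul_ne_zero (pow_ne_zero _ hpr) (pow_ne_zero _ hpne)),
        Real.log_mul (pow_ne_zero _ hpr) (pow_ne_zero _ hpne), Real.log_pow, Real.log_pow,
        Real.log_pow, Real.log_prod (fun l _ => hne l), hlogq]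
      push_cast
      ring
    have h3 : ∑ l, dv p a e (σ ((q : L) / x l)) = -(2 * ∑ l, Real.log ‖e (σ (x l))‖ +
        n * Real.log ((p : ℝ) ^ a)) := by
      have h4 : ∀ l, dv p a e (σ ((q : L) / x l)) =
          -(2 * Real.log ‖e (σ (x l))‖ + Real.log ((p : ℝ) ^ a)) := by
        intro l
        rw [map_div₀, map_natCast, dv_inv p a hqp e _ (by rw [Ne, map_eq_zero]; exact hx0 l)]
        unfold dv dev
        rw [hlogq]
        ring
      rw [Finset.sum_congr rfl fun l _ => h4 l, Finset.sum_neg_distrib, Finset.sum_add_distrib,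
        ← Finset.mul_sum, Finset.sum_const, Finset.card_univ, Fintype.card_fin, nsmul_eq_mul]
    rw [h2] at h1
    rw [h3]
    set Lg := Real.log ((p : ℝ) ^ a)
    set T := ∑ l, Real.log ‖e (σ (x l))‖
    have hk0 : (0 : ℝ) < k := by exact_mod_cast hk
    have h5 : (s * (M * k) : ℝ) * (-T - (c - b / k) * Lg) ≤ 0 := by
      have h6 : (s * (M * k) : ℝ) * (-T - (c - b / k) * Lg) =
          (s * c * (M * k) : ℝ) * (-Lg) - ((s * (M * k) : ℝ) * T + (s * b * M : ℝ) * (-Lg)) := by
        field_simp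
        ring
      rw [h6]
      exact h1
    have h7 : -T - (c - b / k) * Lg ≤ 0 := by
      by_contra hcon
      push Not at hcon
      exact absurd h5 (not_le.2 (mul_pos hMk hcon))
    have h8 : (2 * (c : ℝ) - n - 2 * b / k) * Lg = 2 * ((c - b / k) * Lg) - n * Lg := by ring
    rw [h8]
    linarith
  have key := free_sum hq hm j hL p a hqp e hirr hfl g r hg hdeg hr (fun l => (q : L) / x l) i
    hyr hnoY _ hB
  have hl : 0 < Real.log ((p : ℝ) ^ a) :=
    Real.log_pos (one_lt_pow₀ (by exact_mod_cast (Fact.out : p.Prime).one_lt) ha.ne')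
  have h6 : ∀ l, δ * Real.log ((p : ℝ) ^ a) ≤ (r (i l) : ℝ) / g (i l) * Real.log ((p : ℝ) ^ a) := by
    intro l
    have hg0 : (0 : ℝ) < g (i l) := by exact_mod_cast hg (i l)
    refine mul_le_mul_of_nonneg_right ?_ hl.le
    rw [le_div_iff₀ hg0]
    exact hδ (i l)
  have h8 : ∑ _l : Fin n, δ * Real.log ((p : ℝ) ^ a) ≤
      ∑ l, (r (i l) : ℝ) / g (i l) * Real.log ((p : ℝ) ^ a) :=
    Finset.sum_le_sum fun l _ => h6 l
  rw [Finset.sum_const, Finset.card_univ, Fintype.card_fin, nsmul_eq_mul, ← mul_assoc] at h8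
  exact le_of_mul_le_mul_right (h8.trans key) hl

end Pool.Agent.Q219.UZ
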