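import Mathlib

/-!
# Weil numbers and their levels: definitions
-/

set_option autoImplicit false

namespace Pool.Agent.Q219.UZ

open Polynomial

/-- `ρ` is a Weil number of weight `w` relative to `Q`: an algebraic integer all of whose conjugates
in the complex numbers have absolute value `Q ^ (w / 2)`. -/
def IsWeilNumber {K : Type*} [Field K] (Q w : ℕ) (ρ : K) : Prop :=
  ∃ χ : ℤ[X], χ.Monic ∧ aeval ρ χ = 0 ∧ ∀ z : ℂ, aeval z χ = 0 → ‖z‖ ^ 2 = (Q : ℝ) ^ w

/-- The number `ρ` of weight `w` has level at most `e`: some power `ρ ^ k` is divisible by `Q ^ b`,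
`b ≥ k (w - e) / 2`, in the ring of algebraic integers. In other words, the slopes of `ρ` lie between
`(w - e) / 2` and `(w + e) / 2`. -/
def HasLevel {K : Type*} [Field K] (Q w : ℕ) (e : ℝ) (ρ : K) : Prop :=
  ∃ (k b : ℕ) (ρ' : K), 0 < k ∧ IsIntegral ℤ ρ' ∧ ρ ^ k = (Q : K) ^ b * ρ' ∧
    ((w : ℝ) - e) * k ≤ 2 * b

end Pool.Agent.Q219.UZ
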