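import Mathlib
import Pool.Agent.Q219.UZ.Num
import Pool.Agent.Q219.UZ.Arith
import Pool.Agent.Q219.NW.Pair

/-!
# Bounded relations, over fields of characteristic zero
-/

set_option autoImplicit false
set_option linter.unusedSectionVars false

namespace Pool.Agent.Q219.UZ

open Polynomial Module Pool.Agent.H925R2 Pool.Agent.H485R3 Pool.Agent.W484.AA Pool.Agent.W484.BB
  Pool.Agent.W521.Frob Pool.Agent.W484.HS Pool.Agent.W484.TB Pool.Agent.Q219.ST Pool.Agent.Q219.NS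
  Pool.Agent.Q219.NW

/-- The relations between the roots of the `f i` and one more number `ρ` of weight `w`, whose `k`-th
power is divisible by the `b`-th power of `q ^ s`, contain at most `(w - 2 b / k) / δ` roots if there
are no two roots with product `q ^ s`. -/
structure BoundedAt {I : Type} (f : I → ℤ[X]) (q s : ℕ) (δ : ℝ) : Prop where
  monic : ∀ i, (f i).Monic
  bound : ∀ (ρ ρ' : ℂ) (w k b : ℕ), 0 < k → IsIntegral ℤ ρ' → ρ ^ k = ((q : ℂ) ^ s) ^ b * ρ' →
    ‖ρ‖ ^ 2 = ((q : ℝ) ^ s) ^ w → ∀ (c : ℤ) (M : ℕ), 0 < M →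
    ∀ ys : List {z : ℂ // ∃ i, aeval z (f i) = 0},
      ((ys.map fun z : {z : ℂ // ∃ i, aeval z (f i) = 0} => (z : ℂ) ^ s).prod * ρ) ^ M =
        (((q : ℂ) ^ s) ^ c) ^ M →
      ys.Pairwise (fun y y' : {z : ℂ // ∃ i, aeval z (f i) = 0} =>
        (y : ℂ) ^ s * (y' : ℂ) ^ s ≠ (q : ℂ) ^ s) →
      ((ys.length + w : ℕ) : ℤ) = 2 * c ∧ (ys.length : ℝ) * δ ≤ w - 2 * b / k

theorem boundedAt_good {I : Type} [Finite I] {q : ℕ} {U : Set ℕ} {h : I → ℤ[X]} (p : ℕ)
    [Fact p.Prime] (a : ℕ) (ha : 0 < a) (hqp : q = p ^ a) (hm : ∀ i, (h i).Monic)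
    (hx : Pool.Agent.Q219.NS.Good U q h)
    (habs : ∀ i (z : ℂ), aeval z (weil q (h i)) = 0 → ‖z‖ ^ 2 = (q : ℝ))
    (hg : ∀ i, 0 < (h i).natDegree)
    (R : I → ℝ) (hR : ∀ i, HasDev p a (R i) (weil q (h i))) (δ : ℝ)
    (hδ : ∀ i, δ * (h i).natDegree ≤ R i) (s : ℕ) (hs : 0 < s) :
    BoundedAt (fun i => weil q (h i)) q s δ where
  monic i := weil_monic q (hm i)
  bound := by
    classical
    obtain ⟨hpat, hirr, -⟩ := hx
    have hp : p.Prime := Fact.out
    have hq1 : 1 < q := by rw [hqp]; exact Nat.one_lt_pow ha.ne' hp.one_lt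
    have hQ1 : (1 : ℝ) < (q : ℝ) ^ s := one_lt_pow₀ (by exact_mod_cast hq1) hs.ne'
    intro ρ ρ' w k b hk hρ' hρk hρn c M hM ys hrel hpw
    have hprod : ‖(ys.map fun z : RT q h => (z : ℂ) ^ s).prod‖ ^ 2 = ((q : ℝ) ^ s) ^ ys.length := by
      clear hrel hpw
      induction ys with
      | nil => simp
      | cons y ys ih =>
        obtain ⟨i, hi⟩ := y.2
        have h1 : ‖(y : ℂ) ^ s‖ ^ 2 = (q : ℝ) ^ s := by
          rw [norm_pow, ← pow_mul, mul_comm s 2, pow_mul, habs i _ hi]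
        rw [List.map_cons, List.prod_cons, norm_mul, mul_pow, ih, List.length_cons, h1, pow_succ']
    have hnw : ((ys.length + w : ℕ) : ℤ) = 2 * c := by
      have h1 := congrArg (fun z : ℂ => ‖z‖ ^ 2) hrel
      simp only [norm_pow, norm_mul, norm_zpow, Complex.norm_natCast] at h1
      have h2 : (((q : ℝ) ^ s) ^ (((ys.length + w : ℕ) : ℤ))) ^ M =
          (((q : ℝ) ^ s) ^ (2 * c)) ^ M := by
        rw [zpow_natCast, pow_add, ← hprod, ← hρn, ← mul_pow, ← pow_mul, mul_comm 2 M,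
          pow_mul, h1, ← pow_mul, mul_comm M 2, pow_mul, mul_comm 2 c, zpow_mul]
        norm_cast
      have h3 : ((q : ℝ) ^ s) ^ (((ys.length + w : ℕ) : ℤ)) = ((q : ℝ) ^ s) ^ (2 * c) :=
        (pow_left_inj₀ (by positivity) (by positivity) hM.ne').1 h2
      exact (zpow_right_injective₀ (by positivity) hQ1.ne') h3
    refine ⟨hnw, ?_⟩
    obtain ⟨c', hc'⟩ : ∃ c' : ℕ, c = c' := Int.eq_ofNat_of_zero_le (by omega)
    subst hc'
    have key := bounded_relation p a ha hqp hm hirr (fun i => by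
        obtain ⟨l, h1, h2, h3, -, h4⟩ := hpat i
        exact ⟨l, h1, h2, h3, h4⟩) (fun i => (h i).natDegree) R hg
      (fun i => weil_natDegree q (hm i)) hR δ hδ s hs ρ ρ' hρ' k b hk hρk ys.length c' M hM
      (fun l => ((ys.get (Fin.cast rfl l) : RT q h) : ℂ)) (fun l => (ys.get (Fin.cast rfl l)).2)
      (by
        rw [list_prod_pow s ys rfl]
        rw [zpow_natCast] at hrel
        exact hrel) (pairwise_ne ys rfl hpw)
    have h4 : ((ys.length : ℝ) + w) = 2 * c' := by exact_mod_cast hnw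
    linarith

/-- **Bounded relations over a field of characteristic zero.** -/
theorem bound_field {I : Type} {f : I → ℤ[X]} {q s : ℕ} {δ : ℝ} (hB : BoundedAt f q s δ)
    {K : Type*} [Field K] [CharZero K] {w : ℕ} {e : ℝ} {ρ : K} (hw : IsWeilNumber (q ^ s) w ρ)
    (hl : HasLevel (q ^ s) w e ρ) (c : ℤ) (M : ℕ) (hM : 0 < M)
    (ys : List {z : K // ∃ i, aeval z (f i) = 0})
    (hrel : ((ys.map fun z : {z : K // ∃ i, aeval z (f i) = 0} => (z : K) ^ s).prod * ρ) ^ M =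
      (((q : K) ^ s) ^ c) ^ M)
    (hpw : ys.Pairwise (fun y y' : {z : K // ∃ i, aeval z (f i) = 0} =>
      (y : K) ^ s * (y' : K) ^ s ≠ (q : K) ^ s)) :
    ((ys.length + w : ℕ) : ℤ) = 2 * c ∧ (ys.length : ℝ) * δ ≤ e := by
  classical
  have hmem : ∀ z : K, (∃ p : ℤ[X], p.Monic ∧ aeval z p = 0) → z ∈ algebraicClosure ℚ K := by
    rintro z ⟨p, hp, hz⟩
    rw [mem_algebraicClosure_iff]
    refine ⟨p.map (algebraMap ℤ ℚ), (hp.map _).ne_zero, ?_⟩
    rw [aeval_map_algebraMap]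
    exact hz
  have halg : Algebra.IsAlgebraic ℚ (algebraicClosure ℚ K) := algebraicClosure.isAlgebraic ℚ K
  let j : algebraicClosure ℚ K →ₐ[ℚ] ℂ := IsAlgClosed.lift
  have hint : ∀ z : K, IsIntegral ℤ z → z ∈ algebraicClosure ℚ K := by
    rintro z ⟨p, hp, hz⟩
    exact hmem z ⟨p, hp, hz⟩
  obtain ⟨χ, hχ, hρχ, hχn⟩ := hw
  obtain ⟨k, b, ρ', hk, hρ', hρk, hke⟩ := hl
  have hρm := hmem ρ ⟨χ, hχ, hρχ⟩
  have hρm' := hint ρ' hρ'
  have hdown : ∀ (z : algebraicClosure ℚ K) (p : ℤ[X]), aeval (z : K) p = 0 → aeval (j z) p = 0 := by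
    intro z p hz
    have h2 := Polynomial.hom_eval₂ p (algebraMap ℤ _) (j : algebraicClosure ℚ K →+* ℂ) z
    rw [RingHom.ext_int ((j : algebraicClosure ℚ K →+* ℂ).comp (algebraMap ℤ _))
      (algebraMap ℤ ℂ)] at h2
    have h3 : eval₂ (algebraMap ℤ (algebraicClosure ℚ K)) z p = 0 := by
      apply (algebraMap (algebraicClosure ℚ K) K).injective
      rw [map_zero, Polynomial.hom_eval₂, RingHom.ext_int ((algebraMap (algebraicClosure ℚ K)
        K).comp (algebraMap ℤ _)) (algebraMap ℤ K)]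
      exact hz
    rw [h3, map_zero] at h2
    exact h2.symm
  have hzm : ∀ z : {z : K // ∃ i, aeval z (f i) = 0}, (z : K) ∈ algebraicClosure ℚ K := by
    rintro ⟨z, i, hi⟩
    exact hmem z ⟨f i, hB.monic i, hi⟩
  let φ : {z : K // ∃ i, aeval z (f i) = 0} →
      {z : ℂ // ∃ i, aeval z (f i) = 0} := fun z => ⟨j ⟨z, hzm z⟩, by
        obtain ⟨z, i, hi⟩ := z
        exact ⟨i, hdown _ _ hi⟩⟩
  have hrel0 : ((ys.map (fun z : {z : K // ∃ i, aeval z (f i) = 0} =>
      (⟨z, hzm z⟩ : algebraicClosure ℚ K) ^ s)).prod * ⟨ρ, hρm⟩) ^ M =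
        (((q : algebraicClosure ℚ K) ^ s) ^ c) ^ M := by
    apply (algebraMap (algebraicClosure ℚ K) K).injective
    rw [map_pow, map_mul, _root_.map_list_prod, List.map_map, map_pow, map_zpow₀, map_pow,
      map_natCast]
    exact hrel
  have hρk0 : (⟨ρ, hρm⟩ : algebraicClosure ℚ K) ^ k =
      ((q : algebraicClosure ℚ K) ^ s) ^ b * ⟨ρ', hρm'⟩ := by
    apply (algebraMap (algebraicClosure ℚ K) K).injective
    rw [map_mul, map_pow, map_pow, map_pow, map_natCast]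
    have h1 := hρk
    push_cast at h1
    exact h1
  have hρ'int : IsIntegral ℤ (j ⟨ρ', hρm'⟩) := by
    have h1 : IsIntegral ℤ (⟨ρ', hρm'⟩ : algebraicClosure ℚ K) := by
      obtain ⟨p, hp, hz⟩ := hρ'
      refine ⟨p, hp, ?_⟩
      apply (algebraMap (algebraicClosure ℚ K) K).injective
      rw [map_zero, Polynomial.hom_eval₂, RingHom.ext_int ((algebraMap (algebraicClosure ℚ K)
        K).comp (algebraMap ℤ _)) (algebraMap ℤ K)]
      exact hz
    exact h1.map (j.restrictScalars ℤ)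
  have h0 := hB.bound (j ⟨ρ, hρm⟩) (j ⟨ρ', hρm'⟩) w k b hk hρ'int (by
      have h1 := congrArg j hρk0
      rw [map_mul, map_pow, map_pow, map_pow, map_natCast] at h1
      exact h1) (by
      have h1 := hχn _ (hdown ⟨ρ, hρm⟩ χ hρχ)
      rw [h1]
      push_cast
      rfl) c M hM (ys.map φ) (by
      have h4 := congrArg j hrel0
      rw [map_pow, map_mul, _root_.map_list_prod j, List.map_map, map_pow, map_zpow₀, map_pow,
        map_natCast] at h4
      rw [List.map_map, ← h4]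
      congr 4
      funext z
      change (j ⟨z, hzm z⟩) ^ s = j (⟨z, hzm z⟩ ^ s)
      rw [map_pow]) (by
      rw [List.pairwise_map]
      refine hpw.imp ?_
      intro a b hab h5
      apply hab
      change (j ⟨a, hzm a⟩) ^ s * (j ⟨b, hzm b⟩) ^ s = (q : ℂ) ^ s at h5
      have h6 : (⟨a, hzm a⟩ : algebraicClosure ℚ K) ^ s * ⟨b, hzm b⟩ ^ s =
          (q : algebraicClosure ℚ K) ^ s := by
        apply (j : algebraicClosure ℚ K →+* ℂ).injective
        rw [map_mul, map_pow, map_pow, map_pow, map_natCast]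
        exact h5
      have h7 := congrArg (algebraMap (algebraicClosure ℚ K) K) h6
      rw [map_mul, map_pow, map_pow, map_pow, map_natCast] at h7
      exact h7)
  rw [List.length_map] at h0
  refine ⟨h0.1, h0.2.trans ?_⟩
  have hk0 : (0 : ℝ) < k := by exact_mod_cast hk
  rw [sub_le_comm, le_div_iff₀ hk0]
  exact hke

/-- The number `Q ^ w / ρ` is an algebraic integer. -/
theorem dual_integral {K : Type*} [Field K] [CharZero K] {Q w : ℕ} (hQ : Q ≠ 0) {ρ : K}
    (hρ : IsWeilNumber Q w ρ) : IsIntegral ℤ ((Q : K) ^ w / ρ) := by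
  classical
  obtain ⟨χ, hχ, hρχ, hχn⟩ := hρ
  have hρint : IsIntegral ℤ ρ := ⟨χ, hχ, hρχ⟩
  have hρm : ρ ∈ algebraicClosure ℚ K := by
    rw [mem_algebraicClosure_iff]
    refine ⟨χ.map (algebraMap ℤ ℚ), (hχ.map _).ne_zero, ?_⟩
    rw [aeval_map_algebraMap]
    exact hρχ
  have halg : Algebra.IsAlgebraic ℚ (algebraicClosure ℚ K) := algebraicClosure.isAlgebraic ℚ K
  let j : algebraicClosure ℚ K →ₐ[ℚ] ℂ := IsAlgClosed.lift
  have hj : aeval (j ⟨ρ, hρm⟩) χ = 0 := by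
    have h2 := Polynomial.hom_eval₂ χ (algebraMap ℤ _) (j : algebraicClosure ℚ K →+* ℂ) ⟨ρ, hρm⟩
    rw [RingHom.ext_int ((j : algebraicClosure ℚ K →+* ℂ).comp (algebraMap ℤ _))
      (algebraMap ℤ ℂ)] at h2
    have h3 : eval₂ (algebraMap ℤ (algebraicClosure ℚ K)) (⟨ρ, hρm⟩ : algebraicClosure ℚ K) χ =
        0 := by
      apply (algebraMap (algebraicClosure ℚ K) K).injective
      rw [map_zero, Polynomial.hom_eval₂, RingHom.ext_int ((algebraMap (algebraicClosure ℚ K)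
        K).comp (algebraMap ℤ _)) (algebraMap ℤ K)]
      exact hρχ
    rw [h3, map_zero] at h2
    exact h2.symm
  set z := j ⟨ρ, hρm⟩ with hz
  have hzn := hχn z hj
  have hz0 : z ≠ 0 := by
    intro h0
    rw [h0, norm_zero] at hzn
    have : (0 : ℝ) < (Q : ℝ) ^ w := by
      have : (0 : ℝ) < Q := by exact_mod_cast Nat.pos_of_ne_zero hQ
      positivity
    norm_num at hzn
    linarith
  have h1 : IsIntegral ℤ ((Q : ℂ) ^ w / z) := by
    have h2 : (Q : ℂ) ^ w / z = (starRingEnd ℂ) z := by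
      rw [div_eq_iff hz0, mul_comm, Complex.mul_conj, Complex.normSq_eq_norm_sq, hzn]
      push_cast
      rfl
    rw [h2]
    have h3 : IsIntegral ℤ z := ⟨χ, hχ, hj⟩
    exact h3.map (Complex.conjAe.toAlgHom.restrictScalars ℤ)
  have h4 : IsIntegral ℤ ((Q : algebraicClosure ℚ K) ^ w / ⟨ρ, hρm⟩) := by
    apply isIntegral_of_map (j : algebraicClosure ℚ K →+* ℂ)
    rw [map_div₀, map_pow, map_natCast]
    exact h1
  have h5 := h4.map ((Algebra.ofId (algebraicClosure ℚ K) K).restrictScalars ℤ)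
  have h6 : ((Algebra.ofId (algebraicClosure ℚ K) K).restrictScalars ℤ)
      ((Q : algebraicClosure ℚ K) ^ w / ⟨ρ, hρm⟩) = (Q : K) ^ w / ρ := by
    change (algebraMap (algebraicClosure ℚ K) K) ((Q : algebraicClosure ℚ K) ^ w / ⟨ρ, hρm⟩) = _
    rw [map_div₀, map_pow, map_natCast]
    rfl
  rwa [h6] at h5

end Pool.Agent.Q219.UZ
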