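import Mathlib

/-!
# Second moments of Newton polygons: definitions
-/

set_option autoImplicit false

namespace Pool.Agent.Q219.UZ

open Polynomial

/-- The sum of the squares of `2 λ - w`, where `λ` runs over the slopes of `χ`: the numbers
`- log ‖y‖ / log Q`, `y` the roots of `χ` in an algebraic closure of `ℚ_p`. -/
noncomputable def newtonMoment (p : ℕ) [Fact p.Prime] (Q : ℝ) (w : ℕ) (χ : ℤ[X]) : ℝ :=
  ((χ.map (Int.castRingHom (PadicAlgCl p))).roots.map
    (fun y => (2 * (- Real.logb Q ‖y‖) - w) ^ 2)).sum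

/-- The sum of the squares `(1 - 2 s j) ^ 2`, for the slopes `s j`. -/
noncomputable def sqSum {g : ℕ} (s : Fin g → ℚ) : ℝ := ∑ j, (1 - 2 * (s j : ℝ)) ^ 2

/-- The number `ρ` of weight `w` has moment at most `M`: the mean of the numbers `(2 λ - w) ^ 2`, where
`λ` runs over the slopes (relative to `Q`) of the conjugates of `ρ`, is at most `M`. -/
def HasMoment {K : Type*} [Field K] (Q w : ℕ) (M : ℝ) (ρ : K) : Prop :=
  ∃ χ : ℤ[X], χ.Monic ∧ Irreducible (χ.map (Int.castRingHom ℚ)) ∧ aeval ρ χ = 0 ∧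
    ∀ (p : ℕ) [Fact p.Prime], p ∣ Q → newtonMoment p Q w χ ≤ M * χ.natDegree

end Pool.Agent.Q219.UZ
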