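import Mathlib
import Pool.Agent.W484.AA.Rel
import Pool.Agent.Q219.NW.Direct
import Pool.Agent.Q219.NS.Defs
import Pool.Agent.Q219.UZ.MomDefs

/-!
# Relations between the roots of Weil polynomials and one more number: second moments

(The method of the second moment is that of `Pool.Agent.W484.AS.Moment`.)
-/

set_option autoImplicit false
set_option linter.unusedSectionVars false

namespace Pool.Agent.Q219.UZ

open Polynomial Pool.Agent.H925R2 Pool.Agent.H485R3 Pool.Agent.W484.BB Pool.Agent.W521.Frob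
  Pool.Agent.W521.Criterion Pool.Agent.W484.AA Pool.Agent.Q219.NW Pool.Agent.Q219.NS

/-- The sum of the squares of the deviations of the slopes of `f` is at least `2 * R`. -/
def HasSq (p : ℕ) [Fact p.Prime] (a : ℕ) (R : ℝ) (f : ℤ[X]) : Prop :=
  2 * R * Real.log ((p : ℝ) ^ a) ^ 2 ≤ ((f.map (algebraMap ℤ (PadicAlgCl p))).roots.map
    (fun y => dev p ((p : ℚ) ^ a) y ^ 2)).sum

section

variable {I : Type*} {q : ℕ} {h : I → ℤ[X]} (hq : q ≠ 0) (hm : ∀ i, (h i).Monic)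
  {L : Type} [Field L] [NumberField L] [IsGalois ℚ L] (j : L →+* ℂ)
  (hL : ∀ i, ∀ z : ℂ, aeval z (weil q (h i)) = 0 → ∃ x : L, j x = z)
  (p : ℕ) [Fact p.Prime] (a : ℕ) (hqp : q = p ^ a) (e : L →ₐ[ℚ] PadicAlgCl p)

include hq hm hL hqp in
/-- **The mean of the squares of the deviations.** -/
theorem mean_sq_ge (i : I) (hirr : Irreducible ((h i).map (Int.castRingHom ℚ))) (g : ℕ)
    (r : ℝ) (hdeg : (weil q (h i)).natDegree = 2 * g) (hr : HasSq p a r (weil q (h i)))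
    (x : L) (hx : aeval x (weil q (h i)) = 0) :
    (Fintype.card (L ≃ₐ[ℚ] L) : ℝ) * (2 * r * Real.log ((p : ℝ) ^ a) ^ 2) ≤
      2 * g * ∑ σ : L ≃ₐ[ℚ] L, dv p a e (σ x) ^ 2 := by
  classical
  have hmw : (weil q (h i)).Monic := weil_monic q (hm i)
  have hsplit : ((weil q (h i)).map (algebraMap ℤ L)).Splits := by
    refine Splits.of_splits_map j (IsAlgClosed.splits _) ?_
    intro z hz
    have h1 := (mem_roots'.1 hz).2
    have e1 : ((weil q (h i)).map (algebraMap ℤ L)).map j = (weil q (h i)).map (algebraMap ℤ ℂ) := by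
      rw [Polynomial.map_map]
      congr 1
      exact RingHom.ext_int _ _
    rw [e1, IsRoot.def, eval_map] at h1
    exact hL i z h1
  set M := ((weil q (h i)).map (algebraMap ℤ L)).roots with hMdef
  have hM : (weil q (h i)).map (algebraMap ℤ L) = (M.map (fun a => X - C a)).prod := by
    rw [hMdef]
    have := hsplit.eq_prod_roots
    rw [(hmw.map (algebraMap ℤ L)).leadingCoeff, C_1, one_mul] at this
    exact this
  have hMcard : M.card = 2 * g := by
    rw [hMdef, ← hsplit.natDegree_eq_card_roots, hmw.natDegree_map, hdeg]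
  have hMroot : ∀ y ∈ M, aeval y (weil q (h i)) = 0 := by
    intro y hy
    have h1 := (mem_roots'.1 hy).2
    rw [IsRoot.def, eval_map] at h1
    exact h1
  have hconst : ∀ y ∈ M, ∑ σ : L ≃ₐ[ℚ] L, dv p a e (σ y) ^ 2 =
      ∑ σ : L ≃ₐ[ℚ] L, dv p a e (σ x) ^ 2 := by
    intro y hy
    have hy0 : y ≠ 0 := root_ne_zero hq (hm i) (hMroot y hy)
    obtain ⟨τ, hτ⟩ := exists_tau hq hm L j hL i hirr x y hx (hMroot y hy)
    have h1 : ∀ σ : L ≃ₐ[ℚ] L, dv p a e (σ y) ^ 2 = dv p a e ((σ * τ) x) ^ 2 := by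
      intro σ
      rw [AlgEquiv.mul_apply]
      rcases hτ with h' | h'
      · rw [h']
      · rw [h', map_div₀, map_natCast, dv_inv p a hqp e (σ y) (by
          rw [Ne, map_eq_zero]; exact hy0), neg_sq]
    rw [Finset.sum_congr rfl fun σ _ => h1 σ]
    exact Fintype.sum_equiv (Equiv.mulRight τ) _ _ fun σ => rfl
  have h1 : (M.map (fun y => ∑ σ : L ≃ₐ[ℚ] L, dv p a e (σ y) ^ 2)).sum =
      2 * g * ∑ σ : L ≃ₐ[ℚ] L, dv p a e (σ x) ^ 2 := by
    rw [Multiset.map_congr rfl hconst, Multiset.map_const', Multiset.sum_replicate, hMcard,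
      nsmul_eq_mul]
    push_cast
    ring
  rw [← h1, sum_map_exchange]
  have h2 : ∀ σ : L ≃ₐ[ℚ] L, 2 * (r : ℝ) * Real.log ((p : ℝ) ^ a) ^ 2 ≤
      (M.map (fun y => dv p a e (σ y) ^ 2)).sum := by
    intro σ
    have h4 := congrArg (fun f => f.map ((e : L →+* PadicAlgCl p).comp (σ : L →+* L))) hM
    simp only [Polynomial.map_map, Polynomial.map_multiset_prod, Multiset.map_map] at h4
    have h5 : (weil q (h i)).map (algebraMap ℤ (PadicAlgCl p)) =
        ((M.map (fun y => e (σ y))).map (fun a => X - C a)).prod := by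
      rw [RingHom.ext_int (algebraMap ℤ (PadicAlgCl p))
        (((e : L →+* PadicAlgCl p).comp (σ : L →+* L)).comp (algebraMap ℤ L)), h4,
        Multiset.map_map]
      congr 1
      refine Multiset.map_congr rfl fun y _ => ?_
      simp
    have h3 := hr
    unfold HasSq at h3
    rw [h5, roots_multiset_prod_X_sub_C, Multiset.map_map] at h3
    exact h3
  calc (Fintype.card (L ≃ₐ[ℚ] L) : ℝ) * (2 * r * Real.log ((p : ℝ) ^ a) ^ 2) =
      ∑ _σ : L ≃ₐ[ℚ] L, 2 * (r : ℝ) * Real.log ((p : ℝ) ^ a) ^ 2 := by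
        rw [Finset.sum_const, Finset.card_univ, nsmul_eq_mul]
    _ ≤ _ := Finset.sum_le_sum fun σ _ => h2 σ

include hq hm hqp in
/-- **Orthogonality.** -/
theorem sum_sq_ge (hfl : ∀ i, ∀ α : L, aeval α (weil q (h i)) = 0 → Flippable q h α) {n : ℕ}
    (x : Fin n → L) (i : Fin n → I) (hx : ∀ k, aeval (x k) (weil q (h (i k))) = 0)
    (hno : ∀ k l, x l ≠ q / x k) :
    ∑ k, ∑ σ : L ≃ₐ[ℚ] L, dv p a e (σ (x k)) ^ 2 ≤
      ∑ σ : L ≃ₐ[ℚ] L, (∑ k, dv p a e (σ (x k))) ^ 2 := by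
  classical
  have hx0 : ∀ k, x k ≠ 0 := fun k => root_ne_zero hq (hm (i k)) (hx k)
  let A : Fin n → Fin n → ℝ := fun k l => ∑ σ : L ≃ₐ[ℚ] L, dv p a e (σ (x k)) * dv p a e (σ (x l))
  have hA : ∀ k l, 0 ≤ A k l := by
    intro k l
    by_cases hkl : x l = x k
    · simp only [A]
      rw [hkl]
      exact Finset.sum_nonneg fun σ _ => mul_self_nonneg _
    · obtain ⟨ψ, h1, -, h3⟩ := hfl (i k) (x k) (hx k)
      have h4 : ψ (x l) = x l := h3 (i l) (x l) (hx l) hkl (hno k l)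
      have h5 : A k l = - A k l := by
        have h6 : A k l = ∑ σ : L ≃ₐ[ℚ] L, dv p a e ((σ * ψ) (x k)) * dv p a e ((σ * ψ) (x l)) :=
          (Fintype.sum_equiv (Equiv.mulRight ψ)
            (fun σ : L ≃ₐ[ℚ] L => dv p a e ((σ * ψ) (x k)) * dv p a e ((σ * ψ) (x l)))
            (fun σ : L ≃ₐ[ℚ] L => dv p a e (σ (x k)) * dv p a e (σ (x l))) fun σ => rfl).symm
        have h7 : ∀ σ : L ≃ₐ[ℚ] L, dv p a e ((σ * ψ) (x k)) * dv p a e ((σ * ψ) (x l)) =
            -(dv p a e (σ (x k)) * dv p a e (σ (x l))) := by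
          intro σ
          rw [AlgEquiv.mul_apply, AlgEquiv.mul_apply, h1, h4, map_div₀, map_natCast,
            dv_inv p a hqp e _ (by rw [Ne, map_eq_zero]; exact hx0 k), neg_mul]
        calc A k l = ∑ σ : L ≃ₐ[ℚ] L, dv p a e ((σ * ψ) (x k)) * dv p a e ((σ * ψ) (x l)) := h6
          _ = ∑ σ : L ≃ₐ[ℚ] L, -(dv p a e (σ (x k)) * dv p a e (σ (x l))) :=
            Finset.sum_congr rfl fun σ _ => h7 σ
          _ = - A k l := Finset.sum_neg_distrib _
      linarith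
  have h2 : ∑ σ : L ≃ₐ[ℚ] L, (∑ k, dv p a e (σ (x k))) ^ 2 = ∑ k, ∑ l, A k l := by
    simp only [A]
    simp only [pow_two, Finset.sum_mul_sum]
    rw [Finset.sum_comm]
    exact Finset.sum_congr rfl fun j _ => Finset.sum_comm
  rw [h2]
  refine Finset.sum_le_sum fun k _ => ?_
  have h3 : ∑ σ : L ≃ₐ[ℚ] L, dv p a e (σ (x k)) ^ 2 = A k k :=
    Finset.sum_congr rfl fun σ _ => pow_two _
  rw [h3]
  exact Finset.single_le_sum (f := fun l => A k l) (fun l _ => hA k l) (Finset.mem_univ k)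

end

/-- **The second moment inequality.** -/
theorem moment_relation {I : Type} [Finite I] {q : ℕ} {h : I → ℤ[X]} (p : ℕ) [Fact p.Prime]
    (a : ℕ) (ha : 0 < a) (hqp : q = p ^ a)
    (hm : ∀ i, (h i).Monic) (hirr : ∀ i, Irreducible ((h i).map (Int.castRingHom ℚ)))
    (hpat : ∀ i, ∃ l : ℕ, l.Prime ∧ l ≠ 2 ∧ ¬ l ∣ q ∧ FlipPattern q h i l)
    (g : I → ℕ) (r : I → ℝ) (hg : ∀ i, 0 < g i)
    (hdeg : ∀ i, (weil q (h i)).natDegree = 2 * g i) (hr : ∀ i, HasSq p a (r i) (weil q (h i)))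
    (δ : ℝ) (hδ : ∀ i, δ * g i ≤ r i)
    (s : ℕ) (hs : 0 < s) (w : ℕ) (χ : ℤ[X]) (hχ : χ.Monic)
    (hχi : Irreducible (χ.map (Int.castRingHom ℚ))) (B : ℝ)
    (hmom : newtonMoment p ((q : ℝ) ^ s) w χ ≤ B * χ.natDegree) (ρ : ℂ) (hρ0 : ρ ≠ 0)
    (hρ : aeval ρ χ = 0) {n : ℕ} (c : ℕ) (hnc : n + w = 2 * c) (N : ℕ) (hN : 0 < N)
    (z : Fin n → ℂ) (hz : ∀ k, ∃ i, aeval (z k) (weil q (h i)) = 0)
    (hrel : ((∏ k, z k) ^ s * ρ) ^ N = (((q : ℂ) ^ s) ^ c) ^ N)
    (hno : ∀ k l, k ≠ l → z k * z l ≠ q) : (n : ℝ) * δ ≤ B := by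
  classical
  cases nonempty_fintype I
  have hp0 : 0 < p := (Fact.out : p.Prime).pos
  have hq : q ≠ 0 := by rw [hqp]; exact pow_ne_zero _ hp0.ne'
  have hp1 : (1 : ℝ) < (p : ℝ) ^ a :=
    one_lt_pow₀ (by exact_mod_cast (Fact.out : p.Prime).one_lt) ha.ne'
  have hl : 0 < Real.log ((p : ℝ) ^ a) := Real.log_pos hp1
  -- the field
  let T : Finset ℂ := (Finset.univ.biUnion fun i =>
    ((weil q (h i)).map (algebraMap ℤ ℂ)).roots.toFinset) ∪ {ρ}
  have hTint : ∀ y : T, IsIntegral ℤ (y : ℂ) := by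
    rintro ⟨y, hy⟩
    rcases Finset.mem_union.1 hy with h1 | h1
    · obtain ⟨i, -, h2⟩ := Finset.mem_biUnion.1 h1
      have h3 := (mem_roots'.1 (Multiset.mem_toFinset.1 h2)).2
      rw [IsRoot.def, eval_map] at h3
      exact ⟨weil q (h i), weil_monic q (hm i), h3⟩
    · rw [Finset.mem_singleton] at h1
      subst h1
      exact ⟨χ, hχ, hρ⟩
  obtain ⟨L, hL1, hL2, j, hj⟩ := exists_galois_of (fun y : T => (y : ℂ)) hTint
  have hL : ∀ i, ∀ z : ℂ, aeval z (weil q (h i)) = 0 → ∃ x : L, j x = z := by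
    intro i z hz
    refine hj ⟨z, Finset.mem_union.2 (Or.inl (Finset.mem_biUnion.2 ⟨i, Finset.mem_univ _, ?_⟩))⟩
    rw [Multiset.mem_toFinset, mem_roots ((weil_monic q (hm i)).map _).ne_zero, IsRoot.def, eval_map]
    exact hz
  obtain ⟨r0, hr0⟩ : ∃ y : L, j y = ρ := hj ⟨ρ, Finset.mem_union.2 (Or.inr (by simp))⟩
  have hfl : ∀ i, ∀ α : L, aeval α (weil q (h i)) = 0 → Flippable q h α := by
    intro i α hα
    obtain ⟨l, hl, hl2, hlq, hp⟩ := hpat i
    exact all_flippable hq hm L j hL i (hirr i) hl hl2 hlq hp α hα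
  have hdown : ∀ (f : ℤ[X]) (x : L), aeval (j x) f = 0 → aeval x f = 0 := by
    intro f x hx
    apply j.injective
    have h2 := Polynomial.hom_eval₂ f (algebraMap ℤ L) j x
    rw [RingHom.ext_int (j.comp (algebraMap ℤ L)) (algebraMap ℤ ℂ)] at h2
    rw [map_zero]
    exact h2.trans hx
  choose i hi using hz
  choose x hx using fun k => hL (i k) (z k) (hi k)
  have hxr : ∀ k, aeval (x k) (weil q (h (i k))) = 0 := fun k => hdown _ _ (by rw [hx]; exact hi k)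
  have hx0 : ∀ k, x k ≠ 0 := fun k => root_ne_zero hq (hm (i k)) (hxr k)
  have hqL : (q : L) ≠ 0 := by exact_mod_cast hq
  let e : L →ₐ[ℚ] PadicAlgCl p := IsAlgClosed.lift
  have hnoL : ∀ k l, x l ≠ q / x k := by
    intro k l hkl
    by_cases hk : k = l
    · subst hk
      obtain ⟨-, h2⟩ := ne_conj hq hm hirr hpat (z k) ⟨i k, hi k⟩
      apply h2
      have h3 := congrArg j hkl
      rw [map_div₀, map_natCast, hx] at h3
      exact h3.symm
    · apply hno k l hk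
      have h3 := congrArg j hkl
      rw [map_div₀, map_natCast, hx, hx] at h3
      have hz0 : z k ≠ 0 := by
        rw [← hx k, Ne, map_eq_zero]
        exact hx0 k
      rw [h3]
      field_simp
  have hr00 : r0 ≠ 0 := by
    rintro rfl
    rw [map_zero] at hr0
    exact hρ0 hr0.symm
  set M : ℚ := ((p : ℚ) ^ a) ^ (s * w) with hM
  -- the minimal polynomial
  have hχL : aeval r0 χ = 0 := hdown χ r0 (by rw [hr0]; exact hρ)
  have hmin : minpoly ℚ r0 = χ.map (Int.castRingHom ℚ) := by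
    refine (minpoly.eq_of_irreducible_of_monic hχi ?_ (hχ.map _)).symm
    rw [aeval_def, eval₂_map, RingHom.ext_int ((algebraMap ℚ L).comp (Int.castRingHom ℚ))
      (algebraMap ℤ L)]
    exact hχL
  -- the relation
  have hrelL : ((∏ k, x k) ^ s * r0) ^ N = (((q : L) ^ s) ^ c) ^ N := by
    apply j.injective
    rw [map_pow, map_mul, map_pow, map_prod, hr0, map_pow, map_pow, map_pow, map_natCast,
      Finset.prod_congr rfl fun k _ => hx k]
    exact hrel
  have hlogq : Real.log ‖(((p : ℚ) ^ a : ℚ) : PadicAlgCl p)‖ = - Real.log ((p : ℝ) ^ a) := by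
    rw [norm_pow_cast, Real.log_inv]
  have hrelσ : ∀ σ : L ≃ₐ[ℚ] L, dev p M (e (σ r0)) = -(s : ℝ) * ∑ k, dv p a e (σ (x k)) := by
    intro σ
    have hne : ∀ k, ‖e (σ (x k))‖ ≠ 0 := by
      intro k
      rw [norm_ne_zero_iff, Ne, map_eq_zero, map_eq_zero]
      exact hx0 k
    have hner : ‖e (σ r0)‖ ≠ 0 := by
      rw [norm_ne_zero_iff, Ne, map_eq_zero, map_eq_zero]
      exact hr00
    have h1 := congrArg (fun y => Real.log ‖e (σ y)‖) hrelL
    have h2 : e (σ ((((q : L) ^ s) ^ c) ^ N)) =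
        ((((p : ℚ) ^ a : ℚ) : PadicAlgCl p)) ^ (s * c * N) := by
      rw [map_pow, map_pow, map_pow, map_pow, map_pow, map_pow, map_natCast, map_natCast, hqp,
        ← pow_mul, ← pow_mul]
      push_cast
      rw [mul_assoc]
    beta_reduce at h1
    rw [h2] at h1
    simp only [map_pow, map_mul, map_prod, norm_pow, norm_mul, norm_prod, Real.log_pow] at h1
    rw [Real.log_mul (pow_ne_zero _ (Finset.prod_ne_zero_iff.2 fun k _ => hne k)) hner,
      Real.log_pow, Real.log_prod (fun k _ => hne k), hlogq] at h1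
    have h3 : ∑ k, dv p a e (σ (x k)) = 2 * ∑ k, Real.log ‖e (σ (x k))‖ +
        n * Real.log ((p : ℝ) ^ a) := by
      have h4 : ∀ k, dv p a e (σ (x k)) = 2 * Real.log ‖e (σ (x k))‖ + Real.log ((p : ℝ) ^ a) := by
        intro k
        unfold dv dev
        rw [hlogq]
        ring
      rw [Finset.sum_congr rfl fun k _ => h4 k, Finset.sum_add_distrib, ← Finset.mul_sum,
        Finset.sum_const, Finset.card_univ, Fintype.card_fin, nsmul_eq_mul]
    have h5 : Real.log ‖((M : ℚ) : PadicAlgCl p)‖ = - ((s * w : ℕ) : ℝ) * Real.log ((p : ℝ) ^ a) := by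
      have h6 : ((M : ℚ) : PadicAlgCl p) = ((((p : ℚ) ^ a : ℚ)) : PadicAlgCl p) ^ (s * w) := by
        rw [hM]; push_cast; rfl
      rw [h6, norm_pow, norm_pow_cast, Real.log_pow, Real.log_inv]
      ring
    unfold dev
    rw [h5, h3]
    have hN0 : (N : ℝ) ≠ 0 := by exact_mod_cast hN.ne'
    have hncR : (n : ℝ) + w = 2 * c := by exact_mod_cast hnc
    apply mul_left_cancel₀ hN0
    push_cast at h1 ⊢
    have h7 : (w : ℝ) = 2 * c - n := by linarith
    rw [h7]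
    linear_combination 2 * h1
  have hG : (0 : ℝ) < Fintype.card (L ≃ₐ[ℚ] L) := by exact_mod_cast Fintype.card_pos
  have hs0 : (0 : ℝ) < s := by exact_mod_cast hs
  -- the upper bound
  have horb := Pool.Agent.W484.AS.sum_orbit p e r0 (fun y => dev p M y ^ 2)
  have hup : (((minpoly ℚ r0).aroots (PadicAlgCl p)).map (fun y => dev p M y ^ 2)).sum =
      (s * Real.log ((p : ℝ) ^ a)) ^ 2 * newtonMoment p ((q : ℝ) ^ s) w χ := by
    have h1 : (minpoly ℚ r0).aroots (PadicAlgCl p) =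
        (χ.map (Int.castRingHom (PadicAlgCl p))).roots := by
      rw [hmin, Polynomial.aroots, Polynomial.map_map]
      congr 1
    rw [h1]
    unfold newtonMoment
    rw [← Multiset.sum_map_mul_left]
    congr 1
    refine Multiset.map_congr rfl fun y _ => ?_
    have h2 := abs_dev_eq_width p a ha s w hs y
    rw [← sq_abs, hM, h2, mul_pow, sq_abs, hqp]
    push_cast
    rfl
  have hdegχ : ((minpoly ℚ r0).natDegree : ℝ) = χ.natDegree := by
    rw [hmin, hχ.natDegree_map]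
  -- the lower bound
  have hlow := sum_sq_ge hq hm p a hqp e hfl x i hxr hnoL
  have hmean : ∀ k, (Fintype.card (L ≃ₐ[ℚ] L) : ℝ) * (δ * Real.log ((p : ℝ) ^ a) ^ 2) ≤
      ∑ σ : L ≃ₐ[ℚ] L, dv p a e (σ (x k)) ^ 2 := by
    intro k
    have h1 := mean_sq_ge hq hm j hL p a hqp e (i k) (hirr _) (g (i k)) (r (i k)) (hdeg _) (hr _)
      (x k) (hxr k)
    have hg0 : (0 : ℝ) < g (i k) := by exact_mod_cast hg (i k)
    have h2 : (2 * g (i k) : ℝ) * ((Fintype.card (L ≃ₐ[ℚ] L) : ℝ) *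
        (δ * Real.log ((p : ℝ) ^ a) ^ 2)) ≤
        (Fintype.card (L ≃ₐ[ℚ] L) : ℝ) * (2 * r (i k) * Real.log ((p : ℝ) ^ a) ^ 2) := by
      have h3 : (2 * g (i k) : ℝ) * ((Fintype.card (L ≃ₐ[ℚ] L) : ℝ) *
        (δ * Real.log ((p : ℝ) ^ a) ^ 2)) = (Fintype.card (L ≃ₐ[ℚ] L) : ℝ) *
          (2 * (δ * g (i k)) * Real.log ((p : ℝ) ^ a) ^ 2) := by ring
      rw [h3]
      refine mul_le_mul_of_nonneg_left ?_ hG.le
      exact mul_le_mul_of_nonneg_right (by linarith [hδ (i k)]) (sq_nonneg _)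
    exact le_of_mul_le_mul_left (h2.trans h1) (by positivity)
  have h1 : ∑ σ : L ≃ₐ[ℚ] L, dev p M (e (σ r0)) ^ 2 =
      (s : ℝ) ^ 2 * ∑ σ : L ≃ₐ[ℚ] L, (∑ k, dv p a e (σ (x k))) ^ 2 := by
    rw [Finset.mul_sum]
    refine Finset.sum_congr rfl fun σ _ => ?_
    rw [hrelσ σ]
    ring
  have h2 : (n : ℝ) * ((Fintype.card (L ≃ₐ[ℚ] L) : ℝ) * (δ * Real.log ((p : ℝ) ^ a) ^ 2)) ≤
      ∑ σ : L ≃ₐ[ℚ] L, (∑ k, dv p a e (σ (x k))) ^ 2 := by
    refine le_trans ?_ hlow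
    have h3 : ∑ _k : Fin n, (Fintype.card (L ≃ₐ[ℚ] L) : ℝ) * (δ * Real.log ((p : ℝ) ^ a) ^ 2) ≤
      ∑ k, ∑ σ : L ≃ₐ[ℚ] L, dv p a e (σ (x k)) ^ 2 := Finset.sum_le_sum fun k _ => hmean k
    rwa [Finset.sum_const, Finset.card_univ, Fintype.card_fin, nsmul_eq_mul] at h3
  rw [h1, hup, hdegχ] at horb
  have hdpos : (0 : ℝ) < χ.natDegree := by
    have h3 := hχi.natDegree_pos
    rw [hχ.natDegree_map] at h3
    exact_mod_cast h3
  set S := ∑ σ : L ≃ₐ[ℚ] L, (∑ k, dv p a e (σ (x k))) ^ 2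
  set lg := Real.log ((p : ℝ) ^ a)
  set G := (Fintype.card (L ≃ₐ[ℚ] L) : ℝ)
  have h3 : (χ.natDegree : ℝ) * S ≤ G * (lg ^ 2 * (B * χ.natDegree)) := by
    have h4 : (s : ℝ) ^ 2 * ((χ.natDegree : ℝ) * S) =
        (s : ℝ) ^ 2 * (G * (lg ^ 2 * newtonMoment p ((q : ℝ) ^ s) w χ)) := by
      linear_combination horb
    have h5 := mul_left_cancel₀ (pow_ne_zero 2 hs0.ne') h4
    rw [h5]
    refine mul_le_mul_of_nonneg_left (mul_le_mul_of_nonneg_left hmom (sq_nonneg _)) hG.le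
  have h4 : (χ.natDegree : ℝ) * (G * lg ^ 2) * (n * δ) ≤ (χ.natDegree : ℝ) * (G * lg ^ 2) * B := by
    have h5 := mul_le_mul_of_nonneg_left h2 hdpos.le
    calc (χ.natDegree : ℝ) * (G * lg ^ 2) * (n * δ) =
        χ.natDegree * ((n : ℝ) * (G * (δ * lg ^ 2))) := by ring
      _ ≤ χ.natDegree * S := h5
      _ ≤ _ := h3
      _ = _ := by ring
  exact le_of_mul_le_mul_left h4 (by positivity)

theorem hasSq_of_slopes (p : ℕ) [Fact p.Prime] (a : ℕ) {g : ℕ} (s : Fin g → ℚ) (P : ℤ[X])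
    (h : WithSlopes p a s P) : HasSq p a (sqSum s) P := by
  have hp0 : (0 : ℝ) < p := by exact_mod_cast (Fact.out : p.Prime).pos
  let F : ℝ → ℝ := fun t => (2 * Real.log t + a * Real.log p) ^ 2
  have hdev : ∀ y : PadicAlgCl p, dev p ((p : ℚ) ^ a) y ^ 2 =
      F (spectralNorm ℚ_[p] (AlgebraicClosure ℚ_[p]) y) := by
    intro y
    have h1 : spectralNorm ℚ_[p] (AlgebraicClosure ℚ_[p]) y = ‖y‖ := PadicAlgCl.spectralNorm_eq p y
    rw [h1]
    unfold dev
    rw [norm_pow_cast, Real.log_inv, Real.log_pow]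
    simp only [F]
    ring
  have h2 : ((P.map (algebraMap ℤ (PadicAlgCl p))).roots.map
      (fun y => dev p ((p : ℚ) ^ a) y ^ 2)).sum =
      (((P.map (Int.castRingHom (AlgebraicClosure ℚ_[p]))).roots.map
        (fun x => spectralNorm ℚ_[p] (AlgebraicClosure ℚ_[p]) x)).map F).sum := by
    rw [Multiset.map_map]
    congr 1
    refine Multiset.map_congr ?_ fun y _ => hdev y
    rfl
  unfold HasSq
  rw [h2, h, Multiset.map_add, Multiset.sum_add, Multiset.map_map, Multiset.map_map]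
  have h3 : ∀ x : ℝ, F ((p : ℝ) ^ (-x)) = ((a - 2 * x) * Real.log p) ^ 2 := by
    intro x
    simp only [F]
    rw [Real.log_rpow hp0]
    ring
  have h4 : (Finset.univ.val.map (F ∘ fun j : Fin g => (p : ℝ) ^ (-((a * s j : ℚ) : ℝ)))).sum =
      ∑ j, ((a - 2 * ((a * s j : ℚ) : ℝ)) * Real.log p) ^ 2 :=
    Finset.sum_congr rfl fun j _ => h3 _
  have h5 : (Finset.univ.val.map (F ∘ fun j : Fin g => (p : ℝ) ^ (-((a * (1 - s j) : ℚ) : ℝ)))).sum =
      ∑ j, ((a - 2 * ((a * (1 - s j) : ℚ) : ℝ)) * Real.log p) ^ 2 :=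
    Finset.sum_congr rfl fun j _ => h3 _
  rw [h4, h5, Real.log_pow, ← Finset.sum_add_distrib, sqSum, Finset.mul_sum, Finset.sum_mul]
  refine Finset.sum_le_sum fun j _ => ?_
  refine le_of_eq ?_
  push_cast
  ring

end Pool.Agent.Q219.UZ
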