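import Mathlib
import Pool.Agent.Q219.UZ.Moment
import Pool.Agent.Q219.UZ.Bound
import Pool.Agent.Q219.NS.Main

/-!
# Second moments, over fields of characteristic zero, and the count
-/

set_option autoImplicit false
set_option linter.unusedSectionVars false

namespace Pool.Agent.Q219.UZ

open Polynomial Module Pool.Agent.H925R2 Pool.Agent.H485R3 Pool.Agent.W484.AA Pool.Agent.W484.BB
  Pool.Agent.W521.Frob Pool.Agent.W484.HS Pool.Agent.W484.TB Pool.Agent.Q219.ST Pool.Agent.Q219.NS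
  Pool.Agent.Q219.NW

/-- The relations between the roots of the `f i` and one more number `ρ` of weight `w` and of moment
at most `M`, contain at most `M / δ` roots if there are no two roots with product `q ^ s`. -/
structure MomentAt {I : Type} (f : I → ℤ[X]) (q s : ℕ) (δ : ℝ) : Prop where
  monic : ∀ i, (f i).Monic
  bound : ∀ (ρ : ℂ) (w : ℕ) (M : ℝ), HasMoment (q ^ s) w M ρ →
    ‖ρ‖ ^ 2 = ((q : ℝ) ^ s) ^ w → ∀ (c : ℤ) (N : ℕ), 0 < N →
    ∀ ys : List {z : ℂ // ∃ i, aeval z (f i) = 0},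
      ((ys.map fun z : {z : ℂ // ∃ i, aeval z (f i) = 0} => (z : ℂ) ^ s).prod * ρ) ^ N =
        (((q : ℂ) ^ s) ^ c) ^ N →
      ys.Pairwise (fun y y' : {z : ℂ // ∃ i, aeval z (f i) = 0} =>
        (y : ℂ) ^ s * (y' : ℂ) ^ s ≠ (q : ℂ) ^ s) → (ys.length : ℝ) * δ ≤ M

theorem momentAt_good {I : Type} [Finite I] {q : ℕ} {U : Set ℕ} {h : I → ℤ[X]} (p : ℕ)
    [Fact p.Prime] (a : ℕ) (ha : 0 < a) (hqp : q = p ^ a) (hm : ∀ i, (h i).Monic)
    (hx : Pool.Agent.Q219.NS.Good U q h)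
    (habs : ∀ i (z : ℂ), aeval z (weil q (h i)) = 0 → ‖z‖ ^ 2 = (q : ℝ))
    (hg : ∀ i, 0 < (h i).natDegree)
    (R : I → ℝ) (hR : ∀ i, HasSq p a (R i) (weil q (h i))) (δ : ℝ)
    (hδ : ∀ i, δ * (h i).natDegree ≤ R i) (s : ℕ) (hs : 0 < s) :
    MomentAt (fun i => weil q (h i)) q s δ where
  monic i := weil_monic q (hm i)
  bound := by
    classical
    obtain ⟨hpat, hirr, -⟩ := hx
    have hp : p.Prime := Fact.out
    have hq1 : 1 < q := by rw [hqp]; exact Nat.one_lt_pow ha.ne' hp.one_lt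
    have hQ1 : (1 : ℝ) < (q : ℝ) ^ s := one_lt_pow₀ (by exact_mod_cast hq1) hs.ne'
    intro ρ w M hρ hρn c N hN ys hrel hpw
    have hprod : ‖(ys.map fun z : RT q h => (z : ℂ) ^ s).prod‖ ^ 2 = ((q : ℝ) ^ s) ^ ys.length := by
      clear hrel hpw
      induction ys with
      | nil => simp
      | cons y ys ih =>
        obtain ⟨i, hi⟩ := y.2
        have h1 : ‖(y : ℂ) ^ s‖ ^ 2 = (q : ℝ) ^ s := by
          rw [norm_pow, ← pow_mul, mul_comm s 2, pow_mul, habs i _ hi]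
        rw [List.map_cons, List.prod_cons, norm_mul, mul_pow, ih, List.length_cons, h1, pow_succ']
    have hnw : ((ys.length + w : ℕ) : ℤ) = 2 * c := by
      have h1 := congrArg (fun z : ℂ => ‖z‖ ^ 2) hrel
      simp only [norm_pow, norm_mul, norm_zpow, Complex.norm_natCast] at h1
      have h2 : (((q : ℝ) ^ s) ^ (((ys.length + w : ℕ) : ℤ))) ^ N =
          (((q : ℝ) ^ s) ^ (2 * c)) ^ N := by
        rw [zpow_natCast, pow_add, ← hprod, ← hρn, ← mul_pow, ← pow_mul, mul_comm 2 N,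
          pow_mul, h1, ← pow_mul, mul_comm N 2, pow_mul, mul_comm 2 c, zpow_mul]
        norm_cast
      have h3 : ((q : ℝ) ^ s) ^ (((ys.length + w : ℕ) : ℤ)) = ((q : ℝ) ^ s) ^ (2 * c) :=
        (pow_left_inj₀ (by positivity) (by positivity) hN.ne').1 h2
      exact (zpow_right_injective₀ (by positivity) hQ1.ne') h3
    obtain ⟨c', hc'⟩ : ∃ c' : ℕ, c = c' := Int.eq_ofNat_of_zero_le (by omega)
    subst hc'
    obtain ⟨χ, hχ, hχi, hρχ, hmom⟩ := hρ
    have hρ0 : ρ ≠ 0 := by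
      rintro rfl
      rw [norm_zero] at hρn
      have : (0 : ℝ) < ((q : ℝ) ^ s) ^ w := by positivity
      norm_num at hρn
      linarith
    have hdvd : p ∣ q ^ s := by
      rw [hqp]
      exact dvd_pow (dvd_pow_self p ha.ne') hs.ne'
    have h4 := hmom p hdvd
    push_cast at h4
    exact moment_relation p a ha hqp hm hirr (fun i => by
        obtain ⟨l, h1, h2, h3, -, h4⟩ := hpat i
        exact ⟨l, h1, h2, h3, h4⟩) (fun i => (h i).natDegree) R hg
      (fun i => weil_natDegree q (hm i)) hR δ hδ s hs w χ hχ hχi M h4 ρ hρ0 hρχ c'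
      (by exact_mod_cast hnw) N hN
      (fun l => ((ys.get (Fin.cast rfl l) : RT q h) : ℂ)) (fun l => (ys.get (Fin.cast rfl l)).2)
      (by
        rw [list_prod_pow s ys rfl]
        rw [zpow_natCast] at hrel
        exact hrel) (pairwise_ne ys rfl hpw)

/-- **The second moment over a field of characteristic zero.** -/
theorem moment_field {I : Type} {f : I → ℤ[X]} {q s : ℕ} {δ : ℝ} (hB : MomentAt f q s δ)
    {K : Type*} [Field K] [CharZero K] {w : ℕ} {B : ℝ} {ρ : K} (hw : IsWeilNumber (q ^ s) w ρ)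
    (hl : HasMoment (q ^ s) w B ρ) (c : ℤ) (M : ℕ) (hM : 0 < M)
    (ys : List {z : K // ∃ i, aeval z (f i) = 0})
    (hrel : ((ys.map fun z : {z : K // ∃ i, aeval z (f i) = 0} => (z : K) ^ s).prod * ρ) ^ M =
      (((q : K) ^ s) ^ c) ^ M)
    (hpw : ys.Pairwise (fun y y' : {z : K // ∃ i, aeval z (f i) = 0} =>
      (y : K) ^ s * (y' : K) ^ s ≠ (q : K) ^ s)) : (ys.length : ℝ) * δ ≤ B := by
  classical
  have hmem : ∀ z : K, (∃ p : ℤ[X], p.Monic ∧ aeval z p = 0) → z ∈ algebraicClosure ℚ K := by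
    rintro z ⟨p, hp, hz⟩
    rw [mem_algebraicClosure_iff]
    refine ⟨p.map (algebraMap ℤ ℚ), (hp.map _).ne_zero, ?_⟩
    rw [aeval_map_algebraMap]
    exact hz
  have halg : Algebra.IsAlgebraic ℚ (algebraicClosure ℚ K) := algebraicClosure.isAlgebraic ℚ K
  let j : algebraicClosure ℚ K →ₐ[ℚ] ℂ := IsAlgClosed.lift
  obtain ⟨χ, hχ, hρχ, hχn⟩ := hw
  obtain ⟨χ', hχ', hχi, hρχ', hmom⟩ := hl
  have hρm := hmem ρ ⟨χ, hχ, hρχ⟩
  have hdown : ∀ (z : algebraicClosure ℚ K) (p : ℤ[X]), aeval (z : K) p = 0 → aeval (j z) p = 0 := by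
    intro z p hz
    have h2 := Polynomial.hom_eval₂ p (algebraMap ℤ _) (j : algebraicClosure ℚ K →+* ℂ) z
    rw [RingHom.ext_int ((j : algebraicClosure ℚ K →+* ℂ).comp (algebraMap ℤ _))
      (algebraMap ℤ ℂ)] at h2
    have h3 : eval₂ (algebraMap ℤ (algebraicClosure ℚ K)) z p = 0 := by
      apply (algebraMap (algebraicClosure ℚ K) K).injective
      rw [map_zero, Polynomial.hom_eval₂, RingHom.ext_int ((algebraMap (algebraicClosure ℚ K)
        K).comp (algebraMap ℤ _)) (algebraMap ℤ K)]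
      exact hz
    rw [h3, map_zero] at h2
    exact h2.symm
  have hzm : ∀ z : {z : K // ∃ i, aeval z (f i) = 0}, (z : K) ∈ algebraicClosure ℚ K := by
    rintro ⟨z, i, hi⟩
    exact hmem z ⟨f i, hB.monic i, hi⟩
  let φ : {z : K // ∃ i, aeval z (f i) = 0} →
      {z : ℂ // ∃ i, aeval z (f i) = 0} := fun z => ⟨j ⟨z, hzm z⟩, by
        obtain ⟨z, i, hi⟩ := z
        exact ⟨i, hdown _ _ hi⟩⟩
  have hrel0 : ((ys.map (fun z : {z : K // ∃ i, aeval z (f i) = 0} =>
      (⟨z, hzm z⟩ : algebraicClosure ℚ K) ^ s)).prod * ⟨ρ, hρm⟩) ^ M =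
        (((q : algebraicClosure ℚ K) ^ s) ^ c) ^ M := by
    apply (algebraMap (algebraicClosure ℚ K) K).injective
    rw [map_pow, map_mul, _root_.map_list_prod, List.map_map, map_pow, map_zpow₀, map_pow,
      map_natCast]
    exact hrel
  have h0 := hB.bound (j ⟨ρ, hρm⟩) w B ⟨χ', hχ', hχi, hdown ⟨ρ, hρm⟩ χ' hρχ', hmom⟩ (by
      have h1 := hχn _ (hdown ⟨ρ, hρm⟩ χ hρχ)
      rw [h1]
      push_cast
      rfl) c M hM (ys.map φ) (by
      have h4 := congrArg j hrel0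
      rw [map_pow, map_mul, _root_.map_list_prod j, List.map_map, map_pow, map_zpow₀, map_pow,
        map_natCast] at h4
      rw [List.map_map, ← h4]
      congr 4
      funext z
      change (j ⟨z, hzm z⟩) ^ s = j (⟨z, hzm z⟩ ^ s)
      rw [map_pow]) (by
      rw [List.pairwise_map]
      refine hpw.imp ?_
      intro a b hab h5
      apply hab
      change (j ⟨a, hzm a⟩) ^ s * (j ⟨b, hzm b⟩) ^ s = (q : ℂ) ^ s at h5
      have h6 : (⟨a, hzm a⟩ : algebraicClosure ℚ K) ^ s * ⟨b, hzm b⟩ ^ s =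
          (q : algebraicClosure ℚ K) ^ s := by
        apply (j : algebraicClosure ℚ K →+* ℂ).injective
        rw [map_mul, map_pow, map_pow, map_pow, map_natCast]
        exact h5
      have h7 := congrArg (algebraMap (algebraicClosure ℚ K) K) h6
      rw [map_mul, map_pow, map_pow, map_pow, map_natCast] at h7
      exact h7)
  rwa [List.length_map] at h0

section count

open Pool.Agent.W518.DN

variable {κ : Type} [Fintype κ] [Nonempty κ]

/-- **The count**, for properties which follow from the bounds for relations. -/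
theorem count_moment (p : ℕ) [hp : Fact p.Prime]
    (g : κ → ℕ) (hg : ∀ i, 1 ≤ g i) (s : ∀ i, Fin (g i) → ℚ) (hs : ∀ i, IsPolygon (s i))
    (σ : ℚ) (hσ : ∀ i (h : 0 < g i), s i ⟨0, h⟩ ≤ σ) (hσ2 : σ < 1 / 2) :
    (∀ N : ℕ, ∃ a₀ : ℕ, ∀ a, a₀ ≤ a →
      (NewtonStratum g s p a).Finite ∧ N ≤ (NewtonStratum g s p a).ncard) ∧
    ∃ C : ℝ, 0 < C ∧ ∀ a : ℕ, 0 < a → ∀ Q : (κ → ℤ[X]) → Prop,
      (∀ f : κ → ℤ[X], (∀ δ : ℝ, (∀ i, δ * g i ≤ devSum (s i)) →
        ∀ s' : ℕ, 0 < s' → BoundedAt f (p ^ a) s' δ) →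
        (∀ δ : ℝ, (∀ i, δ * g i ≤ sqSum (s i)) →
        ∀ s' : ℕ, 0 < s' → MomentAt f (p ^ a) s' δ) → Q f) →
      ({F ∈ NewtonStratum g s p a | ¬ Q F}.ncard : ℝ) ≤
        C * (a * (p : ℝ) ^ (-((a : ℝ) * (1 - 2 * σ) / 6))) *
          ((NewtonStratum g s p a).ncard : ℝ) := by
  classical
  have hs' : ∀ i, IsNewton (s i) := fun i => ⟨(hs i).mono, (hs i).nonneg, (hs i).le_half,
    (hs i).integral⟩
  have heq : ∀ a, NewtonStratum g s p a = Stratum g s p a := fun _ => rfl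
  have hgood : ∀ (a : ℕ), 0 < a → ∀ h : κ → ℤ[X], (∀ i, (h i).Monic) →
      (∀ i, (h i).natDegree = g i) →
      Pool.Agent.Q219.NS.Good (splitPrimes (⊥ : IntermediateField ℚ ℂ)) (p ^ a) h →
      (fun i => weil (p ^ a) (h i)) ∈ NewtonStratum g s p a →
      (∀ δ : ℝ, (∀ i, δ * g i ≤ devSum (s i)) →
        ∀ s' : ℕ, 0 < s' → BoundedAt (fun i => weil (p ^ a) (h i)) (p ^ a) s' δ) ∧
      (∀ δ : ℝ, (∀ i, δ * g i ≤ sqSum (s i)) →
        ∀ s' : ℕ, 0 < s' → MomentAt (fun i => weil (p ^ a) (h i)) (p ^ a) s' δ) := by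
    intro a ha h hm hd hx hmem
    have habs : ∀ i (z : ℂ), aeval z (weil (p ^ a) (h i)) = 0 → ‖z‖ ^ 2 = ((p ^ a : ℕ) : ℝ) := by
      intro i z hz
      have h4 := (hmem i).1.weil z (by
        rw [IsRoot.def, eval_map]
        exact hz)
      rw [h4]
      push_cast
      rfl
    refine ⟨fun δ hδ s' hs' => ?_, fun δ hδ s' hs' => ?_⟩
    · exact boundedAt_good p a ha rfl hm hx habs (fun i => by rw [hd i]; exact hg i)
        (fun i => devSum (s i)) (fun i => hasDev_of_slopes p a (s i) _ (hmem i).2.2) δ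
        (fun i => by rw [hd i]; exact hδ i) s' hs'
    · exact momentAt_good p a ha rfl hm hx habs (fun i => by rw [hd i]; exact hg i)
        (fun i => sqSum (s i)) (fun i => hasSq_of_slopes p a (s i) _ (hmem i).2.2) δ
        (fun i => by rw [hd i]; exact hδ i) s' hs'
  refine ⟨fun N => ?_, ?_⟩
  · obtain ⟨a₀, h⟩ := density g s p hg hs' (fun i => ⟨⟨0, hg i⟩, (hσ i (hg i)).trans_lt hσ2⟩)
      N 1 one_pos
    exact ⟨a₀, fun a ha => ⟨(h a ha).1, (h a ha).2.1⟩⟩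
  · obtain ⟨C, hC, h⟩ := count_strata g s p (splitPrimes (⊥ : IntermediateField ℚ ℂ))
      (dense_splitPrimes (⊥ : IntermediateField ℚ ℂ)) hg hs' σ hσ hσ2
    refine ⟨C, hC, fun a ha Q hQ => ?_⟩
    have h1 := h a ha (fun P => P ∈ NewtonStratum g s p a → Q P) (fun f hm hd hf hmem =>
      hQ _ (hgood a ha f hm hd hf hmem).1 (hgood a ha f hm hd hf hmem).2)
    rw [← heq] at h1
    refine le_trans (le_of_eq ?_) h1
    congr 2
    ext P
    constructor
    · rintro ⟨hP, hnQ⟩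
      exact ⟨hP, fun h3 => hnQ (h3 hP)⟩
    · rintro ⟨hP, hnQ⟩
      exact ⟨hP, fun h3 => hnQ fun _ => h3⟩

end count

end Pool.Agent.Q219.UZ
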