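import Mathlib
import Pool.Agent.W492.BB.Defs
import Pool.Agent.Q219.UZ.Num

/-!
# Weights and levels of the cohomology: definitions
-/

set_option autoImplicit false

open CategoryTheory AlgebraicGeometry

universe u v w

namespace Pool.Agent.Q219.UZ

open Pool.Agent.H914 Pool.Agent.H914.VarClass Pool.Agent.H914.VarClass.Obj Pool.Agent.W492.BB

variable {k : Type u} [Field k] {𝒱 : VarClass k} {C : TheoryData.{u, v, 0} 𝒱 ℚ} {K : Type w}
  [Field K] (H : WeilTheoryData.{u, v, w} C K) {Z : 𝒱.Obj}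

/-- The endomorphism `π` of `X` has degree `Q ^ dim X`. -/
def HasFrobDegree (C : TheoryData.{u, v, 0} 𝒱 ℚ) {X : 𝒱.Obj} (π : X ⟶ X) (Q : ℕ) : Prop :=
  C.down π 1 = (Q : ℚ) ^ X.dim • (1 : C.A X)

/-- The theorem of Deligne: the eigenvalues of the Frobenius endomorphism `π` (relative to the field
with `Q` elements) on `H ^ w (Z)` are Weil numbers of weight `w`. -/
def IsPure (π : Z ⟶ Z) (Q : ℕ) : Prop :=
  ∀ (w : ℕ) (ρ : K) (v : H.A Z), H.Deg w v → v ≠ 0 → H.up π v = ρ • v → IsWeilNumber Q w ρ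

/-- The cohomology of `Z` has level at most `e`: the slopes of Frobenius on `H ^ w (Z)` lie between
`(w - e) / 2` and `(w + e) / 2`, for all `w`. By Poincare duality this is always true for
`e = dim Z`. -/
def LevelLE (π : Z ⟶ Z) (Q : ℕ) (e : ℝ) : Prop :=
  ∀ (w : ℕ) (ρ : K) (v : H.A Z), H.Deg w v → v ≠ 0 → H.up π v = ρ • v → HasLevel Q w e ρ

end Pool.Agent.Q219.UZ
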