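import Mathlib
import Pool.Agent.W484.CH.Defs
import Pool.Agent.Q219.UZ.CohDefs

/-!
# Powers of varieties, and the conjectures in one codimension: definitions
-/

set_option autoImplicit false

open CategoryTheory AlgebraicGeometry

universe u v w

namespace Pool.Agent.Q219.UZ

open Polynomial Pool.Agent.H914 Pool.Agent.H914.VarClass Pool.Agent.H914.VarClass.Obj
  Pool.Agent.W492.BB Pool.Agent.W484.CH

variable {k : Type u} [Field k] {𝒱 : VarClass k}

/-- The power `X ^ (n + 1)`. -/
noncomputable def pw (X : 𝒱.Obj) : ℕ → 𝒱.Obj
  | 0 => X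
  | n + 1 => X.prod (pw X n)

/-- The power `π × ... × π` of an endomorphism `π` of `X`, an endomorphism of `X ^ (n + 1)`. -/
noncomputable def pwMap {X : 𝒱.Obj} (π : X ⟶ X) : (n : ℕ) → (pw X n ⟶ pw X n)
  | 0 => π
  | n + 1 => prodMap π (pwMap π n)

variable {C : TheoryData.{u, v, 0} 𝒱 ℚ} {K : Type w} [Field K] (H : WeilTheoryData.{u, v, w} C K)
  {X Z : 𝒱.Obj}

/-- All numbers `z ^ s`, `z` a root of one of the `f i`, are eigenvalues of `π` on `H ^ 1 (X)`. -/
def HasRoots (π : X ⟶ X) (s : ℕ) {I : Type} (f : I → ℤ[X]) : Prop :=
  ∀ (i : I) (z : K), aeval z (f i) = 0 →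
    ∃ v : H.A X, H.Deg 1 v ∧ v ≠ 0 ∧ H.up π v = z ^ s • v

/-- The abelian variety `A`, with Frobenius endomorphism `π` relative to the field with `q ^ s`
elements, is isogenous to a product of powers of abelian varieties which come from the field with `q`
elements and have characteristic polynomials of Frobenius `f i` over this field: the cohomology of
`A` is generated by `H ^ 1 (A)`, whose elements anticommute, and which is spanned by eigenvectors of
Frobenius with eigenvalues `z ^ s`, `z` a root of some `f i`; the degree of `π` is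
`q ^ (s dim A)`, and the theorem of Tate on divisors holds. -/
structure IsAbelianFor {A : 𝒱.Obj} (π : A ⟶ A) (q s : ℕ) {I : Type} (f : I → ℤ[X]) : Prop where
  degree : HasFrobDegree C π (q ^ s)
  isGenerated : IsGenerated H A
  isAnticommutative : IsAnticommutative H A
  isSpanned : IsSpanned H π s f
  hasTateDivisors : HasTateDivisors H π (q ^ s)

/-- The endomorphism `π` of `X` acts on the Chow groups like the Frobenius endomorphism relative to
the field with `Q` elements: for each cycle of codimension `i` some power `(π ^ *) ^ r` acts on it as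
multiplication by `Q ^ (i r)` (for the cycles defined over the field with `Q ^ r` elements this
is so for this `r`). -/
def ActsOnCycles (C : TheoryData.{u, v, 0} 𝒱 ℚ) {X : 𝒱.Obj} (π : X ⟶ X) (Q : ℕ) : Prop :=
  ∀ (i : ℕ) (z : C.A X), C.Deg i z →
    ∃ r : ℕ, 0 < r ∧ (fun x => C.up π x)^[r] z = ((Q : ℚ) ^ i) ^ r • z

/-- The class `w` is a linear combination of classes of cycles of codimension `c`. -/
def IsCycleCombination (c : ℕ) (w : H.A Z) : Prop :=
  w ∈ Submodule.span K {a : H.A Z | ∃ x : C.A Z, C.Deg c x ∧ a = H.cl x}

/-- The Tate conjecture for `Z` in codimension `c`: the elements of `H ^ (2 c) (Z)` on which the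
Frobenius endomorphism `π` relative to the field with `Q` elements acts as multiplication by `Q ^ c`
are linear combinations of classes of cycles of codimension `c`. -/
def TateIn (π : Z ⟶ Z) (Q c : ℕ) : Prop :=
  ∀ w : H.A Z, H.Deg (2 * c) w → H.up π w = (Q : K) ^ c • w → IsCycleCombination H c w

/-- The Tate conjecture for `Z` in codimension `c` together with the semisimplicity of the eigenvalue
`Q ^ c`: all generalized eigenvectors of `π` in `H ^ (2 c) (Z)` for the eigenvalue `Q ^ c` are linear
combinations of classes of cycles of codimension `c`. -/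
def StrongTateIn (π : Z ⟶ Z) (Q c : ℕ) : Prop :=
  ∀ (m : ℕ) (w : H.A Z), H.Deg (2 * c) w → (fun v => H.up π v - (Q : K) ^ c • v)^[m] w = 0 →
    IsCycleCombination H c w

/-- Homological and numerical equivalence coincide for cycles of codimension `c` on `Z`, with rational
coefficients. (The intersection number of cycles `x`, `y` is the value of the orientation at the
class of `x · y`, up to a nonzero constant.) -/
def HomNumIn (Z : 𝒱.Obj) (c : ℕ) : Prop :=
  ∀ x : C.A Z, C.Deg c x →
    (∀ (d : ℕ) (y : C.A Z), c + d = Z.dim → C.Deg d y → H.tr Z (H.cl (C.mul x y)) = 0) → H.cl x = 0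

end Pool.Agent.Q219.UZ
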