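import Mathlib
import Pool.Agent.Q219.UZ.PowDefs
import Pool.Agent.Q219.UZ.MomDefs

/-!
# The conjecture D for products with varieties of narrow cohomology: definitions
-/

set_option autoImplicit false

open CategoryTheory AlgebraicGeometry

universe u v w

namespace Pool.Agent.Q219.UZ

open Polynomial Pool.Agent.H914 Pool.Agent.H914.VarClass Pool.Agent.H914.VarClass.Obj
  Pool.Agent.W492.BB Pool.Agent.W484.CH

variable {k : Type u} [Field k] {𝒱 : VarClass k} {C : TheoryData.{u, v, 0} 𝒱 ℚ} {K : Type w}
  [Field K] (H : WeilTheoryData.{u, v, w} C K) {X A Z : 𝒱.Obj}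

/-- The slopes of `H ^ w (Z)` are close to `w / 2`: for each eigenvalue `ρ` of Frobenius on
`H ^ w (Z)`, either the slopes of `ρ` lie between `(w - e) / 2` and `(w + e) / 2` for some
`e < b δ`, or the mean of the numbers `(2 λ - w) ^ 2`, `λ` the slopes of the conjugates of `ρ`, is
smaller than `b δ₂`. -/
def NarrowAt (π : Z ⟶ Z) (Q w b : ℕ) (δ δ₂ : ℝ) : Prop :=
  ∀ (ρ : K) (v : H.A Z), H.Deg w v → v ≠ 0 → H.up π v = ρ • v →
    (∃ e : ℝ, e < b * δ ∧ HasLevel Q w e ρ) ∨ (∃ M : ℝ, M < b * δ₂ ∧ HasMoment Q w M ρ)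

/-- The bounds for the slopes in the theorem below, for varieties of dimension `d`. -/
def width (d w : ℕ) : ℕ := if w % 2 = 0 then 2 else if w = 1 ∨ w + 1 = 2 * d then 3 else 1

/-- There is a correspondence of degree `1 - d` on `Z`, `d = dim Z`, with coefficients in `K`, which
is injective on `H ^ (2 d - 1) (Z)`. It is known that there is one for all varieties `Z` (with rational
coefficients, the inverse of the isomorphism `H ^ 1 (Z) → H ^ (2 d - 1) (Z)` given by the `(d - 1)`-st
power of the class of a hyperplane section is given by a divisor on `Z × Z`; Kleiman). -/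
def HasLambda (Z : 𝒱.Obj) : Prop :=
  ∃ Γ : H.A (Z.prod Z), IsCycleCombination H 1 Γ ∧
    ∀ v : H.A Z, H.Deg (2 * Z.dim - 1) v → H.act Γ v = 0 → v = 0

/-- The situation of the theorems. The varieties `X`, `A` and `Z` come from the field with `Q = q ^ s`
elements, with Frobenius endomorphisms `πX`, `πA`, `πZ`. The abelian varieties `X`, `A` and `X × A` are
isogenous to products of powers of abelian varieties coming from the field with `q` elements, with
characteristic polynomials `f i`, and all of them occur in `X` (`roots`); `Z` is any smooth projective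
variety. Homological and numerical equivalence coincide for divisors on `X × Z` (theorem of
Matsusaka). -/
structure IsNarrowTriple (πX : X ⟶ X) (πA : A ⟶ A) (πZ : Z ⟶ Z) (q s : ℕ) {I : Type}
    (f : I → ℤ[X]) : Prop where
  standard : IsStandard H
  pos : 0 < s
  roots : HasRoots H πX s f
  factors : IsAbelianFor H πX q s f
  abelian : IsAbelianFor H πA q s f
  mixed : IsAbelianFor H (prodMap πX πA) q s f
  degree : HasFrobDegree C πZ (q ^ s)
  pure : IsPure H πZ (q ^ s)
  cycles : ActsOnCycles C (prodMap πA πZ) (q ^ s)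
  divisors : HomNumIn H (X.prod Z) 1
  lambda : HasLambda H Z

/-- `ConjectureDNarrow δ δ₂ q f`: for the Chow groups `C` with rational coefficients of all classes
`𝒱` of varieties over fields `k` (an algebraic closure of a finite field, or a finite field), every
Weil cohomology theory `H` with coefficients in an algebraically closed field `K` of characteristic
zero and all `X`, `A`, `Z` as in `IsNarrowTriple` such that `H ^ w (Z)` is narrow in the sense of
`NarrowAt`, with `b = width (dim Z) w`, for `0 < w < 2 dim Z`: if homological and numerical equivalence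
coincide for the cycles of codimension `c'` on `Z` for all `c' ≤ c`, then they coincide for the cycles
of codimension `c` on `A × Z`. -/
def ConjectureDNarrow (δ δ₂ : ℝ) (q : ℕ) {I : Type} (f : I → ℤ[X]) : Prop :=
  ∀ (k : Type) [Field k] (𝒱 : VarClass k) (C : TheoryData.{0, 0, 0} 𝒱 ℚ) [IsChow C]
    (K : Type) [Field K] [IsAlgClosed K] [CharZero K] (H : WeilTheoryData.{0, 0, 0} C K)
    [IsWeil H] (s : ℕ) (X A Z : 𝒱.Obj) (πX : X ⟶ X) (πA : A ⟶ A) (πZ : Z ⟶ Z),
      IsNarrowTriple H πX πA πZ q s f →
      (∀ w : ℕ, 0 < w → w < 2 * Z.dim → NarrowAt H πZ (q ^ s) w (width Z.dim w) δ δ₂) →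
      ∀ c : ℕ, (∀ c' : ℕ, c' ≤ c → HomNumIn H Z c') → HomNumIn H (A.prod Z) c

/-- `ConjectureDSurfaces δ δ₂ q f`: for all data as in `ConjectureDNarrow` where `Z` is a surface such
that only `H ^ 2 (Z)` is assumed to be narrow, homological and numerical equivalence coincide for all
cycles on `A × Z`. The only hypothesis on cycles, that they coincide for divisors on `X × Z`
(in `IsNarrowTriple`) and on `Z`, is the theorem of Matsusaka. -/
def ConjectureDSurfaces (δ δ₂ : ℝ) (q : ℕ) {I : Type} (f : I → ℤ[X]) : Prop :=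
  ∀ (k : Type) [Field k] (𝒱 : VarClass k) (C : TheoryData.{0, 0, 0} 𝒱 ℚ) [IsChow C]
    (K : Type) [Field K] [IsAlgClosed K] [CharZero K] (H : WeilTheoryData.{0, 0, 0} C K)
    [IsWeil H] (s : ℕ) (X A Z : 𝒱.Obj) (πX : X ⟶ X) (πA : A ⟶ A) (πZ : Z ⟶ Z),
      Z.dim = 2 → IsNarrowTriple H πX πA πZ q s f → HomNumIn H Z 1 →
      NarrowAt H πZ (q ^ s) 2 2 δ δ₂ → ∀ c : ℕ, HomNumIn H (A.prod Z) c

end Pool.Agent.Q219.UZ
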