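import Mathlib
import Pool.Agent.Q219.UZ.PowDefs

/-!
# The conjecture D for products with arbitrary varieties: definitions
-/

set_option autoImplicit false

open CategoryTheory AlgebraicGeometry

universe u v w

namespace Pool.Agent.Q219.UZ

open Polynomial Pool.Agent.H914 Pool.Agent.H914.VarClass Pool.Agent.H914.VarClass.Obj
  Pool.Agent.W492.BB Pool.Agent.W484.CH

variable {k : Type u} [Field k] {𝒱 : VarClass k} {C : TheoryData.{u, v, 0} 𝒱 ℚ} {K : Type w}
  [Field K] (H : WeilTheoryData.{u, v, w} C K) {X A Z : 𝒱.Obj}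

/-- The situation of the theorems on the conjecture D. The varieties `X`, `A` and `Z` come from the
field with `Q = q ^ s` elements, with Frobenius endomorphisms `πX`, `πA`, `πZ`. The abelian varieties
`X ^ (N + 1)`, `A` and `X ^ (N + 1) × A` are isogenous to products of powers of abelian varieties
coming from the field with `q` elements, with characteristic polynomials `f i`, and all of them
occur in `X` (`roots`); `Z` is any smooth projective variety. -/
structure IsTriple (πX : X ⟶ X) (πA : A ⟶ A) (πZ : Z ⟶ Z) (N q s : ℕ) {I : Type}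
    (f : I → ℤ[X]) : Prop where
  standard : IsStandard H
  pos : 0 < s
  roots : HasRoots H πX s f
  power : IsAbelianFor H (pwMap πX N) q s f
  abelian : IsAbelianFor H πA q s f
  mixed : IsAbelianFor H (prodMap (pwMap πX N) πA) q s f
  degree : HasFrobDegree C πZ (q ^ s)
  pure : IsPure H πZ (q ^ s)
  cycles : ActsOnCycles C (prodMap πA πZ) (q ^ s)

/-- `ConjectureDTimes δ q f`: the following holds for the Chow groups `C` with rational coefficients
of all classes `𝒱` of varieties over fields `k` (an algebraic closure of a finite field, or a finite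
field), every Weil cohomology theory `H` with coefficients in an algebraically closed field `K` of
characteristic zero, all natural numbers `N`, all real numbers `e` and all `X`, `A`, `Z` as in
`IsTriple` such that `Z` has level at most `e` and `e < (N + 2) δ`. If homological and numerical
equivalence coincide for the cycles of codimension `c'` on `X ^ (N + 1) × Z`, for all `c'` with
`c' ≤ c` and `2 c' + ⌊e⌋ ≤ 2 dim Z + N + 1`, then they coincide for the cycles of codimension `c` on
`A × Z`. -/
def ConjectureDTimes (δ : ℝ) (q : ℕ) {I : Type} (f : I → ℤ[X]) : Prop :=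
  ∀ (k : Type) [Field k] (𝒱 : VarClass k) (C : TheoryData.{0, 0, 0} 𝒱 ℚ) [IsChow C]
    (K : Type) [Field K] [IsAlgClosed K] [CharZero K] (H : WeilTheoryData.{0, 0, 0} C K)
    [IsWeil H] (s N : ℕ) (e : ℝ) (X A Z : 𝒱.Obj) (πX : X ⟶ X) (πA : A ⟶ A) (πZ : Z ⟶ Z),
      e < (N + 2) * δ → LevelLE H πZ (q ^ s) e → IsTriple H πX πA πZ N q s f →
      ∀ c : ℕ, (∀ c' : ℕ, c' ≤ c → 2 * c' + ⌊e⌋₊ ≤ 2 * Z.dim + (N + 1) →
        HomNumIn H ((pw X N).prod Z) c') → HomNumIn H (A.prod Z) c

/-- `ConjectureDTimesCurves q f`: for all data as in `ConjectureDTimes` where `Z` is a curve (any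
smooth projective curve), homological and numerical equivalence coincide for all cycles on `A × Z`.
The only hypothesis on cycles, that they coincide for divisors on `X × X × Z`, is the theorem of
Matsusaka. -/
def ConjectureDTimesCurves (q : ℕ) {I : Type} (f : I → ℤ[X]) : Prop :=
  ∀ (k : Type) [Field k] (𝒱 : VarClass k) (C : TheoryData.{0, 0, 0} 𝒱 ℚ) [IsChow C]
    (K : Type) [Field K] [IsAlgClosed K] [CharZero K] (H : WeilTheoryData.{0, 0, 0} C K)
    [IsWeil H] (s : ℕ) (X A Z : 𝒱.Obj) (πX : X ⟶ X) (πA : A ⟶ A) (πZ : Z ⟶ Z),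
      Z.dim = 1 → IsTriple H πX πA πZ 1 q s f → HomNumIn H ((pw X 1).prod Z) 1 →
      ∀ c : ℕ, HomNumIn H (A.prod Z) c

end Pool.Agent.Q219.UZ
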