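import Mathlib
import Pool.Agent.W484.CH.NK

/-!
# Correspondences acting on the first factor of a product
-/

set_option autoImplicit false
set_option linter.unusedSectionVars false

open CategoryTheory AlgebraicGeometry

universe u v w

namespace Pool.Agent.Q219.UZ

open Module Polynomial Pool.Agent.H914 Pool.Agent.H914.VarClass Pool.Agent.H914.VarClass.Obj
  Pool.Agent.W492.BB Pool.Agent.W550.Corr Pool.Agent.W484.TB Pool.Agent.W484.CH

variable {k : Type u} [Field k] {𝒱 : VarClass k}

section theory

variable {F : Type w} [Field F] {δ : ℤ} (T : TheoryData.{u, v, w} 𝒱 F) [hT : IsTheory T δ]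
  {A B Z : 𝒱.Obj}

/-- The operator `P × id : A(B × Z) → A(A × Z)`, for a class `P` on `A × B`. -/
noncomputable def corr (P : T.A (A.prod B)) (x : T.A (B.prod Z)) : T.A (A.prod Z) :=
  T.push (u13 A B Z) (T.pull (u12 A B Z) P * T.pull (snd A (B.prod Z)) x)

theorem corr_add_left (P P' : T.A (A.prod B)) (x : T.A (B.prod Z)) :
    corr T (P + P') x = corr T P x + corr T P' x := by
  rw [corr, map_add, add_mul, map_add]
  rfl

theorem corr_add_right (P : T.A (A.prod B)) (x x' : T.A (B.prod Z)) :
    corr T P (x + x') = corr T P x + corr T P x' := by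
  rw [corr, map_add, mul_add, map_add]
  rfl

theorem corr_smul_left (c : F) (P : T.A (A.prod B)) (x : T.A (B.prod Z)) :
    corr T (c • P) x = c • corr T P x := by
  rw [corr, map_smul, smul_mul_assoc, map_smul]
  rfl

theorem corr_smul_right (c : F) (P : T.A (A.prod B)) (x : T.A (B.prod Z)) :
    corr T P (c • x) = c • corr T P x := by
  rw [corr, map_smul, mul_smul_comm, map_smul]
  rfl

theorem corr_zero_left (x : T.A (B.prod Z)) : corr T (0 : T.A (A.prod B)) x = 0 := by
  rw [corr, map_zero, zero_mul, map_zero]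

theorem corr_zero_right (P : T.A (A.prod B)) : corr T P (0 : T.A (B.prod Z)) = 0 := by
  rw [corr, map_zero, mul_zero, map_zero]

theorem corr_sum_right {ι : Type*} (s : Finset ι) (P : T.A (A.prod B)) (x : ι → T.A (B.prod Z)) :
    corr T P (∑ t ∈ s, x t) = ∑ t ∈ s, corr T P (x t) := by
  classical
  induction s using Finset.induction_on with
  | empty => rw [Finset.sum_empty, Finset.sum_empty, corr_zero_right]
  | insert t s ht ih => rw [Finset.sum_insert ht, Finset.sum_insert ht, corr_add_right, ih]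

include hT in
/-- The operator on external products. -/
theorem corr_ext (a : T.A A) (b' b : T.A B) (z : T.A Z) :
    corr T (T.ext a b') (T.ext b z) =
      T.ext a (T.push (snd B Z) (T.pull (fst B Z) (b' * b)) * z) := by
  have h1 : T.pull (u12 A B Z) (T.ext a b') * T.pull (snd A (B.prod Z)) (T.ext b z) =
      T.pull (u13 A B Z) (T.pull (fst A Z) a) * T.pull (snd A (B.prod Z))
        (T.pull (fst B Z) (b' * b) * T.pull (snd B Z) z) := by
    rw [TheoryData.ext, TheoryData.ext, map_mul, ← T.pull_comp, ← T.pull_comp, u12_fst, u12_snd,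
      ← T.pull_comp, u13_fst, T.pull_comp (snd A (B.prod Z)) (fst B Z), mul_assoc]
    congr 1
    rw [map_mul (T.pull (fst B Z)), map_mul (T.pull (snd A (B.prod Z))),
      map_mul (T.pull (snd A (B.prod Z))), map_mul (T.pull (snd A (B.prod Z))), mul_assoc]
  rw [corr, h1, T.proj_left]
  have h2 : T.push (u13 A B Z) (T.pull (snd A (B.prod Z))
      (T.pull (fst B Z) (b' * b) * T.pull (snd B Z) z)) =
      T.pull (snd A Z) (T.push (snd B Z) (T.pull (fst B Z) (b' * b) * T.pull (snd B Z) z)) :=
    (T.base_snd (snd B Z) A _).symm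
  rw [h2, T.proj_right]
  rfl

include hT in
theorem corr_mem {P : T.A (A.prod B)} {x : T.A (B.prod Z)} {i j : ℤ} (hP : P ∈ T.gr _ i)
    (hx : x ∈ T.gr _ j) : corr T P x ∈ T.gr (A.prod Z) (i + j - δ * B.dim) := by
  have h1 := T.push_mem (u13 A B Z) (T.mul_mem (T.pull_mem (u12 A B Z) hP)
    (T.pull_mem (snd A (B.prod Z)) hx))
  have h2 : i + j + δ * (((A.prod Z).dim : ℤ) - (A.prod (B.prod Z)).dim) =
      i + j - δ * B.dim := by
    simp only [Obj.dim_prod]
    push_cast
    ring
  rw [h2] at h1
  exact h1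

end theory

variable {C : TheoryData.{u, v, 0} 𝒱 ℚ} {K : Type w} [Field K] [CharZero K]
  {H : WeilTheoryData.{u, v, w} C K} [hC : IsChow C] [hH : IsWeil H] {A B Z X : 𝒱.Obj}

theorem cl_corr (D : C.A (A.prod B)) (x : C.A (B.prod Z)) :
    H.cl (corr C D x) = corr H.toTheoryData (H.cl D) (H.cl x) := by
  rw [corr, corr, H.cl_push, map_mul, H.cl_pull, H.cl_pull]

/-- The span of the classes of cycles of codimension `c`. -/
def cycSpan (H : WeilTheoryData.{u, v, w} C K) (X : 𝒱.Obj) (c : ℕ) : Submodule K (H.A X) :=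
  Submodule.span K {a | ∃ x : C.A X, C.Deg c x ∧ a = H.cl x}

omit hC hH in
theorem mem_cycSpan {c : ℕ} {x : C.A X} (hx : C.Deg c x) : H.cl x ∈ cycSpan H X c :=
  Submodule.subset_span ⟨x, hx, rfl⟩

theorem NK_le_cycSpan (X : 𝒱.Obj) (c : ℕ) : NK H X c ≤ cycSpan H X c := by
  refine Submodule.span_mono ?_
  rintro _ ⟨D, hD, rfl⟩
  exact ⟨D, divProd_mem hD, rfl⟩

/-- Algebraic correspondences map classes of cycles to classes of cycles. -/
theorem corr_cycSpan {i j l : ℕ} (hl : i + j = l + B.dim) {P : H.A (A.prod B)}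
    {x : H.A (B.prod Z)} (hP : P ∈ cycSpan H (A.prod B) i) (hx : x ∈ cycSpan H (B.prod Z) j) :
    corr H.toTheoryData P x ∈ cycSpan H (A.prod Z) l := by
  unfold cycSpan at hP
  induction hP using Submodule.span_induction with
  | mem P hP =>
    obtain ⟨D, hD, rfl⟩ := hP
    unfold cycSpan at hx
    induction hx using Submodule.span_induction with
    | mem x hx =>
      obtain ⟨y, hy, rfl⟩ := hx
      rw [← cl_corr]
      apply mem_cycSpan
      have h1 := corr_mem C hD hy
      rwa [show (i : ℤ) + j - 1 * B.dim = l by omega] at h1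
    | zero => rw [corr_zero_right]; exact Submodule.zero_mem _
    | add a b _ _ ha hb => rw [corr_add_right]; exact Submodule.add_mem _ ha hb
    | smul c a _ ha => rw [corr_smul_right]; exact Submodule.smul_mem _ _ ha
  | zero => rw [corr_zero_left]; exact Submodule.zero_mem _
  | add a b _ _ ha hb => rw [corr_add_left]; exact Submodule.add_mem _ ha hb
  | smul c a _ ha => rw [corr_smul_left]; exact Submodule.smul_mem _ _ ha

/-- Algebraic correspondences map numerically trivial cycles to numerically trivial cycles. -/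
theorem corr_numTrivial {i j l : ℕ} (hl : i + j = l + B.dim) {D : C.A (A.prod B)}
    (hD : C.Deg i D) {x : C.A (B.prod Z)}
    (hx0 : ∀ (d : ℕ) (y : C.A (B.prod Z)), j + d = (B.prod Z).dim → C.Deg d y →
      H.tr (B.prod Z) (H.cl (x * y)) = 0) (d : ℕ) (w : C.A (A.prod Z))
    (hd : l + d = (A.prod Z).dim) (hw : C.Deg d w) :
    H.tr (A.prod Z) (H.cl (corr C D x * w)) = 0 := by
  have h1 : corr C D x * w = C.push (u13 A B Z) (C.pull (snd A (B.prod Z)) x *
      (C.pull (u12 A B Z) D * C.pull (u13 A B Z) w)) := by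
    rw [corr, ← C.proj_right]
    congr 1
    rw [chow_mul_comm (C.pull (u12 A B Z) D) (C.pull (snd A (B.prod Z)) x), mul_assoc]
  rw [h1, H.cl_push, H.tr_push, ← H.tr_push (snd A (B.prod Z)), ← H.cl_push, C.proj_left]
  rcases le_or_gt A.dim (i + d) with h3 | h3
  · refine hx0 (i + d - A.dim) _ ?_ ?_
    · simp only [Obj.dim_prod] at hd ⊢
      omega
    · have h2 := C.push_mem (snd A (B.prod Z)) (C.mul_mem (C.pull_mem (u12 A B Z) hD)
        (C.pull_mem (u13 A B Z) hw))
      have h4 : (i : ℤ) + d + 1 * (((B.prod Z).dim : ℤ) - (A.prod (B.prod Z)).dim) =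
          ((i + d - A.dim : ℕ) : ℤ) := by
        simp only [Obj.dim_prod]
        push_cast [Nat.cast_sub h3]
        ring
      rw [h4] at h2
      exact h2
  · have h2 := C.push_mem (snd A (B.prod Z)) (C.mul_mem (C.pull_mem (u12 A B Z) hD)
        (C.pull_mem (u13 A B Z) hw))
    rw [C.gr_neg _ _ (by
      simp only [Obj.dim_prod]
      push_cast
      omega), Submodule.mem_bot] at h2
    rw [h2, mul_zero, map_zero, map_zero]

end Pool.Agent.Q219.UZ
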