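import Mathlib
import Pool.Agent.Q219.UZ.Corr
import Pool.Agent.W484.CH.Gen
import Pool.Agent.Q219.UZ.CohDefs
import Pool.Agent.Q219.UZ.Bound

/-!
# Duality and the Kunneth formula with degrees
-/

set_option autoImplicit false
set_option linter.unusedSectionVars false

open CategoryTheory AlgebraicGeometry

universe u v w

namespace Pool.Agent.Q219.UZ

open Module Polynomial Pool.Agent.H914 Pool.Agent.H914.VarClass Pool.Agent.H914.VarClass.Obj
  Pool.Agent.W492.BB Pool.Agent.W550.Corr Pool.Agent.W484.TB Pool.Agent.W484.CH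

variable {k : Type u} [Field k] {𝒱 : VarClass k} {C : TheoryData.{u, v, 0} 𝒱 ℚ} {K : Type w}
  [Field K] [CharZero K] {H : WeilTheoryData.{u, v, w} C K} [hC : IsChow C] [hH : IsWeil H]
  (hS : IsStandard H) {A B Z X : 𝒱.Obj}

include hS in
/-- The push-forward to `Z` of a class on `B` is a constant. -/
theorem exists_scalar_snd (Z : 𝒱.Obj) (y : H.A B) :
    ∃ c : K, H.push (snd B Z) (H.pull (fst B Z) y) = c • 1 := by
  refine homog_induction H.toTheoryData (p := fun y => ∃ c : K,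
    H.push (snd B Z) (H.pull (fst B Z) y) = c • 1) ?_ ?_ y
  · intro i h hi
    rcases lt_trichotomy i (2 * B.dim) with h1 | h1 | h1
    · refine ⟨0, ?_⟩
      have h2 := H.push_mem (snd B Z) (H.pull_mem (fst B Z) hi)
      rw [H.gr_neg _ _ (by
        rw [Obj.dim_prod]
        push_cast
        linarith)] at h2
      rw [(Submodule.mem_bot _).1 h2, zero_smul]
    · have h2 := H.push_mem (snd B Z) (H.pull_mem (fst B Z) hi)
      refine hS.coh_zero _ _ ?_
      rw [h1, Obj.dim_prod] at h2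
      push_cast at h2
      rw [show 2 * (B.dim : ℤ) + 2 * (Z.dim - (B.dim + Z.dim)) = 0 by ring] at h2
      exact h2
    · refine ⟨0, ?_⟩
      rw [hS.coh_top _ _ h1] at hi
      rw [(Submodule.mem_bot _).1 hi, map_zero, map_zero, zero_smul]
  · rintro a b ⟨c, hc⟩ ⟨d, hd⟩
    exact ⟨c + d, by rw [map_add, map_add, hc, hd, add_smul]⟩

include hS in
/-- The constant is proportional to the orientation. -/
theorem exists_push_scalar (B Z : 𝒱.Obj) : ∃ τ : K, τ ≠ 0 ∧ ∀ y : H.A B,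
    H.push (snd B Z) (H.pull (fst B Z) y) = (τ * H.tr B y) • 1 := by
  obtain ⟨τ, hτ, htr⟩ := exists_tau hS B Z
  obtain ⟨z, hz⟩ : ∃ z : H.A Z, H.tr Z z ≠ 0 := by
    by_contra hcon
    push Not at hcon
    have := hS.nontrivial Z
    exact one_ne_zero (H.nondeg (1 : H.A Z) fun b => hcon _)
  refine ⟨τ⁻¹, inv_ne_zero hτ, fun y => ?_⟩
  obtain ⟨c, hc⟩ := exists_scalar_snd hS Z y
  have h1 := htr y z
  rw [TheoryData.ext, tr_snd, hc, smul_mul_assoc, one_mul, map_smul, smul_eq_mul] at h1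
  have h2 : c = τ⁻¹ * H.tr B y := by
    have h3 : (τ * c) * H.tr Z z = H.tr B y * H.tr Z z := by rw [mul_assoc, h1]
    have h4 := mul_right_cancel₀ hz h3
    rw [← h4, ← mul_assoc, inv_mul_cancel₀ hτ, one_mul]
  rw [hc, h2]

include hS in
/-- The orientation vanishes outside of the top degree. -/
theorem tr_eq_zero {i : ℤ} (hi : i ≠ 2 * B.dim) {y : H.A B} (hy : y ∈ H.gr B i) :
    H.tr B y = 0 := by
  rcases lt_or_gt_of_ne hi with h1 | h1
  · refine tr_eq_zero_of_push B ?_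
    have h2 := H.push_mem (snd B B) (H.pull_mem (fst B B) hy)
    rw [H.gr_neg _ _ (by
      rw [Obj.dim_prod]
      push_cast
      linarith)] at h2
    exact (Submodule.mem_bot _).1 h2
  · rw [hS.coh_top _ _ h1] at hy
    rw [(Submodule.mem_bot _).1 hy, map_zero]

include hS in
/-- The linear forms are given by elements. -/
theorem exists_rep (B : 𝒱.Obj) (ℓ : H.A B →ₗ[K] K) : ∃ x : H.A B, ∀ y, H.tr B (x * y) = ℓ y := by
  have := hS.finite B
  let Φ : H.A B →ₗ[K] Dual K (H.A B) := LinearMap.compr₂ (LinearMap.mul K (H.A B)) (H.tr B)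
  have hΦ : ∀ x y, Φ x y = H.tr B (x * y) := fun _ _ => rfl
  have hinj : Function.Injective Φ := by
    rw [injective_iff_map_eq_zero]
    intro x hx
    apply H.nondeg
    intro y
    rw [← hΦ, hx, LinearMap.zero_apply]
  have hsurj : Function.Surjective Φ := by
    refine (LinearMap.injective_iff_surjective_of_finrank_eq_finrank ?_).1 hinj
    rw [Subspace.dual_finrank_eq]
  obtain ⟨x, hx⟩ := hsurj ℓ
  exact ⟨x, fun y => by rw [← hΦ, hx]⟩

include hS in
/-- Nondegeneracy on the other side. -/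
theorem exists_left {u : H.A B} (hu : u ≠ 0) : ∃ y : H.A B, H.tr B (y * u) = 1 := by
  obtain ⟨ℓ, hℓ⟩ : ∃ ℓ : Dual K (H.A B), ℓ u ≠ 0 := by
    by_contra hcon
    push Not at hcon
    exact hu ((Module.forall_dual_apply_eq_zero_iff K u).1 hcon)
  obtain ⟨x, hx⟩ := exists_rep hS B ((ℓ u)⁻¹ • ℓ)
  refine ⟨x, ?_⟩
  rw [hx, LinearMap.smul_apply, smul_eq_mul, inv_mul_cancel₀ hℓ]

theorem tr_deg {π : B ⟶ B} {Q : ℕ} (hπ : HasFrobDegree C π Q) (c : H.A B) :
    H.tr B (H.pull π c) = (Q : K) ^ B.dim * H.tr B c := by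
  have h0 : H.push π 1 = (Q : K) ^ B.dim • (1 : H.A B) := by
    have h1 : C.push π 1 = (Q : ℚ) ^ B.dim • (1 : C.A B) := hπ
    have h2 := H.cl_push π 1
    rw [h1, cl_smul, map_one (H.cl (X := B))] at h2
    rw [← h2]
    push_cast
    rfl
  have h1 := H.proj_right π 1 c
  rw [one_mul, h0, smul_mul_assoc, one_mul] at h1
  rw [← H.tr_push π, h1, map_smul, smul_eq_mul]

section dual

variable {π : B ⟶ B} {Q : ℕ} (hQ : Q ≠ 0) (hπ : HasFrobDegree C π Q)

include hQ hπ in
/-- Frobenius is injective. -/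
theorem eigen_ne_zero {u : H.A B} (hu : u ≠ 0) {μ : K} (hμ : H.pull π u = μ • u) : μ ≠ 0 := by
  rintro rfl
  have hQK : (Q : K) ≠ 0 := by exact_mod_cast hQ
  apply hu
  apply H.nondeg
  intro c
  have h1 := tr_deg hπ (u * c)
  rw [map_mul, hμ, zero_smul, zero_mul, map_zero] at h1
  exact (mul_eq_zero.1 h1.symm).resolve_left (pow_ne_zero _ hQK)

include hQ hπ hS in
/-- Dual eigenvectors. -/
theorem exists_dual_vec {r : ℕ} (b : Basis (Fin r) K (H.A B)) (α : Fin r → K)
    (hb : ∀ t, H.pull π (b t) = α t • b t) {u : H.A B} (hu : u ≠ 0) {μ : K}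
    (hμ : H.pull π u = μ • u) : ∃ u' : H.A B, H.tr B (u' * u) = 1 ∧
      H.pull π u' = ((Q : K) ^ B.dim / μ) • u' := by
  have hμ0 := eigen_ne_zero hQ hπ hu hμ
  obtain ⟨y, hy⟩ := exists_left hS hu
  obtain ⟨t, ht⟩ : ∃ t, H.tr B (b t * u) ≠ 0 := by
    by_contra hcon
    push Not at hcon
    have h1 : y = ∑ t, b.repr y t • b t := (b.sum_repr y).symm
    rw [h1, Finset.sum_mul, map_sum, Finset.sum_eq_zero] at hy
    · exact one_ne_zero hy.symm
    · intro t _
      rw [smul_mul_assoc, map_smul, hcon, smul_zero]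
  refine ⟨(H.tr B (b t * u))⁻¹ • b t, ?_, ?_⟩
  · rw [smul_mul_assoc, map_smul, smul_eq_mul, inv_mul_cancel₀ ht]
  · have h1 := tr_deg hπ (b t * u)
    rw [map_mul, hb, hμ, smul_mul_smul_comm, map_smul, smul_eq_mul] at h1
    have h2 := mul_right_cancel₀ ht h1
    have h3 : α t = (Q : K) ^ B.dim / μ := by
      rw [eq_div_iff hμ0, h2]
    rw [map_smul, hb, h3, smul_comm]

include hQ hπ hS in
/-- The dual basis. -/
theorem exists_dual_basis {r : ℕ} (b : Basis (Fin r) K (H.A B)) (α : Fin r → K)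
    (hb : ∀ t, H.pull π (b t) = α t • b t) : ∃ b' : Fin r → H.A B,
      (∀ t t', H.tr B (b' t * b t') = if t' = t then 1 else 0) ∧
      ∀ t, H.pull π (b' t) = ((Q : K) ^ B.dim / α t) • b' t := by
  have hex : ∀ t, ∃ x : H.A B, ∀ y, H.tr B (x * y) = b.coord t y := fun t =>
    exists_rep hS B (b.coord t)
  choose b' hb' using hex
  have hpair : ∀ t t', H.tr B (b' t * b t') = if t' = t then 1 else 0 := by
    intro t t'
    rw [hb', Basis.coord_apply, Basis.repr_self, Finsupp.single_apply]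
  refine ⟨b', hpair, fun t => ?_⟩
  have hα : ∀ t, α t ≠ 0 := fun t => eigen_ne_zero hQ hπ (b.ne_zero t) (hb t)
  rw [← sub_eq_zero]
  apply H.nondeg
  intro y
  have h1 : ∀ s, H.tr B ((H.pull π (b' t) - ((Q : K) ^ B.dim / α t) • b' t) * b s) = 0 := by
    intro s
    have h2 : H.pull π (b' t) * b s = (α s)⁻¹ • H.pull π (b' t * b s) := by
      rw [map_mul, hb, mul_smul_comm, smul_smul, inv_mul_cancel₀ (hα s), one_smul]
    rw [sub_mul, map_sub, h2, map_smul, tr_deg hπ, smul_mul_assoc, map_smul, hpair, smul_eq_mul,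
      smul_eq_mul]
    by_cases hst : s = t
    · subst hst
      rw [if_pos rfl]
      field_simp
      ring
    · rw [if_neg hst]
      ring
  have h2 : y = ∑ s, b.repr y s • b s := (b.sum_repr y).symm
  rw [h2, Finset.mul_sum, map_sum]
  refine Finset.sum_eq_zero fun s _ => ?_
  rw [mul_smul_comm, map_smul, h1, smul_zero]

end dual

/-- **The Kunneth formula with degrees.** -/
theorem kunneth_deg {r : ℕ} (b : Basis (Fin r) K (H.A A)) (l : Fin r → ℤ)
    (hl : ∀ t, b t ∈ H.gr A (l t)) {m : ℤ} {w : H.A (A.prod Z)} (hw : w ∈ H.gr (A.prod Z) m) :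
    ∃ h : Fin r → H.A Z, w = ∑ t, H.ext (b t) (h t) ∧ ∀ t, h t ∈ H.gr Z (m - l t) := by
  classical
  have h1 := H.kunneth A Z m hw
  clear hw
  induction h1 using Submodule.span_induction with
  | mem x hx =>
    obtain ⟨l0, a, c, ha, hc, rfl⟩ := hx
    have h2 : a = ∑ t, b.repr a t • b t := (b.sum_repr a).symm
    -- only basis elements of the same degree occur
    have h3 : ∀ t, l t ≠ l0 → b.repr a t = 0 := by
      have hi := (H.isInternal A).submodule_iSupIndep l0
      have e1 : a - ∑ t with l t = l0, b.repr a t • b t = ∑ t with l t ≠ l0, b.repr a t • b t := by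
        rw [sub_eq_iff_eq_add']
        conv_lhs => rw [h2]
        exact (Finset.sum_filter_add_sum_filter_not _ _ _).symm
      have m1 : a - ∑ t with l t = l0, b.repr a t • b t ∈ H.gr A l0 := by
        refine Submodule.sub_mem _ ha (Submodule.sum_mem _ fun t ht => Submodule.smul_mem _ _ ?_)
        have h4 := hl t
        rwa [(Finset.mem_filter.1 ht).2] at h4
      have m2 : ∑ t with l t ≠ l0, b.repr a t • b t ∈ ⨆ j ≠ l0, H.gr A j := by
        refine Submodule.sum_mem _ fun t ht => Submodule.smul_mem _ _ ?_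
        exact Submodule.mem_iSup_of_mem (l t) (Submodule.mem_iSup_of_mem
          (Finset.mem_filter.1 ht).2 (hl t))
      have h4 : ∑ t with l t ≠ l0, b.repr a t • b t = 0 := by
        rw [e1] at m1
        exact Submodule.disjoint_def.1 hi _ m1 m2
      intro t ht
      have h5 := linearIndependent_iff'.1 b.linearIndependent _ _ h4 t (by
        rw [Finset.mem_filter]
        exact ⟨Finset.mem_univ _, ht⟩)
      exact h5
    refine ⟨fun t => b.repr a t • c, ?_, fun t => ?_⟩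
    · conv_lhs => rw [h2, map_sum, Finset.sum_mul]
      refine Finset.sum_congr rfl fun t _ => ?_
      rw [map_smul, smul_mul_assoc, ext_smul_right]
      rfl
    · by_cases ht : l t = l0
      · rw [ht]
        exact Submodule.smul_mem _ _ hc
      · change b.repr a t • c ∈ _
        rw [h3 t ht, zero_smul]
        exact Submodule.zero_mem _
  | zero => exact ⟨0, by simp [TheoryData.ext], fun t => Submodule.zero_mem _⟩
  | add x y _ _ hx hy =>
    obtain ⟨h, hh, hd⟩ := hx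
    obtain ⟨h', hh', hd'⟩ := hy
    refine ⟨h + h', ?_, fun t => Submodule.add_mem _ (hd t) (hd' t)⟩
    rw [hh, hh', ← Finset.sum_add_distrib]
    exact Finset.sum_congr rfl fun t _ => (ext_add_right _ _ _).symm
  | smul c x _ hx =>
    obtain ⟨h, hh, hd⟩ := hx
    refine ⟨c • h, ?_, fun t => Submodule.smul_mem _ _ (hd t)⟩
    rw [hh, Finset.smul_sum]
    exact Finset.sum_congr rfl fun t _ => (ext_smul_right _ _ _).symm

section eig

variable {V : Type*} [AddCommGroup V] [Module K V]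

/-- Eigenvectors in a stable subspace. -/
theorem exists_eigen_deg (φ : V →ₗ[K] V) (W : Submodule K V) (hW : ∀ v ∈ W, φ v ∈ W) (α μ : K)
    (hμ : μ ≠ 0) (m : ℕ) (h : V) (hh : h ∈ W) (h0 : h ≠ 0)
    (hk : ((α • φ - μ • (1 : Module.End K V)) ^ m) h = 0) :
    α ≠ 0 ∧ ∃ v ∈ W, v ≠ 0 ∧ φ v = (μ / α) • v := by
  have h1 : ∀ (n : ℕ) (x : W), ((((α • φ.restrict hW - μ • (1 : Module.End K W)) ^ n) x : W) : V) =
      ((α • φ - μ • (1 : Module.End K V)) ^ n) (x : V) := by
    intro n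
    induction n with
    | zero => intro x; simp
    | succ n ih =>
      intro x
      rw [pow_succ, Module.End.mul_apply, ih, pow_succ, Module.End.mul_apply]
      congr 1
  obtain ⟨hα, v, hv0, hv⟩ := exists_eigen (φ.restrict hW) α μ hμ m ⟨h, hh⟩
    (by
      intro h2
      exact h0 (congrArg Subtype.val h2)) (by
      apply Subtype.ext
      rw [h1]
      exact hk)
  refine ⟨hα, v, v.2, ?_, ?_⟩
  · intro h2
    exact hv0 (Subtype.ext h2)
  · exact congrArg Subtype.val hv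

/-- Eigenvectors for a power. -/
theorem exists_eigen_pow [IsAlgClosed K] [FiniteDimensional K V] (φ : V →ₗ[K] V)
    (W : Submodule K V) (hW : ∀ v ∈ W, φ v ∈ W) (r : ℕ) (α μ : K)
    (hμ : μ ≠ 0) (m : ℕ) (h : V) (hh : h ∈ W) (h0 : h ≠ 0)
    (hk : ((α • φ ^ r - μ • (1 : Module.End K V)) ^ m) h = 0) :
    α ≠ 0 ∧ ∃ (ρ : K) (v : V), v ∈ W ∧ v ≠ 0 ∧ φ v = ρ • v ∧ α * ρ ^ r = μ := by
  have hWr : ∀ (r : ℕ), ∀ v ∈ W, (φ ^ r) v ∈ W := by
    intro r
    induction r with
    | zero => intro v hv; simpa using hv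
    | succ r ih =>
      intro v hv
      rw [pow_succ', Module.End.mul_apply]
      exact hW _ (ih v hv)
  obtain ⟨hα, v, hv, hv0, hev⟩ := exists_eigen_deg (φ ^ r) W (hWr r) α μ hμ m h hh h0 hk
  refine ⟨hα, ?_⟩
  -- the eigenspace of the power in `W`
  let U : Submodule K V := W ⊓ LinearMap.ker (φ ^ r - (μ / α) • (1 : Module.End K V))
  have hU : ∀ x, x ∈ U ↔ x ∈ W ∧ (φ ^ r) x = (μ / α) • x := by
    intro x
    rw [Submodule.mem_inf, LinearMap.mem_ker, LinearMap.sub_apply, LinearMap.smul_apply,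
      Module.End.one_apply, sub_eq_zero]
  have hUφ : ∀ x ∈ U, φ x ∈ U := by
    intro x hx
    rw [hU] at hx ⊢
    refine ⟨hW x hx.1, ?_⟩
    rw [← Module.End.mul_apply, ← pow_succ, pow_succ', Module.End.mul_apply, hx.2, map_smul]
  have hne : Nontrivial U := ⟨⟨⟨v, (hU v).2 ⟨hv, hev⟩⟩, 0, fun h1 => hv0 (congrArg Subtype.val h1)⟩⟩
  obtain ⟨ρ, hρ⟩ := Module.End.exists_eigenvalue (φ.restrict hUφ)
  obtain ⟨x, hx⟩ := hρ.exists_hasEigenvector
  have hx1 : φ (x : V) = ρ • (x : V) := congrArg Subtype.val hx.apply_eq_smul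
  have hx0 : (x : V) ≠ 0 := fun h1 => hx.2 (Subtype.ext h1)
  refine ⟨ρ, x, ((hU _).1 x.2).1, hx0, hx1, ?_⟩
  have h1 : ∀ r : ℕ, (φ ^ r) (x : V) = ρ ^ r • (x : V) := by
    intro r
    induction r with
    | zero => simp
    | succ r ih => rw [pow_succ', Module.End.mul_apply, ih, map_smul, hx1, smul_smul, pow_succ]
  have h2 := ((hU _).1 x.2).2
  rw [h1 r] at h2
  have h3 : ρ ^ r = μ / α := smul_left_injective K hx0 h2
  rw [h3, mul_div_cancel₀ _ hα]

end eig

section level

variable {π : Z ⟶ Z} {Q : ℕ} (hQ : Q ≠ 0) (hπ : HasFrobDegree C π Q)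

include hQ hπ hS in
/-- **Duality of the eigenvalues.** -/
theorem exists_dual_eigen {w : ℤ} {v : H.A Z} (hv : v ∈ H.gr Z w) (hv0 : v ≠ 0) {ρ : K}
    (hρ : H.pull π v = ρ • v) : ∃ v' ∈ H.gr Z (2 * Z.dim - w), v' ≠ 0 ∧
      H.pull π v' = ((Q : K) ^ Z.dim / ρ) • v' := by
  have hρ0 := eigen_ne_zero hQ hπ hv0 hρ
  by_contra hcon
  push Not at hcon
  set W := H.gr Z (2 * Z.dim - w) with hWdef
  have hW : ∀ v ∈ W, frob H π v ∈ W := fun v hv => H.pull_mem π hv
  have hfin := hS.finite Z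
  set μ := (Q : K) ^ Z.dim / ρ with hμ
  let ψ : Module.End K W := (frob H π).restrict hW - μ • 1
  have hψ : ∀ x : W, ((ψ x : W) : H.A Z) = H.pull π (x : H.A Z) - μ • (x : H.A Z) := fun x => rfl
  have hinj : Function.Injective ψ := by
    rw [injective_iff_map_eq_zero]
    intro x hx
    by_contra hx0
    refine hcon x x.2 ?_ ?_
    · intro h2
      exact hx0 (Subtype.ext h2)
    · have h2 := congrArg Subtype.val hx
      rw [hψ] at h2
      exact sub_eq_zero.1 h2
  have hsurj : Function.Surjective ψ := LinearMap.injective_iff_surjective.1 hinj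
  apply hv0
  apply H.nondeg
  intro y
  refine homog_induction H.toTheoryData (p := fun y => H.tr Z (v * y) = 0) ?_ ?_ y
  · intro i a ha
    by_cases hi : i = 2 * Z.dim - w
    · obtain ⟨x, hx⟩ := hsurj ⟨a, by rw [hWdef, ← hi]; exact ha⟩
      have h3 : a = H.pull π (x : H.A Z) - μ • (x : H.A Z) := by
        rw [← hψ, hx]
      have h4 : v * H.pull π (x : H.A Z) = ρ⁻¹ • H.pull π (v * (x : H.A Z)) := by
        rw [map_mul, hρ, smul_mul_assoc, smul_smul, inv_mul_cancel₀ hρ0, one_smul]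
      change H.tr Z (v * a) = 0
      rw [h3, mul_sub, map_sub, h4, map_smul, tr_deg hπ, mul_smul_comm, map_smul, hμ, smul_eq_mul,
        smul_eq_mul]
      field_simp
      ring
    · refine tr_eq_zero hS ?_ (H.mul_mem hv ha)
      intro h2
      apply hi
      linarith
  · intro a b ha hb
    rw [mul_add, map_add, ha, hb, add_zero]

include hQ hπ hS in
/-- **Weights and levels.** -/
theorem levels (hpure : IsPure H π Q) {w : ℕ} {v : H.A Z} (hv : v ∈ H.gr Z w) (hv0 : v ≠ 0)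
    {ρ : K} (hρ : H.pull π v = ρ • v) : IsWeilNumber Q w ρ ∧ w ≤ 2 * Z.dim ∧
      HasLevel Q w w ρ ∧ HasLevel Q w (2 * Z.dim - w) ρ := by
  have hρ0 := eigen_ne_zero hQ hπ hv0 hρ
  have hQK : (Q : K) ≠ 0 := by exact_mod_cast hQ
  have hw : w ≤ 2 * Z.dim := by
    by_contra hcon
    push Not at hcon
    rw [hS.coh_top Z w (by exact_mod_cast hcon)] at hv
    exact hv0 ((Submodule.mem_bot _).1 hv)
  have h1 := hpure w ρ v hv hv0 hρ
  have hint : IsIntegral ℤ ρ := by
    obtain ⟨χ, h2, h3, -⟩ := h1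
    exact ⟨χ, h2, h3⟩
  refine ⟨h1, hw, ⟨1, 0, ρ, one_pos, hint, by rw [pow_one, pow_zero, one_mul], by simp⟩, ?_⟩
  rcases le_or_gt Z.dim w with h4 | h4
  · obtain ⟨v', hv', hv'0, hρ'⟩ := exists_dual_eigen hS hQ hπ hv hv0 hρ
    have h5 : (2 * (Z.dim : ℤ) - w) = ((2 * Z.dim - w : ℕ) : ℤ) := by
      rw [Nat.cast_sub hw]
      push_cast
      ring
    rw [h5] at hv'
    have h6 := dual_integral hQ (hpure _ _ v' hv' hv'0 hρ')
    refine ⟨1, w - Z.dim, _, one_pos, h6, ?_, ?_⟩
    · rw [pow_one]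
      have h7 : (Q : K) ^ (w - Z.dim) * (Q : K) ^ (2 * Z.dim - w) = (Q : K) ^ Z.dim := by
        rw [← pow_add]
        congr 1
        omega
      rw [div_div_eq_mul_div, ← mul_div_assoc, ← mul_assoc, h7,
        mul_div_cancel_left₀ _ (pow_ne_zero _ hQK)]
    · rw [Nat.cast_sub h4]
      push_cast
      linarith
  · refine ⟨1, 0, ρ, one_pos, hint, by rw [pow_one, pow_zero, one_mul], ?_⟩
    have h5 : (w : ℝ) < Z.dim := by exact_mod_cast h4
    push_cast
    linarith

include hQ hπ hS in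
/-- The level is at most the dimension. -/
theorem levelLE_dim (hpure : IsPure H π Q) : LevelLE H π Q Z.dim := by
  intro w ρ v hv hv0 hρ
  obtain ⟨-, hw, h1, h2⟩ := levels hS hQ hπ hpure hv hv0 hρ
  rcases le_total w Z.dim with h | h
  · obtain ⟨k, b, ρ', hk, h3, h4, h5⟩ := h1
    refine ⟨k, b, ρ', hk, h3, h4, le_trans ?_ h5⟩
    have h6 : (w : ℝ) ≤ Z.dim := by exact_mod_cast h
    have hk0 : (0 : ℝ) < k := by exact_mod_cast hk
    exact mul_le_mul_of_nonneg_right (by linarith) hk0.le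
  · obtain ⟨k, b, ρ', hk, h3, h4, h5⟩ := h2
    refine ⟨k, b, ρ', hk, h3, h4, le_trans ?_ h5⟩
    have h6 : (Z.dim : ℝ) ≤ w := by exact_mod_cast h
    have hk0 : (0 : ℝ) < k := by exact_mod_cast hk
    exact mul_le_mul_of_nonneg_right (by linarith) hk0.le

end level

end Pool.Agent.Q219.UZ
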