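import Mathlib
import Pool.Agent.W484.CH.Eig

/-!
# Removal of pairs from lists
-/

set_option autoImplicit false

namespace Pool.Agent.Q219.UZ

open Pool.Agent.W484.AA Pool.Agent.W484.BB Pool.Agent.W484.HS

/-- Removal of the pairs with product `Q`. -/
theorem reduce_list {X K : Type*} [Field K] (val : X → K) (Q : K) :
    ∀ (n : ℕ) (ys : List X), ys.length = n → ∃ (i : ℕ) (zs : List X),
      ys.length = 2 * i + zs.length ∧ (ys.map val).prod = Q ^ i * (zs.map val).prod ∧
      zs.Pairwise (fun y y' => val y * val y' ≠ Q) := by
  intro n
  induction n using Nat.strong_induction_on with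
  | _ n ih =>
    intro ys hlen
    by_cases h : ys.Pairwise (fun y y' => val y * val y' ≠ Q)
    · exact ⟨0, ys, by omega, by rw [pow_zero, one_mul], h⟩
    · obtain ⟨e, e', L', hperm, hgood⟩ := exists_of_not_pairwise _ ys h
      rw [not_not] at hgood
      have hlen' : ys.length = L'.length + 2 := by
        have h2 := hperm.length_eq
        rw [List.length_cons, List.length_cons] at h2
        omega
      obtain ⟨i, zs, h1, h2, h3⟩ := ih L'.length (by omega) L' rfl
      refine ⟨i + 1, zs, by omega, ?_, h3⟩
      rw [(hperm.map val).prod_eq, List.map_cons, List.prod_cons, List.map_cons, List.prod_cons,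
        ← mul_assoc, hgood, h2, pow_succ', mul_assoc]

end Pool.Agent.Q219.UZ
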