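import Mathlib
import Pool.Agent.Q219.UZ.PowDefs
import Pool.Agent.Q219.UZ.Coh
import Pool.Agent.Q219.UZ.Red

/-!
# Eigenvectors in the cohomology of powers
-/

set_option autoImplicit false
set_option linter.unusedSectionVars false

open CategoryTheory AlgebraicGeometry

universe u v w

namespace Pool.Agent.Q219.UZ

open Module Polynomial Pool.Agent.H914 Pool.Agent.H914.VarClass Pool.Agent.H914.VarClass.Obj
  Pool.Agent.W492.BB Pool.Agent.W550.Corr Pool.Agent.W484.TB Pool.Agent.W484.CH
  Pool.Agent.W484.HS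

variable {k : Type u} [Field k] {𝒱 : VarClass k} {C : TheoryData.{u, v, 0} 𝒱 ℚ} {K : Type w}
  [Field K] [CharZero K] {H : WeilTheoryData.{u, v, w} C K} [hC : IsChow C] [hH : IsWeil H]
  (hS : IsStandard H) {A B Z X : 𝒱.Obj}

include hS in
theorem ext_ne_zero {a : H.A A} {h : H.A Z} (ha : a ≠ 0) (hh : h ≠ 0) : H.ext a h ≠ 0 := by
  intro h0
  obtain ⟨a', ha'⟩ := exists_left hS ha
  obtain ⟨τ, hτ, htr⟩ := exists_tau hS A Z
  apply hh
  apply H.nondeg
  intro h'
  have h1 : H.pull (fst A Z) a' * H.ext a h * H.pull (snd A Z) h' = H.ext (a' * a) (h * h') := by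
    rw [TheoryData.ext, TheoryData.ext, map_mul, map_mul, mul_assoc, mul_assoc, mul_assoc]
  have h2 := htr (a' * a) (h * h')
  rw [← h1, h0, mul_zero, zero_mul, map_zero, mul_zero, ha', one_mul] at h2
  exact h2.symm

theorem ext_mem {a : H.A A} {h : H.A Z} {i j : ℤ} (ha : a ∈ H.gr A i) (hh : h ∈ H.gr Z j) :
    H.ext a h ∈ H.gr (A.prod Z) (i + j) :=
  H.mul_mem (H.pull_mem _ ha) (H.pull_mem _ hh)

include hS in
/-- **Eigenvectors in the cohomology of powers.** -/
theorem exists_vec {π : X ⟶ X} {s : ℕ} {I : Type} {f : I → ℤ[X]} (hroots : HasRoots H π s f) :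
    ∀ (N : ℕ) (zs : List {z : K // ∃ i, aeval z (f i) = 0}), zs.length ≤ N + 1 →
      ∃ u : H.A (pw X N), u ≠ 0 ∧ u ∈ H.gr (pw X N) zs.length ∧ H.pull (pwMap π N) u =
        (zs.map fun z : {z : K // ∃ i, aeval z (f i) = 0} => (z : K) ^ s).prod • u := by
  have hone : ∀ N, ∃ u : H.A (pw X N), u ≠ 0 ∧
      u ∈ H.gr (pw X N) (([] : List {z : K // ∃ i, aeval z (f i) = 0}).length : ℤ) ∧
      H.pull (pwMap π N) u = ((([] : List {z : K // ∃ i, aeval z (f i) = 0}).map
        fun z : {z : K // ∃ i, aeval z (f i) = 0} => (z : K) ^ s).prod) • u := by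
    intro N
    have := hS.nontrivial (pw X N)
    refine ⟨1, one_ne_zero, ?_, ?_⟩
    · simpa using H.one_mem (pw X N)
    · rw [map_one, List.map_nil, List.prod_nil, one_smul]
  intro N
  induction N with
  | zero =>
    intro zs hzs
    match zs, hzs with
    | [], _ => exact hone 0
    | [z], _ =>
      obtain ⟨i, hi⟩ := z.2
      obtain ⟨v, h1, h2, h3⟩ := hroots i z hi
      have key : ∃ u' : H.A X, u' ≠ 0 ∧ u' ∈ H.gr X (([z] : List _).length : ℤ) ∧
          H.pull π u' = (([z] : List {z : K // ∃ i, aeval z (f i) = 0}).map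
            fun z : {z : K // ∃ i, aeval z (f i) = 0} => (z : K) ^ s).prod • u' := by
        refine ⟨v, h2, ?_, ?_⟩
        · simpa using h1
        · rw [List.map_cons, List.map_nil, List.prod_cons, List.prod_nil, mul_one]
          exact h3
      exact key
  | succ N ih =>
    intro zs hzs
    match zs, hzs with
    | [], _ => exact hone (N + 1)
    | z :: zs, hzs =>
      obtain ⟨i, hi⟩ := z.2
      obtain ⟨v, h1, h2, h3⟩ := hroots i z hi
      obtain ⟨u, h4, h5, h6⟩ := ih zs (by
        rw [List.length_cons] at hzs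
        omega)
      have key : ∃ u' : H.A (X.prod (pw X N)), u' ≠ 0 ∧
          u' ∈ H.gr (X.prod (pw X N)) ((z :: zs).length : ℤ) ∧
          H.pull (prodMap π (pwMap π N)) u' = ((z :: zs).map
            fun z : {z : K // ∃ i, aeval z (f i) = 0} => (z : K) ^ s).prod • u' := by
        refine ⟨H.ext v u, ext_ne_zero hS h2 h4, ?_, ?_⟩
        · have h7 := ext_mem h1 h5
          rw [List.length_cons]
          push_cast
          rwa [add_comm]
        · have h8 : H.pull π v = (z : K) ^ s • v := h3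
          rw [pull_prodMap_ext, h8, h6, ext_smul_left, ext_smul_right, ext_smul_right, smul_smul,
            List.map_cons, List.prod_cons]
      exact key

/-- An eigenbasis with lists of roots. -/
theorem exists_list_eigenbasis (hS : IsStandard H) {q s : ℕ} {I : Type} {f : I → ℤ[X]}
    {πA : A ⟶ A} (hA : IsAbelianFor H πA q s f) :
    ∃ (n : ℕ) (b : Basis (Fin n) K (H.A A))
      (L : Fin n → List (H.A A × {z : K // ∃ i, aeval z (f i) = 0})),
      (∀ t, ∀ e ∈ L t, e.1 ∈ H.gr A 1 ∧ H.pull πA e.1 = (e.2 : K) ^ s • e.1) ∧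
      (∀ t, b t = ((L t).map Prod.fst).prod) ∧
      ∀ t, b t ∈ H.gr A ((L t).map Prod.snd).length ∧ H.pull πA (b t) =
        (((L t).map Prod.snd).map fun z : {z : K // ∃ i, aeval z (f i) = 0} =>
          (z : K) ^ s).prod • b t := by
  have hfin := hS.finite A
  let val : {z : K // ∃ i, aeval z (f i) = 0} → K := fun z => (z : K) ^ s
  have hU : Submodule.span K {v : H.A A | v ∈ H.gr A 1 ∧ ∃ y, H.pull πA v = val y • v} =
      H.gr A 1 := by
    refine Eq.trans ?_ hA.isSpanned
    congr 1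
    ext v
    constructor
    · rintro ⟨h1, ⟨z, i, hz⟩, h2⟩
      exact ⟨h1, i, z, hz, h2⟩
    · rintro ⟨h1, i, z, hz, h2⟩
      exact ⟨h1, ⟨z, i, hz⟩, h2⟩
  obtain ⟨n, b, α, hb⟩ := exists_basis (H.pull πA) val (H.gr A 1) hU hA.isGenerated
  choose h1 L hL1 hL2 hL3 using hb
  refine ⟨n, b, L, hL1, hL2, fun t => ⟨?_, ?_⟩⟩
  · rw [List.length_map, hL2 t]
    have h2 : ∀ L : List (H.A A × {z : K // ∃ i, aeval z (f i) = 0}),
        (∀ e ∈ L, e.1 ∈ H.gr A 1 ∧ H.pull πA e.1 = val e.2 • e.1) →
        (L.map Prod.fst).prod ∈ H.gr A L.length := by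
      intro L
      induction L with
      | nil => intro _; simpa using H.one_mem A
      | cons a L ih =>
        intro hL
        rw [List.map_cons, List.prod_cons, List.length_cons]
        have h2 := H.mul_mem (hL a (by simp)).1 (ih fun e he => hL e (by simp [he]))
        push_cast
        rwa [add_comm]
    exact h2 (L t) (hL1 t)
  · rw [h1 t, hL3 t, List.map_map]
    rfl

end Pool.Agent.Q219.UZ
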