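import Mathlib
import Pool.Agent.Q219.UZ.Pow

/-!
# Transfer between `A × Z` and `X ^ N × Z`
-/

set_option autoImplicit false
set_option linter.unusedSectionVars false

open CategoryTheory AlgebraicGeometry

universe u v w

namespace Pool.Agent.Q219.UZ

open Module Polynomial Pool.Agent.H914 Pool.Agent.H914.VarClass Pool.Agent.H914.VarClass.Obj
  Pool.Agent.W492.BB Pool.Agent.W550.Corr Pool.Agent.W484.TB Pool.Agent.W484.CH
  Pool.Agent.W484.HS

variable {k : Type u} [Field k] {𝒱 : VarClass k} {C : TheoryData.{u, v, 0} 𝒱 ℚ} {K : Type w}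
  [Field K] [CharZero K] {H : WeilTheoryData.{u, v, w} C K} [hC : IsChow C] [hH : IsWeil H]
  {A B Z X : 𝒱.Obj} {I : Type} {f : I → ℤ[X]} {q s : ℕ} {δ : ℝ}

/-- The product of the `s`-th powers of the roots in a list. -/
def rootProd (s : ℕ) (ys : List {z : K // ∃ i, aeval z (f i) = 0}) : K :=
  (ys.map fun z : {z : K // ∃ i, aeval z (f i) = 0} => (z : K) ^ s).prod

/-- **The nonzero components of a Tate class.** -/
theorem component [IsAlgClosed K] (hS : IsStandard H) (hB : BoundedAt f q s δ) (hδ0 : 0 < δ) (hδ1 : δ ≤ 1)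
    (hq : 1 < q) {N : ℕ} {e : ℝ} (heN : e < (N + 1) * δ) {πZ : Z ⟶ Z}
    (hZ : HasFrobDegree C πZ (q ^ s)) (hpure : IsPure H πZ (q ^ s))
    (hlev : LevelLE H πZ (q ^ s) e) (r : ℕ) (hr : 0 < r)
    (ys : List {z : K // ∃ i, aeval z (f i) = 0}) (c m : ℕ)
    (h : H.A Z) (hdeg : h ∈ H.gr Z (2 * c - ys.length)) (h0 : h ≠ 0)
    (hop : op (rootProd s ys ^ r • frob H πZ ^ r) ((((q ^ s : ℕ) : K) ^ c) ^ r) m h = 0) :
    ∃ (i c' : ℕ) (zs : List {z : K // ∃ i, aeval z (f i) = 0}), zs.length ≤ N ∧ i + c' = c ∧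
      rootProd s ys = ((q ^ s : ℕ) : K) ^ i * rootProd s zs ∧ ys.length = 2 * i + zs.length ∧
      2 * c' + ⌊e⌋₊ ≤ 2 * Z.dim + N := by
  have hQ0 : q ^ s ≠ 0 := pow_ne_zero _ (by omega)
  have hQK : ((q ^ s : ℕ) : K) ≠ 0 := by exact_mod_cast hQ0
  have hfin := hS.finite Z
  obtain ⟨hα', ρ, v, hv, hv0, hρ, hαρ⟩ := exists_eigen_pow (frob H πZ)
    (H.gr Z (2 * c - ys.length)) (fun v hv => H.pull_mem πZ hv) r (rootProd s ys ^ r)
    ((((q ^ s : ℕ) : K) ^ c) ^ r) (pow_ne_zero _ (pow_ne_zero _ hQK)) m h hdeg h0 hop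
  have hα : rootProd s ys ≠ 0 := fun h1 => hα' (by rw [h1, zero_pow hr.ne'])
  have hw0 : 0 ≤ 2 * (c : ℤ) - ys.length := by
    by_contra hcon
    push Not at hcon
    rw [H.gr_neg _ _ hcon] at hv
    exact hv0 ((Submodule.mem_bot _).1 hv)
  obtain ⟨w, hw⟩ := Int.eq_ofNat_of_zero_le hw0
  rw [hw] at hv
  obtain ⟨hW, hw2, -, hdual⟩ := levels hS hQ0 hZ hpure hv hv0 hρ
  have hl := hlev w ρ v hv hv0 hρ
  obtain ⟨i, zs, h1, h2, h3⟩ := reduce_list
    (fun z : {z : K // ∃ i, aeval z (f i) = 0} => (z : K) ^ s) ((q : K) ^ s) ys.length ys rfl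
  have h2' : rootProd s ys = ((q ^ s : ℕ) : K) ^ i * rootProd s zs := by
    push_cast
    exact h2
  have hzs0 : rootProd s zs ≠ 0 := by
    intro h4
    rw [h4, mul_zero] at h2'
    exact hα h2'
  have hqs : ((q ^ s : ℕ) : K) = (q : K) ^ s := by push_cast; rfl
  have hrel : ((zs.map fun z : {z : K // ∃ i, aeval z (f i) = 0} => (z : K) ^ s).prod * ρ) ^ r =
      (((q : K) ^ s) ^ ((c : ℤ) - i)) ^ r := by
    change (rootProd s zs * ρ) ^ r = _
    rw [← hqs, zpow_sub₀ hQK, zpow_natCast, zpow_natCast, div_pow,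
      eq_div_iff (pow_ne_zero _ (pow_ne_zero _ hQK)), ← hαρ, h2', mul_pow, mul_pow]
    ring
  obtain ⟨h4, h5⟩ := bound_field hB hW hl _ r hr zs hrel h3
  obtain ⟨-, h6⟩ := bound_field hB hW hdual _ r hr zs hrel h3
  have hci : 0 ≤ (c : ℤ) - i := by omega
  obtain ⟨c', hc'⟩ := Int.eq_ofNat_of_zero_le hci
  have hN : zs.length ≤ N := by
    by_contra hcon
    push Not at hcon
    have h7 : ((N : ℝ) + 1) ≤ zs.length := by exact_mod_cast hcon
    have h8 := mul_le_mul_of_nonneg_right h7 hδ0.le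
    linarith
  refine ⟨i, c', zs, hN, by omega, h2', h1, ?_⟩
  have h7 : 2 * c' = zs.length + w := by omega
  rw [h7]
  by_contra hcon
  push Not at hcon
  -- the degree is large
  have he0 : 0 ≤ e := by
    by_contra h8
    push Not at h8
    rw [Nat.floor_of_nonpos h8.le] at hcon
    omega
  have h8 : (⌊e⌋₊ : ℝ) ≤ e := Nat.floor_le he0
  have h9 : 2 * (Z.dim : ℝ) - w < ⌊e⌋₊ := by
    have h10 : 2 * Z.dim < w + ⌊e⌋₊ := by omega
    have h11 : (2 * (Z.dim : ℝ)) < w + ⌊e⌋₊ := by exact_mod_cast h10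
    linarith
  have h10 : ((2 * Z.dim + N + 1 : ℕ) : ℝ) ≤ ((zs.length + w + ⌊e⌋₊ : ℕ) : ℝ) := by
    exact_mod_cast hcon
  push_cast at h10
  -- `δ (n - k + ⌊e⌋) ≥ δ (N + 1) > e`
  have h11 : (N + 1) * δ ≤ (zs.length - (2 * (Z.dim : ℝ) - w) + ⌊e⌋₊) * δ :=
    mul_le_mul_of_nonneg_right (by linarith) hδ0.le
  have h12 : (zs.length - (2 * (Z.dim : ℝ) - w) + ⌊e⌋₊) * δ =
      zs.length * δ + (⌊e⌋₊ - (2 * (Z.dim : ℝ) - w)) * δ := by ring
  have h13 : (⌊e⌋₊ - (2 * (Z.dim : ℝ) - w)) * δ ≤ (⌊e⌋₊ - (2 * (Z.dim : ℝ) - w)) * 1 :=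
    mul_le_mul_of_nonneg_left hδ1 (by linarith)
  linarith

/-- The generalized Tate conjecture in codimension `c`, for generalized eigenvectors of order `m` of
the power `π ^ r`. -/
def GenTate (H : WeilTheoryData.{u, v, w} C K) (π : Z ⟶ Z) (Q r m c : ℕ) : Prop :=
  ∀ w ∈ H.gr Z (2 * c), op (frob H π ^ r) (((Q : K) ^ c) ^ r) m w = 0 → w ∈ cycSpan H Z c

theorem op_smul_smul {V : Type*} [AddCommGroup V] [Module K V] (φ : Module.End K V) (a μ ν : K)
    (r m : ℕ) (h : V) : op ((a * μ) ^ r • φ) ((a * ν) ^ r) m h =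
      (a ^ r) ^ m • op (μ ^ r • φ) (ν ^ r) m h := by
  have h1 : (a * μ) ^ r • φ - (a * ν) ^ r • (1 : Module.End K V) =
      a ^ r • (μ ^ r • φ - ν ^ r • 1) := by
    rw [smul_sub, smul_smul, smul_smul, mul_pow, mul_pow]
  rw [op, op, h1, _root_.smul_pow, LinearMap.smul_apply]

/-- Powers on external products with an eigenvector. -/
theorem frob_pow_ext {πB : B ⟶ B} {πZ : Z ⟶ Z} {u : H.A B} {μ : K} (hu : H.pull πB u = μ • u)
    (r : ℕ) (h : H.A Z) : (frob H (prodMap πB πZ) ^ r) (H.ext u h) =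
      H.ext u ((μ ^ r • frob H πZ ^ r) h) := by
  induction r with
  | zero => simp
  | succ r ih =>
    rw [pow_succ', Module.End.mul_apply, ih]
    change H.pull (prodMap πB πZ) _ = _
    rw [pull_prodMap_ext, hu, ext_smul_left, LinearMap.smul_apply, map_smul, LinearMap.smul_apply,
      smul_smul, pow_succ' (frob H πZ), Module.End.mul_apply, pow_succ' μ]
    rfl

/-- Operators which respect the components. -/
theorem op_sum_ext {ι : Type*} (S : Finset ι) (Φ : Module.End K (H.A (B.prod Z))) (b : ι → H.A B)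
    (Ψ : ι → Module.End K (H.A Z)) (hΦ : ∀ t h, Φ (H.ext (b t) h) = H.ext (b t) (Ψ t h)) (ν : K)
    (m : ℕ) (h : ι → H.A Z) : op Φ ν m (∑ t ∈ S, H.ext (b t) (h t)) =
      ∑ t ∈ S, H.ext (b t) (op (Ψ t) ν m (h t)) := by
  induction m generalizing h with
  | zero => simp [op]
  | succ m ih =>
    unfold op at ih ⊢
    have h1 : (Φ - ν • (1 : Module.End K (H.A (B.prod Z)))) (∑ t ∈ S, H.ext (b t) (h t)) =
        ∑ t ∈ S, H.ext (b t) ((Ψ t - ν • (1 : Module.End K (H.A Z))) (h t)) := by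
      rw [map_sum]
      refine Finset.sum_congr rfl fun t _ => ?_
      rw [LinearMap.sub_apply, LinearMap.smul_apply, Module.End.one_apply, LinearMap.sub_apply,
        LinearMap.smul_apply, Module.End.one_apply, hΦ, sub_eq_add_neg, sub_eq_add_neg,
        ext_add_right, ← neg_smul, ← neg_smul, ext_smul_right (-ν)]
    rw [pow_succ, Module.End.mul_apply, h1, ih]
    refine Finset.sum_congr rfl fun t _ => ?_
    rw [pow_succ, Module.End.mul_apply]

theorem op_ext_vec {πB : B ⟶ B} {πZ : Z ⟶ Z} {u : H.A B} {μ : K} (hu : H.pull πB u = μ • u)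
    (ν : K) (r m : ℕ) (h : H.A Z) : op (frob H (prodMap πB πZ) ^ r) ν m (H.ext u h) =
      H.ext u (op (μ ^ r • frob H πZ ^ r) ν m h) := by
  have h1 := op_sum_ext (H := H) (Finset.univ : Finset Unit) (frob H (prodMap πB πZ) ^ r)
    (fun _ => u) (fun _ => μ ^ r • frob H πZ ^ r) (fun _ h => frob_pow_ext hu r h) ν m (fun _ => h)
  simpa using h1

/-- The theorem for abelian varieties themselves: Tate classes are generated by divisors. -/
theorem eigen_mem_NK (hS : IsStandard H) (hB : BoundedAt f q s δ) (hδ0 : 0 < δ) (hq : 1 < q)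
    (hs : 0 < s) {πA : A ⟶ A} (hA : IsAbelianFor H πA q s f) {c : ℤ} {w : H.A A} (hw0 : w ≠ 0)
    (hw : H.pull πA w = ((q ^ s : ℕ) : K) ^ c • w) : ∃ l : ℕ, c = l ∧ w ∈ NK H A l := by
  have hqs : ((q ^ s : ℕ) : K) = (q : K) ^ s := by push_cast; rfl
  have hQ0 : (q : K) ^ s ≠ 0 := pow_ne_zero _ (by
    have : q ≠ 0 := by omega
    exact_mod_cast this)
  have hpair : ExactPairK (fun z : {z : K // ∃ i, aeval z (f i) = 0} => (z : K) ^ s)
      ((q : K) ^ s) 1 := by
    intro n c M hM hn ys hlen hrel hpw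
    have h1 : IsWeilNumber (K := K) (q ^ s) 0 1 := by
      refine ⟨Polynomial.X - 1, by
        have := Polynomial.monic_X_sub_C (1 : ℤ)
        rwa [map_one] at this, by simp, fun z hz => ?_⟩
      have h2 : z = 1 := by
        rwa [map_sub, aeval_X, map_one, sub_eq_zero] at hz
      rw [h2]
      simp
    have h2 : HasLevel (K := K) (q ^ s) 0 0 1 := ⟨1, 0, 1, one_pos, isIntegral_one, by simp, by simp⟩
    obtain ⟨-, h3⟩ := bound_field hB h1 h2 c M hM ys hrel hpw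
    rw [hlen] at h3
    have hn' : (0 : ℝ) < n := by exact_mod_cast hn
    have h4 := mul_pos hn' hδ0
    linarith
  obtain ⟨n, b, L, hL1, hL2, hL3⟩ := exists_list_eigenbasis hS hA
  have hQ1 : 1 < q ^ s := Nat.one_lt_pow hs.ne' hq
  have h1 : ∀ t, b.repr w t ≠ 0 → ∃ l : ℕ, c = l ∧ b t ∈ NK H A l := by
    intro t ht
    have h2 : ((L t).map fun e => (e.2 : K) ^ s).prod = ((q : K) ^ s) ^ c := by
      have h3 := congrArg (fun x => b.repr x t) hw
      have h4 : H.pull πA w = ∑ t, (b.repr w t *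
          (((L t).map Prod.snd).map fun z : {z : K // ∃ i, aeval z (f i) = 0} =>
          (z : K) ^ s).prod) • b t := by
        conv_lhs => rw [← b.sum_repr w, map_sum]
        refine Finset.sum_congr rfl fun t _ => ?_
        rw [map_smul, (hL3 t).2, smul_smul]
      beta_reduce at h3
      rw [h4, map_smul, Finsupp.smul_apply, b.repr_sum_self, smul_eq_mul, mul_comm,
        List.map_map, hqs] at h3
      exact mul_right_cancel₀ ht h3
    obtain ⟨l, -, hl, hm⟩ := list_graded (H.pull πA)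
      (fun z : {z : K // ∃ i, aeval z (f i) = 0} => (z : K) ^ s) ((q : K) ^ s) 1 hQ0 hpair (NK H A)
      one_mem_NK (fun a ha l b hb => by
        rw [add_comm l 1]
        exact mul_mem_NK ha hb)
      (H.gr A 1 : Set (H.A A)) (fun a ha b hb => hA.isAnticommutative a b ha hb)
      (fun a ha b hb y y' h2 h3 h4 => by
        apply mem_NK_one
        refine hA.hasTateDivisors (a * b) (H.mul_mem ha hb) ?_
        change H.pull πA (a * b) = _
        rw [map_mul, h2, h3, smul_mul_smul_comm, h4, hqs])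
      (L t).length c 1 one_pos (L t) rfl (hL1 t) (by rw [pow_one, pow_one, mul_one, h2])
    rw [← hL2 t] at hm
    refine ⟨l, ?_, hm⟩
    have h5 : ((q ^ s : ℕ) : K) ^ c = ((q ^ s : ℕ) : K) ^ (l : ℤ) := by
      rw [hqs, ← h2, zpow_natCast]
      exact hl
    have h6 : ((q ^ s : ℕ) : ℚ) ^ c = ((q ^ s : ℕ) : ℚ) ^ (l : ℤ) := by
      have h7 : ((((q ^ s : ℕ) : ℚ) ^ c : ℚ) : K) = ((((q ^ s : ℕ) : ℚ) ^ (l : ℤ) : ℚ) : K) := by
        rw [Rat.cast_zpow, Rat.cast_zpow, Rat.cast_natCast]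
        exact h5
      exact Rat.cast_injective h7
    have hQ2 : (1 : ℚ) < ((q ^ s : ℕ) : ℚ) := by exact_mod_cast hQ1
    exact zpow_right_injective₀ (by linarith) hQ2.ne' h6
  obtain ⟨t, ht⟩ : ∃ t, b.repr w t ≠ 0 := by
    by_contra hcon
    push Not at hcon
    apply hw0
    rw [← b.sum_repr w]
    exact Finset.sum_eq_zero fun t _ => by rw [hcon t, zero_smul]
  obtain ⟨l, hl, -⟩ := h1 t ht
  refine ⟨l, hl, ?_⟩
  rw [← b.sum_repr w]
  refine Submodule.sum_mem _ fun t _ => ?_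
  by_cases ht : b.repr w t = 0
  · rw [ht, zero_smul]
    exact Submodule.zero_mem _
  · obtain ⟨l', hl', hm⟩ := h1 t ht
    have h2 : l' = l := by exact_mod_cast hl'.symm.trans hl
    subst h2
    exact Submodule.smul_mem _ _ hm

end Pool.Agent.Q219.UZ
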