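import Mathlib
import Pool.Agent.Q219.UZ.Trans

/-!
# The transfer of the Tate conjecture and of the conjecture D
-/

set_option autoImplicit false
set_option linter.unusedSectionVars false

open CategoryTheory AlgebraicGeometry

universe u v w

namespace Pool.Agent.Q219.UZ

open Module Polynomial Pool.Agent.H914 Pool.Agent.H914.VarClass Pool.Agent.H914.VarClass.Obj
  Pool.Agent.W492.BB Pool.Agent.W550.Corr Pool.Agent.W484.TB Pool.Agent.W484.CH
  Pool.Agent.W484.HS

variable {k : Type u} [Field k] {𝒱 : VarClass k} {C : TheoryData.{u, v, 0} 𝒱 ℚ} {K : Type w}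
  [Field K] [CharZero K] [IsAlgClosed K] {H : WeilTheoryData.{u, v, w} C K} [hC : IsChow C] [hH : IsWeil H]
  {A B Z X : 𝒱.Obj} {I : Type} {f : I → ℤ[X]} {q s : ℕ} {δ : ℝ}
  (hS : IsStandard H) (hB : BoundedAt f q s δ) (hδ0 : 0 < δ) (hδ1 : δ ≤ 1) (hq : 1 < q)
  (hs : 0 < s) {N : ℕ} {e : ℝ} (heN : e < (N + 2) * δ) {πA : A ⟶ A} {πX : X ⟶ X} {πZ : Z ⟶ Z}
  (hroots : HasRoots H πX s f) (hX : IsAbelianFor H (pwMap πX N) q s f)
  (hA : IsAbelianFor H πA q s f) (hZ : HasFrobDegree C πZ (q ^ s)) (hpure : IsPure H πZ (q ^ s))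
  (hlev : LevelLE H πZ (q ^ s) e)

include hS hB hδ0 hδ1 hq hs heN hroots hX hA hZ hpure hlev

/-- **The transfer of Tate classes.** -/
theorem genTate_transfer (hAX : IsAbelianFor H (prodMap πA (pwMap πX N)) q s f) (r : ℕ)
    (hr : 0 < r) (m c : ℕ)
    (hT : ∀ c', c' ≤ c → 2 * c' + ⌊e⌋₊ ≤ 2 * Z.dim + (N + 1) →
      GenTate H (prodMap (pwMap πX N) πZ) (q ^ s) r m c') :
    GenTate H (prodMap πA πZ) (q ^ s) r m c := by
  intro w hw hop
  obtain ⟨n, b, L, -, -, hb⟩ := exists_list_eigenbasis hS hA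
  set ys := fun t => (L t).map Prod.snd with hys
  obtain ⟨h, rfl, hh⟩ := kunneth_deg b (fun t => ((ys t).length : ℤ)) (fun t => (hb t).1) hw
  rw [op_sum_ext _ _ _ (fun t => rootProd s (ys t) ^ r • frob H πZ ^ r)
    (fun t h => frob_pow_ext (hb t).2 r h)] at hop
  have h3 := kunneth_unique hS b _ hop
  refine Submodule.sum_mem _ fun t _ => ?_
  by_cases h0 : h t = 0
  · rw [h0]
    rw [TheoryData.ext, map_zero, mul_zero]
    exact Submodule.zero_mem _
  have hQ0 : q ^ s ≠ 0 := pow_ne_zero _ (by omega)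
  have hQK : ((q ^ s : ℕ) : K) ≠ 0 := by exact_mod_cast hQ0
  obtain ⟨i, c', zs, hzs, hic, hprod, hlen, hbd⟩ := component hS hB hδ0 hδ1 hq
    (N := N + 1) (by push_cast; linarith) hZ hpure hlev r hr (ys t) c m (h t) (hh t) h0 (h3 t)
  obtain ⟨u, hu0, hud, hu⟩ := exists_vec hS hroots N zs hzs
  have hμ : H.pull (pwMap πX N) u = rootProd s zs • u := hu
  have hμ0 := eigen_ne_zero hQ0 hX.degree hu0 hμ
  -- the class `u × h t` is a Tate class
  have hop' : op (rootProd s zs ^ r • frob H πZ ^ r) ((((q ^ s : ℕ) : K) ^ c') ^ r) m (h t) =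
      0 := by
    have h4 := h3 t
    rw [hprod, ← hic, pow_add, op_smul_smul] at h4
    exact (smul_eq_zero.1 h4).resolve_left (pow_ne_zero _ (pow_ne_zero _ (pow_ne_zero _ hQK)))
  have hT' : H.ext u (h t) ∈ cycSpan H ((pw X N).prod Z) c' := by
    refine hT c' (by omega) (by omega) _ ?_ ?_
    · have h5 := ext_mem hud (hh t)
      rwa [show (zs.length : ℤ) + (2 * c - (ys t).length) = 2 * c' by omega] at h5
    · rw [op_ext_vec hμ, hop', TheoryData.ext, map_zero, mul_zero]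
  -- the dual eigenvector
  obtain ⟨nX, bX, LX, -, -, hbX⟩ := exists_list_eigenbasis hS hX
  obtain ⟨u', htr, hu'⟩ := exists_dual_vec hS hQ0 hX.degree bX
    (fun t => rootProd s ((LX t).map Prod.snd)) (fun t => (hbX t).2) hu0 hμ
  have hu'0 : u' ≠ 0 := by
    rintro rfl
    rw [zero_mul, map_zero] at htr
    exact zero_ne_one htr
  have hP : H.pull (prodMap πA (pwMap πX N)) (H.ext (b t) u') =
      ((q ^ s : ℕ) : K) ^ ((i + (pw X N).dim : ℕ) : ℤ) • H.ext (b t) u' := by
    have hbt : H.pull πA (b t) = rootProd s (ys t) • b t := (hb t).2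
    rw [pull_prodMap_ext, hbt, hu', ext_smul_left, ext_smul_right, ext_smul_right, smul_smul,
      hprod, zpow_natCast, pow_add]
    congr 1
    field_simp
  obtain ⟨l, hl, hPl⟩ := eigen_mem_NK hS hB hδ0 hq hs hAX (ext_ne_zero hS (b.ne_zero t) hu'0) hP
  have hl' : l = i + (pw X N).dim := by exact_mod_cast hl.symm
  subst hl'
  have hmem := corr_cycSpan (l := c) (by omega) (NK_le_cycSpan _ _ hPl) hT'
  obtain ⟨τ, hτ, hpush⟩ := exists_push_scalar hS (pw X N) Z
  rw [corr_ext, hpush, htr, mul_one, smul_mul_assoc, one_mul, ext_smul_right] at hmem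
  have h6 := Submodule.smul_mem _ τ⁻¹ hmem
  rwa [smul_smul, inv_mul_cancel₀ hτ, one_smul] at h6

/-- **The transfer of the conjecture D.** -/
theorem homNum_transfer (hXA : IsAbelianFor H (prodMap (pwMap πX N) πA) q s f)
    (hAZ : ActsOnCycles C (prodMap πA πZ) (q ^ s)) (c : ℕ)
    (hD : ∀ c', c' ≤ c → 2 * c' + ⌊e⌋₊ ≤ 2 * Z.dim + (N + 1) →
      HomNumIn H ((pw X N).prod Z) c') :
    HomNumIn H (A.prod Z) c := by
  intro x hx hx0
  have hQ0 : q ^ s ≠ 0 := pow_ne_zero _ (by omega)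
  have hQK : ((q ^ s : ℕ) : K) ≠ 0 := by exact_mod_cast hQ0
  obtain ⟨n, b, L, -, -, hb⟩ := exists_list_eigenbasis hS hA
  set ys := fun t => (L t).map Prod.snd with hys
  have hw : H.cl x ∈ H.gr (A.prod Z) (2 * c) := H.cl_mem hx
  obtain ⟨h, hsum, hh⟩ := kunneth_deg b (fun t => ((ys t).length : ℤ)) (fun t => (hb t).1) hw
  obtain ⟨r, hr, hxr⟩ := hAZ c x hx
  have hpx : (frob H (prodMap πA πZ) ^ r) (H.cl x) = (((q ^ s : ℕ) : K) ^ c) ^ r • H.cl x := by
    have h1 : ∀ (r : ℕ) (x : C.A (A.prod Z)), (frob H (prodMap πA πZ) ^ r) (H.cl x) =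
        H.cl ((fun x => C.up (prodMap πA πZ) x)^[r] x) := by
      intro r
      induction r with
      | zero => intro x; simp
      | succ r ih =>
        intro x
        rw [pow_succ, Module.End.mul_apply, Function.iterate_succ_apply]
        have h2 : frob H (prodMap πA πZ) (H.cl x) = H.cl (C.up (prodMap πA πZ) x) :=
          (H.cl_pull (prodMap πA πZ) x).symm
        rw [h2, ih]
    rw [h1, hxr, cl_smul]
    push_cast
    rfl
  have hop : op (frob H (prodMap πA πZ) ^ r) ((((q ^ s : ℕ) : K) ^ c) ^ r) 1 (H.cl x) = 0 := by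
    rw [op, pow_one, LinearMap.sub_apply, LinearMap.smul_apply, Module.End.one_apply, sub_eq_zero]
    exact hpx
  rw [hsum, op_sum_ext _ _ _ (fun t => rootProd s (ys t) ^ r • frob H πZ ^ r)
    (fun t h => frob_pow_ext (hb t).2 r h)] at hop
  have h3 := kunneth_unique hS b _ hop
  obtain ⟨b', hb'1, hb'2⟩ := exists_dual_basis hS hQ0 hA.degree b
    (fun t => rootProd s (ys t)) (fun t => (hb t).2)
  rw [hsum]
  refine Finset.sum_eq_zero fun t _ => ?_
  by_contra hne
  have h0 : h t ≠ 0 := by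
    intro h0
    apply hne
    rw [h0, TheoryData.ext, map_zero, mul_zero]
  obtain ⟨i, c', zs, hzs, hic, hprod, hlen, hbd⟩ := component hS hB hδ0 hδ1 hq
    (N := N + 1) (by push_cast; linarith) hZ hpure hlev r hr (ys t) c 1 (h t) (hh t) h0 (h3 t)
  obtain ⟨u, hu0, hud, hu⟩ := exists_vec hS hroots N zs hzs
  have hμ : H.pull (pwMap πX N) u = rootProd s zs • u := hu
  have hμ0 := eigen_ne_zero hQ0 hX.degree hu0 hμ
  have hb'0 : b' t ≠ 0 := by
    intro h4
    have h5 := hb'1 t t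
    rw [h4, zero_mul, map_zero, if_pos rfl] at h5
    exact zero_ne_one h5
  have hP : H.pull (prodMap (pwMap πX N) πA) (H.ext u (b' t)) =
      ((q ^ s : ℕ) : K) ^ ((A.dim : ℤ) - i) • H.ext u (b' t) := by
    have hb't : H.pull πA (b' t) = (((q ^ s : ℕ) : K) ^ A.dim / rootProd s (ys t)) • b' t := hb'2 t
    rw [pull_prodMap_ext, hb't, hμ, ext_smul_left, ext_smul_right, ext_smul_right, smul_smul,
      hprod, zpow_sub₀ hQK, zpow_natCast, zpow_natCast]
    congr 1
    field_simp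
  obtain ⟨l, hl, hPl⟩ := eigen_mem_NK hS hB hδ0 hq hs hXA (ext_ne_zero hS hu0 hb'0) hP
  -- the operator kills the class of `x`
  have hzero : ∀ P ∈ cycSpan H ((pw X N).prod A) l, corr H.toTheoryData P (H.cl x) = 0 := by
    intro P hP
    unfold cycSpan at hP
    induction hP using Submodule.span_induction with
    | mem P hP =>
      obtain ⟨D, hD', rfl⟩ := hP
      rw [← cl_corr]
      refine hD c' (by omega) (by omega) _ ?_ ?_
      · have h1 := corr_mem C hD' hx
        rwa [show (l : ℤ) + c - 1 * A.dim = c' by omega] at h1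
      · intro d y hd hy
        exact corr_numTrivial (i := l) (j := c) (by omega) hD' hx0 d y hd hy
    | zero => exact corr_zero_left _ _
    | add a b _ _ ha hb => rw [corr_add_left, ha, hb, add_zero]
    | smul a P _ ha => rw [corr_smul_left, ha, smul_zero]
  have h1 := hzero _ (NK_le_cycSpan _ _ hPl)
  obtain ⟨τ, hτ, hpush⟩ := exists_push_scalar hS A Z
  rw [hsum, corr_sum_right] at h1
  have h2 : ∀ t', corr H.toTheoryData (H.ext u (b' t)) (H.ext (b t') (h t')) =
      if t' = t then τ • H.ext u (h t) else 0 := by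
    intro t'
    rw [corr_ext, hpush, hb'1]
    by_cases ht : t' = t
    · subst ht
      rw [if_pos rfl, if_pos rfl, mul_one, smul_mul_assoc, one_mul, ext_smul_right]
    · rw [if_neg ht, if_neg ht, mul_zero, zero_smul, zero_mul, TheoryData.ext, map_zero, mul_zero]
  rw [Finset.sum_congr rfl fun t' _ => h2 t', Finset.sum_ite_eq', if_pos (Finset.mem_univ _)] at h1
  exact smul_ne_zero hτ (ext_ne_zero hS hu0 h0) h1

/-- **The transfer of semisimplicity.** -/
theorem semisimple_transfer (r : ℕ) (hr : 0 < r) (c : ℕ)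
    (hSS : ∀ c', c' ≤ c → 2 * c' + ⌊e⌋₊ ≤ 2 * Z.dim + (N + 1) →
      ∀ (m : ℕ), ∀ w ∈ H.gr ((pw X N).prod Z) (2 * c'),
        op (frob H (prodMap (pwMap πX N) πZ) ^ r) ((((q ^ s : ℕ) : K) ^ c') ^ r) m w = 0 →
        op (frob H (prodMap (pwMap πX N) πZ) ^ r) ((((q ^ s : ℕ) : K) ^ c') ^ r) 1 w = 0) :
    ∀ (m : ℕ), ∀ w ∈ H.gr (A.prod Z) (2 * c),
      op (frob H (prodMap πA πZ) ^ r) ((((q ^ s : ℕ) : K) ^ c) ^ r) m w = 0 →
      op (frob H (prodMap πA πZ) ^ r) ((((q ^ s : ℕ) : K) ^ c) ^ r) 1 w = 0 := by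
  intro m w hw hop
  obtain ⟨n, b, L, -, -, hb⟩ := exists_list_eigenbasis hS hA
  set ys := fun t => (L t).map Prod.snd with hys
  obtain ⟨h, rfl, hh⟩ := kunneth_deg b (fun t => ((ys t).length : ℤ)) (fun t => (hb t).1) hw
  rw [op_sum_ext _ _ _ (fun t => rootProd s (ys t) ^ r • frob H πZ ^ r)
    (fun t h => frob_pow_ext (hb t).2 r h)] at hop ⊢
  have h3 := kunneth_unique hS b _ hop
  refine Finset.sum_eq_zero fun t _ => ?_
  by_cases h0 : h t = 0
  · rw [h0, map_zero, TheoryData.ext, map_zero, mul_zero]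
  have hQ0 : q ^ s ≠ 0 := pow_ne_zero _ (by omega)
  have hQK : ((q ^ s : ℕ) : K) ≠ 0 := by exact_mod_cast hQ0
  obtain ⟨i, c', zs, hzs, hic, hprod, hlen, hbd⟩ := component hS hB hδ0 hδ1 hq
    (N := N + 1) (by push_cast; linarith) hZ hpure hlev r hr (ys t) c m (h t) (hh t) h0 (h3 t)
  obtain ⟨u, hu0, hud, hu⟩ := exists_vec hS hroots N zs hzs
  have hμ : H.pull (pwMap πX N) u = rootProd s zs • u := hu
  have hop' : op (rootProd s zs ^ r • frob H πZ ^ r) ((((q ^ s : ℕ) : K) ^ c') ^ r) m (h t) =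
      0 := by
    have h4 := h3 t
    rw [hprod, ← hic, pow_add, op_smul_smul] at h4
    exact (smul_eq_zero.1 h4).resolve_left (pow_ne_zero _ (pow_ne_zero _ (pow_ne_zero _ hQK)))
  have h5 := hSS c' (by omega) (by omega) m (H.ext u (h t)) (by
    have h5 := ext_mem hud (hh t)
    rwa [show (zs.length : ℤ) + (2 * c - (ys t).length) = 2 * c' by omega] at h5) (by
    rw [op_ext_vec hμ, hop', TheoryData.ext, map_zero, mul_zero])
  rw [op_ext_vec hμ] at h5
  have h6 : op (rootProd s zs ^ r • frob H πZ ^ r) ((((q ^ s : ℕ) : K) ^ c') ^ r) 1 (h t) =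
      0 := by
    by_contra h7
    exact ext_ne_zero hS hu0 h7 h5
  have h7 : op (rootProd s (ys t) ^ r • frob H πZ ^ r) ((((q ^ s : ℕ) : K) ^ c) ^ r) 1 (h t) =
      0 := by
    rw [hprod, ← hic, pow_add, op_smul_smul, h6, smul_zero]
  rw [h7, TheoryData.ext, map_zero, mul_zero]

end Pool.Agent.Q219.UZ
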