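import Mathlib
import Pool.Agent.Q219.UZ.DDefs
import Pool.Agent.Q219.UZ.Transfer

/-!
# The conjecture D for products with arbitrary varieties: proofs
-/

set_option autoImplicit false
set_option linter.unusedSectionVars false

open CategoryTheory AlgebraicGeometry

universe u v w

namespace Pool.Agent.Q219.UZ

open Module Polynomial Pool.Agent.H914 Pool.Agent.H914.VarClass Pool.Agent.H914.VarClass.Obj
  Pool.Agent.W492.BB Pool.Agent.W550.Corr Pool.Agent.W484.TB Pool.Agent.W484.CH

section zero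

variable {k : Type u} [Field k] {𝒱 : VarClass k} {C : TheoryData.{u, v, 0} 𝒱 ℚ} {K : Type w}
  [Field K] [CharZero K] {H : WeilTheoryData.{u, v, w} C K} [hC : IsChow C] [hH : IsWeil H]
  (hS : IsStandard H)

include hS in
theorem exists_point (X : 𝒱.Obj) : ∃ a ∈ C.gr X X.dim, H.tr X (H.cl a) ≠ 0 := by
  obtain ⟨a, ha, -, ha2⟩ := exists_deg_one C X
  obtain ⟨τ, hτ, hpush⟩ := exists_push_scalar hS X X
  refine ⟨a, ha, fun h0 => ?_⟩
  have h1 := hpush (H.cl a)
  rw [← H.cl_pull, ← H.cl_push, ha2 X, map_one, h0, mul_zero, zero_smul] at h1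
  have := hS.nontrivial X
  exact one_ne_zero h1

include hS in
/-- Cycles of codimension zero. -/
theorem homNumIn_zero (X : 𝒱.Obj) : HomNumIn H X 0 := by
  intro x hx h
  obtain ⟨c, rfl⟩ := hS.chow_zero X x hx
  obtain ⟨a, ha, ha0⟩ := exists_point hS X
  have h1 := h X.dim a (by omega) ha
  have h2 : C.mul (c • 1) a = c • a := by
    change (c • (1 : C.A X)) * a = _
    rw [smul_mul_assoc, one_mul]
  rw [h2, cl_smul, map_smul, smul_eq_mul] at h1
  have h3 : c = 0 := by exact_mod_cast (mul_eq_zero.1 h1).resolve_right ha0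
  rw [h3, zero_smul, map_zero]

end zero

variable {I : Type} {f : I → ℤ[X]} {q : ℕ} {δ : ℝ}
  (hB : ∀ s : ℕ, 0 < s → BoundedAt f q s δ) (hδ0 : 0 < δ) (hδ1 : δ ≤ 1) (hq : 1 < q)

include hB hδ0 hδ1 hq in
theorem conjectureDTimes : ConjectureDTimes δ q f := by
  intro k _ 𝒱 C _ K _ _ _ H _ s N e X A Z πX πA πZ he hlev h c hD
  exact homNum_transfer h.standard (hB s h.pos) hδ0 hδ1 hq h.pos he h.roots h.power h.abelian
    h.degree h.pure hlev h.mixed h.cycles c hD

include hB hδ1 hq in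
theorem conjectureDTimesCurves (hδ : 1 < 3 * δ) : ConjectureDTimesCurves q f := by
  intro k _ 𝒱 C _ K _ _ _ H _ s X A Z πX πA πZ hdim h hD1 c
  have hδ0 : 0 < δ := by linarith
  have hQ0 : q ^ s ≠ 0 := pow_ne_zero _ (by omega)
  have hlev := levelLE_dim h.standard hQ0 h.degree h.pure
  have he : (Z.dim : ℝ) < ((1 : ℕ) + 2) * δ := by
    rw [hdim]
    push_cast
    linarith
  refine homNum_transfer h.standard (hB s h.pos) hδ0 hδ1 hq h.pos he h.roots h.power h.abelian
    h.degree h.pure hlev h.mixed h.cycles c ?_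
  intro c' _ hc'
  rw [Nat.floor_natCast, hdim] at hc'
  have h1 : c' = 0 ∨ c' = 1 := by omega
  rcases h1 with rfl | rfl
  · exact homNumIn_zero h.standard _
  · exact hD1

end Pool.Agent.Q219.UZ
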