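import Mathlib
import Pool.Agent.Q219.UZ.Trans
import Pool.Agent.TH133.Defs

/-!
# Joint eigenvalues of operators over the rational numbers, and conjugates
-/

set_option autoImplicit false
set_option linter.unusedSectionVars false

open CategoryTheory AlgebraicGeometry

universe u v w

namespace Pool.Agent.Q219.UZ

open Module Polynomial Pool.Agent.H914 Pool.Agent.H914.VarClass Pool.Agent.H914.VarClass.Obj
  Pool.Agent.W492.BB Pool.Agent.W550.Corr Pool.Agent.W484.TB Pool.Agent.W484.CH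
  Pool.Agent.W484.HS

section conj

variable {K : Type*} [Field K] [CharZero K]

/-- Algebraic numbers. -/
theorem mem_alg_of {z : K} {p : ℤ[X]} (hp : p.Monic) (hz : aeval z p = 0) :
    z ∈ algebraicClosure ℚ K := by
  rw [mem_algebraicClosure_iff]
  refine ⟨p.map (algebraMap ℤ ℚ), (hp.map _).ne_zero, ?_⟩
  rw [aeval_map_algebraMap]
  exact hz

/-- Conjugation. -/
theorem exists_conj [IsAlgClosed K] {x y : K} (hx : x ∈ algebraicClosure ℚ K)
    (h : aeval y (minpoly ℚ x) = 0) : ∃ τ : algebraicClosure ℚ K →ₐ[ℚ] K, τ ⟨x, hx⟩ = y := by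
  have halg : Algebra.IsAlgebraic ℚ (algebraicClosure ℚ K) := algebraicClosure.isAlgebraic ℚ K
  refine IntermediateField.exists_algHom_of_splits_of_aeval (fun s => ⟨?_, IsAlgClosed.splits _⟩) ?_
  · exact (halg.isAlgebraic s).isIntegral
  · rw [← h]
    congr 1
    exact (minpoly.algebraMap_eq (algebraMap (algebraicClosure ℚ K) K).injective
      (⟨x, hx⟩ : algebraicClosure ℚ K)).symm

variable (τ : algebraicClosure ℚ K →ₐ[ℚ] K)

theorem conj_root {z : K} (hz : z ∈ algebraicClosure ℚ K) {p : ℤ[X]} (h : aeval z p = 0) :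
    aeval (τ ⟨z, hz⟩) p = 0 := by
  have h2 := Polynomial.hom_eval₂ p (algebraMap ℤ _) (τ : algebraicClosure ℚ K →+* K) ⟨z, hz⟩
  rw [RingHom.ext_int ((τ : algebraicClosure ℚ K →+* K).comp (algebraMap ℤ _))
    (algebraMap ℤ K)] at h2
  have h3 : eval₂ (algebraMap ℤ (algebraicClosure ℚ K)) (⟨z, hz⟩ : algebraicClosure ℚ K) p = 0 := by
    apply (algebraMap (algebraicClosure ℚ K) K).injective
    rw [map_zero, Polynomial.hom_eval₂, RingHom.ext_int ((algebraMap (algebraicClosure ℚ K)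
      K).comp (algebraMap ℤ _)) (algebraMap ℤ K)]
    exact h
  rw [h3, map_zero] at h2
  exact h2.symm

theorem conj_rootQ {z : K} (hz : z ∈ algebraicClosure ℚ K) {p : ℚ[X]} (h : aeval z p = 0) :
    aeval (τ ⟨z, hz⟩) p = 0 := by
  have h3 : aeval (⟨z, hz⟩ : algebraicClosure ℚ K) p = 0 := by
    apply (algebraMap (algebraicClosure ℚ K) K).injective
    rw [map_zero, ← aeval_algebraMap_apply]
    exact h
  rw [aeval_algHom_apply, h3, map_zero]

theorem conj_weil {Q w : ℕ} {z : K} (hz : z ∈ algebraicClosure ℚ K) (h : IsWeilNumber Q w z) :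
    IsWeilNumber Q w (τ ⟨z, hz⟩) := by
  obtain ⟨χ, h1, h2, h3⟩ := h
  exact ⟨χ, h1, conj_root τ hz h2, h3⟩

theorem conj_level {Q w : ℕ} {e : ℝ} {z : K} (hz : z ∈ algebraicClosure ℚ K)
    (h : HasLevel Q w e z) : HasLevel Q w e (τ ⟨z, hz⟩) := by
  obtain ⟨k, b, ρ', hk, ⟨p, hp, hρ'⟩, hρk, hke⟩ := h
  have hm : ρ' ∈ algebraicClosure ℚ K := mem_alg_of hp hρ'
  refine ⟨k, b, τ ⟨ρ', hm⟩, hk, ⟨p, hp, conj_root τ hm hρ'⟩, ?_, hke⟩
  have h1 : (⟨z, hz⟩ : algebraicClosure ℚ K) ^ k = (Q : algebraicClosure ℚ K) ^ b * ⟨ρ', hm⟩ := by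
    apply (algebraMap (algebraicClosure ℚ K) K).injective
    rw [map_mul, map_pow, map_pow, map_natCast]
    exact hρk
  have h2 := congrArg τ h1
  rwa [map_mul, map_pow, map_pow, map_natCast] at h2

theorem mem_rootProd {I : Type} {f : I → ℤ[X]} (hf : ∀ i, (f i).Monic) (s : ℕ)
    (ys : List {z : K // ∃ i, aeval z (f i) = 0}) : rootProd s ys ∈ algebraicClosure ℚ K := by
  induction ys with
  | nil => exact one_mem _
  | cons y ys ih =>
    obtain ⟨z, i, hi⟩ := y
    rw [rootProd, List.map_cons, List.prod_cons]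
    exact mul_mem (pow_mem (mem_alg_of (hf i) hi) _) ih

theorem conj_rootProd {I : Type} {f : I → ℤ[X]} (hf : ∀ i, (f i).Monic) (s : ℕ)
    (ys : List {z : K // ∃ i, aeval z (f i) = 0}) :
    ∃ ys' : List {z : K // ∃ i, aeval z (f i) = 0}, ys'.length = ys.length ∧
      τ ⟨rootProd s ys, mem_rootProd hf s ys⟩ = rootProd s ys' := by
  induction ys with
  | nil => exact ⟨[], rfl, map_one τ⟩
  | cons y ys ih =>
    obtain ⟨ys', h1, h2⟩ := ih
    obtain ⟨z, i, hi⟩ := y
    have hz : z ∈ algebraicClosure ℚ K := mem_alg_of (hf i) hi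
    refine ⟨⟨τ ⟨z, hz⟩, i, conj_root τ hz hi⟩ :: ys', by
      rw [List.length_cons, List.length_cons, h1], ?_⟩
    have h3 : (⟨rootProd s (⟨z, i, hi⟩ :: ys), mem_rootProd hf s _⟩ : algebraicClosure ℚ K) =
        ⟨z, hz⟩ ^ s * ⟨rootProd s ys, mem_rootProd hf s ys⟩ := Subtype.ext (by
      change rootProd s (⟨z, i, hi⟩ :: ys) = z ^ s * rootProd s ys
      rw [rootProd, rootProd, List.map_cons, List.prod_cons])
    rw [h3, map_mul, map_pow, h2]
    conv_rhs => rw [rootProd, List.map_cons, List.prod_cons]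
    rfl

end conj

section joint

open scoped IsMulCommutative in
/-- **Joint eigenvalues.** -/
theorem exists_joint {K : Type*} [Field K] [CharZero K] [IsAlgClosed K] {V : Type*}
    [AddCommGroup V] [Module ℚ V] [Nontrivial V] (φ ψ : Module.End ℚ V) (hφψ : φ * ψ = ψ * φ)
    {P R : ℚ[X]} (hP : P ≠ 0) (hR : R ≠ 0) (hPφ : aeval φ P = 0) (hRψ : aeval ψ R = 0) (c : ℚ)
    (hc : ∀ v, φ (ψ v) = c • v) :
    ∃ (z : V) (α β : K), z ≠ 0 ∧ aeval α P = 0 ∧ aeval β R = 0 ∧ α * β = c ∧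
      (∀ G : ℚ[X], aeval α G = 0 → aeval φ G z = 0) ∧
      ∀ G : ℚ[X], aeval β G = 0 → aeval ψ G z = 0 := by
  classical
  let op : Bool → Module.End ℚ V := fun i => if i then φ else ψ
  set s : Set (Module.End ℚ V) := Set.range op with hs
  have hcomm : ∀ a ∈ s, ∀ b ∈ s, a * b = b * a := by
    rintro _ ⟨i, rfl⟩ _ ⟨j, rfl⟩
    cases i <;> cases j <;> simp [op, hφψ]
  have hmc := Algebra.isMulCommutative_adjoin ℚ hcomm
  let ρ : MvPolynomial Bool ℚ →ₐ[ℚ] Algebra.adjoin ℚ s :=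
    MvPolynomial.aeval fun i => ⟨op i, Algebra.subset_adjoin ⟨i, rfl⟩⟩
  let ρ' : MvPolynomial Bool ℚ →ₐ[ℚ] Module.End ℚ V := (Algebra.adjoin ℚ s).val.comp ρ
  have hρX : ∀ i, ρ' (MvPolynomial.X i) = op i := by
    intro i
    change ((ρ (MvPolynomial.X i) : Algebra.adjoin ℚ s) : Module.End ℚ V) = op i
    rw [MvPolynomial.aeval_X]
  let _ : Module (MvPolynomial Bool ℚ) V := Module.compHom V ρ'.toRingHom
  have hsm : ∀ (f : MvPolynomial Bool ℚ) (v : V), f • v = ρ' f v := fun _ _ => rfl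
  obtain ⟨𝔓, h𝔓⟩ := associatedPrimes.nonempty (MvPolynomial Bool ℚ) V
  obtain ⟨hprime, x, hx⟩ := isAssociatedPrime_iff.1 h𝔓
  have hmem : ∀ f : MvPolynomial Bool ℚ, f ∈ 𝔓 ↔ ρ' f x = 0 := by
    intro f
    rw [hx, Submodule.mem_colon_singleton, Submodule.mem_bot, hsm]
  have hpP : ∀ i, ∃ p : ℚ[X], p ≠ 0 ∧
      aeval (MvPolynomial.X i : MvPolynomial Bool ℚ) p ∈ 𝔓 := by
    intro i
    cases i
    · refine ⟨R, hR, ?_⟩
      rw [hmem, ← Polynomial.aeval_algHom_apply, hρX]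
      simp [op, hRψ]
    · refine ⟨P, hP, ?_⟩
      rw [hmem, ← Polynomial.aeval_algHom_apply, hρX]
      simp [op, hPφ]
  let mk : MvPolynomial Bool ℚ →ₐ[ℚ] (MvPolynomial Bool ℚ ⧸ 𝔓) := Ideal.Quotient.mkₐ ℚ 𝔓
  have hint : ∀ f : MvPolynomial Bool ℚ, IsIntegral ℚ (mk f) := by
    intro f
    induction f using MvPolynomial.induction_on with
    | C a => exact isIntegral_algebraMap (R := ℚ) (A := MvPolynomial Bool ℚ ⧸ 𝔓) (x := a)
    | add f g hf hg => rw [map_add]; exact hf.add hg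
    | mul_X f i hf =>
      rw [map_mul]
      refine hf.mul ?_
      obtain ⟨p, hp, hpi⟩ := hpP i
      have h1 : IsAlgebraic ℚ (mk (MvPolynomial.X i)) := by
        refine ⟨p, hp, ?_⟩
        rw [Polynomial.aeval_algHom_apply]
        exact Ideal.Quotient.eq_zero_iff_mem.2 hpi
      exact h1.isIntegral
  have hInt : Algebra.IsIntegral ℚ (MvPolynomial Bool ℚ ⧸ 𝔓) := by
    constructor
    intro y
    obtain ⟨f, rfl⟩ := Ideal.Quotient.mk_surjective y
    exact hint f
  have hfield : IsField (MvPolynomial Bool ℚ ⧸ 𝔓) :=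
    isField_of_isIntegral_of_isField' (R := ℚ) (Field.toIsField ℚ)
  let e : (MvPolynomial Bool ℚ ⧸ 𝔓) →ₐ[ℚ] K := IsAlgClosed.lift
  have he : Function.Injective e := by
    let _ := hfield.toField
    exact (e : (MvPolynomial Bool ℚ ⧸ 𝔓) →+* K).injective
  have hzero : ∀ f : MvPolynomial Bool ℚ, ρ' f x = 0 → e (mk f) = 0 := by
    intro f hf
    rw [show mk f = 0 from Ideal.Quotient.eq_zero_iff_mem.2 ((hmem f).2 hf), map_zero]
  refine ⟨x, e (mk (MvPolynomial.X true)), e (mk (MvPolynomial.X false)), ?_, ?_, ?_, ?_, ?_, ?_⟩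
  · intro h0
    apply hprime.ne_top
    rw [Ideal.eq_top_iff_one, hmem, h0, map_zero]
  · rw [Polynomial.aeval_algHom_apply, Polynomial.aeval_algHom_apply]
    apply hzero
    rw [← Polynomial.aeval_algHom_apply, hρX]
    simp [op, hPφ]
  · rw [Polynomial.aeval_algHom_apply, Polynomial.aeval_algHom_apply]
    apply hzero
    rw [← Polynomial.aeval_algHom_apply, hρX]
    simp [op, hRψ]
  · have h1 := hzero (MvPolynomial.X true * MvPolynomial.X false - algebraMap ℚ _ c) (by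
      rw [map_sub, map_mul, hρX, hρX, AlgHom.commutes, LinearMap.sub_apply, Module.End.mul_apply,
        Module.algebraMap_end_apply]
      simp [op, hc])
    rw [map_sub, map_sub, map_mul, map_mul, AlgHom.commutes, AlgHom.commutes, sub_eq_zero] at h1
    rw [h1]
    simp
  · intro G hG
    rw [Polynomial.aeval_algHom_apply, Polynomial.aeval_algHom_apply] at hG
    have h1 : mk (aeval (MvPolynomial.X true) G) = 0 := he (hG.trans (map_zero e).symm)
    have h2 := (hmem _).1 (Ideal.Quotient.eq_zero_iff_mem.1 h1)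
    rw [← Polynomial.aeval_algHom_apply, hρX] at h2
    simpa [op] using h2
  · intro G hG
    rw [Polynomial.aeval_algHom_apply, Polynomial.aeval_algHom_apply] at hG
    have h1 : mk (aeval (MvPolynomial.X false) G) = 0 := he (hG.trans (map_zero e).symm)
    have h2 := (hmem _).1 (Ideal.Quotient.eq_zero_iff_mem.1 h1)
    rw [← Polynomial.aeval_algHom_apply, hρX] at h2
    simpa [op] using h2

end joint

end Pool.Agent.Q219.UZ
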