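import Mathlib
import Pool.Agent.Q219.UZ.RNum
import Pool.Agent.Q56.CP.Geo

/-!
# The polynomial relations of Frobenius
-/

set_option autoImplicit false
set_option linter.unusedSectionVars false

open CategoryTheory AlgebraicGeometry

universe u v w

namespace Pool.Agent.Q219.UZ

open Module Polynomial Pool.Agent.H914 Pool.Agent.H914.VarClass Pool.Agent.H914.VarClass.Obj
  Pool.Agent.W492.BB Pool.Agent.W550.Corr Pool.Agent.W484.TB Pool.Agent.W484.CH
  Pool.Agent.W484.HS Pool.Agent.TH133 Pool.Agent.Q56.CP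

/-- The properties of the eigenvalues of Frobenius on the cohomology of a variety of dimension `d`
and of level at most `e`. -/
def ZNum {K : Type*} [Field K] (Q d : ℕ) (e : ℝ) (β : K) : Prop :=
  ∃ w : ℕ, w ≤ 2 * d ∧ IsWeilNumber Q w β ∧ HasLevel Q w e β ∧ HasLevel Q w (2 * d - w) β

section num

variable {K : Type*} [Field K] [CharZero K] {I : Type} {f : I → ℤ[X]} {q s : ℕ} {δ : ℝ}

theorem conj_ZNum (τ : algebraicClosure ℚ K →ₐ[ℚ] K) {Q d : ℕ} {e : ℝ} {z : K}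
    (hz : z ∈ algebraicClosure ℚ K) (h : ZNum Q d e z) : ZNum Q d e (τ ⟨z, hz⟩) := by
  obtain ⟨w, h0, h1, h2, h3⟩ := h
  exact ⟨w, h0, conj_weil τ hz h1, conj_level τ hz h2, conj_level τ hz h3⟩

/-- **The relations between roots and an eigenvalue on the cohomology of `Z`.** -/
theorem component_num (hB : BoundedAt f q s δ) (hδ0 : 0 < δ) (hδ1 : δ ≤ 1) (hq : 1 < q) {N : ℕ}
    {e : ℝ} (heN : e < (N + 1) * δ) {d : ℕ} {β : K} (hβ : ZNum (q ^ s) d e β)
    (ys : List {z : K // ∃ i, aeval z (f i) = 0}) (c : ℤ)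
    (hrel : rootProd s ys * β = ((q ^ s : ℕ) : K) ^ c) :
    ∃ (i c' : ℕ) (zs : List {z : K // ∃ i, aeval z (f i) = 0}), zs.length ≤ N ∧
      (i : ℤ) + c' = c ∧ rootProd s ys = ((q ^ s : ℕ) : K) ^ i * rootProd s zs ∧
      2 * c' + ⌊e⌋₊ ≤ 2 * d + N := by
  have hQ0 : q ^ s ≠ 0 := pow_ne_zero _ (by omega)
  have hQK : ((q ^ s : ℕ) : K) ≠ 0 := by exact_mod_cast hQ0
  obtain ⟨w, hw2, hW, hl, hdual⟩ := hβ
  obtain ⟨i, zs, h1, h2, h3⟩ := reduce_list
    (fun z : {z : K // ∃ i, aeval z (f i) = 0} => (z : K) ^ s) ((q : K) ^ s) ys.length ys rfl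
  have h2' : rootProd s ys = ((q ^ s : ℕ) : K) ^ i * rootProd s zs := by
    push_cast
    exact h2
  have hqs : ((q ^ s : ℕ) : K) = (q : K) ^ s := by push_cast; rfl
  have hrel' : ((zs.map fun z : {z : K // ∃ i, aeval z (f i) = 0} => (z : K) ^ s).prod * β) ^ 1 =
      (((q : K) ^ s) ^ (c - i)) ^ 1 := by
    change (rootProd s zs * β) ^ 1 = _
    rw [pow_one, pow_one, ← hqs, zpow_sub₀ hQK, zpow_natCast, eq_div_iff (pow_ne_zero _ hQK),
      ← hrel, h2']
    ring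
  obtain ⟨h4, h5⟩ := bound_field hB hW hl _ 1 one_pos zs hrel' h3
  obtain ⟨-, h6⟩ := bound_field hB hW hdual _ 1 one_pos zs hrel' h3
  have hci : 0 ≤ c - i := by omega
  obtain ⟨c', hc'⟩ := Int.eq_ofNat_of_zero_le hci
  have hN : zs.length ≤ N := by
    by_contra hcon
    push Not at hcon
    have h7 : ((N : ℝ) + 1) ≤ zs.length := by exact_mod_cast hcon
    have h8 := mul_le_mul_of_nonneg_right h7 hδ0.le
    linarith
  refine ⟨i, c', zs, hN, by omega, h2', ?_⟩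
  have h7 : 2 * c' = zs.length + w := by omega
  rw [h7]
  by_contra hcon
  push Not at hcon
  -- the degree is large
  have he0 : 0 ≤ e := by
    by_contra h8
    push Not at h8
    rw [Nat.floor_of_nonpos h8.le] at hcon
    omega
  have h8 : (⌊e⌋₊ : ℝ) ≤ e := Nat.floor_le he0
  have h9 : 2 * (d : ℝ) - w < ⌊e⌋₊ := by
    have h10 : 2 * d < w + ⌊e⌋₊ := by omega
    have h11 : (2 * (d : ℝ)) < w + ⌊e⌋₊ := by exact_mod_cast h10
    linarith
  have h10 : ((2 * d + N + 1 : ℕ) : ℝ) ≤ ((zs.length + w + ⌊e⌋₊ : ℕ) : ℝ) := by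
    exact_mod_cast hcon
  push_cast at h10
  have h11 : (N + 1) * δ ≤ (zs.length - (2 * (d : ℝ) - w) + ⌊e⌋₊) * δ :=
    mul_le_mul_of_nonneg_right (by linarith) hδ0.le
  have h12 : (zs.length - (2 * (d : ℝ) - w) + ⌊e⌋₊) * δ =
      zs.length * δ + (⌊e⌋₊ - (2 * (d : ℝ) - w)) * δ := by ring
  have h13 : (⌊e⌋₊ - (2 * (d : ℝ) - w)) * δ ≤ (⌊e⌋₊ - (2 * (d : ℝ) - w)) * 1 :=
    mul_le_mul_of_nonneg_left hδ1 (by linarith)
  linarith

end num

variable {k : Type u} [Field k] {𝒱 : VarClass k} {C : TheoryData.{u, v, 0} 𝒱 ℚ} {K : Type w}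
  [Field K] [CharZero K] {H : WeilTheoryData.{u, v, w} C K} [hC : IsChowProj C]
  [hH : IsWeilProj H] {A B Z X : 𝒱.Obj} {I : Type} {f : I → ℤ[X]} {q s : ℕ} {δ : ℝ}

/-- A polynomial which annihilates a diagonalizable endomorphism. -/
theorem relation_of_basis (hN : Nilpotence H A) {πA : A ⟶ A} {n : ℕ}
    (b : Basis (Fin n) K (H.A A)) (ν : Fin n → K) (hb : ∀ t, H.pull πA (b t) = ν t • b t)
    (hν : ∀ t, ν t ∈ algebraicClosure ℚ K) :
    ∃ P : ℚ[X], P ≠ 0 ∧ aeval (fr C πA) P = 0 ∧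
      ∀ α : K, aeval α P = 0 → ∃ t, aeval α (minpoly ℚ (ν t)) = 0 := by
  have hint : ∀ t, IsIntegral ℚ (ν t) := fun t =>
    (mem_algebraicClosure_iff.1 (hν t)).isIntegral
  set χ : ℚ[X] := ∏ t, minpoly ℚ (ν t) with hχ
  have h0 : actH C A H (aeval (fr C πA) χ) = 0 := by
    rw [actH_aeval]
    refine b.ext fun t => ?_
    have h1 : hF H πA (b t) = ν t • b t := hb t
    have h2 : χ.map (algebraMap ℚ K) = (∏ l ∈ Finset.univ.erase t,
        (minpoly ℚ (ν l)).map (algebraMap ℚ K)) * (minpoly ℚ (ν t)).map (algebraMap ℚ K) := by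
      rw [Finset.prod_erase_mul _ _ (Finset.mem_univ t), hχ, Polynomial.map_prod]
    have h3 : ∀ G : K[X], aeval (hF H πA) G (b t) = G.eval (ν t) • b t := fun G =>
      Module.End.aeval_apply_of_hasEigenvector
        ⟨Module.End.mem_eigenspace_iff.2 h1, b.ne_zero t⟩
    rw [h2, h3, eval_mul, eval_map_algebraMap, minpoly.aeval, mul_zero, zero_smul,
      LinearMap.zero_apply]
  obtain ⟨m, hm⟩ := nilp_of_act hN (aeval_fr_mem πA _) h0
  refine ⟨χ ^ m, pow_ne_zero _ (Finset.prod_ne_zero_iff.2 fun t _ => minpoly.ne_zero (hint t)),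
    by rw [map_pow, hm], fun α hα => ?_⟩
  rw [map_pow] at hα
  have h1 := eq_zero_of_pow_eq_zero hα
  rw [hχ, map_prod, Finset.prod_eq_zero_iff] at h1
  obtain ⟨t, -, ht⟩ := h1
  exact ⟨t, ht⟩

/-- A polynomial which annihilates an endomorphism whose eigenvalues are algebraic numbers. -/
theorem relation_of_eigen [IsAlgClosed K] [Module.Finite K (H.A Z)] (hN : Nilpotence H Z)
    {πZ : Z ⟶ Z} (halg : ∀ (ρ : K) (v : H.A Z), v ≠ 0 → H.pull πZ v = ρ • v →
      ρ ∈ algebraicClosure ℚ K) :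
    ∃ P : ℚ[X], P ≠ 0 ∧ aeval (fr C πZ) P = 0 ∧
      ∀ β : K, aeval β P = 0 → ∃ (ρ : K) (v : H.A Z), v ≠ 0 ∧ H.pull πZ v = ρ • v ∧
        aeval β (minpoly ℚ ρ) = 0 := by
  set F : Module.End K (H.A Z) := hF H πZ with hFdef
  set R := F.charpoly.roots with hR
  have hroot : ∀ ρ ∈ R, ∃ v : H.A Z, v ≠ 0 ∧ H.pull πZ v = ρ • v := by
    intro ρ hρ
    have h1 : F.HasEigenvalue ρ := by
      rw [Module.End.hasEigenvalue_iff_isRoot_charpoly]
      exact (mem_roots'.1 hρ).2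
    obtain ⟨v, hv⟩ := h1.exists_hasEigenvector
    exact ⟨v, hv.2, hv.apply_eq_smul⟩
  have hint : ∀ ρ ∈ R, IsIntegral ℚ ρ := by
    intro ρ hρ
    obtain ⟨v, h1, h2⟩ := hroot ρ hρ
    exact (mem_algebraicClosure_iff.1 (halg ρ v h1 h2)).isIntegral
  set χ : ℚ[X] := (R.map fun ρ => minpoly ℚ ρ).prod with hχ
  have hχ0 : χ ≠ 0 := by
    intro h0
    rw [hχ, Multiset.prod_eq_zero_iff, Multiset.mem_map] at h0
    obtain ⟨ρ, hρ, h1⟩ := h0
    exact minpoly.ne_zero (hint ρ hρ) h1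
  have hdvd : F.charpoly ∣ χ.map (algebraMap ℚ K) := by
    have h1 : F.charpoly = (R.map fun ρ => Polynomial.X - Polynomial.C ρ).prod :=
      (IsAlgClosed.splits F.charpoly).eq_prod_roots_of_monic (LinearMap.charpoly_monic F)
    rw [h1, hχ, Polynomial.map_multiset_prod, Multiset.map_map]
    have h2 : ∀ S : Multiset K, (S.map fun ρ => Polynomial.X - Polynomial.C ρ).prod ∣
        (S.map (Polynomial.map (algebraMap ℚ K) ∘ fun ρ => minpoly ℚ ρ)).prod := by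
      intro S
      induction S using Multiset.induction_on with
      | empty => simp
      | cons a S ih =>
        rw [Multiset.map_cons, Multiset.map_cons, Multiset.prod_cons, Multiset.prod_cons]
        refine mul_dvd_mul ?_ ih
        rw [Polynomial.dvd_iff_isRoot, Function.comp_apply, Polynomial.IsRoot.def,
          eval_map_algebraMap, minpoly.aeval]
    exact h2 R
  have h0 : actH C Z H (aeval (fr C πZ) χ) = 0 := by
    rw [actH_aeval]
    obtain ⟨G, hG⟩ := hdvd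
    rw [hG, map_mul, LinearMap.aeval_self_charpoly, zero_mul]
  obtain ⟨m, hm⟩ := nilp_of_act hN (aeval_fr_mem πZ _) h0
  refine ⟨χ ^ m, pow_ne_zero _ hχ0, by rw [map_pow, hm], fun β hβ => ?_⟩
  rw [map_pow] at hβ
  have h1 := eq_zero_of_pow_eq_zero hβ
  rw [hχ, map_multiset_prod, Multiset.prod_eq_zero_iff, Multiset.map_map, Multiset.mem_map] at h1
  obtain ⟨ρ, hρ, h2⟩ := h1
  obtain ⟨v, h3, h4⟩ := hroot ρ hρ
  exact ⟨ρ, v, h3, h4, h2⟩

end Pool.Agent.Q219.UZ
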