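import Mathlib
import Pool.Agent.Q219.UZ.RPoly
import Pool.Agent.Q219.UZ.DMain

/-!
# Vanishing of a theory on a product
-/

set_option autoImplicit false
set_option linter.unusedSectionVars false

open CategoryTheory AlgebraicGeometry

universe u v w

namespace Pool.Agent.Q219.UZ

open Module Polynomial Pool.Agent.H914 Pool.Agent.H914.VarClass Pool.Agent.H914.VarClass.Obj
  Pool.Agent.W492.BB Pool.Agent.W550.Corr Pool.Agent.W484.TB Pool.Agent.W484.CH
  Pool.Agent.W484.HS Pool.Agent.TH133 Pool.Agent.Q56.CP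

open Pool.Agent.Y148.BB (gr_congr tens_comp'')

variable {k : Type u} [Field k] {𝒱 : VarClass k} {C : TheoryData.{u, v, 0} 𝒱 ℚ} {K : Type w}
  [Field K] [CharZero K] {H : WeilTheoryData.{u, v, w} C K} [hC : IsChowProj C]
  [hH : IsWeilProj H] {A B Z X : 𝒱.Obj} {I : Type} {f : I → ℤ[X]} {q s : ℕ} {δ : ℝ}
  (hS : IsStandard H)

section descent

include hS in
/-- Classes which are linear combinations with coefficients in `K` of classes of cycles are linear
combinations with rational coefficients, modulo numerical equivalence. -/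
theorem descent {m : ℕ} (S : Submodule ℚ (C.A X)) (hSm : ∀ x ∈ S, x ∈ C.gr X m) {x₀ : C.A X}
    (hx₀ : x₀ ∈ C.gr X m) (h : H.cl x₀ ∈ Submodule.span K {a | ∃ x ∈ S, a = H.cl x}) :
    ∃ x ∈ S, ∀ (d : ℕ) (y : C.A X), m + d = X.dim → C.Deg d y →
      H.tr X (H.cl (C.mul (x₀ - x) y)) = 0 := by
  obtain ⟨deg, hdeg⟩ := exists_deg hS X X
  obtain ⟨τ, hτ, hpush⟩ := exists_push_scalar hS X X
  have hrat : ∀ z ∈ C.gr X X.dim, τ * H.tr X (H.cl z) = (deg z : K) := by
    intro z hz
    have h1 := hpush (H.cl z)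
    rw [← H.cl_pull, ← H.cl_push, hdeg z hz, cl_smul, map_one] at h1
    have h2 : ((deg z : K) - τ * H.tr X (H.cl z)) • (1 : H.A X) = 0 := by
      rw [sub_smul, h1, sub_self]
    have := hS.nontrivial X
    have h3 := (smul_eq_zero.1 h2).resolve_right one_ne_zero
    exact (sub_eq_zero.1 h3).symm
  -- a retraction of `K` to the rational numbers
  obtain ⟨lam, hlam⟩ : ∃ lam : K →ₗ[ℚ] ℚ, ∀ r : ℚ, lam (r : K) = r := by
    have hinj : LinearMap.ker (Algebra.linearMap ℚ K) = ⊥ := by
      rw [LinearMap.ker_eq_bot]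
      exact (algebraMap ℚ K).injective
    obtain ⟨lam, hlam⟩ := LinearMap.exists_leftInverse_of_injective _ hinj
    exact ⟨lam, fun r => LinearMap.congr_fun hlam r⟩
  obtain ⟨n, c, v, hv⟩ := Submodule.mem_span_set'.1 h
  have hex : ∀ j, ∃ x ∈ S, (v j : H.A X) = H.cl x := fun j => (v j).2
  choose x hxS hvx using hex
  refine ⟨∑ j, lam (c j) • x j, Submodule.sum_mem _ fun j _ => Submodule.smul_mem _ _ (hxS j),
    fun d y hmd hy => ?_⟩
  have hmem : ∀ w ∈ C.gr X m, w * y ∈ C.gr X X.dim := by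
    intro w hw
    have h1 := C.mul_mem hw hy
    have h2 : (m : ℤ) + d = X.dim := by exact_mod_cast hmd
    rwa [h2] at h1
  have hcm : ∀ a b : C.A X, H.cl (a * b) = H.cl a * H.cl b := fun a b => map_mul _ _ _
  have h1 : (deg (x₀ * y) : K) = ∑ j, c j * (deg (x j * y) : K) := by
    rw [← hrat _ (hmem _ hx₀), hcm, ← hv, Finset.sum_mul, map_sum, Finset.mul_sum]
    refine Finset.sum_congr rfl fun j _ => ?_
    rw [hvx, smul_mul_assoc, map_smul, smul_eq_mul, ← hrat _ (hmem _ (hSm _ (hxS j))), hcm]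
    ring
  have h2 : deg (x₀ * y) = ∑ j, lam (c j) * deg (x j * y) := by
    have h3 := congrArg lam h1
    rw [hlam, map_sum] at h3
    rw [h3]
    refine Finset.sum_congr rfl fun j _ => ?_
    have h4 : c j * (deg (x j * y) : K) = deg (x j * y) • c j := by
      rw [Algebra.smul_def, mul_comm]
      rfl
    rw [h4, map_smul, smul_eq_mul, mul_comm]
  have h3 : deg ((x₀ - ∑ j, lam (c j) • x j) * y) = 0 := by
    rw [sub_mul, map_sub, h2, Finset.sum_mul, map_sum]
    rw [sub_eq_zero]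
    refine Finset.sum_congr rfl fun j _ => ?_
    rw [smul_mul_assoc, map_smul, smul_eq_mul]
  have hsum : ∑ j, lam (c j) • x j ∈ C.gr X m := Submodule.sum_mem _ fun j _ =>
    Submodule.smul_mem _ (lam (c j)) (hSm _ (hxS j))
  have h4 := hrat _ (hmem _ (Submodule.sub_mem _ hx₀ hsum))
  rw [h3, Rat.cast_zero] at h4
  exact (mul_eq_zero.1 h4).resolve_left hτ

end descent

section square

include hS in
/-- Homological and numerical equivalence coincide on abelian varieties. -/
theorem homNumIn_abelian [IsAlgClosed K] (hB : BoundedAt f q s δ) (hδ0 : 0 < δ) (hq : 1 < q)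
    (hs : 0 < s) {πA : A ⟶ A} (hA : IsAbelianFor H πA q s f) (hF : IsFrobenius C πA (q ^ s))
    (c : ℕ) : HomNumIn H A c := by
  intro x hx h
  by_contra hne
  obtain ⟨n, b, L, -, -, hb⟩ := exists_list_eigenbasis hS hA
  have hQ1 : 1 < q ^ s := Nat.one_lt_pow hs.ne' hq
  have hev : H.pull πA (H.cl x) = ((q ^ s : ℕ) : K) ^ (c : ℤ) • H.cl x := by
    have h1 : C.pull πA x = ((q ^ s : ℕ) : ℚ) ^ c • x := hF.chow c x hx
    rw [← H.cl_pull, h1, cl_smul, zpow_natCast]
    push_cast
    rfl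
  obtain ⟨l, hl, hNK⟩ := eigen_mem_NK hS hB hδ0 hq hs hA hne hev
  have hl' : l = c := by exact_mod_cast hl.symm
  subst hl'
  rcases le_or_gt l A.dim with hc | hc
  · apply hne
    refine NK_nondeg hF hQ1 b _ (fun t => (hb t).2) ?_ hc hNK ?_
    · intro t e he
      have h1 : H.pull πA (b t) = ((q ^ s : ℕ) : K) ^ e • b t := by
        rw [← he]
        exact (hb t).2
      obtain ⟨m, hm, hm'⟩ := eigen_mem_NK hS hB hδ0 hq hs hA (b.ne_zero t) h1
      refine ⟨m, ?_, hm'⟩
      rw [he, hm, zpow_natCast]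
    · intro c' hc'
      unfold NK at hc'
      induction hc' using Submodule.span_induction with
      | mem c' hc' =>
        obtain ⟨D, hD, rfl⟩ := hc'
        rw [← map_mul]
        exact h (A.dim - l) D (by omega) (divProd_mem hD)
      | zero => rw [mul_zero, map_zero]
      | add x y _ _ hx hy => rw [mul_add, map_add, hx, hy, add_zero]
      | smul a x _ hx => rw [mul_smul_comm, map_smul, hx, smul_zero]
  · apply hne
    have h1 := H.cl_mem hx
    rw [hS.coh_top A _ (by
      have : (A.dim : ℤ) < l := by exact_mod_cast hc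
      linarith)] at h1
    exact (Submodule.mem_bot _).1 h1

end square

section classes

variable [IsAlgClosed K]

include hS in
/-- The class of a polynomial in the Frobenius endomorphism. -/
theorem cl_aeval {πA : A ⟶ A} {n : ℕ} (b : Basis (Fin n) K (H.A A)) (b' : Fin n → H.A A)
    (ν : Fin n → K) (hb' : ∀ t t', H.tr A (b' t * b t') = if t' = t then 1 else 0)
    (hν : ∀ t, H.pull πA (b' t) = ν t • b' t) (hb'0 : ∀ t, b' t ≠ 0) (G : ℚ[X]) :
    ∃ τ : K, H.cl (X := A.prod A) (aeval (fr C πA) G : Cor C A) =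
      ∑ t, (τ * aeval (ν t) G) • H.ext (b t) (b' t) := by
  obtain ⟨τ, hτ, hpush⟩ := exists_push_scalar hS A A
  set P : H.A (A.prod A) := H.cl (X := A.prod A) (aeval (fr C πA) G : Cor C A) with hP
  obtain ⟨h, hh⟩ := kunneth_exists b P
  have h1 : ∀ u, H.act P (b' u) = aeval (ν u) G • b' u := by
    intro u
    have h2 : H.act P (b' u) = actH C A H (aeval (fr C πA) G) (b' u) := rfl
    have h3 : hF H πA (b' u) = ν u • b' u := hν u
    rw [h2, actH_aeval, Module.End.aeval_apply_of_hasEigenvector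
      ⟨Module.End.mem_eigenspace_iff.2 h3, hb'0 u⟩, eval_map_algebraMap]
  have h2 : ∀ u, H.act P (b' u) = τ • h u := by
    intro u
    have h3 : H.act P (b' u) = H.push (snd A A) (H.pull (fst A A) (b' u) * P) := by
      rw [H.toTheoryData.act_apply, hP, H.cl_central]
    rw [h3, hh, Finset.mul_sum, map_sum]
    have h4 : ∀ t, H.push (snd A A) (H.pull (fst A A) (b' u) * H.ext (b t) (h t)) =
        if t = u then τ • h u else 0 := by
      intro t
      rw [TheoryData.ext, ← mul_assoc, ← map_mul, H.proj_right, hpush, hb']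
      by_cases htu : t = u
      · subst htu
        rw [if_pos rfl, if_pos rfl, mul_one, smul_mul_assoc, one_mul]
      · rw [if_neg htu, if_neg htu, mul_zero, zero_smul, zero_mul]
    rw [Finset.sum_congr rfl fun t _ => h4 t, Finset.sum_ite_eq' ]
    simp
  refine ⟨τ⁻¹, ?_⟩
  rw [hh]
  refine Finset.sum_congr rfl fun t _ => ?_
  have h3 : h t = (τ⁻¹ * aeval (ν t) G) • b' t := by
    rw [mul_smul, ← h1, h2, smul_smul, inv_mul_cancel₀ hτ, one_smul]
  rw [h3, ext_smul_right]

end classes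

section factor

variable [IsAlgClosed K]

/-- Compositions of classes of divisor products. -/
theorem corr_NK {S : Submodule ℚ (C.A (A.prod A))} {l l' : ℕ}
    (hcomp : ∀ (a : C.A (A.prod B)) (b : C.A (B.prod A)), a ∈ C.gr (A.prod B) l →
      b ∈ C.gr (B.prod A) l' → C.comp a b ∈ S) {P₁ : H.A (A.prod B)} {P₂ : H.A (B.prod A)}
    (h₁ : P₁ ∈ NK H (A.prod B) l) (h₂ : P₂ ∈ NK H (B.prod A) l') :
    corr H.toTheoryData P₁ P₂ ∈ Submodule.span K {a | ∃ x ∈ S, a = H.cl x} := by
  unfold NK at h₁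
  induction h₁ using Submodule.span_induction with
  | mem P₁ h₁ =>
    obtain ⟨a, ha, rfl⟩ := h₁
    unfold NK at h₂
    induction h₂ using Submodule.span_induction with
    | mem P₂ h₂ =>
      obtain ⟨b, hb, rfl⟩ := h₂
      refine Submodule.subset_span ⟨C.comp a b, hcomp a b (divProd_mem ha) (divProd_mem hb), ?_⟩
      rw [← cl_corr]
      congr 1
      rw [comp_eq_extR, corr, TheoryData.extR, chow_mul_comm]
    | zero => rw [corr_zero_right]; exact Submodule.zero_mem _
    | add x y _ _ hx hy => rw [corr_add_right]; exact Submodule.add_mem _ hx hy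
    | smul c x _ hx => rw [corr_smul_right]; exact Submodule.smul_mem _ _ hx
  | zero => rw [corr_zero_left]; exact Submodule.zero_mem _
  | add x y _ _ hx hy => rw [corr_add_left]; exact Submodule.add_mem _ hx hy
  | smul c x _ hx => rw [corr_smul_left]; exact Submodule.smul_mem _ _ hx

include hS in
/-- **Factorization of the components of the diagonal of `A` through `B`.** -/
theorem factor_ext (hB : BoundedAt f q s δ) (hδ0 : 0 < δ) (hq : 1 < q) (hs : 0 < s) {πA : A ⟶ A}
    {πB : B ⟶ B} (hBA : IsAbelianFor H πB q s f)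
    (hAB : IsAbelianFor H (prodMap πA πB) q s f) (hBA' : IsAbelianFor H (prodMap πB πA) q s f)
    {a a' : H.A A} {ν : K} (ha0 : a ≠ 0) (ha'0 : a' ≠ 0)
    (ha : H.pull πA a = (((q ^ s : ℕ) : K) ^ A.dim / ν) • a) (ha' : H.pull πA a' = ν • a')
    (hν : ν ≠ 0) {u : H.A B} (hu0 : u ≠ 0) {μ : K} (hu : H.pull πB u = μ • u) {i : ℕ}
    (hνμ : ν = ((q ^ s : ℕ) : K) ^ i * μ) {S : Submodule ℚ (C.A (A.prod A))}
    (hcomp : ∀ (l l' : ℕ) (x : C.A (A.prod B)) (y : C.A (B.prod A)), l + i = A.dim →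
      l' = i + B.dim → x ∈ C.gr (A.prod B) l → y ∈ C.gr (B.prod A) l' → C.comp x y ∈ S) :
    H.ext a a' ∈ Submodule.span K {a | ∃ x ∈ S, a = H.cl x} := by
  have hQ0 : q ^ s ≠ 0 := pow_ne_zero _ (by omega)
  have hQK : ((q ^ s : ℕ) : K) ≠ 0 := by exact_mod_cast hQ0
  have hμ0 : μ ≠ 0 := by
    rintro rfl
    exact hν (by rw [hνμ, mul_zero])
  obtain ⟨nB, bB, LB, -, -, hbB⟩ := exists_list_eigenbasis hS hBA
  obtain ⟨u', htr, hu'⟩ := exists_dual_vec hS hQ0 hBA.degree bB
    (fun t => rootProd s ((LB t).map Prod.snd)) (fun t => (hbB t).2) hu0 hu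
  have hu'0 : u' ≠ 0 := by
    rintro rfl
    rw [zero_mul, map_zero] at htr
    exact zero_ne_one htr
  obtain ⟨u'', htr', hu''⟩ := exists_dual_vec hS hQ0 hBA.degree bB
    (fun t => rootProd s ((LB t).map Prod.snd)) (fun t => (hbB t).2) hu'0 hu'
  have hu''0 : u'' ≠ 0 := by
    rintro rfl
    rw [zero_mul, map_zero] at htr'
    exact zero_ne_one htr'
  have hu3 : H.pull πB u'' = μ • u'' := by
    rw [hu'']
    congr 1
    field_simp
  have hP₁ : H.pull (prodMap πA πB) (H.ext a u'') =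
      ((q ^ s : ℕ) : K) ^ ((A.dim : ℤ) - i) • H.ext a u'' := by
    rw [pull_prodMap_ext, ha, hu3, ext_smul_left, ext_smul_right, ext_smul_right, smul_smul, hνμ,
      zpow_sub₀ hQK, zpow_natCast, zpow_natCast]
    congr 1
    field_simp
  have hP₂ : H.pull (prodMap πB πA) (H.ext u' a') =
      ((q ^ s : ℕ) : K) ^ ((i + B.dim : ℕ) : ℤ) • H.ext u' a' := by
    rw [pull_prodMap_ext, ha', hu', ext_smul_left, ext_smul_right, ext_smul_right, smul_smul, hνμ,
      zpow_natCast, pow_add]
    congr 1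
    field_simp
  obtain ⟨l, hl, hNK₁⟩ := eigen_mem_NK hS hB hδ0 hq hs hAB (ext_ne_zero hS ha0 hu''0) hP₁
  obtain ⟨l', hl', hNK₂⟩ := eigen_mem_NK hS hB hδ0 hq hs hBA' (ext_ne_zero hS hu'0 ha'0) hP₂
  have hl2 : l' = i + B.dim := by exact_mod_cast hl'.symm
  have hmem := corr_NK (S := S) (fun x y hx hy => hcomp l l' x y (by omega) hl2 hx hy) hNK₁ hNK₂
  obtain ⟨τ, hτ, hpush⟩ := exists_push_scalar hS B A
  rw [corr_ext, hpush, htr', mul_one, smul_mul_assoc, one_mul, ext_smul_right] at hmem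
  have h6 := Submodule.smul_mem _ τ⁻¹ hmem
  rwa [smul_smul, inv_mul_cancel₀ hτ, one_smul] at h6

end factor

section theory

variable {T : CorrData C} (hT : IsCorrTheory T)

/-- The correspondences on `A` of degree zero which kill an element of `T(A × Z)`. -/
noncomputable def killers (hT : IsCorrTheory T) (z : T.M (A.prod Z)) :
    Submodule ℚ (C.A (A.prod A)) where
  carrier := {x | x ∈ C.gr (A.prod A) A.dim ∧ tau hT A Z (x : Cor C A) z = 0}
  zero_mem' := ⟨Submodule.zero_mem _, by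
    have h1 : tau hT A Z (0 : Cor C A) = 0 := map_zero _
    exact LinearMap.congr_fun h1 z⟩
  add_mem' := fun {a b} ha hb => ⟨Submodule.add_mem _ ha.1 hb.1, by
    have h1 : tau hT A Z ((a : Cor C A) + (b : Cor C A)) = tau hT A Z (a : Cor C A) +
      tau hT A Z (b : Cor C A) := map_add _ _ _
    have h2 := LinearMap.congr_fun h1 z
    rw [LinearMap.add_apply, ha.2, hb.2, add_zero] at h2
    exact h2⟩
  smul_mem' := fun c {a} ha => ⟨Submodule.smul_mem _ _ ha.1, by
    have h1 : tau hT A Z (c • (a : Cor C A)) = c • tau hT A Z (a : Cor C A) := map_smul _ _ _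
    have h2 := LinearMap.congr_fun h1 z
    rw [LinearMap.smul_apply, ha.2, smul_zero] at h2
    exact h2⟩

/-- Correspondences which factor through `B`, if `T(B × Z)` vanishes. -/
theorem comp_killers {c : ℤ} {z : T.M (A.prod Z)} (hz : z ∈ T.gr (A.prod Z) c) {l l' : ℤ}
    {a : C.A (A.prod B)} {b : C.A (B.prod A)} (ha : a ∈ C.gr (A.prod B) l)
    (hb : b ∈ C.gr (B.prod A) l') (hll : l + l' = A.dim + B.dim)
    (h0 : T.gr (B.prod Z) (c + (l - A.dim)) = ⊥) : C.comp a b ∈ killers hT z := by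
  refine ⟨?_, ?_⟩
  · have h1 := comp_mem C (e := l - A.dim) (e' := l' - B.dim) (Γ := a) (Δ := b)
      (gr_congr (by ring) ha) (gr_congr (by ring) hb)
    exact gr_congr (by linarith) h1
  · rw [tau_apply]
    have h1 : tens C (C.comp a b) (dg C Z) = C.comp (tens C a (dg C Z)) (tens C b (dg C Z)) := by
      rw [tens_comp'', comp_dg]
    rw [h1, hT.act_comp]
    have h2 : T.act (tens C a (dg C Z)) z ∈ T.gr (B.prod Z) (c + (l - A.dim)) := by
      refine hT.act_mem ?_ hz
      refine gr_congr ?_ (tens_mem C ha (dg_mem C Z))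
      rw [Obj.dim_prod]
      push_cast
      ring
    rw [h0, Submodule.mem_bot] at h2
    rw [h2, map_zero]

include hS in
/-- **The vanishing of an element of `T(A × Z)`.** -/
theorem core_vanish [IsAlgClosed K] (hB : BoundedAt f q s δ) (hδ0 : 0 < δ) (hq : 1 < q)
    (hs : 0 < s) {πA : A ⟶ A} (hA : IsAbelianFor H πA q s f)
    (hAA : IsAbelianFor H (prodMap πA πA) q s f) (hF : IsFrobenius C (prodMap πA πA) (q ^ s))
    (hN : Nilpotence H A) {z : T.M (A.prod Z)} {α : K}
    (hα : ∀ G : ℚ[X], aeval α G = 0 → aeval (pullT T (prodMap πA (𝟙 Z))) G z = 0)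
    (hfac : ∀ (a a' : H.A A) (ν : K), a ≠ 0 → a' ≠ 0 →
      H.pull πA a = (((q ^ s : ℕ) : K) ^ A.dim / ν) • a → H.pull πA a' = ν • a' →
      aeval ν (minpoly ℚ α) = 0 →
      H.ext a a' ∈ Submodule.span K {a | ∃ x ∈ killers hT z, a = H.cl x}) : z = 0 := by
  classical
  have hQ0 : q ^ s ≠ 0 := pow_ne_zero _ (by omega)
  have hQK : ((q ^ s : ℕ) : K) ≠ 0 := by exact_mod_cast hQ0
  obtain ⟨n, b, L, -, -, hb⟩ := exists_list_eigenbasis hS hA
  obtain ⟨b', hb'1, hb'2⟩ := exists_dual_basis hS hQ0 hA.degree b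
    (fun t => rootProd s ((L t).map Prod.snd)) (fun t => (hb t).2)
  have hb'0 : ∀ t, b' t ≠ 0 := by
    intro t h4
    have h5 := hb'1 t t
    rw [h4, zero_mul, map_zero, if_pos rfl] at h5
    exact zero_ne_one h5
  have hμ0 : ∀ t, rootProd s ((L t).map Prod.snd) ≠ (0 : K) := fun t =>
    eigen_ne_zero hQ0 hA.degree (b.ne_zero t) (hb t).2
  set ν : Fin n → K := fun t => ((q ^ s : ℕ) : K) ^ A.dim / rootProd s ((L t).map Prod.snd) with hν
  have hνa : ∀ t, ν t ∈ algebraicClosure ℚ K := fun t =>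
    div_mem (pow_mem (natCast_mem _ _) _) (mem_rootProd hB.monic s _)
  have hint : ∀ t, IsIntegral ℚ (ν t) := fun t => (mem_algebraicClosure_iff.1 (hνa t)).isIntegral
  set p := minpoly ℚ α with hp
  set S : Finset (Fin n) := Finset.univ.filter fun t => aeval (ν t) p ≠ 0 with hSdef
  have hcop : IsCoprime (∏ t ∈ S, minpoly ℚ (ν t)) p := by
    refine IsCoprime.prod_left fun t ht => ?_
    rw [(minpoly.irreducible (hint t)).coprime_iff_not_dvd]
    intro h1
    exact (Finset.mem_filter.1 ht).2 ((minpoly.dvd_iff).1 h1)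
  obtain ⟨u, v, huv⟩ := hcop
  set G : ℚ[X] := u * ∏ t ∈ S, minpoly ℚ (ν t) with hG
  have hGz : aeval (pullT T (prodMap πA (𝟙 Z))) G z = z := by
    have h1 : aeval α (G - 1) = 0 := by
      have h2 : G - 1 = -(v * p) := by
        rw [hG, ← huv]
        ring
      rw [h2, map_neg, map_mul, hp, minpoly.aeval, mul_zero, neg_zero]
    have h2 := hα _ h1
    rw [map_sub, map_one, LinearMap.sub_apply, Module.End.one_apply, sub_eq_zero] at h2
    exact h2
  set Γ : Cor C A := aeval (fr C πA) G with hΓ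
  have hΓm : Γ ∈ cor0 C A := aeval_fr_mem πA G
  have hcl : H.cl (X := A.prod A) Γ ∈
      Submodule.span K {a | ∃ x ∈ killers hT z, a = H.cl x} := by
    obtain ⟨τ, hτ⟩ := cl_aeval hS b b' ν hb'1 hb'2 hb'0 G
    rw [hΓ, hτ]
    refine Submodule.sum_mem _ fun t _ => ?_
    by_cases ht : aeval (ν t) p = 0
    · refine Submodule.smul_mem _ _ (hfac (b t) (b' t) (ν t) (b.ne_zero t) (hb'0 t) ?_ (hb'2 t) ht)
      rw [hν]
      have h1 : H.pull πA (b t) = rootProd s ((L t).map Prod.snd) • b t := (hb t).2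
      rw [h1]
      congr 1
      have := hμ0 t
      field_simp
    · have h1 : aeval (ν t) G = 0 := by
        rw [hG, map_mul, map_prod, Finset.prod_eq_zero (Finset.mem_filter.2
          ⟨Finset.mem_univ t, ht⟩) (minpoly.aeval ℚ (ν t)), mul_zero]
      rw [h1, mul_zero, zero_smul]
      exact Submodule.zero_mem _
  obtain ⟨x, hx, hnum⟩ := descent hS (X := A.prod A) (m := A.dim) (killers hT z)
    (fun x hx => hx.1) (x₀ := Γ) hΓm hcl
  have hD := homNumIn_abelian hS hB hδ0 hq hs hAA hF A.dim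
  let Γ₀ : C.A (A.prod A) := Γ
  let y : Cor C A := x
  have h0 : H.cl (X := A.prod A) (Γ₀ - x) = 0 := hD _ (Submodule.sub_mem _ hΓm hx.1) hnum
  have hnil : IsNilpotent (Γ - y) := by
    refine nilp_of_act hN (H := H) (Submodule.sub_mem (C.gr (A.prod A) A.dim) hΓm hx.1) ?_
    refine LinearMap.ext fun a => ?_
    rw [actH_apply]
    have h1 : H.cl (X := A.prod A) (Γ - y : Cor C A) = 0 := h0
    rw [h1, LinearMap.zero_apply, H.toTheoryData.act_apply, zero_mul, map_zero]
  obtain ⟨m, hm⟩ := hnil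
  have h1 : tau hT A Z (Γ - y) z = z := by
    have hx2 : tau hT A Z y z = 0 := hx.2
    rw [map_sub, LinearMap.sub_apply, hx2, sub_zero, hΓ, ← Polynomial.aeval_algHom_apply]
    have h2 : tau hT A Z (fr C πA) = pullT T (prodMap πA (𝟙 Z)) :=
      LinearMap.ext fun m => tau_fr hT πA m
    rw [h2, hGz]
  have h2 : ∀ m : ℕ, (tau hT A Z (Γ - y) ^ m) z = z := by
    intro m
    induction m with
    | zero => simp
    | succ m ih => rw [pow_succ, Module.End.mul_apply, h1, ih]
  have h3 := h2 m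
  rw [← map_pow, hm, map_zero, LinearMap.zero_apply] at h3
  exact h3.symm

end theory

end Pool.Agent.Q219.UZ
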