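import Mathlib
import Pool.Agent.Q219.UZ.RNum

/-!
# Chow groups and motivic cohomology of products with arbitrary varieties: the situation
-/

set_option autoImplicit false

open CategoryTheory AlgebraicGeometry

universe u v w

namespace Pool.Agent.Q219.UZ

open Polynomial Pool.Agent.H914 Pool.Agent.H914.VarClass Pool.Agent.H914.VarClass.Obj
  Pool.Agent.W492.BB Pool.Agent.W484.CH Pool.Agent.TH133

variable {k : Type u} [Field k] {𝒱 : VarClass k} {C : TheoryData.{u, v, 0} 𝒱 ℚ} {K : Type w}
  [Field K] (H : WeilTheoryData.{u, v, w} C K) {A B Z : 𝒱.Obj}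

/-- The situation of the theorems on theories on which correspondences act. -/
structure IsPureTriple (πA : A ⟶ A) (πB : B ⟶ B) (πZ : Z ⟶ Z) (n q s : ℕ) {I : Type}
    (f : I → ℤ[X]) : Prop where
  standard : IsStandard H
  pos : 0 < s
  occurs : ∀ zs : List {z : K // ∃ i, aeval z (f i) = 0}, zs.length ≤ n →
    ∃ u : H.A B, u ≠ 0 ∧ u ∈ H.gr B zs.length ∧ H.pull πB u = rootProd s zs • u
  abelian : IsAbelianFor H πA q s f
  auxiliary : IsAbelianFor H πB q s f
  square : IsAbelianFor H (prodMap πA πA) q s f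
  mixed : IsAbelianFor H (prodMap πA πB) q s f
  mixed' : IsAbelianFor H (prodMap πB πA) q s f
  frobenius : IsFrobenius C (prodMap πA πA) (q ^ s)
  degree : HasFrobDegree C πZ (q ^ s)
  pure : IsPure H πZ (q ^ s)
  nilpotence : Nilpotence H A
  nilpotenceZ : Nilpotence H Z

end Pool.Agent.Q219.UZ
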