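import Mathlib
import Pool.Agent.Q219.UZ.RCore
import Pool.Agent.Q219.UZ.RDefs
import Pool.Agent.Q56.CP.Vanish

/-!
# The transfer of the vanishing of theories
-/

set_option autoImplicit false
set_option linter.unusedSectionVars false

open CategoryTheory AlgebraicGeometry

universe u v w

namespace Pool.Agent.Q219.UZ

open Module Polynomial Pool.Agent.H914 Pool.Agent.H914.VarClass Pool.Agent.H914.VarClass.Obj
  Pool.Agent.W492.BB Pool.Agent.W550.Corr Pool.Agent.W484.TB Pool.Agent.W484.CH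
  Pool.Agent.W484.HS Pool.Agent.TH133 Pool.Agent.Q56.CP

open Pool.Agent.Y148.BB (gr_congr tens_comp'')

variable {k : Type u} [Field k] {𝒱 : VarClass k} {C : TheoryData.{u, v, 0} 𝒱 ℚ} {K : Type w}
  [Field K] [CharZero K] {H : WeilTheoryData.{u, v, w} C K} [hC : IsChowProj C]
  [hH : IsWeilProj H] {A B Z X : 𝒱.Obj} {I : Type} {f : I → ℤ[X]} {q s : ℕ} {δ : ℝ}

section eigen

/-- A homogeneous eigenvector. -/
theorem exists_homog {πZ : Z ⟶ Z} {ρ : K} {v : H.A Z} (hv0 : v ≠ 0)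
    (hρ : H.pull πZ v = ρ • v) :
    ∃ (w : ℕ) (v' : H.A Z), v' ∈ H.gr Z w ∧ v' ≠ 0 ∧ H.pull πZ v' = ρ • v' := by
  by_contra hcon
  push Not at hcon
  apply hv0
  have h1 : v ∈ H.gr Z (-1) := by
    refine graded_ker (H.isInternal Z) (N := hF H πZ - ρ • (1 : Module.End K (H.A Z)))
      (fun i x hx => shift_mem πZ ρ hx) (fun i _ x hx hx0 => ?_) ?_
    · by_contra hx1
      have hi := nonneg_of_mem H hx hx1
      obtain ⟨w, rfl⟩ := Int.eq_ofNat_of_zero_le hi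
      apply hcon w x hx hx1
      rw [LinearMap.sub_apply, LinearMap.smul_apply, Module.End.one_apply, sub_eq_zero] at hx0
      exact hx0
    · rw [LinearMap.sub_apply, LinearMap.smul_apply, Module.End.one_apply, sub_eq_zero]
      exact hρ
  rw [H.gr_neg Z (-1) (by norm_num), Submodule.mem_bot] at h1
  exact h1

end eigen

section main

variable [IsAlgClosed K] {T : CorrData C} (hT : IsCorrTheory T)

include hT in
/-- The relation for the Frobenius endomorphism of the second factor. -/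
theorem relation_snd {πZ : Z ⟶ Z} {P : ℚ[X]} (hP : aeval (fr C πZ) P = 0) (z : T.M (A.prod Z)) :
    aeval (pullT T (prodMap (𝟙 A) πZ)) P z = 0 := by
  apply pullT_injective_of_iso hT (f := sw Z A) (g := sw A Z) sw_sw
  rw [map_zero, ← Pool.Agent.Q56.CP.aeval_intertwine (φ' := pullT T (prodMap πZ (𝟙 A)))
    (g := pullT T (sw Z A))]
  · have h1 : tau hT Z A (fr C πZ) = pullT T (prodMap πZ (𝟙 A)) :=
      LinearMap.ext fun m => tau_fr hT πZ m
    rw [← h1, Polynomial.aeval_algHom_apply, hP, map_zero, LinearMap.zero_apply]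
  · intro v
    rw [← pullT_comp hT, ← pullT_comp hT]
    congr 1
    congr 1
    apply prod_ext <;> simp [sw, prodMap, comp_lift]

include hT in
/-- **Eigenvectors of the two Frobenius endomorphisms in `T(A × Z)`.** -/
theorem exists_pair (hS : IsStandard H) (hf : ∀ i, (f i).Monic) {πA : A ⟶ A} {πZ : Z ⟶ Z}
    (hA : IsAbelianFor H πA q s f) (hNA : Nilpotence H A) (hNZ : Nilpotence H Z)
    (halg : ∀ (ρ : K) (v : H.A Z), v ≠ 0 → H.pull πZ v = ρ • v → ρ ∈ algebraicClosure ℚ K)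
    (hπ : ActsAsPower T (prodMap πA πZ) (q ^ s)) {c : ℤ} (hne : T.gr (A.prod Z) c ≠ ⊥) :
    ∃ (z : T.M (A.prod Z)) (ys : List {z : K // ∃ i, aeval z (f i) = 0}) (ρ β : K) (v : H.A Z),
      z ∈ T.gr (A.prod Z) c ∧ z ≠ 0 ∧ v ≠ 0 ∧ H.pull πZ v = ρ • v ∧
      aeval β (minpoly ℚ ρ) = 0 ∧ rootProd s ys * β = ((q ^ s : ℕ) : K) ^ c ∧
      (∀ G : ℚ[X], aeval (rootProd s ys) G = 0 →
        aeval (pullT T (prodMap πA (𝟙 Z))) G z = 0) ∧
      ∀ G : ℚ[X], aeval β G = 0 → aeval (pullT T (prodMap (𝟙 A) πZ)) G z = 0 := by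
  classical
  have hnt : Nontrivial (T.gr (A.prod Z) c) := (Submodule.nontrivial_iff_ne_bot).2 hne
  -- the relations
  obtain ⟨n, b, L, -, -, hb⟩ := exists_list_eigenbasis hS hA
  obtain ⟨P, hP0, hP, hProot⟩ := relation_of_basis hNA b
    (fun t => rootProd s ((L t).map Prod.snd)) (fun t => (hb t).2)
    (fun t => mem_rootProd hf s _)
  have hfin := hS.finite Z
  obtain ⟨R, hR0, hR, hRroot⟩ := relation_of_eigen (πZ := πZ) hNZ halg
  set φ := opr hT (prodMap πA (𝟙 Z)) c with hφ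
  set ψ := opr hT (prodMap (𝟙 A) πZ) c with hψ
  have hPφ : aeval φ P = 0 := by
    refine LinearMap.ext fun z => Subtype.ext ?_
    rw [hφ, aeval_opr]
    have h1 : tau hT A Z (fr C πA) = pullT T (prodMap πA (𝟙 Z)) :=
      LinearMap.ext fun m => tau_fr hT πA m
    rw [← h1, Polynomial.aeval_algHom_apply, hP, map_zero]
    rfl
  have hRψ : aeval ψ R = 0 := by
    refine LinearMap.ext fun z => Subtype.ext ?_
    rw [hψ, aeval_opr, relation_snd hT hR]
    rfl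
  have hcomm : φ * ψ = ψ * φ := by
    refine opr_comm hT ?_ c
    apply prod_ext <;> simp [prodMap, comp_lift]
  obtain ⟨z, α, β, hz0, hα, hβ, hαβ, hG, hG'⟩ := exists_joint (K := K) φ ψ hcomm hP0 hR0 hPφ hRψ
    (((q ^ s : ℕ) : ℚ) ^ c) (fun v => Subtype.ext (by
      change pullT T (prodMap πA (𝟙 Z)) (pullT T (prodMap (𝟙 A) πZ) (v : T.M (A.prod Z))) = _
      rw [← pullT_comp hT]
      have h1 : prodMap πA (𝟙 Z) ≫ prodMap (𝟙 A) πZ = prodMap πA πZ := by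
        apply prod_ext <;> simp [prodMap, comp_lift]
      rw [h1]
      exact hπ c v v.2))
  have hαβ' : α * β = ((q ^ s : ℕ) : K) ^ c := by
    rw [hαβ, Rat.cast_zpow, Rat.cast_natCast]
  -- the eigenvalues are products of roots
  obtain ⟨t, ht⟩ := hProot α hα
  obtain ⟨τ₀, hτ₀⟩ := exists_conj (mem_rootProd hf s ((L t).map Prod.snd)) ht
  obtain ⟨ys, -, hys⟩ := conj_rootProd τ₀ hf s ((L t).map Prod.snd)
  have hα' : α = rootProd s ys := by rw [← hτ₀, hys]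
  obtain ⟨ρ, v, hv0, hρ, hβρ⟩ := hRroot β hβ
  refine ⟨z, ys, ρ, β, v, z.2, fun h => hz0 (Subtype.ext h), hv0, hρ, hβρ, ?_, ?_, ?_⟩
  · rw [← hα', hαβ']
  · intro G hG1
    rw [← hα'] at hG1
    have h2 := congrArg Subtype.val (hG G hG1)
    rw [hφ, aeval_opr] at h2
    exact h2
  · intro G hG1
    have h2 := congrArg Subtype.val (hG' G hG1)
    rw [hψ, aeval_opr] at h2
    exact h2

omit hC hH in
/-- The conjugates of the two eigenvalues. -/
theorem conj_pair (hf : ∀ i, (f i).Monic) {ys : List {z : K // ∃ i, aeval z (f i) = 0}}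
    {β ν : K} {Q : ℕ} (hβ : β ∈ algebraicClosure ℚ K) {c : ℤ}
    (hrel : rootProd s ys * β = (Q : K) ^ c) (hν : aeval ν (minpoly ℚ (rootProd s ys)) = 0) :
    ∃ (τ : algebraicClosure ℚ K →ₐ[ℚ] K) (ys' : List {z : K // ∃ i, aeval z (f i) = 0}),
      ν = rootProd s ys' ∧ rootProd s ys' * τ ⟨β, hβ⟩ = (Q : K) ^ c := by
  have hαa := mem_rootProd hf s ys
  obtain ⟨τ, hτ⟩ := exists_conj hαa hν
  obtain ⟨ys', -, hys'⟩ := conj_rootProd τ hf s ys
  refine ⟨τ, ys', by rw [← hτ, ← hys'], ?_⟩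
  rw [← hys', ← map_mul]
  have h1 : (⟨rootProd s ys, hαa⟩ * ⟨β, hβ⟩ : algebraicClosure ℚ K) =
      (Q : algebraicClosure ℚ K) ^ c := Subtype.ext (by
    rw [IntermediateField.coe_mul, hrel]
    rfl)
  rw [h1, map_zpow₀, map_natCast]

variable (hB : BoundedAt f q s δ) (hδ0 : 0 < δ) (hδ1 : δ ≤ 1) (hq : 1 < q)
  {n : ℕ} {e : ℝ} (hen : e < (n + 1) * δ) {πA : A ⟶ A} {πB : B ⟶ B} {πZ : Z ⟶ Z}
  (hlev : LevelLE H πZ (q ^ s) e) (h : IsPureTriple H πA πB πZ n q s f)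

include hT hB hδ0 hδ1 hq hen hlev h in
/-- **The vanishing of `T(A × Z)`.** -/
theorem vanish_transfer (hπ : ActsAsPower T (prodMap πA πZ) (q ^ s)) (c : ℤ)
    (h0 : ∀ c' : ℕ, (c' : ℤ) ≤ c → 2 * c' + ⌊e⌋₊ ≤ 2 * Z.dim + n →
      T.gr (B.prod Z) c' = ⊥) : T.gr (A.prod Z) c = ⊥ := by
  classical
  have hS := h.standard
  have hQ0 : q ^ s ≠ 0 := pow_ne_zero _ (by omega)
  have hQK : ((q ^ s : ℕ) : K) ≠ 0 := by exact_mod_cast hQ0
  by_contra hne
  have hfin := hS.finite Z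
  have hZnum : ∀ (ρ : K) (v : H.A Z), v ≠ 0 → H.pull πZ v = ρ • v →
      ρ ∈ algebraicClosure ℚ K ∧ ZNum (q ^ s) Z.dim e ρ := by
    intro ρ v hv0 hρ
    obtain ⟨w, v', hv', hv'0, hρ'⟩ := exists_homog hv0 hρ
    obtain ⟨hW, hw2, -, hdual⟩ := levels hS hQ0 h.degree h.pure hv' hv'0 hρ'
    refine ⟨?_, w, hw2, hW, hlev w ρ v' hv' hv'0 hρ', hdual⟩
    obtain ⟨χ, h1, h2, -⟩ := hW
    exact mem_alg_of h1 h2
  obtain ⟨z, ys, ρ, β, v, hz, hz0, hv0, hρ, hβρ, hrel, hG, -⟩ := exists_pair hT hS hB.monic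
    h.abelian h.nilpotence h.nilpotenceZ (fun ρ v hv0 hρ => (hZnum ρ v hv0 hρ).1) hπ hne
  obtain ⟨hρa, hρn⟩ := hZnum ρ v hv0 hρ
  obtain ⟨τ₁, hτ₁⟩ := exists_conj hρa hβρ
  have hβn : ZNum (q ^ s) Z.dim e β := by
    rw [← hτ₁]
    exact conj_ZNum τ₁ hρa hρn
  have hβa : β ∈ algebraicClosure ℚ K := by
    obtain ⟨w, -, ⟨χ, h1, h2, -⟩, -⟩ := hβn
    exact mem_alg_of h1 h2
  apply hz0
  refine core_vanish hS hT hB hδ0 hq h.pos h.abelian h.square h.frobenius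
    h.nilpotence (α := rootProd s ys) hG ?_
  intro a a' ν ha0 ha'0 ha ha' hν
  obtain ⟨τ, ys', hν', hrel'⟩ := conj_pair hB.monic hβa hrel hν
  obtain ⟨i, c', zs, hzs, hic, hprod, hbd⟩ := component_num hB hδ0 hδ1 hq (N := n)
    hen (conj_ZNum τ hβa hβn) ys' c hrel'
  obtain ⟨u, hu0, hud, hu⟩ := h.occurs zs hzs
  have hν0 : ν ≠ 0 := eigen_ne_zero hQ0 h.abelian.degree ha'0 ha'
  refine factor_ext hS hB hδ0 hq h.pos h.auxiliary h.mixed h.mixed' ha0 ha'0 ha ha' hν0 hu0 hu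
    (i := i) (by rw [hν', hprod]) ?_
  intro l l' x y hl hl' hx hy
  refine comp_killers hT hz hx hy (by omega) ?_
  have h1 : c + ((l : ℤ) - A.dim) = c' := by omega
  rw [h1]
  exact h0 c' (by omega) hbd

end main

end Pool.Agent.Q219.UZ
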