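import Mathlib
import Pool.Agent.Q219.UZ.RMain
import Pool.Agent.Q219.UZ.NarrowDefs
import Pool.Agent.Q219.UZ.MomentField

/-!
# The vanishing of theories for products with varieties of narrow cohomology
-/

set_option autoImplicit false
set_option linter.unusedSectionVars false

open CategoryTheory AlgebraicGeometry

universe u v w

namespace Pool.Agent.Q219.UZ

open Module Polynomial Pool.Agent.H914 Pool.Agent.H914.VarClass Pool.Agent.H914.VarClass.Obj
  Pool.Agent.W492.BB Pool.Agent.W550.Corr Pool.Agent.W484.TB Pool.Agent.W484.CH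
  Pool.Agent.W484.HS Pool.Agent.TH133 Pool.Agent.Q56.CP

open Pool.Agent.Y148.BB (gr_congr tens_comp'')

/-- The properties of the eigenvalues of Frobenius on the cohomology of degree `w` of a variety of
dimension `d`, with narrow cohomology. -/
def ZNar {K : Type*} [Field K] (Q d w : ℕ) (δ δ₂ : ℝ) (β : K) : Prop :=
  w ≤ 2 * d ∧ IsWeilNumber Q w β ∧ HasLevel Q w w β ∧ HasLevel Q w (2 * d - w) β ∧
    (0 < w → w < 2 * d → (∃ e : ℝ, e < width d w * δ ∧ HasLevel Q w e β) ∨
      (∃ M : ℝ, M < width d w * δ₂ ∧ HasMoment Q w M β))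

section num

variable {K : Type*} [Field K] [CharZero K] {I : Type} {f : I → ℤ[X]} {q s : ℕ} {δ δ₂ : ℝ}

theorem conj_moment (τ : algebraicClosure ℚ K →ₐ[ℚ] K) {Q w : ℕ} {M : ℝ} {z : K}
    (hz : z ∈ algebraicClosure ℚ K) (h : HasMoment Q w M z) : HasMoment Q w M (τ ⟨z, hz⟩) := by
  obtain ⟨χ, h1, h2, h3, h4⟩ := h
  exact ⟨χ, h1, h2, conj_root τ hz h3, h4⟩

theorem conj_ZNar (τ : algebraicClosure ℚ K →ₐ[ℚ] K) {Q d w : ℕ} {z : K}
    (hz : z ∈ algebraicClosure ℚ K) (h : ZNar Q d w δ δ₂ z) :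
    ZNar Q d w δ δ₂ (τ ⟨z, hz⟩) := by
  obtain ⟨h0, h1, h2, h3, h4⟩ := h
  refine ⟨h0, conj_weil τ hz h1, conj_level τ hz h2, conj_level τ hz h3, fun h5 h6 => ?_⟩
  rcases h4 h5 h6 with ⟨e, h7, h8⟩ | ⟨M, h7, h8⟩
  · exact Or.inl ⟨e, h7, conj_level τ hz h8⟩
  · exact Or.inr ⟨M, h7, conj_moment τ hz h8⟩

/-- The weight of a Weil number. -/
theorem weil_unique {Q w w' : ℕ} (hQ : 1 < Q) {z : K} (h : IsWeilNumber Q w z)
    (h' : IsWeilNumber Q w' z) : w = w' := by
  obtain ⟨χ, h1, h2, h3⟩ := h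
  obtain ⟨χ', h1', h2', h3'⟩ := h'
  have halg : Algebra.IsAlgebraic ℚ (algebraicClosure ℚ K) := algebraicClosure.isAlgebraic ℚ K
  let j : algebraicClosure ℚ K →ₐ[ℚ] ℂ := IsAlgClosed.lift
  have hdown : ∀ (p : ℤ[X]), aeval z p = 0 → aeval (j ⟨z, mem_alg_of h1 h2⟩) p = 0 := by
    intro p hz
    have h2 := Polynomial.hom_eval₂ p (algebraMap ℤ _) (j : algebraicClosure ℚ K →+* ℂ)
      ⟨z, mem_alg_of h1 h2⟩
    rw [RingHom.ext_int ((j : algebraicClosure ℚ K →+* ℂ).comp (algebraMap ℤ _))
      (algebraMap ℤ ℂ)] at h2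
    have h3 : eval₂ (algebraMap ℤ (algebraicClosure ℚ K))
        (⟨z, mem_alg_of h1 (by assumption)⟩ : algebraicClosure ℚ K) p = 0 := by
      apply (algebraMap (algebraicClosure ℚ K) K).injective
      rw [map_zero, Polynomial.hom_eval₂, RingHom.ext_int ((algebraMap (algebraicClosure ℚ K)
        K).comp (algebraMap ℤ _)) (algebraMap ℤ K)]
      exact hz
    rw [h3, map_zero] at h2
    exact h2.symm
  have h4 := h3 _ (hdown χ h2)
  rw [h3' _ (hdown χ' h2')] at h4
  have h5 : Q ^ w' = Q ^ w := by exact_mod_cast h4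
  exact (Nat.pow_right_injective hQ h5).symm

/-- **The relations between roots and an eigenvalue on narrow cohomology.** -/
theorem component_nar (hB : BoundedAt f q s δ) (hM : MomentAt f q s δ₂) (hδ0 : 0 < δ)
    (hδ₂ : 0 < δ₂) (hq : 1 < q) {d w : ℕ} {β : K} (hβ : ZNar (q ^ s) d w δ δ₂ β)
    (ys : List {z : K // ∃ i, aeval z (f i) = 0}) (c : ℤ)
    (hrel : rootProd s ys * β = ((q ^ s : ℕ) : K) ^ c) :
    ∃ (i c' : ℕ) (zs : List {z : K // ∃ i, aeval z (f i) = 0}),
      (i : ℤ) + c' = c ∧ rootProd s ys = ((q ^ s : ℕ) : K) ^ i * rootProd s zs ∧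
      2 * c' = zs.length + w ∧
      (zs.length = 0 ∨ (zs.length = 1 ∧ w = 1) ∨ (zs.length = 1 ∧ w + 1 = 2 * d)) := by
  have hQ0 : q ^ s ≠ 0 := pow_ne_zero _ (by omega)
  have hQK : ((q ^ s : ℕ) : K) ≠ 0 := by exact_mod_cast hQ0
  obtain ⟨hw2, hW, hlow, hdual, hnar⟩ := hβ
  obtain ⟨i, zs, h1, h2, h3⟩ := reduce_list
    (fun z : {z : K // ∃ i, aeval z (f i) = 0} => (z : K) ^ s) ((q : K) ^ s) ys.length ys rfl
  have h2' : rootProd s ys = ((q ^ s : ℕ) : K) ^ i * rootProd s zs := by
    push_cast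
    exact h2
  have hqs : ((q ^ s : ℕ) : K) = (q : K) ^ s := by push_cast; rfl
  have hrel' : ((zs.map fun z : {z : K // ∃ i, aeval z (f i) = 0} => (z : K) ^ s).prod * β) ^ 1 =
      (((q : K) ^ s) ^ (c - i)) ^ 1 := by
    change (rootProd s zs * β) ^ 1 = _
    rw [pow_one, pow_one, ← hqs, zpow_sub₀ hQK, zpow_natCast, eq_div_iff (pow_ne_zero _ hQK),
      ← hrel, h2']
    ring
  obtain ⟨h4, h5⟩ := bound_field hB hW hlow _ 1 one_pos zs hrel' h3
  obtain ⟨-, h6⟩ := bound_field hB hW hdual _ 1 one_pos zs hrel' h3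
  have hci : 0 ≤ c - i := by omega
  obtain ⟨c', hc'⟩ := Int.eq_ofNat_of_zero_le hci
  have h7 : 2 * c' = zs.length + w := by omega
  refine ⟨i, c', zs, by omega, h2', h7, ?_⟩
  have hlt : ∀ (b : ℕ) (η : ℝ) (x : ℝ), 0 < η → x < b * η → (zs.length : ℝ) * η ≤ x →
      zs.length < b := by
    intro b η x hη hx hle
    by_contra hcon
    push Not at hcon
    have h8 : (b : ℝ) ≤ zs.length := by exact_mod_cast hcon
    have h9 := mul_le_mul_of_nonneg_right h8 hη.le
    linarith
  rcases Nat.eq_zero_or_pos w with hw0 | hw0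
  · left
    subst hw0
    by_contra hcon
    have h8 : (0 : ℝ) < zs.length := by exact_mod_cast Nat.pos_of_ne_zero hcon
    have h9 := mul_pos h8 hδ0
    push_cast at h5
    linarith
  · rcases hw2.lt_or_eq with h8 | h8
    · have h9 : zs.length < width d w := by
        rcases hnar hw0 h8 with ⟨e, he, hlev⟩ | ⟨M, hM', hmom⟩
        · obtain ⟨-, h10⟩ := bound_field hB hW hlev _ 1 one_pos zs hrel' h3
          exact hlt _ δ e hδ0 he h10
        · exact hlt _ δ₂ M hδ₂ hM' (moment_field hM hW hmom _ 1 one_pos zs hrel' h3)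
      unfold width at h9
      split_ifs at h9 with h10 h11
      · left; omega
      · right
        rcases h11 with h11 | h11
        · left; omega
        · right; omega
      · left; omega
    · left
      by_contra hcon
      have h9 : (0 : ℝ) < zs.length := by exact_mod_cast Nat.pos_of_ne_zero hcon
      have h10 := mul_pos h9 hδ0
      have h11 : (w : ℝ) = 2 * d := by exact_mod_cast h8
      linarith

end num

section linear

/-- Eigenvectors and polynomials. -/
theorem exists_eigen_of_poly {K V : Type*} [Field K] [IsAlgClosed K] [AddCommGroup V] [Module K V]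
    {F : Module.End K V} (W : Submodule K V) (hF : ∀ v ∈ W, F v ∈ W) {p : K[X]} (hp : p ≠ 0)
    {x : V} (hx : x ∈ W) (hx0 : x ≠ 0) (h : aeval F p x = 0) :
    ∃ (ν : K) (y : V), y ∈ W ∧ y ≠ 0 ∧ F y = ν • y ∧ p.eval ν = 0 := by
  have hst : ∀ (r : K[X]) (v : V), v ∈ W → aeval F r v ∈ W := by
    intro r v hv
    induction r using Polynomial.induction_on' with
    | add p q hp hq => rw [map_add, LinearMap.add_apply]; exact Submodule.add_mem _ hp hq
    | monomial n a =>
      rw [aeval_monomial, Module.End.mul_apply, Module.algebraMap_end_apply]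
      refine Submodule.smul_mem _ _ ?_
      induction n with
      | zero => simpa using hv
      | succ n ih => rw [pow_succ', Module.End.mul_apply]; exact hF _ ih
  have key : ∀ S : Multiset K, aeval F (S.map fun r => Polynomial.X - Polynomial.C r).prod x = 0 →
      ∃ (ν : K) (y : V), y ∈ W ∧ y ≠ 0 ∧ F y = ν • y ∧ ν ∈ S := by
    intro S
    induction S using Multiset.induction_on with
    | empty =>
      intro h1
      rw [Multiset.map_zero, Multiset.prod_zero, map_one, Module.End.one_apply] at h1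
      exact absurd h1 hx0
    | cons r S ih =>
      intro h1
      rw [Multiset.map_cons, Multiset.prod_cons, map_mul, Module.End.mul_apply] at h1
      by_cases h2 : aeval F (S.map fun r => Polynomial.X - Polynomial.C r).prod x = 0
      · obtain ⟨ν, y, h3, h4, h5, h6⟩ := ih h2
        exact ⟨ν, y, h3, h4, h5, Multiset.mem_cons_of_mem h6⟩
      · refine ⟨r, _, hst _ x hx, h2, ?_, Multiset.mem_cons_self _ _⟩
        rw [map_sub, aeval_X, aeval_C, LinearMap.sub_apply, Module.algebraMap_end_apply,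
          sub_eq_zero] at h1
        exact h1
  have h1 := (IsAlgClosed.splits p).eq_prod_roots
  rw [h1, map_mul, aeval_C, Module.End.mul_apply, Module.algebraMap_end_apply] at h
  obtain ⟨ν, y, h3, h4, h5, h6⟩ := key _ ((smul_eq_zero.1 h).resolve_left
    (leadingCoeff_ne_zero.2 hp))
  exact ⟨ν, y, h3, h4, h5, (mem_roots'.1 h6).2⟩

end linear

variable {k : Type u} [Field k] {𝒱 : VarClass k} {C : TheoryData.{u, v, 0} 𝒱 ℚ} {K : Type w}
  [Field K] [CharZero K] {H : WeilTheoryData.{u, v, w} C K} [hC : IsChowProj C]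
  [hH : IsWeilProj H] {A B Z X : 𝒱.Obj} {I : Type} {f : I → ℤ[X]} {q s : ℕ} {δ δ₂ : ℝ}

section point

variable [IsAlgClosed K] {T : CorrData C} (hT : IsCorrTheory T)

/-- Decomposable correspondences factor through a point. -/
theorem ext_killers {c : ℤ} {z : T.M (A.prod Z)} (hz : z ∈ T.gr (A.prod Z) c) {j : ℕ}
    {E D : C.A A} (hE : E ∈ C.gr A ((A.dim : ℤ) - j)) (hD : D ∈ C.gr A j)
    (h0 : T.gr Z (c - j) = ⊥) : C.ext E D ∈ killers hT z := by
  refine ⟨?_, ?_⟩
  · have h1 := ext_mem' hE hD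
    rwa [sub_add_cancel] at h1
  · have h1 := tau_projE hT (m := 1) (D := fun _ => D) (E := fun _ => E) (fun _ => hE) h0 hz
    have h2 : projE C (fun _ : Fin 1 => D) (fun _ : Fin 1 => E) = (C.ext E D : Cor C A) := by
      rw [projE, Fin.sum_univ_one]
    rw [h2] at h1
    exact h1

/-- The components of the diagonal of `A` given by algebraic classes. -/
theorem factor_point (hS : IsStandard H) (hB : BoundedAt f q s δ) (hδ0 : 0 < δ) (hq : 1 < q)
    (hs : 0 < s) {πA : A ⟶ A} (hA : IsAbelianFor H πA q s f) {a a' : H.A A} {ν : K} {j : ℕ}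
    (ha0 : a ≠ 0) (ha'0 : a' ≠ 0) (ha : H.pull πA a = (((q ^ s : ℕ) : K) ^ A.dim / ν) • a)
    (ha' : H.pull πA a' = ν • a') (hν : ν = ((q ^ s : ℕ) : K) ^ j)
    {S : Submodule ℚ (C.A (A.prod A))}
    (hcomp : ∀ E D : C.A A, E ∈ C.gr A ((A.dim : ℤ) - j) → D ∈ C.gr A j → C.ext E D ∈ S) :
    H.ext a a' ∈ Submodule.span K {a | ∃ x ∈ S, a = H.cl x} := by
  have hQ0 : q ^ s ≠ 0 := pow_ne_zero _ (by omega)
  have hQK : ((q ^ s : ℕ) : K) ≠ 0 := by exact_mod_cast hQ0
  obtain ⟨l, hl, h1⟩ := eigen_mem_NK hS hB hδ0 hq hs hA (c := (A.dim : ℤ) - j) ha0 (by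
    rw [ha, hν, zpow_sub₀ hQK, zpow_natCast, zpow_natCast])
  obtain ⟨l', hl', h2⟩ := eigen_mem_NK hS hB hδ0 hq hs hA (c := (j : ℤ)) ha'0 (by
    rw [ha', hν, zpow_natCast])
  have hl2 : l' = j := by omega
  subst hl2
  clear ha0 ha'0 ha ha'
  unfold NK at h1
  induction h1 using Submodule.span_induction with
  | mem a h1 =>
    obtain ⟨E, hE, rfl⟩ := h1
    unfold NK at h2
    induction h2 using Submodule.span_induction with
    | mem a' h2 =>
      obtain ⟨D, hD, rfl⟩ := h2
      refine Submodule.subset_span ⟨C.ext E D, hcomp E D (by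
        rw [hl]
        exact divProd_mem hE) (divProd_mem hD), ?_⟩
      rw [TheoryData.ext, TheoryData.ext, map_mul, H.cl_pull, H.cl_pull]
    | zero => rw [TheoryData.ext, map_zero, mul_zero]; exact Submodule.zero_mem _
    | add x y _ _ hx hy => rw [ext_add_right]; exact Submodule.add_mem _ hx hy
    | smul c x _ hx => rw [ext_smul_right]; exact Submodule.smul_mem _ _ hx
  | zero => rw [TheoryData.ext, map_zero, zero_mul]; exact Submodule.zero_mem _
  | add x y _ _ hx hy => rw [ext_add_left]; exact Submodule.add_mem _ hx hy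
  | smul c x _ hx =>
    rw [ext_smul_left, ext_smul_right]
    exact Submodule.smul_mem _ _ hx

end point

section right

variable {T : CorrData C} (hT : IsCorrTheory T)

omit hH in
/-- The action of the self-correspondences of `Z` on `T(A × Z)`. -/
noncomputable def tauR (hT : IsCorrTheory T) (A Z : 𝒱.Obj) :
    Cor C Z →ₐ[ℚ] Module.End ℚ (T.M (A.prod Z)) :=
  AlgHom.ofLinearMap (T.act ∘ₗ (tensL (C := C) (X := A) (Y := A) (dg C A)) :
      C.A (Z.prod Z) →ₗ[ℚ] T.M (A.prod Z) →ₗ[ℚ] T.M (A.prod Z))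
    (LinearMap.ext fun m => by
      change T.act (tens C (dg C A) (dg C Z)) m = m
      rw [tens_dg]
      exact hT.act_id m)
    (fun a b => LinearMap.ext fun m => by
      change T.act (tens C (dg C A) (C.comp (X := Z) (Y := Z) (Z := Z) b a)) m =
        T.act (tens C (dg C A) (a : C.A (Z.prod Z))) (T.act (tens C (dg C A) (b : C.A (Z.prod Z))) m)
      rw [← hT.act_comp, tens_comp'', comp_dg])

theorem tauR_apply (a : Cor C Z) (m : T.M (A.prod Z)) :
    tauR hT A Z a m = T.act (tens C (Z := Z) (W := Z) (dg C A) a) m := rfl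

omit hH in
include hC in
/-- The external product of the diagonal with a cograph. -/
theorem tens_dg_cograph (A : 𝒱.Obj) (f : Z ⟶ Z) :
    tens C (dg C A) (C.cograph f) = C.cograph (prodMap (𝟙 A) f) := by
  have e0 : C.ext (X := A) (Y := Z) 1 1 = 1 := by rw [TheoryData.ext, map_one, map_one, one_mul]
  rw [tens_eq C, pull_iso C (mid A Z A Z) (mid A A Z Z) (mid_mid _ _ _ _) (mid_mid _ _ _ _), dg,
    TheoryData.graph, TheoryData.cograph, TheoryData.cograph, ← push_ext C, ← C.push_comp, e0]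
  congr 1
  have e1 : prodMap (Obj.lift (𝟙 A) (𝟙 A)) (Obj.lift f (𝟙 Z)) ≫ mid A A Z Z =
      Obj.lift (prodMap (𝟙 A) f) (𝟙 (A.prod Z)) := by
    apply prod_ext
    · apply prod_ext <;> simp [mid, prodMap, comp_lift]
    · apply prod_ext <;> simp [mid, prodMap, comp_lift]
  rw [e1]

theorem tauR_fr (f : Z ⟶ Z) (m : T.M (A.prod Z)) :
    tauR hT A Z (fr C f) m = pullT T (prodMap (𝟙 A) f) m := by
  rw [tauR_apply, fr, tens_dg_cograph]
  rfl

/-- The two actions commute. -/
theorem tau_tauR (a : Cor C A) (b : Cor C Z) (m : T.M (A.prod Z)) :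
    tau hT A Z a (tauR hT A Z b m) = tauR hT A Z b (tau hT A Z a m) := by
  rw [tauR_apply, tauR_apply, tau_apply, tau_apply, ← hT.act_comp, ← hT.act_comp, tens_comp'',
    tens_comp'', comp_dg, dg_comp, comp_dg, dg_comp]

end right

section lambda

variable [IsAlgClosed K] {T : CorrData C} (hT : IsCorrTheory T)

include hT in
/-- A correspondence which has a left inverse on the cohomology in degree `w` is injective on the
part of the theory which belongs to an eigenvalue of Frobenius of weight `w`. -/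
theorem lambda_vanish (hN : Nilpotence H Z) {πZ : Z ⟶ Z} {β : K} (hβ : IsIntegral ℚ β) {w : ℕ}
    {R : ℚ[X]} (hR0 : R ≠ 0) (hR : aeval (fr C πZ) R = 0)
    (hw : ∀ (w' : ℕ) (ν : K) (v : H.A Z), v ∈ H.gr Z w' → v ≠ 0 → H.pull πZ v = ν • v →
      aeval ν (minpoly ℚ β) = 0 → w' = w)
    {Λ Δ : Cor C Z} (hdeg : Δ * Λ ∈ cor0 C Z)
    (hid : ∀ v ∈ H.gr Z w, actH C Z H Δ (actH C Z H Λ v) = v) {z : T.M (A.prod Z)}
    (hz : ∀ G : ℚ[X], aeval β G = 0 → aeval (pullT T (prodMap (𝟙 A) πZ)) G z = 0)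
    (h0 : tauR hT A Z Λ z = 0) : z = 0 := by
  classical
  set p := minpoly ℚ β with hp
  obtain ⟨R', hRR', hndvd⟩ := (Polynomial.finiteMultiplicity_of_degree_pos_of_monic
    (minpoly.degree_pos hβ) (minpoly.monic hβ) hR0).exists_eq_pow_mul_and_not_dvd
  have hcop : IsCoprime p R' := (minpoly.irreducible hβ).coprime_iff_not_dvd.2 hndvd
  obtain ⟨u, v, huv⟩ := hcop
  set a := multiplicity p R with ha
  set U : ℚ[X] := v * R' with hU
  have hUz : aeval (pullT T (prodMap (𝟙 A) πZ)) U z = z := by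
    have h1 : aeval β (U - 1) = 0 := by
      have h2 : U - 1 = -(u * p) := by
        rw [hU, ← huv]
        ring
      rw [h2, map_neg, map_mul, hp, minpoly.aeval, mul_zero, neg_zero]
    have h2 := hz _ h1
    rw [map_sub, map_one, LinearMap.sub_apply, Module.End.one_apply, sub_eq_zero] at h2
    exact h2
  have hpU : aeval (fr C πZ) (p ^ a * U) = 0 := by
    have h1 : p ^ a * U = v * R := by
      rw [hU]
      conv_rhs => rw [hRR']
      ring
    rw [h1, map_mul, hR, mul_zero]
  set Γ : Cor C Z := (1 - Δ * Λ) * aeval (fr C πZ) U with hΓ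
  have hΓm : Γ ∈ cor0 C Z := mul_mem (sub_mem (one_mem _) hdeg) (aeval_fr_mem πZ U)
  have hact : actH C Z H Γ = 0 := by
    apply ext_gr H
    intro i x hx
    rw [LinearMap.zero_apply, hΓ, map_mul, map_sub, map_one, map_mul, Module.End.mul_apply,
      LinearMap.sub_apply, Module.End.one_apply, Module.End.mul_apply, actH_aeval]
    set x' := aeval (hF H πZ) (U.map (algebraMap ℚ K)) x with hx'
    have hst : ∀ (r : K[X]) (v : H.A Z), v ∈ H.gr Z i → aeval (hF H πZ) r v ∈ H.gr Z i := by
      intro r v hv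
      induction r using Polynomial.induction_on' with
      | add p q hp hq => rw [map_add, LinearMap.add_apply]; exact Submodule.add_mem _ hp hq
      | monomial n a =>
        rw [aeval_monomial, Module.End.mul_apply, Module.algebraMap_end_apply]
        refine Submodule.smul_mem _ _ ?_
        induction n with
        | zero => simpa using hv
        | succ n ih => rw [pow_succ', Module.End.mul_apply]; exact H.pull_mem πZ ih
    have hx'm : x' ∈ H.gr Z i := hst _ x hx
    by_cases hx'0 : x' = 0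
    · rw [hx'0, map_zero, map_zero, sub_zero]
    have hi := nonneg_of_mem H hx'm hx'0
    obtain ⟨w', rfl⟩ := Int.eq_ofNat_of_zero_le hi
    have h1 : aeval (hF H πZ) ((p ^ a).map (algebraMap ℚ K)) x' = 0 := by
      have h2 := congrArg (fun G => actH C Z H G x) hpU
      beta_reduce at h2
      rw [actH_aeval, map_zero, LinearMap.zero_apply, Polynomial.map_mul, map_mul,
        Module.End.mul_apply] at h2
      exact h2
    obtain ⟨ν, y, hy, hy0, hνy, hev⟩ := exists_eigen_of_poly (H.gr Z w')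
      (fun v hv => H.pull_mem πZ hv)
      ((Polynomial.map_ne_zero_iff (algebraMap ℚ K).injective).2
        (pow_ne_zero _ (minpoly.ne_zero hβ))) hx'm hx'0 h1
    have hroot : aeval ν p = 0 := by
      rw [Polynomial.map_pow, eval_pow, eval_map_algebraMap] at hev
      exact eq_zero_of_pow_eq_zero hev
    have h2 := hw w' ν y hy hy0 hνy hroot
    subst h2
    rw [hid x' hx'm, sub_self]
  obtain ⟨n, hn⟩ := nilp_of_act hN hΓm hact
  have h1 : tauR hT A Z Γ z = z := by
    have h2 : tauR hT A Z (fr C πZ) = pullT T (prodMap (𝟙 A) πZ) :=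
      LinearMap.ext fun m => tauR_fr hT πZ m
    rw [hΓ, map_mul, Module.End.mul_apply, ← Polynomial.aeval_algHom_apply, h2, hUz, map_sub,
      map_one, map_mul, LinearMap.sub_apply, Module.End.one_apply, Module.End.mul_apply, h0,
      map_zero, sub_zero]
  have h2 : ∀ m : ℕ, (tauR hT A Z Γ ^ m) z = z := by
    intro m
    induction m with
    | zero => simp
    | succ m ih => rw [pow_succ, Module.End.mul_apply, h1, ih]
  have h3 := h2 n
  rw [← map_pow, hn, map_zero, LinearMap.zero_apply] at h3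
  exact h3.symm

end lambda

end Pool.Agent.Q219.UZ
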