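import Mathlib
import Pool.Agent.Q219.UZ.RNar

/-!
# The vanishing of theories for products with varieties of narrow cohomology: the theorem
-/

set_option autoImplicit false
set_option linter.unusedSectionVars false

open CategoryTheory AlgebraicGeometry

universe u v w

namespace Pool.Agent.Q219.UZ

open Module Polynomial Pool.Agent.H914 Pool.Agent.H914.VarClass Pool.Agent.H914.VarClass.Obj
  Pool.Agent.W492.BB Pool.Agent.W550.Corr Pool.Agent.W484.TB Pool.Agent.W484.CH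
  Pool.Agent.W484.HS Pool.Agent.TH133 Pool.Agent.Q56.CP

open Pool.Agent.Y148.BB (gr_congr tens_comp'')

variable {k : Type u} [Field k] {𝒱 : VarClass k} {C : TheoryData.{u, v, 0} 𝒱 ℚ} {K : Type w}
  [Field K] [CharZero K] {H : WeilTheoryData.{u, v, w} C K} [hC : IsChowProj C]
  [hH : IsWeilProj H] {A B Z X : 𝒱.Obj} {I : Type} {f : I → ℤ[X]} {q s : ℕ} {δ δ₂ : ℝ}

variable [IsAlgClosed K] {T : CorrData C} (hT : IsCorrTheory T)
  (hB : BoundedAt f q s δ) (hM : MomentAt f q s δ₂) (hδ0 : 0 < δ) (hδ₂ : 0 < δ₂) (hq : 1 < q)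
  {πA : A ⟶ A} {πX : X ⟶ X} {πZ : Z ⟶ Z} (h : IsPureTriple H πA πX πZ 1 q s f)
  (hΛ : ∃ Λ Δ : C.A (Z.prod Z), C.Deg 1 Λ ∧ C.Deg (2 * Z.dim - 1) Δ ∧
    ∀ v : H.A Z, H.Deg (2 * Z.dim - 1) v → H.act (H.cl Δ) (H.act (H.cl Λ) v) = v)

include hT hB hM hδ0 hδ₂ hq h hΛ in
/-- **The vanishing of `T(A × Z)` for `Z` with narrow cohomology.** -/
theorem vanish_narrow
    (hN : ∀ w : ℕ, 0 < w → w < 2 * Z.dim → NarrowAt H πZ (q ^ s) w (width Z.dim w) δ δ₂)
    (hπ : ActsAsPower T (prodMap πA πZ) (q ^ s)) (c : ℤ)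
    (h0 : ∀ c' : ℕ, (c' : ℤ) ≤ c → c' ≤ Z.dim → T.gr Z c' = ⊥) (h1 : T.gr (X.prod Z) 1 = ⊥) :
    T.gr (A.prod Z) c = ⊥ := by
  classical
  have hS := h.standard
  have hQ0 : q ^ s ≠ 0 := pow_ne_zero _ (by omega)
  have hQ1 : 1 < q ^ s := Nat.one_lt_pow h.pos.ne' hq
  have hQK : ((q ^ s : ℕ) : K) ≠ 0 := by exact_mod_cast hQ0
  by_contra hne
  have hfin := hS.finite Z
  have hZw : ∀ (w : ℕ) (ρ : K) (v : H.A Z), v ∈ H.gr Z w → v ≠ 0 → H.pull πZ v = ρ • v →
      ρ ∈ algebraicClosure ℚ K ∧ ZNar (q ^ s) Z.dim w δ δ₂ ρ := by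
    intro w ρ v hv hv0 hρ
    obtain ⟨hW, hw2, hlow, hdual⟩ := levels hS hQ0 h.degree h.pure hv hv0 hρ
    refine ⟨?_, hw2, hW, hlow, hdual, fun h2 h3 => hN w h2 h3 ρ v hv hv0 hρ⟩
    obtain ⟨χ, h1, h2, -⟩ := hW
    exact mem_alg_of h1 h2
  have hZalg : ∀ (ρ : K) (v : H.A Z), v ≠ 0 → H.pull πZ v = ρ • v →
      ρ ∈ algebraicClosure ℚ K := by
    intro ρ v hv0 hρ
    obtain ⟨w, v', hv', hv'0, hρ'⟩ := exists_homog hv0 hρ
    exact (hZw w ρ v' hv' hv'0 hρ').1
  obtain ⟨z, ys, ρ, β, v, hz, hz0, hv0, hρ, hβρ, hrel, hG, hG'⟩ := exists_pair hT hS hB.monic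
    h.abelian h.nilpotence h.nilpotenceZ hZalg hπ hne
  obtain ⟨w, v', hv', hv'0, hρ'⟩ := exists_homog hv0 hρ
  obtain ⟨hρa, hρn⟩ := hZw w ρ v' hv' hv'0 hρ'
  obtain ⟨τ₁, hτ₁⟩ := exists_conj hρa hβρ
  have hβn : ZNar (q ^ s) Z.dim w δ δ₂ β := by
    rw [← hτ₁]
    exact conj_ZNar τ₁ hρa hρn
  have hβa : β ∈ algebraicClosure ℚ K := by
    obtain ⟨-, ⟨χ, h1, h2, -⟩, -⟩ := hβn
    exact mem_alg_of h1 h2
  apply hz0
  by_cases hw : w + 1 = 2 * Z.dim ∧ w ≠ 1
  · -- the degree `2 d - 1`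
    obtain ⟨Λ, Δ, hΛ, hΔ, hid⟩ := hΛ
    have hβint : IsIntegral ℚ β := (mem_algebraicClosure_iff.1 hβa).isIntegral
    obtain ⟨R, hR0, hR, -⟩ := relation_of_eigen (πZ := πZ) h.nilpotenceZ hZalg
    refine lambda_vanish hT (A := A) (Z := Z) (Λ := (Λ : Cor C Z)) (Δ := (Δ : Cor C Z))
      h.nilpotenceZ hβint (w := w) hR0 hR ?_ ?_ ?_ hG' ?_
    · -- the weight of the conjugates of `β`
      intro w' ν y hy hy0 hνy hν
      obtain ⟨τ, hτ⟩ := exists_conj hβa hν
      have h2 : IsWeilNumber (q ^ s) w ν := by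
        rw [← hτ]
        exact conj_weil τ hβa hβn.2.1
      have h3 : IsWeilNumber (q ^ s) w' ν := (hZw w' ν y hy hy0 hνy).2.2.1
      exact weil_unique hQ1 h3 h2
    · change C.comp (X := Z) (Y := Z) (Z := Z) Λ Δ ∈ C.gr (Z.prod Z) Z.dim
      have h2 := comp_mem C (e := 1 - (Z.dim : ℤ)) (e' := (Z.dim : ℤ) - 1) (Γ := Λ) (Δ := Δ)
        (gr_congr (by ring) hΛ) (gr_congr (by ring) hΔ)
      exact gr_congr (by ring) h2
    · intro v hv
      refine hid v ?_
      have h2 : (2 * (Z.dim : ℤ) - 1) = w := by omega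
      rw [h2]
      exact hv
    · -- the vanishing of `Λ z`
      have hz' : tauR hT A Z (Λ : Cor C Z) z ∈ T.gr (A.prod Z) (c + (1 - Z.dim)) := by
        rw [tauR_apply]
        refine hT.act_mem ?_ hz
        refine gr_congr ?_ (tens_mem C (dg_mem C A) hΛ)
        rw [Obj.dim_prod]
        push_cast
        ring
      refine core_vanish hS hT hB hδ0 hq h.pos h.abelian h.square h.frobenius
        h.nilpotence (α := rootProd s ys) ?_ ?_
      · intro G hG1
        have h2 : tau hT A Z (fr C πA) = pullT T (prodMap πA (𝟙 Z)) :=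
          LinearMap.ext fun m => tau_fr hT πA m
        have h3 := hG G hG1
        rw [← h2, Polynomial.aeval_algHom_apply] at h3 ⊢
        rw [tau_tauR, h3, map_zero]
      · intro a a' ν ha0 ha'0 ha ha' hν
        obtain ⟨τ, ys', hν', hrel'⟩ := conj_pair hB.monic hβa hrel hν
        obtain ⟨i, c', zs, hic, hprod, hc', hcases⟩ := component_nar hB hM hδ0 hδ₂ hq
          (conj_ZNar τ hβa hβn) ys' c hrel'
        have hlen : zs.length = 1 := by omega
        obtain ⟨u, hu0, hud, hu⟩ : ∃ u : H.A X, u ≠ 0 ∧ u ∈ H.gr X zs.length ∧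
          H.pull πX u = rootProd s zs • u := h.occurs zs (by omega)
        have hν0 : ν ≠ 0 := eigen_ne_zero hQ0 h.abelian.degree ha'0 ha'
        refine factor_ext hS hB hδ0 hq h.pos h.auxiliary h.mixed h.mixed' ha0 ha'0 ha ha' hν0 hu0 hu
          (i := i) (by rw [hν', hprod]) ?_
        intro l l' x y hl hl' hx hy
        refine comp_killers hT hz' hx hy (by omega) ?_
        have h2 : c + (1 - (Z.dim : ℤ)) + ((l : ℤ) - A.dim) = 1 := by omega
        rw [h2]
        exact h1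
  · refine core_vanish hS hT hB hδ0 hq h.pos h.abelian h.square h.frobenius
      h.nilpotence (α := rootProd s ys) hG ?_
    intro a a' ν ha0 ha'0 ha ha' hν
    obtain ⟨τ, ys', hν', hrel'⟩ := conj_pair hB.monic hβa hrel hν
    obtain ⟨i, c', zs, hic, hprod, hc', hcases⟩ := component_nar hB hM hδ0 hδ₂ hq
      (conj_ZNar τ hβa hβn) ys' c hrel'
    have hν0 : ν ≠ 0 := eigen_ne_zero hQ0 h.abelian.degree ha'0 ha'
    have hw2 := hβn.1
    by_cases hlen : zs.length = 0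
    · -- algebraic classes on `A`
      have h6 : zs = [] := List.length_eq_zero_iff.1 hlen
      refine factor_point hS hB hδ0 hq h.pos h.abelian (j := i) ha0 ha'0 ha ha' ?_ ?_
      · rw [hν', hprod, h6, rootProd, List.map_nil, List.prod_nil, mul_one]
      · intro E D hE hD
        refine ext_killers hT hz hE hD ?_
        have h2 : c - (i : ℤ) = c' := by omega
        rw [h2]
        exact h0 c' (by omega) (by omega)
    · have hlen' : zs.length = 1 := by omega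
      have hw1 : w = 1 := by
        rcases hcases with h2 | h2 | h2
        · omega
        · exact h2.2
        · by_contra h3
          exact hw ⟨h2.2, h3⟩
      obtain ⟨u, hu0, hud, hu⟩ : ∃ u : H.A X, u ≠ 0 ∧ u ∈ H.gr X zs.length ∧
        H.pull πX u = rootProd s zs • u := h.occurs zs (by omega)
      refine factor_ext hS hB hδ0 hq h.pos h.auxiliary h.mixed h.mixed' ha0 ha'0 ha ha' hν0 hu0 hu
        (i := i) (by rw [hν', hprod]) ?_
      intro l l' x y hl hl' hx hy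
      refine comp_killers hT hz hx hy (by omega) ?_
      have h2 : c + ((l : ℤ) - A.dim) = 1 := by omega
      rw [h2]
      exact h1

end Pool.Agent.Q219.UZ
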