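import Mathlib
import Pool.Agent.W484.CK.Stm
import Pool.Agent.Q219.UZ.Num
import Pool.Agent.Q219.UZ.MomDefs

/-!
# Products of abelian varieties and arbitrary varieties: the situation
-/

set_option autoImplicit false

open CategoryTheory AlgebraicGeometry

universe u v w

namespace Pool.Agent.Q219.UZ.Lite

open Polynomial Pool.Agent.H914 Pool.Agent.H914.VarClass Pool.Agent.H914.VarClass.Obj
  Pool.Agent.W492.BB Pool.Agent.W484.CK

variable {k : Type u} [Field k] {𝒱 : VarClass k} {C : TheoryData.{u, v, 0} 𝒱 ℚ} {K : Type w}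
  [Field K] (H : WeilTheoryData.{u, v, w} C K) {A B Z : 𝒱.Obj}

/-- Some more formal properties of the Chow groups and the cohomology of smooth projective
geometrically irreducible varieties: isomorphisms preserve the fundamental classes; a zero-cycle
`x` on `X` has a degree `c`, for all `Y` the push-forward of `x × Y` to `Y` is `c` times the
fundamental class of `Y`; some divisor (a hyperplane section) has a nonzero self-intersection number;
the orientation vanishes outside of the degree `2 dim X`. -/
structure IsProjective : Prop where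
  iso : ∀ {X Y : 𝒱.Obj} (f : X ⟶ Y) (g : Y ⟶ X), f ≫ g = 𝟙 X → g ≫ f = 𝟙 Y → C.down f 1 = 1
  degree : ∀ (X : 𝒱.Obj) (x : C.A X), C.Deg X.dim x → ∃ c : ℚ, ∀ Y : 𝒱.Obj,
    C.down (snd X Y) (C.up (fst X Y) x) = c • (1 : C.A Y) ∧
      C.down (fst Y X) (C.up (snd Y X) x) = c • (1 : C.A Y)
  polarized : ∀ X : 𝒱.Obj, ∃ h : C.A X, C.Deg 1 h ∧ ∃ c : ℚ, c ≠ 0 ∧
    C.down (snd X X) (C.up (fst X X) (h ^ X.dim)) = c • (1 : C.A X)
  trace : ∀ (X : 𝒱.Obj) (i : ℤ) (a : H.A X), H.Deg i a → i ≠ 2 * X.dim → H.tr X a = 0

/-- The number `ρ` is an eigenvalue of `π` on `H ^ w (Z)`. -/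
def IsEigenvalue (π : Z ⟶ Z) (w : ℕ) (ρ : K) : Prop :=
  ∃ v : H.A Z, H.Deg w v ∧ v ≠ 0 ∧ H.up π v = ρ • v

/-- The number `x` is the `s`-th power of a root of one of the polynomials `f i`. -/
def IsRootPower {I : Type} (f : I → ℤ[X]) (s : ℕ) (x : K) : Prop :=
  ∃ i, ∃ z : K, aeval z (f i) = 0 ∧ x = z ^ s

/-- The situation of the theorems. The varieties `A`, `B` and `Z` are smooth projective varieties over
the field with `Q = q ^ s` elements, with Frobenius endomorphisms `πA`, `πB`, `πZ`. The abelian varieties
`A`, `B`, `A × A`, `A × B` and `B × A` are isogenous to products of powers of abelian varieties which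
come from the field with `q` elements and have the characteristic polynomials of Frobenius `f i`. For
each list of at most `n` numbers `z ^ s`, `z` a root of some `f i`, the product of the list is an
eigenvalue of Frobenius on `H ^ m (B)`, `m` the length of the list (`occurs`): this is true for
`B = X ^ n` if all the given abelian varieties occur in the abelian variety `X`. The Frobenius
eigenvalues of `Z` are Weil numbers (Deligne). The self-correspondences of degree zero of `A` and of
`Z` which act as zero on the cohomology are nilpotent; for `A` this is a theorem, and for `Z` it is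
known if `Z` is dominated by a product of curves. -/
structure IsTripleFor (πA : A ⟶ A) (πB : B ⟶ B) (πZ : Z ⟶ Z) (n q s : ℕ) {I : Type}
    (f : I → ℤ[X]) : Prop where
  standard : IsStandard H
  projective : IsProjective H
  pos : 0 < s
  abelian : IsAbelian H πA q s f
  auxiliary : IsAbelian H πB q s f
  square : IsAbelian H (prodMap πA πA) q s f
  mixed : IsAbelian H (prodMap πA πB) q s f
  mixed' : IsAbelian H (prodMap πB πA) q s f
  occurs : ∀ L : List K, L.length ≤ n → (∀ x ∈ L, IsRootPower f s x) →
    IsEigenvalue H πB L.length L.prod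
  frobenius : IsFrobenius C πZ (q ^ s)
  pure : ∀ (w : ℕ) (ρ : K), IsEigenvalue H πZ w ρ → IsWeilNumber (q ^ s) w ρ
  nilpotence : Nilpotence H A
  nilpotenceZ : Nilpotence H Z

/-- The cohomology of `Z` has level at most `e`: the slopes of the Frobenius endomorphism `π`, relative
to the field with `Q` elements, on `H ^ w (Z)` lie between `(w - e) / 2` and `(w + e) / 2`, for all `w`. By
Poincare duality this is always true for `e = dim Z`. -/
def HasLevelLE (π : Z ⟶ Z) (Q : ℕ) (e : ℝ) : Prop :=
  ∀ (w : ℕ) (ρ : K), IsEigenvalue H π w ρ → HasLevel Q w e ρ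

/-- The slopes of `H ^ w (Z)`, `1 < w < 2 dim Z - 1`, are close to `w / 2`: for each eigenvalue `ρ` of
Frobenius on `H ^ w (Z)`, either the slopes of `ρ` lie between `(w - e) / 2` and `(w + e) / 2` for some
`e < b δ`, or the mean of the numbers `(2 λ - w) ^ 2`, `λ` the slopes of the conjugates of `ρ`, is
smaller than `b δ₂`. Here `b = 2` if `w` is even and `b = 1` if `w` is odd. For curves this is no
condition, and for surfaces it is a condition on `H ^ 2 (Z)` only. -/
def IsNarrow (π : Z ⟶ Z) (Q : ℕ) (δ δ₂ : ℝ) : Prop :=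
  ∀ (w : ℕ) (ρ : K), 1 < w → w + 1 < 2 * Z.dim → IsEigenvalue H π w ρ →
    (∃ e : ℝ, e < (if w % 2 = 0 then 2 else 1) * δ ∧ HasLevel Q w e ρ) ∨
      (∃ M : ℝ, M < (if w % 2 = 0 then 2 else 1) * δ₂ ∧ HasMoment Q w M ρ)

/-- There are correspondences `Λ` and `Δ` on `Z` whose composition is the identity on
`H ^ (2 d - 1) (Z)`, where `Λ` is a divisor on `Z × Z` and `Δ` has codimension `2 d - 1`, `d = dim Z`. This
is known for all varieties: `Δ` is the `(d - 1)`-st power of a hyperplane section, on the
diagonal, and `Λ` is given by the isogeny between the Picard and the Albanese variety. -/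
def HasInverse (Z : 𝒱.Obj) : Prop :=
  ∃ Λ Δ : C.A (Z.prod Z), C.Deg 1 Λ ∧ C.Deg (2 * Z.dim - 1) Δ ∧
    ∀ v : H.A Z, H.Deg (2 * Z.dim - 1) v → H.act (H.cl (compose C Λ Δ)) v = v

end Pool.Agent.Q219.UZ.Lite
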