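import Mathlib
import Pool.Agent.Q219.UZ.RStm
import Pool.Agent.Q219.UZ.RNarMain
import Pool.Agent.W484.CK.Main

/-!
# Products of abelian varieties and arbitrary varieties: the two forms of the hypotheses
-/

set_option autoImplicit false
set_option linter.unusedSectionVars false

open CategoryTheory AlgebraicGeometry

universe u v w

namespace Pool.Agent.Q219.UZ.Lite

open Module Polynomial Pool.Agent.H914 Pool.Agent.H914.VarClass Pool.Agent.H914.VarClass.Obj
  Pool.Agent.W492.BB Pool.Agent.W550.Corr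

open Pool.Agent.W484.CK (isStandard_bridge isFrobenius_bridge isAbelian_bridge
  nilpotence_bridge toCorr toCorr_isCorrTheory toCorr_actsAsPower)

open Pool.Agent.TH133 (IsChowProj IsWeilProj)

variable {k : Type u} [Field k] {𝒱 : VarClass k} {C : TheoryData.{u, v, 0} 𝒱 ℚ} {K : Type w}
  [Field K] [CharZero K] {H : WeilTheoryData.{u, v, w} C K} [hC : IsChow C] [hH : IsWeil H]
  {A B Z X : 𝒱.Obj} {I : Type} {f : I → ℤ[X]} {q s n : ℕ} {δ δ₂ e : ℝ}

theorem isChowProj (h : IsProjective H) (h' : Pool.Agent.W484.CK.IsStandard H) : IsChowProj C where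
  toIsChow := hC
  push_one := h.iso
  gr_zero := h'.chow_zero
  gr_top := fun X i x hx hi => h'.chow_top X i x hi hx
  degree := h.degree
  polarized := h.polarized

theorem isWeilProj (h : IsProjective H) (h' : Pool.Agent.W484.CK.IsStandard H) : IsWeilProj H where
  toIsWeil := hH
  gr_zero := h'.coh_zero
  one_ne_zero := fun X => by
    have := h'.nontrivial X
    exact one_ne_zero
  tr_eq_zero := h.trace

theorem isAbelianFor {π : A ⟶ A} (h : Pool.Agent.W484.CK.IsAbelian H π q s f) :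
    IsAbelianFor H π q s f where
  degree := h.frobenius.degree
  isGenerated := (isAbelian_bridge h).isGenerated
  isAnticommutative := (isAbelian_bridge h).isAnticommutative
  isSpanned := (isAbelian_bridge h).isSpanned
  hasTateDivisors := (isAbelian_bridge h).hasTateDivisors

theorem isPureTriple {πA : A ⟶ A} {πB : B ⟶ B} {πZ : Z ⟶ Z} (h : IsTripleFor H πA πB πZ n q s f) :
    IsPureTriple H πA πB πZ n q s f where
  standard := isStandard_bridge h.standard
  pos := h.pos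
  occurs := by
    intro zs hzs
    obtain ⟨v, hv, hv0, hv'⟩ := h.occurs
      (zs.map fun z : {z : K // ∃ i, aeval z (f i) = 0} => (z : K) ^ s) (by
      rw [List.length_map]
      exact hzs) (by
      intro x hx
      obtain ⟨z, -, rfl⟩ := List.mem_map.1 hx
      obtain ⟨i, hi⟩ := z.2
      exact ⟨i, z, hi, rfl⟩)
    rw [List.length_map] at hv
    exact ⟨v, hv0, hv, hv'⟩
  abelian := isAbelianFor h.abelian
  auxiliary := isAbelianFor h.auxiliary
  square := isAbelianFor h.square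
  mixed := isAbelianFor h.mixed
  mixed' := isAbelianFor h.mixed'
  frobenius := isFrobenius_bridge h.square.frobenius
  degree := h.frobenius.degree
  pure := fun w ρ v hv hv0 hρ => h.pure w ρ ⟨v, hv, hv0, hρ⟩
  nilpotence := nilpotence_bridge h.nilpotence
  nilpotenceZ := nilpotence_bridge h.nilpotenceZ

theorem levelLE {πZ : Z ⟶ Z} {Q : ℕ} (h : HasLevelLE H πZ Q e) : LevelLE H πZ Q e :=
  fun w ρ v hv hv0 hρ => h w ρ ⟨v, hv, hv0, hρ⟩

theorem narrow {πA : A ⟶ A} {πB : B ⟶ B} {πZ : Z ⟶ Z} (hq : 1 < q)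
    (h : IsTripleFor H πA πB πZ n q s f) (hN : IsNarrow H πZ (q ^ s) δ δ₂) (hδ3 : 1 < 3 * δ)
    (w : ℕ) (hw0 : 0 < w) (hw : w < 2 * Z.dim) :
    NarrowAt H πZ (q ^ s) w (width Z.dim w) δ δ₂ := by
  have hQ0 : q ^ s ≠ 0 := pow_ne_zero _ (by omega)
  have h' := isPureTriple h
  intro ρ v hv hv0 hρ
  obtain ⟨hW, hw2, hlow, hdual⟩ := levels h'.standard hQ0 h'.degree h'.pure hv hv0 hρ
  by_cases h1 : w = 1
  · left
    subst h1
    refine ⟨1, ?_, by simpa using hlow⟩
    norm_num [width]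
    linarith
  · by_cases h2 : w + 1 = 2 * Z.dim
    · left
      refine ⟨1, ?_, ?_⟩
      · have h3 : w % 2 = 1 := by omega
        norm_num [width, h2, h3]
        linarith
      · have h3 : (2 * (Z.dim : ℝ) - w) = 1 := by
          have : ((w + 1 : ℕ) : ℝ) = ((2 * Z.dim : ℕ) : ℝ) := by rw [h2]
          push_cast at this
          linarith
        rwa [h3] at hdual
    · have h3 : width Z.dim w = if w % 2 = 0 then 2 else 1 := by
        unfold width
        simp [h1, h2]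
      rw [h3]
      rcases hN w ρ (by omega) (by omega) ⟨v, hv, hv0, hρ⟩ with ⟨e, he, he'⟩ | ⟨M, hM, hM'⟩
      · left
        refine ⟨e, ?_, he'⟩
        push_cast
        exact he
      · right
        refine ⟨M, ?_, hM'⟩
        push_cast
        exact hM

theorem hasInverse (h : HasInverse H Z) :
    ∃ Λ Δ : C.A (Z.prod Z), C.Deg 1 Λ ∧ C.Deg (2 * Z.dim - 1) Δ ∧
      ∀ v : H.A Z, H.Deg (2 * Z.dim - 1) v → H.act (H.cl Δ) (H.act (H.cl Λ) v) = v := by
  obtain ⟨Λ, Δ, h1, h2, h3⟩ := h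
  refine ⟨Λ, Δ, h1, h2, fun v hv => ?_⟩
  rw [← Pool.Agent.W484.CH.act_cl_comp]
  exact h3 v hv

variable [IsAlgClosed K] {πA : A ⟶ A} {πB : B ⟶ B} {πZ : Z ⟶ Z}

/-- The general theorem. -/
theorem vanish_all (hB : ∀ s, 0 < s → BoundedAt f q s δ) (hδ0 : 0 < δ) (hδ1 : δ ≤ 1) (hq : 1 < q)
    (he : e < (n + 1) * δ) (h : IsTripleFor H πA πB πZ n q s f)
    (hlev : HasLevelLE H πZ (q ^ s) e) {T : Pool.Agent.W484.CH.CorrData C}
    (hT : Pool.Agent.W484.CH.IsCorrTheory T)
    (hπ : Pool.Agent.W484.CH.ActsAsPower T (prodMap πA πZ) (q ^ s)) (c : ℤ)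
    (h0 : ∀ c' : ℕ, (c' : ℤ) ≤ c → 2 * c' + ⌊e⌋₊ ≤ 2 * Z.dim + n → T.gr (B.prod Z) c' = ⊥) :
    T.gr (A.prod Z) c = ⊥ := by
  have h1 := isChowProj h.projective h.standard
  have h2 := isWeilProj h.projective h.standard
  exact vanish_transfer hT (hB s h.pos) hδ0 hδ1 hq he (levelLE hlev) (isPureTriple h) hπ c h0

/-- The theorem for narrow cohomology. -/
theorem vanish_all_narrow (hB : ∀ s, 0 < s → BoundedAt f q s δ)
    (hM : ∀ s, 0 < s → MomentAt f q s δ₂) (hδ0 : 0 < δ) (hδ₂ : 0 < δ₂) (hδ3 : 1 < 3 * δ)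
    (hq : 1 < q) (h : IsTripleFor H πA πB πZ 1 q s f) (hN : IsNarrow H πZ (q ^ s) δ δ₂)
    (hinv : HasInverse H Z) {T : Pool.Agent.W484.CH.CorrData C}
    (hT : Pool.Agent.W484.CH.IsCorrTheory T)
    (hπ : Pool.Agent.W484.CH.ActsAsPower T (prodMap πA πZ) (q ^ s)) (c : ℤ)
    (h0 : ∀ c' : ℕ, (c' : ℤ) ≤ c → c' ≤ Z.dim → T.gr Z c' = ⊥)
    (h1 : T.gr (B.prod Z) 1 = ⊥) : T.gr (A.prod Z) c = ⊥ := by
  have h2 := isChowProj h.projective h.standard
  have h3 := isWeilProj h.projective h.standard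
  exact vanish_narrow hT (hB s h.pos) (hM s h.pos) hδ0 hδ₂ hq (isPureTriple h) (hasInverse hinv)
    (fun w hw0 hw => narrow hq h hN hδ3 w hw0 hw) hπ c h0 h1

end Pool.Agent.Q219.UZ.Lite
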