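import Mathlib
import Pool.Agent.W484.CK.Motivic
import Pool.Agent.Q219.UZ.RStm

/-!
# The vanishing of theories for products with arbitrary varieties: statements
-/

set_option autoImplicit false

open CategoryTheory AlgebraicGeometry

universe u v w

namespace Pool.Agent.Q219.UZ.Lite

open Polynomial Pool.Agent.H914 Pool.Agent.H914.VarClass Pool.Agent.H914.VarClass.Obj
  Pool.Agent.W492.BB Pool.Agent.W484.CK

section

variable {k : Type u} [Field k] {𝒱 : VarClass k} {C : TheoryData.{u, v, 0} 𝒱 ℚ}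

/-- The group `T ^ c (X)` is zero. -/
def VanishesIn (T : MotivicData C) (X : 𝒱.Obj) (c : ℤ) : Prop :=
  ∀ m : T.M X, T.Deg c m → m = 0

variable {K : Type w} [Field K] (H : WeilTheoryData.{u, v, w} C K) (T : MotivicData C)

/-- For all natural numbers `n`, all real numbers `e < (n + 1) δ` and all `A`, `B`, `Z` as in
`IsTripleFor` such that `Z` has level at most `e`, where Frobenius acts on `T ^ c (A × Z)` as
multiplication by `Q ^ c`: if `T ^ c' (B × Z) = 0` for all natural numbers `c'` with `c' ≤ c` and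
`2 c' + ⌊e⌋ ≤ 2 dim Z + n`, then `T ^ c (A × Z) = 0`. -/
def VanishingTimes (δ : ℝ) (q : ℕ) {I : Type} (f : I → ℤ[X]) : Prop :=
  ∀ (s n : ℕ) (e : ℝ) (A B Z : 𝒱.Obj) (πA : A ⟶ A) (πB : B ⟶ B) (πZ : Z ⟶ Z),
    e < (n + 1) * δ → IsTripleFor H πA πB πZ n q s f → HasLevelLE H πZ (q ^ s) e →
    ActsAsPower T (prodMap πA πZ) (q ^ s) →
    ∀ c : ℤ, (∀ c' : ℕ, (c' : ℤ) ≤ c → 2 * c' + ⌊e⌋₊ ≤ 2 * Z.dim + n →
      VanishesIn T (B.prod Z) c') → VanishesIn T (A.prod Z) c

/-- For all `A`, `X`, `Z` as in `IsTripleFor`, with `n = 1`, such that `Z` has the properties `IsNarrow`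
and `HasInverse`, where Frobenius acts on `T ^ c (A × Z)` as multiplication by `Q ^ c`: if
`T ^ c' (Z) = 0` for all natural numbers `c'` with `c' ≤ c` and `c' ≤ dim Z`, and if
`T ^ 1 (X × Z) = 0`, then `T ^ c (A × Z) = 0`. -/
def VanishingTimesNarrow (δ δ₂ : ℝ) (q : ℕ) {I : Type} (f : I → ℤ[X]) : Prop :=
  ∀ (s : ℕ) (A X Z : 𝒱.Obj) (πA : A ⟶ A) (πX : X ⟶ X) (πZ : Z ⟶ Z),
    IsTripleFor H πA πX πZ 1 q s f → IsNarrow H πZ (q ^ s) δ δ₂ → HasInverse H Z →
    ActsAsPower T (prodMap πA πZ) (q ^ s) →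
    ∀ c : ℤ, (∀ c' : ℕ, (c' : ℤ) ≤ c → c' ≤ Z.dim → VanishesIn T Z c') →
      VanishesIn T (X.prod Z) 1 → VanishesIn T (A.prod Z) c

end

/-- `VanishingTheorem δ δ₂ q f`: for the Chow groups `C` with rational coefficients of all classes
`𝒱` of smooth projective varieties over finite fields `k`, every Weil cohomology theory `H` with
coefficients in an algebraically closed field `K` of characteristic zero and every theory `T` on
which correspondences act, the statements `VanishingTimes` and, if `δ > 1 / 3`,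
`VanishingTimesNarrow` hold. -/
def VanishingTheorem (δ δ₂ : ℝ) (q : ℕ) {I : Type} (f : I → ℤ[X]) : Prop :=
  ∀ (k : Type) [Field k] (𝒱 : VarClass k) (C : TheoryData.{0, 0, 0} 𝒱 ℚ) [IsChow C]
    (K : Type) [Field K] [IsAlgClosed K] [CharZero K] (H : WeilTheoryData.{0, 0, 0} C K)
    [IsWeil H] (T : MotivicData C), IsMotivic T →
    VanishingTimes H T δ q f ∧ (1 < 3 * δ → VanishingTimesNarrow H T δ δ₂ q f)

end Pool.Agent.Q219.UZ.Lite
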