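import Mathlib
import Pool.Agent.Y154.BQ.Defs
import Pool.Agent.Q219.UZ.RStm

/-!
# Rational and numerical equivalence for products with arbitrary varieties: statements
-/

set_option autoImplicit false

open CategoryTheory AlgebraicGeometry

universe u v w

namespace Pool.Agent.Q219.UZ.Lite

open Polynomial Pool.Agent.H914 Pool.Agent.H914.VarClass Pool.Agent.H914.VarClass.Obj
  Pool.Agent.W492.BB Pool.Agent.W484.CK Pool.Agent.Y154.BQ

section

variable {k : Type u} [Field k] {𝒱 : VarClass k} {C : TheoryData.{u, v, 0} 𝒱 ℚ} {K : Type w}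
  [Field K] (H : WeilTheoryData.{u, v, w} C K)

/-- Rational and numerical equivalence coincide for cycles of codimension `c` on `X`, with rational
coefficients. (The intersection number of cycles `x`, `y` is the value of the orientation at the
class of `x · y`, up to a nonzero constant.) -/
def RatNumIn (X : 𝒱.Obj) (c : ℤ) : Prop :=
  ∀ x : C.A X, C.Deg c x →
    (∀ y : C.A X, C.Deg (X.dim - c) y → H.tr X (H.cl (C.mul x y)) = 0) → x = 0

/-- For all natural numbers `n`, all real numbers `e < (n + 1) δ` and all `A`, `B`, `Z` as in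
`IsTripleFor` such that `Z` has level at most `e`:

* if rational and numerical equivalence coincide for cycles of codimension `c'` on `B × Z` for all
  natural numbers `c'` with `c' ≤ c` and `2 c' + ⌊e⌋ ≤ 2 dim Z + n`, then they coincide for cycles of
  codimension `c` on `A × Z`;
* if the intersection pairing `CH ^ c' (Y)_ℝ × CH ^ (dim Y - c') (Y)_ℝ → ℝ` of `Y = B × Z` is perfect
  for all `c'` with `2 c' + ⌊e⌋ ≤ 2 dim Z + n`, then all intersection pairings of `A × Z` are
  perfect. -/
def PairingTimes (δ : ℝ) (q : ℕ) {I : Type} (f : I → ℤ[X]) : Prop :=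
  ∀ (s n : ℕ) (e : ℝ) (A B Z : 𝒱.Obj) (πA : A ⟶ A) (πB : B ⟶ B) (πZ : Z ⟶ Z),
    e < (n + 1) * δ → IsTripleFor H πA πB πZ n q s f → HasLevelLE H πZ (q ^ s) e →
    IsFrobenius C (prodMap πA πZ) (q ^ s) →
    (∀ c : ℤ, (∀ c' : ℕ, (c' : ℤ) ≤ c → 2 * c' + ⌊e⌋₊ ≤ 2 * Z.dim + n →
      RatNumIn H (B.prod Z) c') → RatNumIn H (A.prod Z) c) ∧
    ((∀ c' : ℕ, 2 * c' + ⌊e⌋₊ ≤ 2 * Z.dim + n → PerfectIn C (B.prod Z) c') →
      ∀ c : ℤ, PerfectIn C (A.prod Z) c)

/-- For all `A`, `X`, `Z` as in `IsTripleFor`, with `n = 1`, such that `Z` has the properties `IsNarrow`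
and `HasInverse`, and such that rational and numerical equivalence coincide for divisors on
`X × Z` (which is a theorem of Matsusaka together with the finiteness of the group of rational
points of the Picard variety): if rational and numerical equivalence coincide for all cycles on `Z`,
then all intersection pairings of `A × Z` are perfect. -/
def PairingTimesNarrow (δ δ₂ : ℝ) (q : ℕ) {I : Type} (f : I → ℤ[X]) : Prop :=
  ∀ (s : ℕ) (A X Z : 𝒱.Obj) (πA : A ⟶ A) (πX : X ⟶ X) (πZ : Z ⟶ Z),
    IsTripleFor H πA πX πZ 1 q s f → IsNarrow H πZ (q ^ s) δ δ₂ → HasInverse H Z →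
    IsFrobenius C (prodMap πA πZ) (q ^ s) → RatNumIn H (X.prod Z) 1 →
    (∀ c' : ℕ, c' ≤ Z.dim → RatNumIn H Z c') → ∀ c : ℤ, PerfectIn C (A.prod Z) c

end

/-- `PairingTheorem δ δ₂ q f`: for the Chow groups `C` with rational coefficients of all classes
`𝒱` of smooth projective varieties over finite fields `k` and every Weil cohomology theory `H` with
coefficients in an algebraically closed field `K` of characteristic zero, the statements
`PairingTimes` and, if `δ > 1 / 3`, `PairingTimesNarrow` hold. -/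
def PairingTheorem (δ δ₂ : ℝ) (q : ℕ) {I : Type} (f : I → ℤ[X]) : Prop :=
  ∀ (k : Type) [Field k] (𝒱 : VarClass k) (C : TheoryData.{0, 0, 0} 𝒱 ℚ) [IsChow C]
    (K : Type) [Field K] [IsAlgClosed K] [CharZero K] (H : WeilTheoryData.{0, 0, 0} C K)
    [IsWeil H], PairingTimes H δ q f ∧ (1 < 3 * δ → PairingTimesNarrow H δ δ₂ q f)

end Pool.Agent.Q219.UZ.Lite
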