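import Mathlib
import Pool.Agent.Q219.UZ.RStmB
import Pool.Agent.Q219.UZ.RThm
import Pool.Agent.Q187.Par.Perf

/-!
# Rational and numerical equivalence for products with arbitrary varieties: proofs
-/

set_option autoImplicit false
set_option linter.unusedSectionVars false

open CategoryTheory AlgebraicGeometry

universe u v w

namespace Pool.Agent.Q219.UZ.Lite

open Module Polynomial Pool.Agent.H914 Pool.Agent.H914.VarClass Pool.Agent.H914.VarClass.Obj
  Pool.Agent.W492.BB Pool.Agent.W550.Corr Pool.Agent.Q56.CP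

open Pool.Agent.TH133 (IsChowProj IsWeilProj ch_comm)
open Pool.Agent.W484.CK (isStandard_bridge isFrobenius_bridge)
open Pool.Agent.Y154.BQ (PerfectIn)

section

variable {k : Type u} [Field k] {𝒱 : VarClass k} {C : TheoryData.{u, v, 0} 𝒱 ℚ} {K : Type w}
  [Field K] [CharZero K] {H : WeilTheoryData.{u, v, w} C K} [hC : IsChowProj C]
  [hH : IsWeilProj H] {A B Z X : 𝒱.Obj}

theorem ratNumIn_iff {c : ℤ} : RatNumIn H X c ↔ (numData H).gr X c = ⊥ := by
  constructor
  · intro h
    rw [eq_bot_iff]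
    rintro x ⟨hx, hx'⟩
    rw [Submodule.mem_bot]
    refine h x hx fun y hy => ?_
    have h1 := hx' y hy
    rw [ch_comm C] at h1
    exact h1
  · intro h x hx hx'
    have h' : numTriv H X c = ⊥ := h
    have h1 : x ∈ numTriv H X c := by
      refine ⟨hx, fun y hy => ?_⟩
      rw [ch_comm C]
      exact hx' y hy
    rw [h', Submodule.mem_bot] at h1
    exact h1

theorem perfectIn_iff_ratNum (hS : Pool.Agent.W484.CK.IsStandard H) (X : 𝒱.Obj) (c : ℤ) :
    PerfectIn C X c ↔ RatNumIn H X c ∧ RatNumIn H X (X.dim - c) := by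
  have hfin := hS.finite X
  rw [Q187.Par.perfectIn_iff_num H c, ratNumIn_iff, ratNumIn_iff]
  rfl

end

theorem pairingTheorem {I : Type} {f : I → ℤ[X]} {q : ℕ} {δ δ₂ : ℝ}
    (hB : ∀ s, 0 < s → BoundedAt f q s δ) (hM : ∀ s, 0 < s → MomentAt f q s δ₂) (hδ0 : 0 < δ)
    (hδ1 : δ ≤ 1) (hδ₂ : 0 < δ₂) (hq : 1 < q) : PairingTheorem δ δ₂ q f := by
  intro k _ 𝒱 C _ K _ _ _ H _
  refine ⟨?_, fun hδ3 => ?_⟩
  · intro s n e A B Z πA πB πZ he h hlev hF
    have h1 := isChowProj h.projective h.standard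
    have h2 := isWeilProj h.projective h.standard
    have key : ∀ c : ℤ, (∀ c' : ℕ, (c' : ℤ) ≤ c → 2 * c' + ⌊e⌋₊ ≤ 2 * Z.dim + n →
        RatNumIn H (B.prod Z) c') → RatNumIn H (A.prod Z) c := by
      intro c h0
      rw [ratNumIn_iff]
      exact vanish_all hB hδ0 hδ1 hq he h hlev (numData_isCorr H)
        (numData_power H (isFrobenius_bridge hF)) c fun c' h3 h4 => ratNumIn_iff.1 (h0 c' h3 h4)
    refine ⟨key, fun h0 c => ?_⟩
    rw [perfectIn_iff_ratNum h.standard]
    exact ⟨key c fun c' _ h2 => ((perfectIn_iff_ratNum h.standard _ _).1 (h0 c' h2)).1,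
      key _ fun c' _ h2 => ((perfectIn_iff_ratNum h.standard _ _).1 (h0 c' h2)).1⟩
  · intro s A X Z πA πX πZ h hN hinv hF h3 h0 c
    have h1 := isChowProj h.projective h.standard
    have h2 := isWeilProj h.projective h.standard
    have key : ∀ c : ℤ, RatNumIn H (A.prod Z) c := by
      intro c
      rw [ratNumIn_iff]
      exact vanish_all_narrow hB hM hδ0 hδ₂ hδ3 hq h hN hinv (numData_isCorr H)
        (numData_power H (isFrobenius_bridge hF)) c
        (fun c' _ h4 => ratNumIn_iff.1 (h0 c' h4)) (ratNumIn_iff.1 h3)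
    rw [perfectIn_iff_ratNum h.standard]
    exact ⟨key c, key _⟩

end Pool.Agent.Q219.UZ.Lite
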