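import Mathlib
import Pool.Agent.Q219.UZ.PowDefs
import Pool.Agent.Q219.UZ.NarrowDefs

/-!
# The Tate conjecture for products with arbitrary varieties: definitions
-/

set_option autoImplicit false

open CategoryTheory AlgebraicGeometry

universe u v w

namespace Pool.Agent.Q219.UZ

open Polynomial Pool.Agent.H914 Pool.Agent.H914.VarClass Pool.Agent.H914.VarClass.Obj
  Pool.Agent.W492.BB Pool.Agent.W484.CH

variable {k : Type u} [Field k] {𝒱 : VarClass k} {C : TheoryData.{u, v, 0} 𝒱 ℚ} {K : Type w}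
  [Field K] (H : WeilTheoryData.{u, v, w} C K) {X A Z : 𝒱.Obj}

/-- The linear combinations of elements of `S` with coefficients in the subfield `K₀`. -/
def comb {M : Type*} [AddCommGroup M] [Module K M] (K₀ : Subfield K) (S : Set M) : Set M :=
  {w | ∃ (n : ℕ) (c : Fin n → K) (v : Fin n → M), (∀ i, c i ∈ K₀) ∧ (∀ i, v i ∈ S) ∧
    w = ∑ i, c i • v i}

/-- `V` is a vector space over the subfield `K₀`, and families of elements of `V` which are linearly
independent over `K₀` are linearly independent over `K`. -/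
def IsSubform {M : Type*} [AddCommGroup M] [Module K M] (K₀ : Subfield K) (V : Set M) : Prop :=
  comb K₀ V ⊆ V ∧ ∀ (n : ℕ) (v : Fin n → M), (∀ i, v i ∈ V) →
    (∀ c : Fin n → K, (∀ i, c i ∈ K₀) → ∑ i, c i • v i = 0 → ∀ i, c i = 0) →
    ∀ c : Fin n → K, ∑ i, c i • v i = 0 → ∀ i, c i = 0

/-- The Weil cohomology `H` with coefficients in `K` is obtained from a theory `V` with coefficients
in the subfield `K₀`: the `K₀`-subspaces `V Z` of `H(Z)` generate it in each degree, families of
elements of `V Z` which are linearly independent over `K₀` are linearly independent over `K`, and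
pull-backs of elements of `V` and classes of cycles are in `V`. -/
structure IsForm (K₀ : Subfield K) (V : ∀ Z : 𝒱.Obj, Set (H.A Z)) : Prop where
  spans : ∀ (Z : 𝒱.Obj) (i : ℤ) (w : H.A Z), H.Deg i w →
    w ∈ comb (⊤ : Subfield K) {v : H.A Z | v ∈ V Z ∧ H.Deg i v}
  subform : ∀ Z : 𝒱.Obj, IsSubform K₀ (V Z)
  pull : ∀ (X Y : 𝒱.Obj) (f : X ⟶ Y) (v : H.A Y), v ∈ V Y → H.up f v ∈ V X
  classes : ∀ (Z : 𝒱.Obj) (x : C.A Z), H.cl x ∈ V Z

/-- The Tate conjecture for `Z` in codimension `c` with coefficients in `K₀`: the elements of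
`V Z` of degree `2 c` on which the Frobenius endomorphism `π` relative to the field with `Q` elements
acts as multiplication by `Q ^ c` are linear combinations with coefficients in `K₀` of classes of
cycles of codimension `c`. -/
def TateOver (K₀ : Subfield K) (V : ∀ Z : 𝒱.Obj, Set (H.A Z)) (π : Z ⟶ Z) (Q c : ℕ) : Prop :=
  ∀ w : H.A Z, w ∈ V Z → H.Deg (2 * c) w → H.up π w = (Q : K) ^ c • w →
    w ∈ comb K₀ {a : H.A Z | ∃ x : C.A Z, C.Deg c x ∧ a = H.cl x}

/-- The theorem of Tate on homomorphisms of abelian varieties, for `X` and the Albanese variety of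
`Z`: the elements of the Kunneth component `H ^ 1 (X) ⊗ H ^ 1 (Z)` of `H ^ 2 (X × Z)` on which
Frobenius acts as multiplication by `Q` are linear combinations of classes of divisors. -/
def HasTateHoms (πX : X ⟶ X) (πZ : Z ⟶ Z) (Q : ℕ) : Prop :=
  ∀ w ∈ Submodule.span K {e : H.A (X.prod Z) | ∃ (a : H.A X) (b : H.A Z), H.Deg 1 a ∧ H.Deg 1 b ∧
      e = H.mul (H.up (fst X Z) a) (H.up (snd X Z) b)},
    H.up (prodMap πX πZ) w = (Q : K) • w → IsCycleCombination H 1 w

/-- Hard Lefschetz in degree one: there is a divisor `D` on `Z`, fixed by Frobenius, such that the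
multiplication by the `(d - 1)`-st power of its class, `d = dim Z`, is an isomorphism from
`H ^ 1 (Z)` to `H ^ (2 d - 1) (Z)`. -/
def HasLefschetzOne (πZ : Z ⟶ Z) (Q : ℕ) : Prop :=
  ∃ D : C.A Z, C.Deg 1 D ∧ C.up πZ D = (Q : ℚ) • D ∧
    (∀ a : H.A Z, H.Deg 1 a → H.mul (H.cl D ^ (Z.dim - 1)) a = 0 → a = 0) ∧
    ∀ b : H.A Z, H.Deg (2 * Z.dim - 1) b → ∃ a : H.A Z, H.Deg 1 a ∧
      b = H.mul (H.cl D ^ (Z.dim - 1)) a

/-- The situation of the theorem on arbitrary factors. The varieties `X`, `A` and `Z` are varieties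
over the field with `Q = q ^ s` elements, with Frobenius endomorphisms `πX`, `πA`, `πZ`. The abelian
varieties `X ^ (N + 1)`, `A` and `A × X ^ (N + 1)` are isogenous to products of powers of abelian
varieties coming from the field with `q` elements, with characteristic polynomials `f i`, and all of
them occur in `X` (`roots`); `Z` is any smooth projective variety. -/
structure IsTateTriple (πX : X ⟶ X) (πA : A ⟶ A) (πZ : Z ⟶ Z) (N q s : ℕ) {I : Type}
    (f : I → ℤ[X]) : Prop where
  standard : IsStandard H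
  pos : 0 < s
  roots : HasRoots H πX s f
  power : IsAbelianFor H (pwMap πX N) q s f
  abelian : IsAbelianFor H πA q s f
  mixed : IsAbelianFor H (prodMap πA (pwMap πX N)) q s f
  degree : HasFrobDegree C πZ (q ^ s)
  pure : IsPure H πZ (q ^ s)

/-- The situation of the theorem on varieties of narrow cohomology: as in `IsTateTriple` for
`N = 0`, with the theorem of Tate for `X` and the Albanese variety of `Z`, and hard Lefschetz in
degree one for `Z`. -/
structure IsNarrowTateTriple (πX : X ⟶ X) (πA : A ⟶ A) (πZ : Z ⟶ Z) (q s : ℕ) {I : Type}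
    (f : I → ℤ[X]) : Prop where
  standard : IsStandard H
  pos : 0 < s
  roots : HasRoots H πX s f
  factors : IsAbelianFor H πX q s f
  abelian : IsAbelianFor H πA q s f
  mixed : IsAbelianFor H (prodMap πA πX) q s f
  degree : HasFrobDegree C πZ (q ^ s)
  pure : IsPure H πZ (q ^ s)
  homs : HasTateHoms H πX πZ (q ^ s)
  lefschetz : HasLefschetzOne H πZ (q ^ s)

variable (K₀ : Subfield K) (V : ∀ Z : 𝒱.Obj, Set (H.A Z))

/-- For all natural numbers `N`, all real numbers `e` and all `X`, `A`, `Z` as in `IsTateTriple` such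
that `Z` has level at most `e` and `e < (N + 2) δ`: if the Tate conjecture holds for
`X ^ (N + 1) × Z` in codimension `c'` for all `c'` with `c' ≤ c` and
`2 c' + ⌊e⌋ ≤ 2 dim Z + N + 1`, then it holds for `A × Z` in codimension `c`. -/
def TateTimes (δ : ℝ) (q : ℕ) {I : Type} (f : I → ℤ[X]) : Prop :=
  ∀ (s N : ℕ) (e : ℝ) (X A Z : 𝒱.Obj) (πX : X ⟶ X) (πA : A ⟶ A) (πZ : Z ⟶ Z),
    e < (N + 2) * δ → LevelLE H πZ (q ^ s) e → IsTateTriple H πX πA πZ N q s f →
    ∀ c : ℕ, (∀ c' : ℕ, c' ≤ c → 2 * c' + ⌊e⌋₊ ≤ 2 * Z.dim + (N + 1) →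
      TateOver H K₀ V (prodMap (pwMap πX N) πZ) (q ^ s) c') →
      TateOver H K₀ V (prodMap πA πZ) (q ^ s) c

/-- For all `X`, `A`, `Z` as in `IsNarrowTateTriple` such that `H ^ w (Z)` is narrow in the sense of
`NarrowAt`, with `b = width (dim Z) w`, for `0 < w < 2 dim Z`: if the Tate conjecture holds for `Z` in
codimension `c'` for all `c' ≤ c`, then it holds for `A × Z` in codimension `c`. -/
def TateTimesNarrow (δ δ₂ : ℝ) (q : ℕ) {I : Type} (f : I → ℤ[X]) : Prop :=
  ∀ (s : ℕ) (X A Z : 𝒱.Obj) (πX : X ⟶ X) (πA : A ⟶ A) (πZ : Z ⟶ Z),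
    IsNarrowTateTriple H πX πA πZ q s f →
    (∀ w : ℕ, 0 < w → w < 2 * Z.dim → NarrowAt H πZ (q ^ s) w (width Z.dim w) δ δ₂) →
    ∀ c : ℕ, (∀ c' : ℕ, c' ≤ c → TateOver H K₀ V πZ (q ^ s) c') →
      TateOver H K₀ V (prodMap πA πZ) (q ^ s) c

/-- For all `X`, `A`, `Z` as in `IsNarrowTateTriple` such that `Z` is a curve, or a surface with
`H ^ 2 (Z)` narrow for which the Tate conjecture for divisors is true, the Tate conjecture holds for
`A × Z` in all codimensions. -/
def TateTimesSmall (δ δ₂ : ℝ) (q : ℕ) {I : Type} (f : I → ℤ[X]) : Prop :=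
  ∀ (s : ℕ) (X A Z : 𝒱.Obj) (πX : X ⟶ X) (πA : A ⟶ A) (πZ : Z ⟶ Z),
    IsNarrowTateTriple H πX πA πZ q s f →
    (Z.dim = 1 ∨ (Z.dim = 2 ∧ NarrowAt H πZ (q ^ s) 2 2 δ δ₂ ∧ TateOver H K₀ V πZ (q ^ s) 1)) →
    ∀ c : ℕ, TateOver H K₀ V (prodMap πA πZ) (q ^ s) c

/-- `TateTheorem δ δ₂ q f`: for the Chow groups `C` with rational coefficients of all classes `𝒱` of
varieties over finite fields `k`, every Weil cohomology theory `H` with coefficients in an
algebraically closed field `K` of characteristic zero and every form `V` of it over a subfield `K₀`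
(for instance the crystalline cohomology, `K₀` the fraction field of the ring of Witt vectors `W(k)`)
the statements `TateTimes`, `TateTimesNarrow` and, if `δ > 1 / 3`, `TateTimesSmall` hold. -/
def TateTheorem (δ δ₂ : ℝ) (q : ℕ) {I : Type} (f : I → ℤ[X]) : Prop :=
  ∀ (k : Type) [Field k] (𝒱 : VarClass k) (C : TheoryData.{0, 0, 0} 𝒱 ℚ) [IsChow C]
    (K : Type) [Field K] [IsAlgClosed K] [CharZero K] (H : WeilTheoryData.{0, 0, 0} C K)
    [IsWeil H] (K₀ : Subfield K) (V : ∀ Z : 𝒱.Obj, Set (H.A Z)), IsForm H K₀ V →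
    TateTimes H K₀ V δ q f ∧ TateTimesNarrow H K₀ V δ δ₂ q f ∧
      (1 < 3 * δ → TateTimesSmall H K₀ V δ δ₂ q f)

end Pool.Agent.Q219.UZ
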