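import Mathlib
import Pool.Agent.Q219.UZ.TDefs

/-!
# Theories with coefficients in a subfield
-/

set_option autoImplicit false
set_option linter.unusedSectionVars false

open CategoryTheory AlgebraicGeometry

universe u v w

namespace Pool.Agent.Q219.UZ

open Module Polynomial Pool.Agent.H914 Pool.Agent.H914.VarClass Pool.Agent.H914.VarClass.Obj
  Pool.Agent.W492.BB Pool.Agent.W484.CH

/-- `IsForm`, with subspaces. -/
structure IsFormS {k : Type u} [Field k] {𝒱 : VarClass k} {C : TheoryData.{u, v, 0} 𝒱 ℚ}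
    {K : Type w} [Field K] (H : WeilTheoryData.{u, v, w} C K) (K₀ : Subfield K)
    (V : ∀ Z : 𝒱.Obj, Submodule K₀ (H.A Z)) : Prop where
  spans : ∀ (Z : 𝒱.Obj) (i : ℤ) (w : H.A Z), H.Deg i w →
    w ∈ Submodule.span K {v : H.A Z | v ∈ V Z ∧ H.Deg i v}
  independent : ∀ (Z : 𝒱.Obj) (n : ℕ) (v : Fin n → H.A Z), (∀ i, v i ∈ V Z) →
    LinearIndependent K₀ v → LinearIndependent K v
  pull : ∀ (X Y : 𝒱.Obj) (f : X ⟶ Y) (v : H.A Y), v ∈ V Y → H.up f v ∈ V X
  classes : ∀ (Z : 𝒱.Obj) (x : C.A Z), H.cl x ∈ V Z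

/-- `TateOver`, with subspaces. -/
def TateOverS {k : Type u} [Field k] {𝒱 : VarClass k} {C : TheoryData.{u, v, 0} 𝒱 ℚ}
    {K : Type w} [Field K] (H : WeilTheoryData.{u, v, w} C K) {Z : 𝒱.Obj} (K₀ : Subfield K)
    (V : ∀ Z : 𝒱.Obj, Submodule K₀ (H.A Z)) (π : Z ⟶ Z) (Q c : ℕ) : Prop :=
  ∀ w : H.A Z, w ∈ V Z → H.Deg (2 * c) w → H.up π w = (Q : K) ^ c • w →
    w ∈ Submodule.span K₀ {a : H.A Z | ∃ x : C.A Z, C.Deg c x ∧ a = H.cl x}

variable {k : Type u} [Field k] {𝒱 : VarClass k} {C : TheoryData.{u, v, 0} 𝒱 ℚ} {K : Type w}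
  [Field K] {H : WeilTheoryData.{u, v, w} C K} {Z : 𝒱.Obj} {K₀ : Subfield K}
  {V : ∀ Z : 𝒱.Obj, Submodule K₀ (H.A Z)} (hV : IsFormS H K₀ V)

include hV in
theorem indep_family {ι : Type*} (v : ι → H.A Z) (hv : ∀ i, v i ∈ V Z)
    (h : LinearIndependent K₀ v) : LinearIndependent K v := by
  rw [linearIndependent_iff_finset_linearIndependent] at h ⊢
  intro s
  have h1 := h s
  let e : Fin s.card ≃ s := s.equivFin.symm
  have h2 : LinearIndependent K₀ ((v ∘ (Subtype.val : s → ι)) ∘ e) := h1.comp e e.injective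
  have h3 := hV.independent Z s.card _ (fun i => hv _) h2
  have h4 := h3.comp e.symm e.symm.injective
  convert h4 using 1
  funext i
  simp

include hV in
theorem mem_span_of_mem {S : Set (H.A Z)} (hS : ∀ a ∈ S, a ∈ V Z) {w : H.A Z} (hw : w ∈ V Z)
    (h : w ∈ Submodule.span K S) : w ∈ Submodule.span K₀ S := by
  classical
  obtain ⟨b, hbS, hspan, hind⟩ := exists_linearIndependent K₀ S
  by_contra hcon
  rw [← hspan] at hcon
  have h1 : LinearIndepOn K₀ id (insert w b) := by
    have h2 : LinearIndepOn K₀ id b := hind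
    exact h2.id_insert hcon
  have h2 : LinearIndependent K (fun x : (insert w b : Set (H.A Z)) => (x : H.A Z)) := by
    refine indep_family hV _ ?_ h1
    rintro ⟨x, hx⟩
    rcases hx with rfl | hx
    · exact hw
    · exact hS _ (hbS hx)
  have h3 : w ∉ Submodule.span K b := by
    have h4 : LinearIndepOn K id (insert w b) := h2
    have h5 : w ∉ b := fun hwb => hcon (Submodule.subset_span hwb)
    have h6 := (linearIndepOn_id_insert h5).1 h4
    exact h6.2
  apply h3
  have h4 : S ⊆ Submodule.span K b := by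
    intro a ha
    have h5 : a ∈ Submodule.span K₀ b := by
      rw [hspan]
      exact Submodule.subset_span ha
    exact Submodule.span_le_restrictScalars K₀ K b h5
  exact Submodule.span_le.2 h4 h

include hV in
theorem tateOverS_of_tateIn {π : Z ⟶ Z} {Q c : ℕ} (h : TateIn H π Q c) :
    TateOverS H K₀ V π Q c := by
  intro w hw hdeg hev
  refine mem_span_of_mem hV ?_ hw (h w hdeg hev)
  rintro _ ⟨x, -, rfl⟩
  exact hV.classes Z x

include hV in
theorem tateIn_of_tateOverS {π : Z ⟶ Z} {Q c : ℕ} (h : TateOverS H K₀ V π Q c) :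
    TateIn H π Q c := by
  classical
  intro w hdeg hev
  let V₁ : Submodule K₀ (H.A Z) := V Z ⊓ (H.gr Z (2 * c)).restrictScalars K₀
  let Φ : H.A Z →ₗ[K] H.A Z := (H.pull π).toLinearMap - (Q : K) ^ c • LinearMap.id
  have hΦ : ∀ v, Φ v = H.pull π v - (Q : K) ^ c • v := fun v => rfl
  let φ : V₁ →ₗ[K₀] H.A Z := (Φ.restrictScalars K₀) ∘ₗ V₁.subtype
  have hφ : ∀ v : V₁, φ v = Φ (v : H.A Z) := fun v => rfl
  obtain ⟨U, hU⟩ := Submodule.exists_isCompl (LinearMap.ker φ)
  let b := Basis.ofVectorSpace K₀ U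
  have hQ : ((Q : K) ^ c) ∈ K₀ := pow_mem (natCast_mem K₀ Q) c
  have hindep : LinearIndependent K (fun j => Φ ((b j : V₁) : H.A Z)) := by
    refine indep_family hV _ ?_ ?_
    · intro j
      rw [hΦ]
      refine Submodule.sub_mem _ (hV.pull _ _ π _ (b j : V₁).2.1) ?_
      exact Submodule.smul_mem (V Z) (⟨_, hQ⟩ : K₀) (b j : V₁).2.1
    · have h1 : LinearIndependent K₀ (fun j => φ (b j : V₁)) := by
        have h2 : LinearIndependent K₀ (fun j => ((b j : U) : V₁)) :=
          b.linearIndependent.map' U.subtype (Submodule.ker_subtype _)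
        refine h2.map (f := φ) ?_
        have h3 : Submodule.span K₀ (Set.range fun j => ((b j : U) : V₁)) ≤ U := by
          rw [Submodule.span_le]
          rintro _ ⟨j, rfl⟩
          exact (b j).2
        exact (hU.disjoint.mono_right h3).symm
      exact h1
  have hdec : ∀ w ∈ Submodule.span K {v : H.A Z | v ∈ V Z ∧ H.Deg (2 * c) v},
      ∃ w' ∈ Submodule.span K {v : H.A Z | v ∈ V Z ∧ H.Deg (2 * c) v ∧ Φ v = 0},
        ∃ l : _ →₀ K, w = w' + Finsupp.linearCombination K (fun j => ((b j : V₁) : H.A Z)) l := by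
    intro w hw
    induction hw using Submodule.span_induction with
    | mem v hv =>
      obtain ⟨y, hy, z, hz, hyz⟩ : ∃ y ∈ LinearMap.ker φ, ∃ z ∈ U, y + z = (⟨v, hv⟩ : V₁) := by
        have h1 : (⟨v, hv⟩ : V₁) ∈ LinearMap.ker φ ⊔ U := by
          rw [hU.sup_eq_top]
          trivial
        exact Submodule.mem_sup.1 h1
      refine ⟨(y : H.A Z), Submodule.subset_span ⟨y.2.1, y.2.2, ?_⟩,
        (b.repr ⟨z, hz⟩).mapRange (fun x : K₀ => (x : K)) rfl, ?_⟩
      · exact hy
      · have h2 : (v : H.A Z) = y + z := by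
          have h3 := congrArg (fun x : V₁ => (x : H.A Z)) hyz
          exact h3.symm
        rw [h2]
        congr 1
        have h3 := congrArg (fun x : U => ((x : V₁) : H.A Z)) (b.linearCombination_repr ⟨z, hz⟩)
        rw [← h3]
        rw [Finsupp.linearCombination_apply, Finsupp.linearCombination_apply,
          Finsupp.sum_mapRange_index (fun i => by rw [zero_smul])]
        rw [Finsupp.sum, Finsupp.sum, Submodule.coe_sum, Submodule.coe_sum]
        rfl
    | zero => exact ⟨0, Submodule.zero_mem _, 0, by simp⟩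
    | add x y _ _ hx hy =>
      obtain ⟨x', hx', lx, hlx⟩ := hx
      obtain ⟨y', hy', ly, hly⟩ := hy
      exact ⟨x' + y', Submodule.add_mem _ hx' hy', lx + ly, by rw [hlx, hly, map_add]; abel⟩
    | smul a x _ hx =>
      obtain ⟨x', hx', lx, hlx⟩ := hx
      exact ⟨a • x', Submodule.smul_mem _ _ hx', a • lx, by rw [hlx, map_smul, smul_add]⟩
  obtain ⟨w', hw', l, hl⟩ := hdec w (hV.spans Z _ w hdeg)
  have hw'0 : Φ w' = 0 := by
    have h1 : Submodule.span K {v : H.A Z | v ∈ V Z ∧ H.Deg (2 * c) v ∧ Φ v = 0} ≤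
        LinearMap.ker Φ := by
      rw [Submodule.span_le]
      rintro v ⟨-, -, hv⟩
      exact hv
    exact h1 hw'
  have hw0 : Φ w = 0 := by
    rw [hΦ, sub_eq_zero]
    exact hev
  have hl0 : l = 0 := by
    have h1 : Finsupp.linearCombination K (fun j => Φ ((b j : V₁) : H.A Z)) l = 0 := by
      have h2 := congrArg Φ hl
      rw [hw0, map_add, hw'0, zero_add] at h2
      rw [Finsupp.linearCombination_apply, Finsupp.sum] at h2 ⊢
      rw [map_sum] at h2
      rw [h2]
      exact Finset.sum_congr rfl fun j _ => (map_smul Φ _ _).symm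
    exact (linearIndependent_iff.1 hindep) l h1
  rw [hl, hl0, map_zero, add_zero]
  refine Submodule.span_le.2 ?_ hw'
  rintro v ⟨hv, hd, hv0⟩
  have h1 := h v hv hd (by
    rw [hΦ, sub_eq_zero] at hv0
    exact hv0)
  exact Submodule.span_le_restrictScalars K₀ K _ h1

section bridge

variable {M : Type*} [AddCommGroup M] [Module K M]

theorem mem_comb_iff (K₀ : Subfield K) (S : Set M) (w : M) :
    w ∈ comb K₀ S ↔ w ∈ Submodule.span K₀ S := by
  constructor
  · rintro ⟨n, c, v, hc, hv, rfl⟩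
    refine Submodule.sum_mem _ fun i _ => ?_
    exact Submodule.smul_mem _ (⟨c i, hc i⟩ : K₀) (Submodule.subset_span (hv i))
  · intro h
    rw [Submodule.mem_span_set'] at h
    obtain ⟨n, f, g, rfl⟩ := h
    exact ⟨n, fun i => (f i : K), fun i => (g i : M), fun i => (f i).2, fun i => (g i).2, rfl⟩

theorem mem_comb_top_iff (S : Set M) (w : M) :
    w ∈ comb (⊤ : Subfield K) S ↔ w ∈ Submodule.span K S := by
  constructor
  · rintro ⟨n, c, v, -, hv, rfl⟩
    exact Submodule.sum_mem _ fun i _ => Submodule.smul_mem _ _ (Submodule.subset_span (hv i))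
  · intro h
    rw [Submodule.mem_span_set'] at h
    obtain ⟨n, f, g, rfl⟩ := h
    exact ⟨n, f, fun i => (g i : M), fun i => Subfield.mem_top _, fun i => (g i).2, rfl⟩

/-- The subspace. -/
def toSub {K₀ : Subfield K} {V : Set M} (hV : IsSubform K₀ V) : Submodule K₀ M where
  carrier := V
  add_mem' := by
    intro a b ha hb
    apply hV.1
    rw [mem_comb_iff]
    exact Submodule.add_mem _ (Submodule.subset_span ha) (Submodule.subset_span hb)
  zero_mem' := by
    apply hV.1
    rw [mem_comb_iff]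
    exact Submodule.zero_mem _
  smul_mem' := by
    intro c a ha
    apply hV.1
    rw [mem_comb_iff]
    exact Submodule.smul_mem _ _ (Submodule.subset_span ha)

theorem mem_toSub {K₀ : Subfield K} {V : Set M} (hV : IsSubform K₀ V) (v : M) :
    v ∈ toSub hV ↔ v ∈ V := Iff.rfl

end bridge

theorem isFormS {V : ∀ Z : 𝒱.Obj, Set (H.A Z)} (hV : IsForm H K₀ V) :
    IsFormS H K₀ (fun Z => toSub (hV.subform Z)) where
  spans Z i w hw := by
    rw [← mem_comb_top_iff]
    exact hV.spans Z i w hw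
  independent Z n v hv h := by
    rw [Fintype.linearIndependent_iff]
    refine (hV.subform Z).2 n v hv fun c hc hsum i => ?_
    have h1 := Fintype.linearIndependent_iff.1 h (fun i => (⟨c i, hc i⟩ : K₀)) hsum i
    exact congrArg Subtype.val h1
  pull X Y f v hv := hV.pull X Y f v hv
  classes Z x := hV.classes Z x

theorem tateOver_iff {V : ∀ Z : 𝒱.Obj, Set (H.A Z)} (hV : IsForm H K₀ V) {π : Z ⟶ Z} {Q c : ℕ} :
    TateOver H K₀ V π Q c ↔ TateIn H π Q c := by
  have h1 : TateOver H K₀ V π Q c ↔ TateOverS H K₀ (fun Z => toSub (hV.subform Z)) π Q c := by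
    constructor
    · intro h w hw hd hev
      rw [← mem_comb_iff]
      exact h w hw hd hev
    · intro h w hw hd hev
      rw [mem_comb_iff]
      exact h w hw hd hev
  rw [h1]
  exact ⟨tateIn_of_tateOverS (isFormS hV), tateOverS_of_tateIn (isFormS hV)⟩

end Pool.Agent.Q219.UZ
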