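import Mathlib
import Pool.Agent.Q219.UZ.Bound
import Pool.Agent.Q219.NW.Count

/-!
# The count for the theorems on arbitrary factors
-/

set_option autoImplicit false

namespace Pool.Agent.Q219.UZ

open Polynomial Pool.Agent.W521.Frob Pool.Agent.W484.TB Pool.Agent.Q219.NS Pool.Agent.Q219.NW

/-- **The count**, for properties which follow from the bounds for relations. -/
theorem count_bounded {κ : Type} [Fintype κ] [Nonempty κ] (p : ℕ) [hp : Fact p.Prime]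
    (g : κ → ℕ) (hg : ∀ i, 1 ≤ g i) (s : ∀ i, Fin (g i) → ℚ) (hs : ∀ i, IsPolygon (s i))
    (σ : ℚ) (hσ : ∀ i (h : 0 < g i), s i ⟨0, h⟩ ≤ σ) (hσ2 : σ < 1 / 2) :
    (∀ N : ℕ, ∃ a₀ : ℕ, ∀ a, a₀ ≤ a →
      (NewtonStratum g s p a).Finite ∧ N ≤ (NewtonStratum g s p a).ncard) ∧
    ∃ C : ℝ, 0 < C ∧ ∀ a : ℕ, 0 < a → ∀ Q : (κ → ℤ[X]) → Prop,
      (∀ f : κ → ℤ[X], (∀ δ : ℝ, (∀ i, δ * g i ≤ devSum (s i)) →
        ∀ s' : ℕ, 0 < s' → BoundedAt f (p ^ a) s' δ) → Q f) →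
      ({F ∈ NewtonStratum g s p a | ¬ Q F}.ncard : ℝ) ≤
        C * (a * (p : ℝ) ^ (-((a : ℝ) * (1 - 2 * σ) / 6))) *
          ((NewtonStratum g s p a).ncard : ℝ) := by
  obtain ⟨h1, C, hC, h2⟩ := count_slopes g s p (⊥ : IntermediateField ℚ ℂ) hg hs σ hσ hσ2
  refine ⟨h1, C, hC, fun a ha Q hQ => h2 a ha Q fun h hm hd hgood habs hdev => ?_⟩
  refine hQ _ fun δ hδ s' hs' => ?_
  exact boundedAt_good p a ha rfl hm hgood habs (fun i => by rw [hd i]; exact hg i)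
    (fun i => devSum (s i)) hdev δ (fun i => by rw [hd i]; exact hδ i) s' hs'

end Pool.Agent.Q219.UZ
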