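import Mathlib
import Pool.Agent.Q219.UZ.Corr
import Pool.Agent.Q219.UZ.PowDefs
import Pool.Agent.Q219.UZ.Pow
import Pool.Agent.W492.BB.Real

/-!
# The span of the classes of numerically trivial cycles
-/

set_option autoImplicit false
set_option linter.unusedSectionVars false

open CategoryTheory AlgebraicGeometry

universe u v w

namespace Pool.Agent.Q219.UZ

open Module Polynomial Pool.Agent.H914 Pool.Agent.H914.VarClass Pool.Agent.H914.VarClass.Obj
  Pool.Agent.W492.BB Pool.Agent.W550.Corr Pool.Agent.W484.TB Pool.Agent.W484.CH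

variable {k : Type u} [Field k] {𝒱 : VarClass k} {C : TheoryData.{u, v, 0} 𝒱 ℚ} {K : Type w}
  [Field K] [CharZero K] {H : WeilTheoryData.{u, v, w} C K} {A B Z X Y : 𝒱.Obj}

/-- The cycle `x` of codimension `c` is numerically trivial. -/
def NumTriv (H : WeilTheoryData.{u, v, w} C K) (X : 𝒱.Obj) (c : ℕ) (x : C.A X) : Prop :=
  ∀ (d : ℕ) (y : C.A X), c + d = X.dim → C.Deg d y → H.tr X (H.cl (C.mul x y)) = 0

/-- The span of the classes of numerically trivial cycles of codimension `c`. -/
def numSpan (H : WeilTheoryData.{u, v, w} C K) (X : 𝒱.Obj) (c : ℕ) : Submodule K (H.A X) :=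
  Submodule.span K {a | ∃ x : C.A X, C.Deg c x ∧ NumTriv H X c x ∧ a = H.cl x}

theorem numSpan_eq_bot {c : ℕ} (h : HomNumIn H X c) : numSpan H X c = ⊥ := by
  rw [numSpan, Submodule.span_eq_bot]
  rintro _ ⟨x, hx, hx0, rfl⟩
  exact h x hx hx0

variable [hC : IsChow C] [hH : IsWeil H]

theorem corr_numSpan {i j l : ℕ} (hl : i + j = l + B.dim) {P : H.A (A.prod B)}
    {x : H.A (B.prod Z)} (hP : P ∈ cycSpan H (A.prod B) i) (hx : x ∈ numSpan H (B.prod Z) j) :
    corr H.toTheoryData P x ∈ numSpan H (A.prod Z) l := by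
  unfold cycSpan at hP
  induction hP using Submodule.span_induction with
  | mem P hP =>
    obtain ⟨D, hD, rfl⟩ := hP
    unfold numSpan at hx
    induction hx using Submodule.span_induction with
    | mem x hx =>
      obtain ⟨y, hy, hy0, rfl⟩ := hx
      rw [← cl_corr]
      refine Submodule.subset_span ⟨corr C D y, ?_, ?_, rfl⟩
      · have h1 := corr_mem C hD hy
        rwa [show (i : ℤ) + j - 1 * B.dim = l by omega] at h1
      · intro d w hd hw
        exact corr_numTrivial hl hD hy0 d w hd hw
    | zero => rw [corr_zero_right]; exact Submodule.zero_mem _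
    | add a b _ _ ha hb => rw [corr_add_right]; exact Submodule.add_mem _ ha hb
    | smul c a _ ha => rw [corr_smul_right]; exact Submodule.smul_mem _ _ ha
  | zero => rw [corr_zero_left]; exact Submodule.zero_mem _
  | add a b _ _ ha hb => rw [corr_add_left]; exact Submodule.add_mem _ ha hb
  | smul c a _ ha => rw [corr_smul_left]; exact Submodule.smul_mem _ _ ha

/-- Algebraic correspondences map numerically trivial cycles to numerically trivial cycles. -/
theorem act_numTriv {e : ℤ} {Γ : C.A (X.prod Y)} (hΓ : Γ ∈ C.gr (X.prod Y) (X.dim + e))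
    {i j : ℕ} (hij : (j : ℤ) = i + e) {x : C.A X} (hx0 : NumTriv H X i x) :
    NumTriv H Y j (C.act Γ x) := by
  intro d y hd hy
  have h1 : C.act Γ x * y = C.push (snd X Y) (C.pull (fst X Y) x * (Γ * C.pull (snd X Y) y)) := by
    rw [TheoryData.act_apply, ← C.proj_right]
    congr 1
    rw [chow_mul_comm Γ, mul_assoc]
  change H.tr Y (H.cl (C.act Γ x * y)) = 0
  rw [h1, H.cl_push, H.tr_push, ← H.tr_push (fst X Y), ← H.cl_push, C.proj_left]
  have h2 := C.push_mem (fst X Y) (C.mul_mem hΓ (C.pull_mem (snd X Y) hy))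
  have h3 : (X.dim : ℤ) + e + d + 1 * ((X.dim : ℤ) - (X.prod Y).dim) = X.dim - i := by
    rw [dim_prod]
    push_cast
    have : (j : ℤ) + d = Y.dim := by exact_mod_cast hd
    linarith
  rw [h3] at h2
  rcases le_or_gt i X.dim with h4 | h4
  · refine hx0 (X.dim - i) _ (by omega) ?_
    rw [← Nat.cast_sub h4] at h2
    exact h2
  · rw [C.gr_neg _ _ (by
      have : (X.dim : ℤ) < i := by exact_mod_cast h4
      linarith), Submodule.mem_bot] at h2
    rw [h2, mul_zero, map_zero, map_zero]

/-- Algebraic correspondences preserve the span of the classes of numerically trivial cycles. -/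
theorem realised_numSpan {e : ℤ} {φ : C.A X → C.A Y} {ψ : H.A X → H.A Y}
    (h : Realised H X Y e φ ψ) {i j : ℕ} (hij : (j : ℤ) = i + e) {x : H.A X}
    (hx : x ∈ numSpan H X i) : ψ x ∈ numSpan H Y j := by
  obtain ⟨Γ, hΓ, -, h2⟩ := h
  rw [← h2]
  unfold numSpan at hx
  induction hx using Submodule.span_induction with
  | mem x hx =>
    obtain ⟨y, hy, hy0, rfl⟩ := hx
    rw [← cl_act]
    refine Submodule.subset_span ⟨C.act Γ y, ?_, act_numTriv hΓ hij hy0, rfl⟩
    have h3 := act_mem hΓ hy
    rwa [← hij] at h3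
  | zero => rw [TheoryData.act_map_zero]; exact Submodule.zero_mem _
  | add a b _ _ ha hb =>
    have h3 : H.act (H.cl Γ) (a + b) = H.act (H.cl Γ) a + H.act (H.cl Γ) b :=
      map_add (H.actL (H.cl Γ)) a b
    rw [h3]
    exact Submodule.add_mem _ ha hb
  | smul c a _ ha =>
    have h3 : H.act (H.cl Γ) (c • a) = c • H.act (H.cl Γ) a := map_smul (H.actL (H.cl Γ)) c a
    rw [h3]
    exact Submodule.smul_mem _ _ ha

/-- Numerically trivial cycles on `B × Z` whose class is an external product, with a factor of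
degree zero. -/
theorem piece_zero (hS : IsStandard H) {u : H.A B} (hu : u ∈ H.gr B 0) {h : H.A Z} {c : ℕ}
    (hD : HomNumIn H Z c) (hx : H.ext u h ∈ numSpan H (B.prod Z) c) : H.ext u h = 0 := by
  obtain ⟨a, rfl⟩ := hS.coh_zero B u hu
  obtain ⟨y, hy, -, hy2⟩ := exists_deg_one C B
  have h1 : Realised H (B.prod Z) Z 0
      (fun x => C.push (snd B Z) (C.pull (fst B Z) y * x))
      (fun x => H.push (snd B Z) (H.cl (C.pull (fst B Z) y) * x)) := by
    refine ((Realised.mul (C.pull_mem (fst B Z) hy)).comp (Realised.push (snd B Z))).congr ?_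
      (fun x => rfl) (fun x => rfl)
    rw [dim_prod]
    push_cast
    ring
  have h2 := realised_numSpan h1 (i := c) (j := c) (by ring) hx
  rw [numSpan_eq_bot hD, Submodule.mem_bot] at h2
  have h3 : H.push (snd B Z) (H.cl (C.pull (fst B Z) y) * H.ext (a • 1) h) = a • h := by
    have h4 : H.push (snd B Z) (H.cl (C.pull (fst B Z) y)) = 1 := by
      rw [← H.cl_push, hy2 Z, map_one]
    rw [TheoryData.ext, map_smul, map_one, smul_mul_assoc, one_mul, mul_smul_comm, map_smul,
      H.proj_right, h4, one_mul]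
  rw [h3] at h2
  rw [TheoryData.ext, map_smul, map_one, smul_mul_assoc, one_mul, ← map_smul, h2, map_zero]

/-- A correspondence of degree `e` on `Z` (with coefficients in `K`). -/
theorem piece_lambda {Γ : H.A (Z.prod Y)} {i : ℕ} (hΓ : Γ ∈ cycSpan H (Z.prod Y) i) {u : H.A B}
    {h : H.A Z} {c c' : ℕ} (hc : i + c = c' + Z.dim) (hD : HomNumIn H (B.prod Y) c')
    (hx : H.ext u h ∈ numSpan H (B.prod Z) c) : H.ext u (H.act Γ h) = 0 := by
  have hcomm : ∀ c : H.A (B.prod (Z.prod Y)), H.pull (snd B (Z.prod Y)) Γ * c =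
      c * H.pull (snd B (Z.prod Y)) Γ := by
    intro c
    unfold cycSpan at hΓ
    induction hΓ using Submodule.span_induction with
    | mem a ha =>
      obtain ⟨D, -, rfl⟩ := ha
      rw [← H.cl_pull, H.cl_central]
    | zero => rw [map_zero, zero_mul, mul_zero]
    | add a b _ _ ha hb => rw [map_add, add_mul, mul_add, ha, hb]
    | smul r a _ ha => rw [map_smul, smul_mul_assoc, mul_smul_comm, ha]
  rw [← TheoryData.extR_ext H.toTheoryData Γ hcomm]
  have h1 : H.extR Γ B (H.ext u h) ∈ numSpan H (B.prod Y) c' := by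
    clear hcomm
    unfold cycSpan at hΓ
    induction hΓ using Submodule.span_induction with
    | mem a ha =>
      obtain ⟨D, hD, rfl⟩ := ha
      refine realised_numSpan (Realised.extR (e := (i : ℤ) - Z.dim) (Γ := D) ?_ B)
        (i := c) (j := c') (by omega) hx
      rw [show (Z.dim : ℤ) + (i - Z.dim) = i by ring]
      exact hD
    | zero =>
      rw [TheoryData.extR, map_zero, zero_mul, map_zero]
      exact Submodule.zero_mem _
    | add a b _ _ ha hb =>
      rw [TheoryData.extR, map_add, add_mul, map_add]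
      exact Submodule.add_mem _ ha hb
    | smul r a _ ha =>
      rw [TheoryData.extR, map_smul, smul_mul_assoc, map_smul]
      exact Submodule.smul_mem _ _ ha
  rwa [numSpan_eq_bot hD, Submodule.mem_bot] at h1

end Pool.Agent.Q219.UZ
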