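import Mathlib
import Pool.Agent.Q219.UZ.NarrowDefs
import Pool.Agent.Q219.UZ.NumSpan
import Pool.Agent.Q219.UZ.MomentField
import Pool.Agent.Q219.UZ.Transfer
import Pool.Agent.Q219.UZ.DMain

/-!
# The conjecture D for products with varieties of narrow cohomology
-/

set_option autoImplicit false
set_option linter.unusedSectionVars false

open CategoryTheory AlgebraicGeometry

universe u v w

namespace Pool.Agent.Q219.UZ

open Module Polynomial Pool.Agent.H914 Pool.Agent.H914.VarClass Pool.Agent.H914.VarClass.Obj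
  Pool.Agent.W492.BB Pool.Agent.W550.Corr Pool.Agent.W484.TB Pool.Agent.W484.CH
  Pool.Agent.W484.HS

variable {k : Type u} [Field k] {𝒱 : VarClass k} {C : TheoryData.{u, v, 0} 𝒱 ℚ} {K : Type w}
  [Field K] [CharZero K] {H : WeilTheoryData.{u, v, w} C K} [hC : IsChow C] [hH : IsWeil H]
  {A B Z X : 𝒱.Obj} {I : Type} {f : I → ℤ[X]} {q s : ℕ} {δ δ₂ : ℝ}

/-- Cycles of dimension zero. -/
theorem homNumIn_top (hS : IsStandard H) (X : 𝒱.Obj) {c : ℕ} (hc : X.dim ≤ c) :
    HomNumIn H X c := by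
  intro x hx h
  rcases hc.lt_or_eq with h1 | h1
  · have h2 : x ∈ C.gr X c := hx
    rw [hS.chow_top X c (by exact_mod_cast h1), Submodule.mem_bot] at h2
    rw [h2, map_zero]
  · subst h1
    have h2 := h 0 1 (by omega) (C.one_mem X)
    have h3 : C.mul x 1 = x := mul_one x
    rw [h3] at h2
    apply H.nondeg
    intro y
    refine homog_induction H.toTheoryData (p := fun y => H.tr X (H.cl x * y) = 0) ?_ ?_ y
    · intro i a ha
      by_cases hi : i = 0
      · subst hi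
        obtain ⟨b, rfl⟩ := hS.coh_zero X a ha
        rw [mul_smul_comm, mul_one, map_smul, h2, smul_zero]
      · refine tr_eq_zero hS ?_ (H.mul_mem (H.cl_mem hx) ha)
        intro h4
        apply hi
        linarith
    · intro a b ha hb
      rw [mul_add, map_add, ha, hb, add_zero]

/-- **The nonzero components of a Tate class**, with the bounds for each degree. -/
theorem component_gen [IsAlgClosed K] (hS : IsStandard H) (hB : BoundedAt f q s δ)
    (hM : MomentAt f q s δ₂) (hδ0 : 0 < δ) (hδ₂ : 0 < δ₂) (hq : 1 < q) {πZ : Z ⟶ Z}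
    (hZ : HasFrobDegree C πZ (q ^ s)) (hpure : IsPure H πZ (q ^ s)) (r : ℕ) (hr : 0 < r)
    (ys : List {z : K // ∃ i, aeval z (f i) = 0}) (c m : ℕ)
    (h : H.A Z) (hdeg : h ∈ H.gr Z (2 * c - ys.length)) (h0 : h ≠ 0)
    (hop : op (rootProd s ys ^ r • frob H πZ ^ r) ((((q ^ s : ℕ) : K) ^ c) ^ r) m h = 0) :
    ∃ (w i c' : ℕ) (zs : List {z : K // ∃ i, aeval z (f i) = 0}), h ∈ H.gr Z w ∧
      w ≤ 2 * Z.dim ∧ 2 * c' = zs.length + w ∧ i + c' = c ∧
      rootProd s ys = ((q ^ s : ℕ) : K) ^ i * rootProd s zs ∧ ys.length = 2 * i + zs.length ∧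
      zs.length * δ ≤ w ∧ zs.length * δ ≤ 2 * Z.dim - w ∧
      ∀ b, NarrowAt H πZ (q ^ s) w b δ δ₂ → zs.length < b := by
  have hQ0 : q ^ s ≠ 0 := pow_ne_zero _ (by omega)
  have hQK : ((q ^ s : ℕ) : K) ≠ 0 := by exact_mod_cast hQ0
  have hfin := hS.finite Z
  obtain ⟨hα', ρ, v, hv, hv0, hρ, hαρ⟩ := exists_eigen_pow (frob H πZ)
    (H.gr Z (2 * c - ys.length)) (fun v hv => H.pull_mem πZ hv) r (rootProd s ys ^ r)
    ((((q ^ s : ℕ) : K) ^ c) ^ r) (pow_ne_zero _ (pow_ne_zero _ hQK)) m h hdeg h0 hop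
  have hα : rootProd s ys ≠ 0 := fun h1 => hα' (by rw [h1, zero_pow hr.ne'])
  have hw0 : 0 ≤ 2 * (c : ℤ) - ys.length := by
    by_contra hcon
    push Not at hcon
    rw [H.gr_neg _ _ hcon] at hv
    exact hv0 ((Submodule.mem_bot _).1 hv)
  obtain ⟨w, hw⟩ := Int.eq_ofNat_of_zero_le hw0
  rw [hw] at hv hdeg
  obtain ⟨hW, hw2, hlow, hdual⟩ := levels hS hQ0 hZ hpure hv hv0 hρ
  obtain ⟨i, zs, h1, h2, h3⟩ := reduce_list
    (fun z : {z : K // ∃ i, aeval z (f i) = 0} => (z : K) ^ s) ((q : K) ^ s) ys.length ys rfl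
  have h2' : rootProd s ys = ((q ^ s : ℕ) : K) ^ i * rootProd s zs := by
    push_cast
    exact h2
  have hzs0 : rootProd s zs ≠ 0 := by
    intro h4
    rw [h4, mul_zero] at h2'
    exact hα h2'
  have hqs : ((q ^ s : ℕ) : K) = (q : K) ^ s := by push_cast; rfl
  have hrel : ((zs.map fun z : {z : K // ∃ i, aeval z (f i) = 0} => (z : K) ^ s).prod * ρ) ^ r =
      (((q : K) ^ s) ^ ((c : ℤ) - i)) ^ r := by
    change (rootProd s zs * ρ) ^ r = _
    rw [← hqs, zpow_sub₀ hQK, zpow_natCast, zpow_natCast, div_pow,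
      eq_div_iff (pow_ne_zero _ (pow_ne_zero _ hQK)), ← hαρ, h2', mul_pow, mul_pow]
    ring
  obtain ⟨h4, h5⟩ := bound_field hB hW hlow _ r hr zs hrel h3
  obtain ⟨-, h6⟩ := bound_field hB hW hdual _ r hr zs hrel h3
  have hci : 0 ≤ (c : ℤ) - i := by omega
  obtain ⟨c', hc'⟩ := Int.eq_ofNat_of_zero_le hci
  refine ⟨w, i, c', zs, hdeg, hw2, by omega, by omega, h2', h1, h5, h6, fun b hb => ?_⟩
  have hlt : ∀ (η : ℝ) (x : ℝ), 0 < η → x < b * η → (zs.length : ℝ) * η ≤ x → zs.length < b := by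
    intro η x hη hx hle
    by_contra hcon
    push Not at hcon
    have h7 : (b : ℝ) ≤ zs.length := by exact_mod_cast hcon
    have h8 := mul_le_mul_of_nonneg_right h7 hη.le
    linarith
  rcases hb ρ v hv hv0 hρ with ⟨e, he, hlev⟩ | ⟨M, hM', hmom⟩
  · obtain ⟨-, h7⟩ := bound_field hB hW hlev _ r hr zs hrel h3
    exact hlt δ e hδ0 he h7
  · exact hlt δ₂ M hδ₂ hM' (moment_field hM hW hmom _ r hr zs hrel h3)

section main

variable [IsAlgClosed K] (hS : IsStandard H) (hB : BoundedAt f q s δ) (hM : MomentAt f q s δ₂)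
  (hδ0 : 0 < δ) (hδ₂ : 0 < δ₂) (hq : 1 < q) (hs : 0 < s) {πA : A ⟶ A} {πX : X ⟶ X} {πZ : Z ⟶ Z}
  (hroots : HasRoots H πX s f) (hX : IsAbelianFor H πX q s f)
  (hA : IsAbelianFor H πA q s f) (hZ : HasFrobDegree C πZ (q ^ s)) (hpure : IsPure H πZ (q ^ s))

include hS hB hM hδ0 hδ₂ hq hs hroots hX hA hZ hpure

/-- **The conjecture D for `A × Z`, for `Z` with narrow cohomology.** -/
theorem homNum_narrow (hXA : IsAbelianFor H (prodMap πX πA) q s f)
    (hAZ : ActsOnCycles C (prodMap πA πZ) (q ^ s)) (hdiv : HomNumIn H (X.prod Z) 1)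
    (hΛ : HasLambda H Z)
    (hN : ∀ w : ℕ, 0 < w → w < 2 * Z.dim → NarrowAt H πZ (q ^ s) w (width Z.dim w) δ δ₂) (c : ℕ)
    (hD : ∀ c' : ℕ, c' ≤ c → HomNumIn H Z c') : HomNumIn H (A.prod Z) c := by
  intro x hx hx0
  have hQ0 : q ^ s ≠ 0 := pow_ne_zero _ (by omega)
  have hQK : ((q ^ s : ℕ) : K) ≠ 0 := by exact_mod_cast hQ0
  obtain ⟨n, b, L, -, -, hb⟩ := exists_list_eigenbasis hS hA
  set ys := fun t => (L t).map Prod.snd with hys
  have hw : H.cl x ∈ H.gr (A.prod Z) (2 * c) := H.cl_mem hx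
  have hxspan : H.cl x ∈ numSpan H (A.prod Z) c := Submodule.subset_span ⟨x, hx, hx0, rfl⟩
  obtain ⟨h, hsum, hh⟩ := kunneth_deg b (fun t => ((ys t).length : ℤ)) (fun t => (hb t).1) hw
  obtain ⟨r, hr, hxr⟩ := hAZ c x hx
  have hpx : (frob H (prodMap πA πZ) ^ r) (H.cl x) = (((q ^ s : ℕ) : K) ^ c) ^ r • H.cl x := by
    have h1 : ∀ (r : ℕ) (x : C.A (A.prod Z)), (frob H (prodMap πA πZ) ^ r) (H.cl x) =
        H.cl ((fun x => C.up (prodMap πA πZ) x)^[r] x) := by
      intro r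
      induction r with
      | zero => intro x; simp
      | succ r ih =>
        intro x
        rw [pow_succ, Module.End.mul_apply, Function.iterate_succ_apply]
        have h2 : frob H (prodMap πA πZ) (H.cl x) = H.cl (C.up (prodMap πA πZ) x) :=
          (H.cl_pull (prodMap πA πZ) x).symm
        rw [h2, ih]
    rw [h1, hxr, cl_smul]
    push_cast
    rfl
  have hop : op (frob H (prodMap πA πZ) ^ r) ((((q ^ s : ℕ) : K) ^ c) ^ r) 1 (H.cl x) = 0 := by
    rw [op, pow_one, LinearMap.sub_apply, LinearMap.smul_apply, Module.End.one_apply, sub_eq_zero]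
    exact hpx
  rw [hsum, op_sum_ext _ _ _ (fun t => rootProd s (ys t) ^ r • frob H πZ ^ r)
    (fun t h => frob_pow_ext (hb t).2 r h)] at hop
  have h3 := kunneth_unique hS b _ hop
  obtain ⟨b', hb'1, hb'2⟩ := exists_dual_basis hS hQ0 hA.degree b
    (fun t => rootProd s (ys t)) (fun t => (hb t).2)
  rw [hsum]
  refine Finset.sum_eq_zero fun t _ => ?_
  by_contra hne
  have h0 : h t ≠ 0 := by
    intro h0
    apply hne
    rw [h0, TheoryData.ext, map_zero, mul_zero]
  obtain ⟨w, i, c', zs, hhw, hw2, hcw, hic, hprod, hlen, hlow, hup, hnar⟩ :=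
    component_gen hS hB hM hδ0 hδ₂ hq hZ hpure r hr (ys t) c 1 (h t) (hh t) h0 (h3 t)
  -- at most one root
  have hcases : zs.length = 0 ∨ (zs.length = 1 ∧ w = 1) ∨ (zs.length = 1 ∧ w + 1 = 2 * Z.dim) := by
    rcases Nat.eq_zero_or_pos w with hw0 | hw0
    · left
      subst hw0
      by_contra hcon
      have h4 : (0 : ℝ) < zs.length := by exact_mod_cast Nat.pos_of_ne_zero hcon
      have h5 := mul_pos h4 hδ0
      push_cast at hlow
      linarith
    · rcases hw2.lt_or_eq with h4 | h4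
      · have h5 := hnar _ (hN w hw0 h4)
        unfold width at h5
        split_ifs at h5 with h6 h7
        · left; omega
        · right
          rcases h7 with h7 | h7
          · left; omega
          · right; omega
        · left; omega
      · left
        by_contra hcon
        have h5 : (0 : ℝ) < zs.length := by exact_mod_cast Nat.pos_of_ne_zero hcon
        have h6 := mul_pos h5 hδ0
        have h7 : (w : ℝ) = 2 * Z.dim := by exact_mod_cast h4
        linarith
  obtain ⟨u, hu0, hud', hμ⟩ : ∃ u : H.A X, u ≠ 0 ∧ u ∈ H.gr X zs.length ∧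
      H.pull πX u = rootProd s zs • u := exists_vec hS hroots 0 zs (by omega)
  have hμ0 := eigen_ne_zero hQ0 hX.degree hu0 hμ
  have hb'0 : b' t ≠ 0 := by
    intro h4
    have h5 := hb'1 t t
    rw [h4, zero_mul, map_zero, if_pos rfl] at h5
    exact zero_ne_one h5
  have hP : H.pull (prodMap πX πA) (H.ext u (b' t)) =
      ((q ^ s : ℕ) : K) ^ ((A.dim : ℤ) - i) • H.ext u (b' t) := by
    have hb't : H.pull πA (b' t) = (((q ^ s : ℕ) : K) ^ A.dim / rootProd s (ys t)) • b' t := hb'2 t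
    rw [pull_prodMap_ext, hb't, hμ, ext_smul_left, ext_smul_right, ext_smul_right, smul_smul,
      hprod, zpow_sub₀ hQK, zpow_natCast, zpow_natCast]
    congr 1
    field_simp
  obtain ⟨l, hl, hPl⟩ := eigen_mem_NK hS hB hδ0 hq hs hXA (ext_ne_zero hS hu0 hb'0) hP
  have hkey : H.ext u (h t) ∈ numSpan H (X.prod Z) c' := by
    have h1 := corr_numSpan (l := c') (by omega) (NK_le_cycSpan _ _ hPl) hxspan
    obtain ⟨τ, hτ, hpush⟩ := exists_push_scalar hS A Z
    rw [hsum, corr_sum_right] at h1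
    have h2 : ∀ t', corr H.toTheoryData (H.ext u (b' t)) (H.ext (b t') (h t')) =
        if t' = t then τ • H.ext u (h t) else 0 := by
      intro t'
      rw [corr_ext, hpush, hb'1]
      by_cases ht : t' = t
      · subst ht
        rw [if_pos rfl, if_pos rfl, mul_one, smul_mul_assoc, one_mul, ext_smul_right]
      · rw [if_neg ht, if_neg ht, mul_zero, zero_smul, zero_mul, TheoryData.ext, map_zero,
          mul_zero]
    rw [Finset.sum_congr rfl fun t' _ => h2 t', Finset.sum_ite_eq',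
      if_pos (Finset.mem_univ _)] at h1
    have h3 := Submodule.smul_mem _ τ⁻¹ h1
    rwa [smul_smul, inv_mul_cancel₀ hτ, one_smul] at h3
  rcases hcases with h4 | ⟨h4, h5⟩ | ⟨h4, h5⟩
  · rw [h4] at hud'
    exact ext_ne_zero hS hu0 h0 (piece_zero hS hud' (hD c' (by omega)) hkey)
  · have h6 : c' = 1 := by omega
    subst h6
    rw [numSpan_eq_bot hdiv, Submodule.mem_bot] at hkey
    exact ext_ne_zero hS hu0 h0 hkey
  · obtain ⟨Γ, hΓ, hinj⟩ := hΛ
    have h6 := piece_lambda (c := c') (c' := 1) (i := 1) (Γ := Γ) hΓ (by omega) hdiv hkey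
    by_cases h7 : H.act Γ (h t) = 0
    · refine h0 (hinj _ ?_ h7)
      rw [show (2 * (Z.dim : ℤ) - 1) = w by omega]
      exact hhw
    · exact ext_ne_zero hS hu0 h7 h6

end main

variable (hB : ∀ s : ℕ, 0 < s → BoundedAt f q s δ) (hM : ∀ s : ℕ, 0 < s → MomentAt f q s δ₂)
  (hδ0 : 0 < δ) (hδ₂ : 0 < δ₂) (hq : 1 < q)

include hB hM hδ0 hδ₂ hq in
theorem conjectureDNarrow : ConjectureDNarrow δ δ₂ q f := by
  intro k _ 𝒱 C _ K _ _ _ H _ s X A Z πX πA πZ h hN c hD
  exact homNum_narrow h.standard (hB s h.pos) (hM s h.pos) hδ0 hδ₂ hq h.pos h.roots h.factors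
    h.abelian h.degree h.pure h.mixed h.cycles h.divisors h.lambda hN c hD

include hB hM hδ₂ hq in
theorem conjectureDSurfaces (hδ : 1 < 3 * δ) : ConjectureDSurfaces δ δ₂ q f := by
  intro k _ 𝒱 C _ K _ _ _ H _ s X A Z πX πA πZ hdim h hZ1 hN c
  have hδ0 : 0 < δ := by linarith
  have hQ0 : q ^ s ≠ 0 := pow_ne_zero _ (by omega)
  refine homNum_narrow h.standard (hB s h.pos) (hM s h.pos) hδ0 hδ₂ hq h.pos h.roots h.factors
    h.abelian h.degree h.pure h.mixed h.cycles h.divisors h.lambda ?_ c ?_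
  · intro w hw0 hw4
    rw [hdim] at hw4
    have hcase : w = 1 ∨ w = 2 ∨ w = 3 := by omega
    rcases hcase with rfl | rfl | rfl
    · intro ρ v hv hv0 hρ
      obtain ⟨-, -, h1, -⟩ := levels h.standard hQ0 h.degree h.pure hv hv0 hρ
      refine Or.inl ⟨_, ?_, h1⟩
      rw [hdim]
      simp [width]
      linarith
    · rw [hdim]
      exact hN
    · intro ρ v hv hv0 hρ
      obtain ⟨-, -, -, h1⟩ := levels h.standard hQ0 h.degree h.pure hv hv0 hρ
      refine Or.inl ⟨_, ?_, h1⟩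
      rw [hdim]
      norm_num [width]
      linarith
  · intro c' _
    rcases Nat.lt_or_ge c' 2 with h1 | h1
    · have h2 : c' = 0 ∨ c' = 1 := by omega
      rcases h2 with rfl | rfl
      · exact homNumIn_zero h.standard _
      · exact hZ1
    · exact homNumIn_top h.standard _ (by omega)

end Pool.Agent.Q219.UZ
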