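import Mathlib
import Pool.Agent.TH44.SS.Times
import Pool.Agent.Q219.UZ.Num
import Pool.Agent.Q219.UZ.MomDefs

/-!
# Semisimplicity for products with arbitrary varieties: definitions
-/

set_option autoImplicit false

namespace Pool.Agent.Q219.UZ

open Polynomial Module Pool.Agent.TH44.SS Pool.Agent.W484.AA

/-- `V` is the first cohomology of an abelian variety over the field with `q ^ s` elements, isogenous
to a product of powers of abelian varieties which come from the field with `q` elements and have the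
characteristic polynomials of Frobenius `f i`; `Φ` is the Frobenius endomorphism: it is diagonalizable
and its eigenvalues are the numbers `z ^ s`, `z` a root of some `f i`. -/
def IsFrobOver {I : Type} (f : I → ℤ[X]) (s : ℕ) {V : Type} [AddCommGroup V] [Module ℂ V]
    (Φ : V →ₗ[ℂ] V) : Prop :=
  Submodule.span ℂ {v : V | ∃ i, ∃ z : ℂ, aeval z (f i) = 0 ∧ Φ v = z ^ s • v} = ⊤

/-- Each of the numbers `z ^ s`, `z` a root of some `f i`, is an eigenvalue of `Ψ` of multiplicity at
least `n`. This is true for the first cohomology of the `n`-th power of an abelian variety in which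
all the given abelian varieties occur. -/
def HasMultiplicity {I : Type} (f : I → ℤ[X]) (s n : ℕ) {W : Type} [AddCommGroup W] [Module ℂ W]
    (Ψ : W →ₗ[ℂ] W) : Prop :=
  ∀ i, ∀ z : ℂ, aeval z (f i) = 0 →
    n ≤ Module.finrank ℂ (LinearMap.ker (Ψ - z ^ s • (LinearMap.id : W →ₗ[ℂ] W)))

/-- Theorems of Deligne on the cohomology with compact supports `H m`, `m ≥ 0`, of a variety `U` of
dimension `d` over the field with `Q` elements: the eigenvalues of Frobenius on `H m` are Weil numbers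
of weights at most `m`, and they are divisible by `Q ^ (m - d)` in the ring of algebraic integers
if `m > d`. -/
structure IsCompactCohomology (Q d : ℕ) {H : ℕ → Type} [∀ m, AddCommGroup (H m)]
    [∀ m, Module ℂ (H m)] (G : ∀ m, H m →ₗ[ℂ] H m) : Prop where
  weight : ∀ (m : ℕ) (ρ : ℂ), Module.End.HasEigenvalue (G m) ρ → ∃ w ≤ m, IsWeilNumber Q w ρ
  integral : ∀ (m : ℕ) (ρ : ℂ), Module.End.HasEigenvalue (G m) ρ →
    ∃ ρ' : ℂ, IsIntegral ℤ ρ' ∧ ρ = (Q : ℂ) ^ (m - d) * ρ'

/-- The eigenvalues of weight `m` on `H m` have level at most `e`: their slopes are between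
`(m - e) / 2` and `(m + e) / 2`. -/
def PureLevelLE (Q : ℕ) (e : ℝ) {H : ℕ → Type} [∀ m, AddCommGroup (H m)] [∀ m, Module ℂ (H m)]
    (G : ∀ m, H m →ₗ[ℂ] H m) : Prop :=
  ∀ (m : ℕ) (ρ : ℂ), Module.End.HasEigenvalue (G m) ρ → IsWeilNumber Q m ρ → HasLevel Q m e ρ

/-- Each eigenvalue `ρ` of weight `m` on `H m` is semisimple, or its slopes are close to `m / 2`:
they lie between `(m - e) / 2` and `(m + e) / 2` for some `e < b δ`, or the mean of the numbers
`(2 λ - m) ^ 2`, `λ` the slopes of the conjugates of `ρ`, is smaller than `b δ₂`; here `b = 2` if `m`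
is even and `b = 1` if `m` is odd. -/
def SemisimpleOrNarrow (Q : ℕ) (δ δ₂ : ℝ) {H : ℕ → Type} [∀ m, AddCommGroup (H m)]
    [∀ m, Module ℂ (H m)] (G : ∀ m, H m →ₗ[ℂ] H m) : Prop :=
  ∀ (m : ℕ) (ρ : ℂ), Module.End.HasEigenvalue (G m) ρ → IsWeilNumber Q m ρ →
    SemisimpleAt (G m) ρ ∨
      (∃ e : ℝ, e < (if m % 2 = 0 then 2 else 1) * δ ∧ HasLevel Q m e ρ) ∨
      (∃ M : ℝ, M < (if m % 2 = 0 then 2 else 1) * δ₂ ∧ HasMoment Q m M ρ)

/-- Let `A` be an abelian variety over the field with `Q = q ^ s` elements as in `IsFrobOver`, and `B`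
another one in which all eigenvalues have multiplicity at least `n`. Let `U` be any variety over the
field with `Q` elements, of level at most `e < (n + 1) δ`. If the eigenvalue `Q ^ j` of Frobenius on
`H_c ^ (2 j) (B × U)` is semisimple for all `j ≤ i`, then the eigenvalue `Q ^ i` of Frobenius on
`H_c ^ (2 i) (A × U)` is semisimple. -/
def SemisimpleTimes (δ : ℝ) (q : ℕ) {I : Type} (f : I → ℤ[X]) : Prop :=
  ∀ (V : Type) [AddCommGroup V] [Module ℂ V] [FiniteDimensional ℂ V] (Φ : V →ₗ[ℂ] V)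
    (W : Type) [AddCommGroup W] [Module ℂ W] [FiniteDimensional ℂ W] (Ψ : W →ₗ[ℂ] W)
    (H : ℕ → Type) [∀ m, AddCommGroup (H m)] [∀ m, Module ℂ (H m)]
    [∀ m, FiniteDimensional ℂ (H m)] (G : ∀ m, H m →ₗ[ℂ] H m) (s n d : ℕ) (e : ℝ), 0 < s →
    IsFrobOver f s Φ → HasMultiplicity f s n Ψ → IsCompactCohomology (q ^ s) d G →
    PureLevelLE (q ^ s) e G → e < (n + 1) * δ →
    ∀ i : ℕ, (∀ j ≤ i, SemisimpleAt (total Ψ G (2 * j)) (((q : ℂ) ^ s) ^ j)) →
      SemisimpleAt (total Φ G (2 * i)) (((q : ℂ) ^ s) ^ i)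

/-- Let `A` be an abelian variety over the field with `Q = q ^ s` elements as in `IsFrobOver`, and let
`U` be any variety over the field with `Q` elements such that each eigenvalue of Frobenius on
`H_c ^ m (U)` of weight `m` is semisimple or narrow. Then the eigenvalue `Q ^ i` of Frobenius on
`H_c ^ (2 i) (A × U)` is semisimple for all `i` if and only if the eigenvalue `Q ^ i` of Frobenius on
`H_c ^ (2 i) (U)` is semisimple for all `i`. -/
def SemisimpleTimesNarrow (δ δ₂ : ℝ) (q : ℕ) {I : Type} (f : I → ℤ[X]) : Prop :=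
  ∀ (V : Type) [AddCommGroup V] [Module ℂ V] [FiniteDimensional ℂ V] (Φ : V →ₗ[ℂ] V)
    (H : ℕ → Type) [∀ m, AddCommGroup (H m)] [∀ m, Module ℂ (H m)]
    [∀ m, FiniteDimensional ℂ (H m)] (G : ∀ m, H m →ₗ[ℂ] H m) (s d : ℕ), 0 < s →
    IsFrobOver f s Φ → IsCompactCohomology (q ^ s) d G → SemisimpleOrNarrow (q ^ s) δ δ₂ G →
    (SemiTate (total Φ G) ((q : ℂ) ^ s) ↔ SemiTate G ((q : ℂ) ^ s))

end Pool.Agent.Q219.UZ
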