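import Mathlib
import Pool.Agent.Q219.UZ.SSDefs
import Pool.Agent.Q219.UZ.MomentField
import Pool.Agent.Q219.UZ.Red

/-!
# Semisimplicity for products with arbitrary varieties: proofs
-/

set_option autoImplicit false
set_option linter.unusedSectionVars false

namespace Pool.Agent.Q219.UZ

open Polynomial Module TensorProduct Pool.Agent.TH44.SS Pool.Agent.W484.AA Pool.Agent.W484.BB

/-- Independent eigenvectors. -/
theorem exists_indep {X : Type*} {W : Type*} [AddCommGroup W] [Module ℂ W]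
    [FiniteDimensional ℂ W] (Ψ : W →ₗ[ℂ] W) (val : X → ℂ) (n : ℕ)
    (hmult : ∀ x, n ≤ Module.finrank ℂ (LinearMap.ker (Ψ - val x • (LinearMap.id : W →ₗ[ℂ] W)))) :
    ∀ zs : List X, zs.length ≤ n → ∃ w : Fin zs.length → W, LinearIndependent ℂ w ∧
      ∀ j, Ψ (w j) = val (zs.get j) • w j := by
  intro zs
  induction zs with
  | nil =>
    intro _
    have h0 : IsEmpty (Fin ([] : List X).length) := inferInstanceAs (IsEmpty (Fin 0))
    exact ⟨fun j => j.elim0, linearIndependent_empty_type, fun j => j.elim0⟩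
  | cons x zs ih =>
    intro hlen
    rw [List.length_cons] at hlen
    obtain ⟨w, hw, hΨ⟩ := ih (by omega)
    obtain ⟨v, hv, hvs⟩ : ∃ v ∈ LinearMap.ker (Ψ - val x • (LinearMap.id : W →ₗ[ℂ] W)),
        v ∉ Submodule.span ℂ (Set.range w) := by
      by_contra hcon
      push Not at hcon
      have h1 : LinearMap.ker (Ψ - val x • (LinearMap.id : W →ₗ[ℂ] W)) ≤
          Submodule.span ℂ (Set.range w) := hcon
      have h2 := Submodule.finrank_mono h1
      rw [finrank_span_eq_card hw, Fintype.card_fin] at h2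
      have h3 := hmult x
      omega
    refine ⟨Fin.cons v w, linearIndependent_finCons.2 ⟨hw, hvs⟩, ?_⟩
    intro j
    refine Fin.cases ?_ (fun j => ?_) j
    · rw [LinearMap.mem_ker, LinearMap.sub_apply, LinearMap.smul_apply, LinearMap.id_apply,
        sub_eq_zero] at hv
      exact hv
    · exact hΨ j

/-- Eigenvectors in the exterior powers. -/
theorem exists_wedge {X : Type*} {W : Type*} [AddCommGroup W] [Module ℂ W]
    [FiniteDimensional ℂ W] (Ψ : W →ₗ[ℂ] W) (val : X → ℂ) (n : ℕ)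
    (hmult : ∀ x, n ≤ Module.finrank ℂ (LinearMap.ker (Ψ - val x • (LinearMap.id : W →ₗ[ℂ] W))))
    (zs : List X) (hlen : zs.length ≤ n) : ∃ u : ⋀[ℂ]^zs.length W, u ≠ 0 ∧
      exteriorPower.map zs.length Ψ u = (zs.map val).prod • u := by
  obtain ⟨w, hw, hΨ⟩ := exists_indep Ψ val n hmult zs hlen
  refine ⟨exteriorPower.ιMulti ℂ zs.length w, ?_, ?_⟩
  · have h1 := exteriorPower.ιMulti_family_linearIndependent_field (n := zs.length) hw
    have h2 := h1.ne_zero (⟨Finset.univ, by simp⟩ : Set.powersetCard (Fin zs.length) zs.length)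
    intro h3
    apply h2
    rw [exteriorPower.ιMulti_family]
    set σ' := Set.powersetCard.ofFinEmbEquiv.symm
      (⟨Finset.univ, by simp⟩ : Set.powersetCard (Fin zs.length) zs.length)
    let σ : Equiv.Perm (Fin zs.length) := Equiv.ofBijective σ'
      (Finite.injective_iff_bijective.1 σ'.injective)
    have h4 : w ∘ σ' = w ∘ σ := rfl
    rw [h4, (exteriorPower.ιMulti ℂ zs.length).map_perm w σ, h3, smul_zero]
  · rw [exteriorPower.map_apply_ιMulti]
    have h1 : Ψ ∘ w = fun j => val (zs.get j) • w j := funext hΨ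
    rw [h1, (exteriorPower.ιMulti ℂ zs.length).map_smul_univ]
    congr 1
    rw [← List.prod_ofFn]
    congr 1
    apply List.ext_getElem
    · simp
    · intro i h1 h2
      simp

section linear

variable {V : Type*} [AddCommGroup V] [Module ℂ V] {H : Type*} [AddCommGroup H] [Module ℂ H]

/-- Semisimplicity on the product, from the components. -/
theorem semisimpleAt_of_lists {X : Type*} [FiniteDimensional ℂ V]
    (F : V →ₗ[ℂ] V) (val : X → ℂ) (hF : Submodule.span ℂ {v : V | ∃ x, F v = val x • v} = ⊤)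
    (G : H →ₗ[ℂ] H) (n : ℕ) (μ : ℂ)
    (h : ∀ L : List X, L.length = n → ∀ v : H,
      (L.map val).prod • G ((L.map val).prod • G v - μ • v) =
        μ • ((L.map val).prod • G v - μ • v) → (L.map val).prod • G v = μ • v) :
    SemisimpleAt (M := (⋀[ℂ]^n V) ⊗[ℂ] H) (TensorProduct.map (exteriorPower.map n F) G) μ := by
  classical
  obtain ⟨r, b', α, hα, hb'⟩ := exists_eigenbasis_list F val hF n
  obtain ⟨e, he⟩ := exists_components (exteriorPower.map n F) G b' α hb'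
  intro u hu
  apply e.injective
  refine Finsupp.ext fun j => ?_
  have h1 := congrArg (fun w => e w j) hu
  beta_reduce at h1
  rw [he, map_smul, Finsupp.smul_apply, map_sub, map_smul, Finsupp.sub_apply, he,
    Finsupp.smul_apply] at h1
  rw [he, map_smul, Finsupp.smul_apply]
  obtain ⟨L, hL, hLα⟩ := hα j
  rw [hLα] at h1 ⊢
  exact h L hL _ h1

/-- The components of the product. -/
theorem component_of_semisimpleAt {P : Type*} [AddCommGroup P] [Module ℂ P]
    (T : P →ₗ[ℂ] P) (G : H →ₗ[ℂ] H) (μ : ℂ)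
    (hss : SemisimpleAt (M := P ⊗[ℂ] H) (TensorProduct.map T G) μ) {u : P} (hu : u ≠ 0) {β : ℂ}
    (hβ : T u = β • u) (v : H)
    (h : β • G (β • G v - μ • v) = μ • (β • G v - μ • v)) : β • G v = μ • v := by
  have hinj : ∀ y z : H, u ⊗ₜ[ℂ] y = u ⊗ₜ[ℂ] z → y = z := by
    intro y z hyz
    obtain ⟨ℓ, hℓ⟩ : ∃ ℓ : Dual ℂ P, ℓ u ≠ 0 := by
      by_contra hcon
      push Not at hcon
      exact hu ((Module.forall_dual_apply_eq_zero_iff ℂ u).1 hcon)
    have h2 := congrArg ((TensorProduct.lid ℂ H).toLinearMap ∘ₗ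
      TensorProduct.map ℓ LinearMap.id) hyz
    simp only [LinearMap.comp_apply, TensorProduct.map_tmul, LinearMap.id_apply,
      LinearEquiv.coe_coe, TensorProduct.lid_tmul] at h2
    exact smul_right_injective H hℓ h2
  have h1 : ∀ y : H, TensorProduct.map T G (u ⊗ₜ[ℂ] y) = u ⊗ₜ[ℂ] (β • G y) := by
    intro y
    rw [TensorProduct.map_tmul, hβ, TensorProduct.smul_tmul]
  have h2 := hss (u ⊗ₜ[ℂ] v) (by
    rw [h1, ← TensorProduct.tmul_smul, ← TensorProduct.tmul_sub, h1, h,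
      TensorProduct.tmul_smul])
  rw [h1, ← TensorProduct.tmul_smul] at h2
  exact hinj _ _ h2

end linear

theorem hasLevel_self {K : Type*} [Field K] {Q w : ℕ} {ρ : K} (h : IsWeilNumber Q w ρ) :
    HasLevel Q w w ρ := by
  obtain ⟨χ, h1, h2, -⟩ := h
  exact ⟨1, 0, ρ, one_pos, ⟨χ, h1, h2⟩, by rw [pow_one, pow_zero, one_mul], by simp⟩

theorem pureLevelLE_dim {Q d : ℕ} {H : ℕ → Type} [∀ m, AddCommGroup (H m)]
    [∀ m, Module ℂ (H m)] {G : ∀ m, H m →ₗ[ℂ] H m} (h : IsCompactCohomology Q d G) :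
    PureLevelLE Q d G := by
  intro m ρ hρ hw
  obtain ⟨ρ', h1, h2⟩ := h.integral m ρ hρ
  refine ⟨1, m - d, ρ', one_pos, h1, by rw [pow_one, h2], ?_⟩
  rcases le_total m d with h3 | h3
  · rw [Nat.sub_eq_zero_of_le h3]
    have h4 : (m : ℝ) ≤ d := by exact_mod_cast h3
    push_cast
    linarith
  · rw [Nat.cast_sub h3]
    have h4 : (d : ℝ) ≤ m := by exact_mod_cast h3
    push_cast
    linarith

section transfer

variable {I : Type} {f : I → ℤ[X]} {q s : ℕ} {δ δ₂ : ℝ}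

/-- The numbers of roots in the components which are not semisimple. -/
theorem ss_component (hB : BoundedAt f q s δ) (hq : 1 < q) {H : Type} [AddCommGroup H]
    [Module ℂ H] [FiniteDimensional ℂ H] (G : H →ₗ[ℂ] H) (m i n₀ : ℕ) (hn₀ : n₀ + m = 2 * i)
    (hweight : ∀ ρ : ℂ, Module.End.HasEigenvalue G ρ → ∃ w ≤ m, IsWeilNumber (q ^ s) w ρ)
    (L : List {z : ℂ // ∃ i, aeval z (f i) = 0}) (hL : L.length = n₀) (w : H) (hw : w ≠ 0)
    (hev : (L.map fun z : {z : ℂ // ∃ i, aeval z (f i) = 0} => (z : ℂ) ^ s).prod • G w =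
      ((q : ℂ) ^ s) ^ i • w) :
    ∃ (i₀ i' : ℕ) (ρ : ℂ) (zs : List {z : ℂ // ∃ i, aeval z (f i) = 0}),
      (L.map fun z : {z : ℂ // ∃ i, aeval z (f i) = 0} => (z : ℂ) ^ s).prod =
        ((q : ℂ) ^ s) ^ i₀ * (zs.map fun z : {z : ℂ // ∃ i, aeval z (f i) = 0} =>
          (z : ℂ) ^ s).prod ∧ i₀ + i' = i ∧ zs.length + m = 2 * i' ∧
      zs.Pairwise (fun y y' : {z : ℂ // ∃ i, aeval z (f i) = 0} =>
        (y : ℂ) ^ s * (y' : ℂ) ^ s ≠ (q : ℂ) ^ s) ∧
      Module.End.HasEigenvalue G ρ ∧ IsWeilNumber (q ^ s) m ρ ∧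
      ((zs.map fun z : {z : ℂ // ∃ i, aeval z (f i) = 0} => (z : ℂ) ^ s).prod * ρ) =
        ((q : ℂ) ^ s) ^ (i' : ℤ) ∧
      (zs.map fun z : {z : ℂ // ∃ i, aeval z (f i) = 0} => (z : ℂ) ^ s).prod • G w =
        ((q : ℂ) ^ s) ^ i' • w := by
  have hQ : ((q : ℂ) ^ s) ≠ 0 := pow_ne_zero _ (by
    have : q ≠ 0 := by omega
    exact_mod_cast this)
  set α := (L.map fun z : {z : ℂ // ∃ i, aeval z (f i) = 0} => (z : ℂ) ^ s).prod with hα
  have hα0 : α ≠ 0 := by
    intro h0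
    rw [h0, zero_smul] at hev
    exact hw ((smul_eq_zero.1 hev.symm).resolve_left (pow_ne_zero _ hQ))
  have hρe : G w = (((q : ℂ) ^ s) ^ i / α) • w := by
    have h3 := congrArg (fun z => α⁻¹ • z) hev
    simp only [smul_smul] at h3
    rw [inv_mul_cancel₀ hα0, one_smul] at h3
    rw [h3, div_eq_inv_mul]
  have hρ : Module.End.HasEigenvalue G (((q : ℂ) ^ s) ^ i / α) :=
    Module.End.hasEigenvalue_of_hasEigenvector ⟨Module.End.mem_eigenspace_iff.2 hρe, hw⟩
  obtain ⟨w', hw'm, hwρ⟩ := hweight _ hρ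
  obtain ⟨i₀, zs, h1, h2, h3⟩ := reduce_list
    (fun z : {z : ℂ // ∃ i, aeval z (f i) = 0} => (z : ℂ) ^ s) ((q : ℂ) ^ s) L.length L rfl
  set β := (zs.map fun z : {z : ℂ // ∃ i, aeval z (f i) = 0} => (z : ℂ) ^ s).prod with hβ
  have h2' : α = ((q : ℂ) ^ s) ^ i₀ * β := h2
  have hrel0 : β * (((q : ℂ) ^ s) ^ i / α) = ((q : ℂ) ^ s) ^ ((i : ℤ) - i₀) := by
    have hβ0 : β ≠ 0 := by
      rintro h0
      rw [h0, mul_zero] at h2'
      exact hα0 h2'
    rw [h2', zpow_sub₀ hQ, zpow_natCast, zpow_natCast]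
    field_simp
  have hrel : (β * (((q : ℂ) ^ s) ^ i / α)) ^ 1 = (((q : ℂ) ^ s) ^ ((i : ℤ) - i₀)) ^ 1 := by
    rw [hrel0]
  obtain ⟨h4, -⟩ := bound_field hB hwρ (hasLevel_self hwρ) _ 1 one_pos zs hrel h3
  have hw'' : w' = m := by omega
  subst hw''
  obtain ⟨i', hi'⟩ := Int.eq_ofNat_of_zero_le (show 0 ≤ (i : ℤ) - i₀ by omega)
  have hii : i₀ + i' = i := by omega
  refine ⟨i₀, i', ((q : ℂ) ^ s) ^ i / α, zs, h2', hii, by omega, h3, hρ, hwρ, ?_, ?_⟩
  · rw [← hi']
    exact hrel0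
  · rw [h2', ← hii, pow_add, mul_smul, mul_smul] at hev
    exact smul_right_injective H (pow_ne_zero _ hQ) hev

theorem span_eq_top {V : Type} [AddCommGroup V] [Module ℂ V] {Φ : V →ₗ[ℂ] V}
    (h : IsFrobOver f s Φ) : Submodule.span ℂ {v : V | ∃ x : {z : ℂ // ∃ i, aeval z (f i) = 0},
      Φ v = ((x : ℂ) ^ s) • v} = ⊤ := by
  rw [← h]
  congr 1
  ext v
  constructor
  · rintro ⟨⟨z, i, hz⟩, h1⟩
    exact ⟨i, z, hz, h1⟩
  · rintro ⟨i, z, hz, h1⟩
    exact ⟨⟨z, i, hz⟩, h1⟩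

theorem semisimpleTimes (hB : ∀ s : ℕ, 0 < s → BoundedAt f q s δ) (hδ0 : 0 < δ) (hq : 1 < q) :
    SemisimpleTimes δ q f := by
  intro V _ _ _ Φ W _ _ _ Ψ H _ _ _ G s n d e hs hΦ hΨ hG hlev he i hSS
  have hQ : ((q : ℂ) ^ s) ≠ 0 := pow_ne_zero _ (by
    have : q ≠ 0 := by omega
    exact_mod_cast this)
  rw [semisimpleAt_total]
  rintro ⟨n₀, hn₀⟩
  refine semisimpleAt_of_lists Φ
    (fun x : {z : ℂ // ∃ i, aeval z (f i) = 0} => (x : ℂ) ^ s) (span_eq_top hΦ) _ n₀ _ ?_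
  intro L hL v hv
  by_contra hne
  have hw : (L.map fun z : {z : ℂ // ∃ i, aeval z (f i) = 0} => (z : ℂ) ^ s).prod •
      G (2 * i - n₀) v - ((q : ℂ) ^ s) ^ i • v ≠ 0 := sub_ne_zero.2 hne
  obtain ⟨i₀, i', ρ, zs, h1, h2, h3, h4, h5, h6, h7, h8⟩ := ss_component (hB s hs) hq
    (G (2 * i - n₀)) (2 * i - n₀) i n₀ (by omega) (hG.weight _) L hL _ hw hv
  obtain ⟨-, h9⟩ := bound_field (hB s hs) h6 (hlev _ ρ h5 h6) (i' : ℤ) 1 one_pos zs (by rw [h7]) h4
  have h10 : zs.length ≤ n := by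
    by_contra hcon
    push Not at hcon
    have h11 : ((n : ℝ) + 1) ≤ zs.length := by exact_mod_cast hcon
    have h12 := mul_le_mul_of_nonneg_right h11 hδ0.le
    linarith
  obtain ⟨u, hu0, hu⟩ := exists_wedge Ψ
    (fun x : {z : ℂ // ∃ i, aeval z (f i) = 0} => (x : ℂ) ^ s) n (by
      rintro ⟨z, j, hz⟩
      exact hΨ j z hz) zs h10
  have h11 := (semisimpleAt_total Ψ G (2 * i') _).1 (hSS i' (by omega)) ⟨zs.length, by omega⟩
  have h12 : ∀ m, m = 2 * i' - zs.length → SemisimpleAt (M := (⋀[ℂ]^zs.length W) ⊗[ℂ] H m)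
      (TensorProduct.map (exteriorPower.map zs.length Ψ) (G m)) (((q : ℂ) ^ s) ^ i') := by
    rintro _ rfl
    exact h11
  have h13 := component_of_semisimpleAt _ _ _ (h12 (2 * i - n₀) (by omega)) hu0 hu v
  have hscale : ∀ y : H (2 * i - n₀),
      (L.map fun z : {z : ℂ // ∃ i, aeval z (f i) = 0} => (z : ℂ) ^ s).prod •
        G (2 * i - n₀) y - ((q : ℂ) ^ s) ^ i • y = ((q : ℂ) ^ s) ^ i₀ •
      ((zs.map fun z : {z : ℂ // ∃ i, aeval z (f i) = 0} => (z : ℂ) ^ s).prod •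
        G (2 * i - n₀) y - ((q : ℂ) ^ s) ^ i' • y) := by
    intro y
    have hQi : ((q : ℂ) ^ s) ^ i = ((q : ℂ) ^ s) ^ i₀ * ((q : ℂ) ^ s) ^ i' := by
      rw [← pow_add, h2]
    rw [h1, hQi, mul_smul, mul_smul, smul_sub]
  apply hw
  rw [hscale, h13, sub_self, smul_zero]
  have h14 := h8
  rw [hscale, map_smul, smul_comm, smul_comm (((q : ℂ) ^ s) ^ i')] at h14
  exact smul_right_injective _ (pow_ne_zero _ hQ) h14

theorem semisimpleTimesNarrow (hB : ∀ s : ℕ, 0 < s → BoundedAt f q s δ)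
    (hM : ∀ s : ℕ, 0 < s → MomentAt f q s δ₂) (hδ0 : 0 < δ) (hδ₂ : 0 < δ₂) (hq : 1 < q) :
    SemisimpleTimesNarrow δ δ₂ q f := by
  intro V _ _ _ Φ H _ _ _ G s d hs hΦ hG hN
  have hQ : ((q : ℂ) ^ s) ≠ 0 := pow_ne_zero _ (by
    have : q ≠ 0 := by omega
    exact_mod_cast this)
  constructor
  · intro h1 i
    have h2 := (semisimpleAt_total Φ G (2 * i) _).1 (h1 i) ⟨0, by omega⟩
    exact semisimpleAt_zero Φ (G (2 * i)) _ h2
  · intro hSS i
    rw [semisimpleAt_total]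
    rintro ⟨n₀, hn₀⟩
    refine semisimpleAt_of_lists Φ
      (fun x : {z : ℂ // ∃ i, aeval z (f i) = 0} => (x : ℂ) ^ s) (span_eq_top hΦ) _ n₀ _ ?_
    intro L hL v hv
    by_contra hne
    have hw : (L.map fun z : {z : ℂ // ∃ i, aeval z (f i) = 0} => (z : ℂ) ^ s).prod •
        G (2 * i - n₀) v - ((q : ℂ) ^ s) ^ i • v ≠ 0 := sub_ne_zero.2 hne
    obtain ⟨i₀, i', ρ, zs, h1, h2, h3, h4, h5, h6, h7, h8⟩ := ss_component (hB s hs) hq
      (G (2 * i - n₀)) (2 * i - n₀) i n₀ (by omega) (hG.weight _) L hL _ hw hv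
    have hscale : ∀ y : H (2 * i - n₀),
        (L.map fun z : {z : ℂ // ∃ i, aeval z (f i) = 0} => (z : ℂ) ^ s).prod •
          G (2 * i - n₀) y - ((q : ℂ) ^ s) ^ i • y = ((q : ℂ) ^ s) ^ i₀ •
        ((zs.map fun z : {z : ℂ // ∃ i, aeval z (f i) = 0} => (z : ℂ) ^ s).prod •
          G (2 * i - n₀) y - ((q : ℂ) ^ s) ^ i' • y) := by
      intro y
      have hQi : ((q : ℂ) ^ s) ^ i = ((q : ℂ) ^ s) ^ i₀ * ((q : ℂ) ^ s) ^ i' := by
        rw [← pow_add, h2]
      rw [h1, hQi, mul_smul, mul_smul, smul_sub]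
    set β := (zs.map fun z : {z : ℂ // ∃ i, aeval z (f i) = 0} => (z : ℂ) ^ s).prod with hβ
    have hβρ : β * ρ = ((q : ℂ) ^ s) ^ i' := by
      rw [h7, zpow_natCast]
    have hβ0 : β ≠ 0 := by
      intro h0
      rw [h0, zero_mul] at hβρ
      exact pow_ne_zero _ hQ hβρ.symm
    -- the eigenvalue is semisimple
    have hkey : SemisimpleAt (G (2 * i - n₀)) ρ := by
      rcases hN _ ρ h5 h6 with h9 | h9
      · exact h9
      · have hlt : ∀ (η x : ℝ), 0 < η → x < (if (2 * i - n₀) % 2 = 0 then 2 else 1) * η →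
            (zs.length : ℝ) * η ≤ x → zs.length = 0 := by
          intro η x hη hx hle
          by_contra hcon
          split_ifs at hx with hpar
          · have h10 : (2 : ℝ) ≤ zs.length := by
              have : 2 ≤ zs.length := by omega
              exact_mod_cast this
            have h11 := mul_le_mul_of_nonneg_right h10 hη.le
            linarith
          · have h10 : (1 : ℝ) ≤ zs.length := by
              have : 1 ≤ zs.length := by omega
              exact_mod_cast this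
            have h11 := mul_le_mul_of_nonneg_right h10 hη.le
            linarith
        have h10 : zs.length = 0 := by
          rcases h9 with ⟨e, he, hlev⟩ | ⟨M, hM', hmom⟩
          · obtain ⟨-, h9⟩ := bound_field (hB s hs) h6 hlev (i' : ℤ) 1 one_pos zs (by rw [h7]) h4
            exact hlt δ e hδ0 he h9
          · exact hlt δ₂ M hδ₂ hM' (moment_field (hM s hs) h6 hmom (i' : ℤ) 1 one_pos zs
              (by rw [h7]) h4)
        have h11 : β = 1 := by
          rw [hβ, List.length_eq_zero_iff.1 h10]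
          simp
        rw [h11, one_mul] at hβρ
        rw [hβρ]
        have h12 : ∀ m, m = 2 * i' → SemisimpleAt (G m) (((q : ℂ) ^ s) ^ i') := by
          rintro _ rfl
          exact hSS i'
        exact h12 _ (by omega)
    have h14 : β • G (2 * i - n₀) (β • G (2 * i - n₀) v - ((q : ℂ) ^ s) ^ i' • v) =
        ((q : ℂ) ^ s) ^ i' • (β • G (2 * i - n₀) v - ((q : ℂ) ^ s) ^ i' • v) := by
      have h14 := h8
      rw [hscale, map_smul, smul_comm, smul_comm (((q : ℂ) ^ s) ^ i')] at h14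
      exact smul_right_injective _ (pow_ne_zero _ hQ) h14
    rw [← hβρ] at h14
    have h15 : β • G (2 * i - n₀) v - (β * ρ) • v = β • (G (2 * i - n₀) v - ρ • v) := by
      rw [smul_sub, smul_smul]
    rw [h15, map_smul, smul_smul, smul_smul, mul_right_comm, mul_smul (β * β)] at h14
    have h16 := hkey v (smul_right_injective _ (mul_ne_zero hβ0 hβ0) h14)
    apply hw
    rw [hscale, ← hβρ, h15, h16, sub_self, smul_zero, smul_zero]

end transfer

end Pool.Agent.Q219.UZ
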