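import Mathlib
import Pool.Agent.Q219.UZ.Form
import Pool.Agent.Q219.UZ.Narrow

/-!
# The Tate conjecture for products with arbitrary varieties: proofs
-/

set_option autoImplicit false
set_option linter.unusedSectionVars false

open CategoryTheory AlgebraicGeometry

universe u v w

namespace Pool.Agent.Q219.UZ

open Module Polynomial Pool.Agent.H914 Pool.Agent.H914.VarClass Pool.Agent.H914.VarClass.Obj
  Pool.Agent.W492.BB Pool.Agent.W550.Corr Pool.Agent.W484.TB Pool.Agent.W484.CH
  Pool.Agent.W484.HS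

variable {k : Type u} [Field k] {𝒱 : VarClass k} {C : TheoryData.{u, v, 0} 𝒱 ℚ} {K : Type w}
  [Field K] [CharZero K] {H : WeilTheoryData.{u, v, w} C K} [hC : IsChow C] [hH : IsWeil H]
  {A B Z X : 𝒱.Obj} {I : Type} {f : I → ℤ[X]} {q s : ℕ} {δ δ₂ : ℝ}

omit hC in
theorem cycSpan_pull [hC : IsChow C] (f : A ⟶ B) {c : ℕ} {w : H.A B} (hw : w ∈ cycSpan H B c) :
    H.pull f w ∈ cycSpan H A c := by
  unfold cycSpan at hw
  induction hw using Submodule.span_induction with
  | mem x hx =>
    obtain ⟨y, hy, rfl⟩ := hx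
    rw [← H.cl_pull]
    exact mem_cycSpan (C.pull_mem f hy)
  | zero => rw [map_zero]; exact Submodule.zero_mem _
  | add a b _ _ ha hb => rw [map_add]; exact Submodule.add_mem _ ha hb
  | smul c a _ ha => rw [map_smul]; exact Submodule.smul_mem _ _ ha

theorem cycSpan_mul {c d : ℕ} {D : C.A B} (hD : C.Deg d D) {w : H.A B} (hw : w ∈ cycSpan H B c) :
    H.cl D * w ∈ cycSpan H B (d + c) := by
  unfold cycSpan at hw
  induction hw using Submodule.span_induction with
  | mem x hx =>
    obtain ⟨y, hy, rfl⟩ := hx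
    rw [← map_mul]
    refine mem_cycSpan ?_
    have h1 := C.mul_mem hD hy
    rwa [show ((d : ℤ) + c) = ((d + c : ℕ) : ℤ) by push_cast; ring] at h1
  | zero => rw [mul_zero]; exact Submodule.zero_mem _
  | add a b _ _ ha hb => rw [mul_add]; exact Submodule.add_mem _ ha hb
  | smul c a _ ha => rw [mul_smul_comm]; exact Submodule.smul_mem _ _ ha

theorem pow_mem_gr {D : C.A B} (hD : C.Deg 1 D) (n : ℕ) : D ^ n ∈ C.gr B n := by
  induction n with
  | zero => simpa using C.one_mem B
  | succ n ih =>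
    rw [pow_succ]
    have h1 := C.mul_mem ih hD
    exact_mod_cast h1

/-- `TateIn` and `GenTate`. -/
theorem genTate_iff {π : Z ⟶ Z} {Q c : ℕ} : GenTate H π Q 1 1 c ↔ TateIn H π Q c := by
  have h1 : ∀ w, op (frob H π ^ 1) (((Q : K) ^ c) ^ 1) 1 w = 0 ↔
      H.up π w = (Q : K) ^ c • w := by
    intro w
    rw [op, pow_one, pow_one, pow_one, LinearMap.sub_apply, LinearMap.smul_apply,
      Module.End.one_apply, sub_eq_zero]
    rfl
  constructor
  · intro h w hw hev
    exact h w hw ((h1 w).2 hev)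
  · intro h w hw hev
    exact h w hw ((h1 w).1 hev)

section narrow

variable [IsAlgClosed K] (hS : IsStandard H) (hB : BoundedAt f q s δ) (hM : MomentAt f q s δ₂)
  (hδ0 : 0 < δ) (hδ₂ : 0 < δ₂) (hq : 1 < q) (hs : 0 < s) {πA : A ⟶ A} {πX : X ⟶ X} {πZ : Z ⟶ Z}
  (hroots : HasRoots H πX s f) (hX : IsAbelianFor H πX q s f)
  (hA : IsAbelianFor H πA q s f) (hZ : HasFrobDegree C πZ (q ^ s)) (hpure : IsPure H πZ (q ^ s))

include hS hB hM hδ0 hδ₂ hq hs hroots hX hA hZ hpure

/-- **The Tate conjecture for `A × Z`, for `Z` with narrow cohomology.** -/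
theorem tateIn_narrow (hAX : IsAbelianFor H (prodMap πA πX) q s f)
    (hhom : HasTateHoms H πX πZ (q ^ s)) (hLef : HasLefschetzOne H πZ (q ^ s))
    (hN : ∀ w : ℕ, 0 < w → w < 2 * Z.dim → NarrowAt H πZ (q ^ s) w (width Z.dim w) δ δ₂) (c : ℕ)
    (hT : ∀ c' : ℕ, c' ≤ c → TateIn H πZ (q ^ s) c') :
    TateIn H (prodMap πA πZ) (q ^ s) c := by
  intro w hw hev
  have hop : op (frob H (prodMap πA πZ) ^ 1) ((((q ^ s : ℕ) : K) ^ c) ^ 1) 1 w = 0 := by
    rw [op, pow_one, pow_one, pow_one, LinearMap.sub_apply, LinearMap.smul_apply,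
      Module.End.one_apply, sub_eq_zero]
    exact hev
  change w ∈ cycSpan H (A.prod Z) c
  obtain ⟨n, b, L, -, -, hb⟩ := exists_list_eigenbasis hS hA
  set ys := fun t => (L t).map Prod.snd with hys
  obtain ⟨h, rfl, hh⟩ := kunneth_deg b (fun t => ((ys t).length : ℤ)) (fun t => (hb t).1) hw
  rw [op_sum_ext _ _ _ (fun t => rootProd s (ys t) ^ 1 • frob H πZ ^ 1)
    (fun t h => frob_pow_ext (hb t).2 1 h)] at hop
  have h3 := kunneth_unique hS b _ hop
  refine Submodule.sum_mem _ fun t _ => ?_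
  by_cases h0 : h t = 0
  · rw [h0]
    rw [TheoryData.ext, map_zero, mul_zero]
    exact Submodule.zero_mem _
  have hQ0 : q ^ s ≠ 0 := pow_ne_zero _ (by omega)
  have hQK : ((q ^ s : ℕ) : K) ≠ 0 := by exact_mod_cast hQ0
  obtain ⟨w, i, c', zs, hhw, hw2, hcw, hic, hprod, hlen, hlow, hup, hnar⟩ :=
    component_gen hS hB hM hδ0 hδ₂ hq hZ hpure 1 one_pos (ys t) c 1 (h t) (hh t) h0 (h3 t)
  -- at most one root
  have hcases : zs.length = 0 ∨ (zs.length = 1 ∧ w = 1) ∨ (zs.length = 1 ∧ w + 1 = 2 * Z.dim) := by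
    rcases Nat.eq_zero_or_pos w with hw0 | hw0
    · left
      subst hw0
      by_contra hcon
      have h4 : (0 : ℝ) < zs.length := by exact_mod_cast Nat.pos_of_ne_zero hcon
      have h5 := mul_pos h4 hδ0
      push_cast at hlow
      linarith
    · rcases hw2.lt_or_eq with h4 | h4
      · have h5 := hnar _ (hN w hw0 h4)
        unfold width at h5
        split_ifs at h5 with h6 h7
        · left; omega
        · right
          rcases h7 with h7 | h7
          · left; omega
          · right; omega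
        · left; omega
      · left
        by_contra hcon
        have h5 : (0 : ℝ) < zs.length := by exact_mod_cast Nat.pos_of_ne_zero hcon
        have h6 := mul_pos h5 hδ0
        have h7 : (w : ℝ) = 2 * Z.dim := by exact_mod_cast h4
        linarith
  obtain ⟨u, hu0, hud, hμ⟩ : ∃ u : H.A X, u ≠ 0 ∧ u ∈ H.gr X zs.length ∧
      H.pull πX u = rootProd s zs • u := exists_vec hS hroots 0 zs (by omega)
  have hμ0 := eigen_ne_zero hQ0 hX.degree hu0 hμ
  -- the class `u × h t` is a Tate class
  have hop' : rootProd s zs • H.pull πZ (h t) = ((q ^ s : ℕ) : K) ^ c' • h t := by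
    have h4 := h3 t
    rw [hprod, ← hic, pow_add, op_smul_smul] at h4
    have h5 := (smul_eq_zero.1 h4).resolve_left (pow_ne_zero _ (pow_ne_zero _ (pow_ne_zero _ hQK)))
    rw [op, pow_one, pow_one, pow_one, pow_one, LinearMap.sub_apply, LinearMap.smul_apply,
      LinearMap.smul_apply, Module.End.one_apply, sub_eq_zero] at h5
    exact h5
  have hT' : H.ext u (h t) ∈ cycSpan H (X.prod Z) c' := by
    rcases hcases with h4 | ⟨h4, h5⟩ | ⟨h4, h5⟩
    · -- a class on `Z`
      rw [h4] at hud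
      obtain ⟨a, rfl⟩ := hS.coh_zero X u hud
      have h6 : zs = [] := List.length_eq_zero_iff.1 h4
      rw [h6, rootProd, List.map_nil, List.prod_nil, one_smul] at hop'
      have h7 : h t ∈ cycSpan H Z c' := hT c' (by omega) (h t) (by
        rw [show (2 * (c' : ℤ)) = w by omega]
        exact hhw) hop'
      rw [TheoryData.ext, map_smul, map_one, smul_mul_assoc, one_mul]
      exact Submodule.smul_mem _ _ (cycSpan_pull _ h7)
    · -- divisors
      have h6 : c' = 1 := by omega
      subst h6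
      refine hhom _ (Submodule.subset_span ⟨u, h t, ?_, ?_, rfl⟩) ?_
      · rw [h4] at hud
        exact_mod_cast hud
      · rw [h5] at hhw
        exact_mod_cast hhw
      · change H.pull (prodMap πX πZ) (H.ext u (h t)) = ((q ^ s : ℕ) : K) • H.ext u (h t)
        have h7 : H.pull (prodMap πX πZ) (H.ext u (h t)) =
            H.ext u (rootProd s zs • H.pull πZ (h t)) := by
          rw [pull_prodMap_ext, hμ, ext_smul_left, ext_smul_right]
        rw [h7, hop', ext_smul_right, pow_one]
    · -- curves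
      obtain ⟨D, hD, hDF, hinj, hsurj⟩ := hLef
      have hDF' : H.pull πZ (H.cl D) = ((q ^ s : ℕ) : K) • H.cl D := by
        have h6 := congrArg (fun x => H.cl x) hDF
        have h7 : H.cl (C.up πZ D) = H.pull πZ (H.cl D) := H.cl_pull πZ D
        rw [← h7]
        refine h6.trans ?_
        rw [cl_smul]
        push_cast
        rfl
      obtain ⟨a, ha, hab⟩ := hsurj (h t) (by
        change h t ∈ H.gr Z _
        rw [show (2 * (Z.dim : ℤ) - 1) = w by omega]
        exact hhw)
      have hab' : h t = H.cl D ^ (Z.dim - 1) * a := hab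
      have hev : rootProd s zs • H.pull πZ a = ((q ^ s : ℕ) : K) • a := by
        rw [← sub_eq_zero]
        have h6 : H.gr Z 1 = H.gr Z ((1 : ℕ) : ℤ) := by norm_num
        refine hinj _ ?_ ?_
        · exact Submodule.sub_mem _ (Submodule.smul_mem _ _ (H.pull_mem πZ ha))
            (Submodule.smul_mem _ _ ha)
        · have h7 : H.pull πZ (h t) = ((q ^ s : ℕ) : K) ^ (Z.dim - 1) •
              (H.cl D ^ (Z.dim - 1) * H.pull πZ a) := by
            rw [hab', map_mul, map_pow, hDF', _root_.smul_pow, smul_mul_assoc]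
          have h8 := hop'
          rw [h7, hab', show c' = (Z.dim - 1) + 1 by omega, pow_succ, mul_smul, smul_comm] at h8
          have h9 := smul_right_injective (H.A Z) (pow_ne_zero (Z.dim - 1) hQK) h8
          change H.cl D ^ (Z.dim - 1) * _ = 0
          rw [mul_sub, mul_smul_comm, mul_smul_comm, h9, sub_self]
      have h6 : H.ext u a ∈ cycSpan H (X.prod Z) 1 := by
        refine hhom _ (Submodule.subset_span ⟨u, a, ?_, ha, rfl⟩) ?_
        · rw [h4] at hud
          exact_mod_cast hud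
        · change H.pull (prodMap πX πZ) (H.ext u a) = ((q ^ s : ℕ) : K) • H.ext u a
          have h7 : H.pull (prodMap πX πZ) (H.ext u a) =
              H.ext u (rootProd s zs • H.pull πZ a) := by
            rw [pull_prodMap_ext, hμ, ext_smul_left, ext_smul_right]
          rw [h7, hev, ext_smul_right]
      have h7 : H.ext u (h t) = H.cl (C.pull (snd X Z) (D ^ (Z.dim - 1))) * H.ext u a := by
        rw [TheoryData.ext, TheoryData.ext, hab', ← map_pow, map_mul (H.pull (snd X Z)),
          ← H.cl_pull, ← mul_assoc, ← H.cl_central, mul_assoc]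
      rw [h7]
      have h8 := cycSpan_mul (C.pull_mem (snd X Z) (pow_mem_gr hD (Z.dim - 1))) h6
      rwa [show Z.dim - 1 + 1 = c' by omega] at h8
  -- the dual eigenvector
  obtain ⟨nX, bX, LX, -, -, hbX⟩ := exists_list_eigenbasis hS hX
  obtain ⟨u', htr, hu'⟩ := exists_dual_vec hS hQ0 hX.degree bX
    (fun t => rootProd s ((LX t).map Prod.snd)) (fun t => (hbX t).2) hu0 hμ
  have hu'0 : u' ≠ 0 := by
    rintro rfl
    rw [zero_mul, map_zero] at htr
    exact zero_ne_one htr
  have hP : H.pull (prodMap πA πX) (H.ext (b t) u') =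
      ((q ^ s : ℕ) : K) ^ ((i + X.dim : ℕ) : ℤ) • H.ext (b t) u' := by
    have hbt : H.pull πA (b t) = rootProd s (ys t) • b t := (hb t).2
    rw [pull_prodMap_ext, hbt, hu', ext_smul_left, ext_smul_right, ext_smul_right, smul_smul,
      hprod, zpow_natCast, pow_add]
    congr 1
    field_simp
  obtain ⟨l, hl, hPl⟩ := eigen_mem_NK hS hB hδ0 hq hs hAX (ext_ne_zero hS (b.ne_zero t) hu'0) hP
  have hl' : l = i + X.dim := by exact_mod_cast hl.symm
  subst hl'
  have hmem := corr_cycSpan (l := c) (by omega) (NK_le_cycSpan _ _ hPl) hT'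
  obtain ⟨τ, hτ, hpush⟩ := exists_push_scalar hS X Z
  rw [corr_ext, hpush, htr, mul_one, smul_mul_assoc, one_mul, ext_smul_right] at hmem
  have h6 := Submodule.smul_mem _ τ⁻¹ hmem
  rwa [smul_smul, inv_mul_cancel₀ hτ, one_smul] at h6

end narrow

/-- The Tate conjecture in codimension zero. -/
theorem tateIn_zero (hS : IsStandard H) (Z : 𝒱.Obj) (π : Z ⟶ Z) (Q : ℕ) : TateIn H π Q 0 := by
  intro w hw _
  obtain ⟨a, rfl⟩ := hS.coh_zero Z w (by simpa using hw)
  refine Submodule.smul_mem _ _ (Submodule.subset_span ⟨1, ?_, ?_⟩)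
  · exact C.one_mem Z
  · rw [map_one]

/-- The Tate conjecture for cycles of dimension zero. -/
theorem tateIn_top (hS : IsStandard H) (Z : 𝒱.Obj) (π : Z ⟶ Z) (Q : ℕ) {c : ℕ} (hc : Z.dim ≤ c) :
    TateIn H π Q c := by
  intro w hw _
  rcases hc.lt_or_eq with h1 | h1
  · have h2 : w ∈ H.gr Z (2 * c) := hw
    rw [hS.coh_top Z _ (by
      have : (Z.dim : ℤ) < c := by exact_mod_cast h1
      linarith), Submodule.mem_bot] at h2
    rw [h2]
    exact Submodule.zero_mem _
  · subst h1
    obtain ⟨a, ha, ha0⟩ := exists_point hS Z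
    have h2 : w = (H.tr Z w / H.tr Z (H.cl a)) • H.cl a := by
      rw [← sub_eq_zero]
      apply H.nondeg
      intro y
      refine homog_induction H.toTheoryData (p := fun y => H.tr Z ((w -
        (H.tr Z w / H.tr Z (H.cl a)) • H.cl a) * y) = 0) ?_ ?_ y
      · intro i x hx
        by_cases hi : i = 0
        · subst hi
          obtain ⟨b, rfl⟩ := hS.coh_zero Z x hx
          rw [mul_smul_comm, mul_one, map_smul, map_sub, map_smul, smul_eq_mul, smul_eq_mul,
            div_mul_cancel₀ _ ha0, sub_self, mul_zero]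
        · refine tr_eq_zero hS ?_ (H.mul_mem (Submodule.sub_mem _ hw (Submodule.smul_mem _ _
            (H.cl_mem ha))) hx)
          intro h4
          apply hi
          linarith
      · intro a b ha hb
        rw [mul_add, map_add, ha, hb, add_zero]
    rw [h2]
    exact Submodule.smul_mem _ _ (Submodule.subset_span ⟨a, ha, rfl⟩)

section final

variable [IsAlgClosed K] {K₀ : Subfield K} {V : ∀ Z : 𝒱.Obj, Set (H.A Z)}
  (hV : IsForm H K₀ V) (hB : ∀ s : ℕ, 0 < s → BoundedAt f q s δ)
  (hM : ∀ s : ℕ, 0 < s → MomentAt f q s δ₂) (hδ0 : 0 < δ) (hδ1 : δ ≤ 1) (hδ₂ : 0 < δ₂)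
  (hq : 1 < q)

include hV hB hδ0 hδ1 hq in
theorem tateTimes : TateTimes H K₀ V δ q f := by
  intro s N e X A Z πX πA πZ he hlev h c hT
  refine (tateOver_iff hV).2 (genTate_iff.1 ?_)
  refine genTate_transfer h.standard (hB s h.pos) hδ0 hδ1 hq h.pos he h.roots h.power h.abelian
    h.degree h.pure hlev h.mixed 1 one_pos 1 c fun c' h1 h2 => ?_
  exact genTate_iff.2 ((tateOver_iff hV).1 (hT c' h1 h2))

include hV hB hM hδ0 hδ₂ hq in
theorem tateTimesNarrow : TateTimesNarrow H K₀ V δ δ₂ q f := by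
  intro s X A Z πX πA πZ h hN c hT
  refine (tateOver_iff hV).2 ?_
  exact tateIn_narrow h.standard (hB s h.pos) (hM s h.pos) hδ0 hδ₂ hq h.pos h.roots h.factors
    h.abelian h.degree h.pure h.mixed h.homs h.lefschetz hN c
    fun c' hc' => (tateOver_iff hV).1 (hT c' hc')

include hV hB hM hδ₂ hq in
theorem tateTimesSmall (hδ : 1 < 3 * δ) : TateTimesSmall H K₀ V δ δ₂ q f := by
  intro s X A Z πX πA πZ h hdim c
  have hδ0 : 0 < δ := by linarith
  have hQ0 : q ^ s ≠ 0 := pow_ne_zero _ (by omega)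
  refine (tateOver_iff hV).2 ?_
  refine tateIn_narrow h.standard (hB s h.pos) (hM s h.pos) hδ0 hδ₂ hq h.pos h.roots h.factors
    h.abelian h.degree h.pure h.mixed h.homs h.lefschetz ?_ c ?_
  · intro w hw0 hw4
    have hlow : ∀ w, w = 1 → NarrowAt H πZ (q ^ s) w 3 δ δ₂ := by
      rintro w rfl ρ v hv hv0 hρ
      obtain ⟨-, -, h1, -⟩ := levels h.standard hQ0 h.degree h.pure hv hv0 hρ
      refine Or.inl ⟨_, ?_, h1⟩
      push_cast
      linarith
    rcases hdim with hd | ⟨hd, hN, -⟩
    · rw [hd] at hw4 ⊢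
      have h1 : w = 1 := by omega
      have h2 := hlow w h1
      subst h1
      exact h2
    · rw [hd] at hw4
      have hcase : w = 1 ∨ w = 2 ∨ w = 3 := by omega
      rcases hcase with rfl | rfl | rfl
      · rw [hd]
        exact hlow 1 rfl
      · rw [hd]
        exact hN
      · intro ρ v hv hv0 hρ
        obtain ⟨-, -, -, h1⟩ := levels h.standard hQ0 h.degree h.pure hv hv0 hρ
        refine Or.inl ⟨_, ?_, h1⟩
        rw [hd]
        norm_num [width]
        linarith
  · intro c' _
    rcases hdim with hd | ⟨hd, -, hT⟩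
    · rcases Nat.lt_or_ge c' 1 with h1 | h1
      · have h2 : c' = 0 := by omega
        subst h2
        exact tateIn_zero h.standard _ _ _
      · exact tateIn_top h.standard _ _ _ (by omega)
    · rcases Nat.lt_or_ge c' 2 with h1 | h1
      · have h2 : c' = 0 ∨ c' = 1 := by omega
        rcases h2 with rfl | rfl
        · exact tateIn_zero h.standard _ _ _
        · exact (tateOver_iff hV).1 hT
      · exact tateIn_top h.standard _ _ _ (by omega)

end final

theorem tateTheorem (hB : ∀ s : ℕ, 0 < s → BoundedAt f q s δ)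
    (hM : ∀ s : ℕ, 0 < s → MomentAt f q s δ₂) (hδ0 : 0 < δ) (hδ1 : δ ≤ 1) (hδ₂ : 0 < δ₂)
    (hq : 1 < q) : TateTheorem δ δ₂ q f := by
  intro k _ 𝒱 C _ K _ _ _ H _ K₀ V hV
  exact ⟨tateTimes hV hB hδ0 hδ1 hq, tateTimesNarrow hV hB hM hδ0 hδ₂ hq,
    fun h => tateTimesSmall hV hB hM hδ₂ hq h⟩

end Pool.Agent.Q219.UZ
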